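import Mathlib

set_option autoImplicit false

namespace Pool.Agent.H88R3

variable {V W L : Type}

/-- partial isomorphism of labelled graphs -/
def PL (X : SimpleGraph V) (f : V → L) (Y : SimpleGraph W) (g : W → L) (l : List (V × W)) :
    Prop :=
  ∀ p ∈ l, f p.1 = g p.2 ∧
    ∀ q ∈ l, (p.1 = q.1 ↔ p.2 = q.2) ∧ (X.Adj p.1 q.1 ↔ Y.Adj p.2 q.2)

/-- the game on labelled graphs -/
def RE (X : SimpleGraph V) (f : V → L) (Y : SimpleGraph W) (g : W → L) :
    ℕ → List (V × W) → Prop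
  | 0, l => PL X f Y g l
  | n + 1, l => PL X f Y g l ∧ (∀ v, ∃ w, RE X f Y g n ((v, w) :: l)) ∧
      (∀ w, ∃ v, RE X f Y g n ((v, w) :: l))

theorem RE.pl {X : SimpleGraph V} {f : V → L} {Y : SimpleGraph W} {g : W → L} {n : ℕ}
    {l : List (V × W)} (h : RE X f Y g n l) : PL X f Y g l := by
  cases n with
  | zero => exact h
  | succ n => exact h.1

theorem RE.mono1 {X : SimpleGraph V} {f : V → L} {Y : SimpleGraph W} {g : W → L} {n : ℕ} :
    ∀ {l : List (V × W)}, RE X f Y g (n + 1) l → RE X f Y g n l := by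
  induction n with
  | zero => intro l h; exact h.1
  | succ n ih =>
    intro l h
    refine ⟨h.1, fun v => ?_, fun w => ?_⟩
    · obtain ⟨w, hw⟩ := h.2.1 v
      exact ⟨w, ih hw⟩
    · obtain ⟨v, hv⟩ := h.2.2 w
      exact ⟨v, ih hv⟩

theorem RE.mono {X : SimpleGraph V} {f : V → L} {Y : SimpleGraph W} {g : W → L} {n m : ℕ}
    {l : List (V × W)} (hnm : m ≤ n) (h : RE X f Y g n l) : RE X f Y g m l := by
  induction n with
  | zero =>
    have : m = 0 := by omega
    subst this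
    exact h
  | succ n ih =>
    rcases Nat.lt_or_ge m (n + 1) with h1 | h1
    · exact ih (by omega) h.mono1
    · have : m = n + 1 := by omega
      subst this
      exact h

/-- walks along a word of labels -/
def Wk (X : SimpleGraph V) (f : V → L) : V → List L → V → Prop
  | x, [], y => x = y
  | x, a :: w, y => ∃ z, X.Adj x z ∧ f z = a ∧ Wk X f z w y

/-- the ends of two walks coincide -/
def Cn (X : SimpleGraph V) (f : V → L) (x : V) (w w' : List L) (y : V) : Prop :=
  ∃ z, Wk X f x w z ∧ Wk X f y w' z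

/-- at most one neighbour with each label -/
def Dt (X : SimpleGraph V) (f : V → L) : Prop :=
  ∀ x y z, X.Adj x y → X.Adj x z → f y = f z → y = z

section
variable {X : SimpleGraph V} {f : V → L}

theorem Wk_append {x y : V} {u w : List L} :
    Wk X f x (u ++ w) y ↔ ∃ z, Wk X f x u z ∧ Wk X f z w y := by
  induction u generalizing x with
  | nil => simp [Wk]
  | cons a u ih =>
    simp only [List.cons_append, Wk, ih]
    constructor
    · rintro ⟨z, h1, h2, m, h3, h4⟩
      exact ⟨m, ⟨z, h1, h2, h3⟩, h4⟩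
    · rintro ⟨m, ⟨z, h1, h2, h3⟩, h4⟩
      exact ⟨z, h1, h2, m, h3, h4⟩

theorem Wk_det (hd : Dt X f) {x y z : V} {w : List L} (h1 : Wk X f x w y)
    (h2 : Wk X f x w z) : y = z := by
  induction w generalizing x with
  | nil => exact h1.symm.trans h2
  | cons a w ih =>
    obtain ⟨m, a1, a2, a3⟩ := h1
    obtain ⟨m', b1, b2, b3⟩ := h2
    have : m = m' := hd x m m' a1 b1 (a2.trans b2.symm)
    subst this
    exact ih a3 b3

theorem Wk_back (hd : Dt X f) {x x' z : V} {w : List L} (h1 : Wk X f x w z)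
    (h2 : Wk X f x' w z) (hl : f x = f x') : x = x' := by
  induction w generalizing x x' with
  | nil => exact h1.trans h2.symm
  | cons a w ih =>
    obtain ⟨m, a1, a2, a3⟩ := h1
    obtain ⟨m', b1, b2, b3⟩ := h2
    have : m = m' := ih a3 b3 (a2.trans b2.symm)
    subst this
    exact hd m x x' a1.symm b1.symm hl

theorem Wk_rev {x z : V} {w : List L} (h : Wk X f x w z) :
    ∃ u : List L, u.length = w.length ∧ Wk X f z u x := by
  induction w generalizing x with
  | nil => exact ⟨[], rfl, h.symm⟩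
  | cons a w ih =>
    obtain ⟨m, a1, a2, a3⟩ := h
    obtain ⟨u, hu, hw⟩ := ih a3
    refine ⟨u ++ [f x], by simp [hu], ?_⟩
    rw [Wk_append]
    exact ⟨m, hw, x, a1.symm, rfl, rfl⟩

theorem Wk_lab {x y : V} {u : List L} {a : L} (h : Wk X f x (u ++ [a]) y) : f y = a := by
  rw [Wk_append] at h
  obtain ⟨z, _, m, _, h1, h2⟩ := h
  rw [← h1]
  exact congrArg f h2.symm

theorem Cn_comm {x y : V} {w w' : List L} : Cn X f x w w' y ↔ Cn X f y w' w x := by
  unfold Cn
  constructor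
  · rintro ⟨z, h1, h2⟩
    exact ⟨z, h2, h1⟩
  · rintro ⟨z, h1, h2⟩
    exact ⟨z, h2, h1⟩

theorem Cn_shift (hd : Dt X f) {q a r : V} {u w w' : List L} (h : Wk X f q u a) :
    Cn X f a w w' r ↔ Cn X f q (u ++ w) w' r := by
  unfold Cn
  constructor
  · rintro ⟨z, h1, h2⟩
    exact ⟨z, Wk_append.2 ⟨a, h, h1⟩, h2⟩
  · rintro ⟨z, h1, h2⟩
    obtain ⟨m, h3, h4⟩ := Wk_append.1 h1
    have := Wk_det hd h h3
    subst this
    exact ⟨z, h4, h2⟩

theorem Cn_end {q : V} {u : List L} : Cn X f q u u q ↔ ∃ a, Wk X f q u a := by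
  unfold Cn
  constructor
  · rintro ⟨z, h1, h2⟩
    exact ⟨z, h1⟩
  · rintro ⟨z, h1⟩
    exact ⟨z, h1, h1⟩

/-- balls are small -/
theorem ball_card {d : ℕ} (hdeg : ∀ y : V, ∃ N : Finset V, N.card ≤ d ∧ ∀ z, X.Adj y z → z ∈ N)
    (k : ℕ) : ∀ y : V, ∃ F : Finset V, F.card ≤ (d + 1) ^ k ∧
      ∀ (u : List L) (z : V), u.length ≤ k → Wk X f y u z → z ∈ F := by
  classical
  induction k with
  | zero =>
    intro y
    refine ⟨{y}, by simp, ?_⟩
    intro u z hu hw
    have : u = [] := List.length_eq_zero_iff.1 (by omega)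
    subst this
    simpa using hw.symm
  | succ k ih =>
    intro y
    choose F hF hF' using ih
    obtain ⟨N, hN, hN'⟩ := hdeg y
    refine ⟨insert y (N.biUnion F), ?_, ?_⟩
    · refine (Finset.card_insert_le _ _).trans ?_
      have h1 : (N.biUnion F).card ≤ N.card * (d + 1) ^ k :=
        Finset.card_biUnion_le_card_mul _ _ _ fun z _ => hF z
      have h2 : N.card * (d + 1) ^ k ≤ d * (d + 1) ^ k := Nat.mul_le_mul_right _ hN
      have h3 : 1 ≤ (d + 1) ^ k := Nat.one_le_pow _ _ (by omega)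
      rw [pow_succ]
      nlinarith
    · intro u z hu hw
      cases u with
      | nil => simp [show y = z from hw]
      | cons a u =>
        obtain ⟨m, h1, h2, h3⟩ := hw
        simp only [List.length_cons] at hu
        refine Finset.mem_insert_of_mem (Finset.mem_biUnion.2 ⟨m, hN' m h1, ?_⟩)
        exact hF' m u z (by omega) h3

end

section
variable {X : SimpleGraph V} {f : V → L} {Y : SimpleGraph W} {g : W → L}

/-- local equivalence -/
def LE (X : SimpleGraph V) (f : V → L) (Y : SimpleGraph W) (g : W → L) (r : ℕ)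
    (l : List (V × W)) : Prop :=
  ∀ p ∈ l, f p.1 = g p.2 ∧ ∀ q ∈ l, ∀ w w' : List L, w.length ≤ r → w'.length ≤ r →
    (Cn X f p.1 w w' q.1 ↔ Cn Y g p.2 w w' q.2)

theorem LE.mono {r r' : ℕ} {l l' : List (V × W)} (hr : r' ≤ r) (hl : ∀ p ∈ l', p ∈ l)
    (h : LE X f Y g r l) : LE X f Y g r' l' := by
  intro p hp
  refine ⟨(h p (hl p hp)).1, ?_⟩
  intro q hq w w' h1 h2
  exact (h p (hl p hp)).2 q (hl q hq) w w' (h1.trans hr) (h2.trans hr)

theorem LE.swap {r : ℕ} {l : List (V × W)} (h : LE X f Y g r l) :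
    LE Y g X f r (l.map Prod.swap) := by
  intro p hp
  obtain ⟨p', hp', rfl⟩ := List.mem_map.1 hp
  refine ⟨(h p' hp').1.symm, ?_⟩
  intro q hq w w' h1 h2
  obtain ⟨q', hq', rfl⟩ := List.mem_map.1 hq
  exact ((h p' hp').2 q' hq' w w' h1 h2).symm

theorem LE.pl {r : ℕ} {l : List (V × W)} (hr : 1 ≤ r) (h : LE X f Y g r l) : PL X f Y g l := by
  intro p hp
  refine ⟨(h p hp).1, ?_⟩
  intro q hq
  constructor
  · have := (h p hp).2 q hq [] [] (by simp) (by simp)
    have e1 : Cn X f p.1 [] [] q.1 ↔ p.1 = q.1 := by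
      unfold Cn
      simp [Wk, eq_comm]
    have e2 : Cn Y g p.2 [] [] q.2 ↔ p.2 = q.2 := by
      unfold Cn
      simp [Wk, eq_comm]
    rw [e1, e2] at this
    exact this
  · have := (h p hp).2 q hq [f q.1] [] (by simpa using hr) (by simp)
    have e1 : Cn X f p.1 [f q.1] [] q.1 ↔ X.Adj p.1 q.1 := by
      unfold Cn
      constructor
      · rintro ⟨z, ⟨m, h1, h2, h3⟩, h4⟩
        have h3 : m = z := h3
        have h4 : q.1 = z := h4
        rw [h4, ← h3]
        exact h1
      · intro h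
        exact ⟨q.1, ⟨q.1, h, rfl, rfl⟩, rfl⟩
    have e2 : Cn Y g p.2 [f q.1] [] q.2 ↔ Y.Adj p.2 q.2 := by
      unfold Cn
      constructor
      · rintro ⟨z, ⟨m, h1, h2, h3⟩, h4⟩
        have h3 : m = z := h3
        have h4 : q.2 = z := h4
        rw [h4, ← h3]
        exact h1
      · intro h5
        exact ⟨q.2, ⟨q.2, h5, ((h q hq).1).symm, rfl⟩, rfl⟩
    rw [e1, e2] at this
    exact this

theorem LE_cons {r : ℕ} {l : List (V × W)} {a : V} {b : W} (h : LE X f Y g r l)
    (hab : LE X f Y g r [(a, b)])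
    (hl : ∀ q ∈ l, ∀ w w' : List L, w.length ≤ r → w'.length ≤ r →
      (Cn X f a w w' q.1 ↔ Cn Y g b w w' q.2)) : LE X f Y g r ((a, b) :: l) := by
  intro p hp
  rcases List.mem_cons.1 hp with rfl | hp
  · refine ⟨(hab _ (by simp)).1, ?_⟩
    intro q hq w w' h1 h2
    rcases List.mem_cons.1 hq with rfl | hq
    · exact (hab _ (by simp)).2 _ (by simp) w w' h1 h2
    · exact hl q hq w w' h1 h2
  · refine ⟨(h p hp).1, ?_⟩
    intro q hq w w' h1 h2
    rcases List.mem_cons.1 hq with rfl | hq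
    · rw [Cn_comm, Cn_comm (X := Y)]
      exact hl p hp w' w h2 h1
    · exact (h p hp).2 q hq w w' h1 h2

theorem near_ext (hX : Dt X f) (hY : Dt Y g) {r : ℕ} {l : List (V × W)}
    (h : LE X f Y g (3 * r) l) {q : V × W} (hq : q ∈ l) {u : List L} (hu : u.length ≤ 2 * r)
    {a : V} (ha : Wk X f q.1 u a) : ∃ b, Wk Y g q.2 u b ∧ LE X f Y g r ((a, b) :: l) := by
  have h1 : Cn Y g q.2 u u q.2 :=
    ((h q hq).2 q hq u u (by omega) (by omega)).1 (Cn_end.2 ⟨a, ha⟩)
  obtain ⟨b, hb⟩ := Cn_end.1 h1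
  refine ⟨b, hb, ?_⟩
  have hlab : f a = g b := by
    rcases List.eq_nil_or_concat' u with rfl | ⟨u', c, rfl⟩
    · have e1 : q.1 = a := ha
      have e2 : q.2 = b := hb
      rw [← e1, ← e2]
      exact (h q hq).1
    · rw [Wk_lab ha, Wk_lab hb]
  refine LE_cons (h.mono (by omega) fun p hp => hp) ?_ ?_
  · intro p hp
    have hp : p = (a, b) := by simpa using hp
    subst hp
    refine ⟨hlab, ?_⟩
    intro p' hp' w w' h3 h4
    have hp' : p' = (a, b) := by simpa using hp'
    subst hp'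
    rw [Cn_shift hX ha, Cn_shift hY hb, Cn_comm, Cn_comm (X := Y), Cn_shift hX ha,
      Cn_shift hY hb]
    exact (h q hq).2 q hq _ _ (by simp; omega) (by simp; omega)
  · intro r' hr' w w' h3 h4
    rw [Cn_shift hX ha, Cn_shift hY hb]
    exact (h q hq).2 r' hr' _ _ (by simp; omega) (by omega)

/-- the hypothesis making the extension possible -/
def Ext (X : SimpleGraph V) (f : V → L) (Y : SimpleGraph W) (g : W → L) (r T : ℕ) : Prop :=
  ∀ a : V, (∃ b, LE X f Y g r [(a, b)] ∧ ∀ a', LE X f Y g r [(a', b)] → a' = a) ∨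
    (∀ F : Finset W, F.card ≤ T → ∃ b, b ∉ F ∧ LE X f Y g r [(a, b)])

theorem ext_forth (hX : Dt X f) (hY : Dt Y g) {r T d : ℕ} (hE : Ext X f Y g r T)
    (hdeg : ∀ y : W, ∃ N : Finset W, N.card ≤ d ∧ ∀ z, Y.Adj y z → z ∈ N)
    {l : List (V × W)} (hT : l.length * (d + 1) ^ (2 * r) ≤ T)
    (h : LE X f Y g (3 * r) l) (a : V) : ∃ b, LE X f Y g r ((a, b) :: l) := by
  classical
  by_cases hnear : ∃ q ∈ l, ∃ w w' : List L, w.length ≤ r ∧ w'.length ≤ r ∧
      Cn X f a w w' q.1
  · obtain ⟨q, hq, w, w', h1, h2, z, h3, h4⟩ := hnear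
    obtain ⟨u, hu, hu'⟩ := Wk_rev h3
    obtain ⟨b, _, hb⟩ := near_ext hX hY h hq (u := w' ++ u) (by simp; omega)
      (Wk_append.2 ⟨z, h4, hu'⟩)
    exact ⟨b, hb⟩
  · push Not at hnear
    have key : ∀ b, LE X f Y g r [(a, b)] →
        (∀ q ∈ l, ∀ w w' : List L, w.length ≤ r → w'.length ≤ r → ¬ Cn Y g b w w' q.2) →
        LE X f Y g r ((a, b) :: l) := by
      intro b hb hfar
      refine LE_cons (h.mono (by omega) fun p hp => hp) hb ?_
      intro q hq w w' h1 h2
      exact iff_of_false (hnear q hq w w' h1 h2) (hfar q hq w w' h1 h2)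
    rcases hE a with ⟨b, hb, hu⟩ | hE
    · refine ⟨b, key b hb ?_⟩
      rintro q hq w w' h1 h2 ⟨z, h3, h4⟩
      obtain ⟨u, hu', hu''⟩ := Wk_rev h3
      have h5 : Wk Y g q.2 (w' ++ u) b := Wk_append.2 ⟨z, h4, hu''⟩
      have h' : LE Y g X f (3 * r) (l.map Prod.swap) := h.swap
      obtain ⟨a', ha', hla⟩ := near_ext hY hX h' (q := Prod.swap q)
        (List.mem_map.2 ⟨q, hq, rfl⟩) (u := w' ++ u) (by simp; omega) h5
      have h6 : a' = a := by
        apply hu
        have := hla.swap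
        exact this.mono le_rfl (by intro p hp; simp at hp ⊢; exact Or.inl hp)
      subst h6
      obtain ⟨m, h7, h8⟩ := Wk_append.1 ha'
      obtain ⟨v, hv, hv'⟩ := Wk_rev h8
      exact hnear q hq v w' (by omega) h2 ⟨m, hv', h7⟩
    · choose F hF hF' using ball_card (X := Y) (f := g) hdeg (2 * r)
      obtain ⟨b, hb, hb'⟩ := hE ((l.toFinset).biUnion fun q => F q.2) (by
        refine (Finset.card_biUnion_le_card_mul _ _ _ fun z _ => hF z.2).trans ?_
        refine le_trans (Nat.mul_le_mul_right _ (List.toFinset_card_le l)) hT)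
      refine ⟨b, key b hb' ?_⟩
      rintro q hq w w' h1 h2 ⟨z, h3, h4⟩
      obtain ⟨u, hu', hu''⟩ := Wk_rev h3
      apply hb
      refine Finset.mem_biUnion.2 ⟨q, List.mem_toFinset.2 hq, ?_⟩
      exact hF' q.2 (w' ++ u) b (by simp; omega) (Wk_append.2 ⟨z, h4, hu''⟩)

theorem hanf (hX : Dt X f) (hY : Dt Y g) {T d n0 : ℕ}
    (hE : ∀ n, n < n0 → Ext X f Y g (3 ^ n) T) (hE' : ∀ n, n < n0 → Ext Y g X f (3 ^ n) T)
    (hdX : ∀ y : V, ∃ N : Finset V, N.card ≤ d ∧ ∀ z, X.Adj y z → z ∈ N)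
    (hdY : ∀ y : W, ∃ N : Finset W, N.card ≤ d ∧ ∀ z, Y.Adj y z → z ∈ N)
    (hT : n0 * (d + 1) ^ (2 * 3 ^ n0) ≤ T) (n : ℕ) : ∀ (l : List (V × W)),
    l.length + n ≤ n0 → LE X f Y g (3 ^ n) l → RE X f Y g n l := by
  induction n with
  | zero =>
    intro l _ h
    exact h.pl (by norm_num)
  | succ n ih =>
    intro l hl h
    have hT' : l.length * (d + 1) ^ (2 * 3 ^ n) ≤ T := by
      refine le_trans (Nat.mul_le_mul (by omega) ?_) hT
      refine Nat.pow_le_pow_right (by omega) ?_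
      exact Nat.mul_le_mul_left _ (Nat.pow_le_pow_right (by omega) (by omega))
    have e : 3 ^ (n + 1) = 3 * 3 ^ n := by rw [pow_succ]; ring
    rw [e] at h
    refine ⟨h.pl (by have := Nat.one_le_pow n 3 (by omega); omega), ?_, ?_⟩
    · intro v
      obtain ⟨w, hw⟩ := ext_forth hX hY (hE n (by omega)) hdY hT' h v
      exact ⟨w, ih _ (by simp; omega) hw⟩
    · intro w
      obtain ⟨v, hv⟩ := ext_forth hY hX (hE' n (by omega)) hdX (l := l.map Prod.swap)
        (by simpa using hT') h.swap w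
      refine ⟨v, ih _ (by simp; omega) ?_⟩
      have := hv.swap
      refine this.mono le_rfl ?_
      intro p hp
      simp only [List.map_cons, List.mem_cons, List.map_map] at hp ⊢
      rcases hp with rfl | hp
      · exact Or.inl rfl
      · right
        simpa using hp

end

end Pool.Agent.H88R3
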