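import Mathlib

set_option autoImplicit false

namespace Pool.Agent.H88R3

/-- partial isomorphism -/
def PI {V W : Type} (G : SimpleGraph V) (H : SimpleGraph W) (l : List (V × W)) : Prop :=
  ∀ p ∈ l, ∀ q ∈ l, (p.1 = q.1 ↔ p.2 = q.2) ∧ (G.Adj p.1 q.1 ↔ H.Adj p.2 q.2)

/-- the Ehrenfeucht game with `n` rounds left at the position `l` -/
def EF {V W : Type} (G : SimpleGraph V) (H : SimpleGraph W) : ℕ → List (V × W) → Prop
  | 0, l => PI G H l
  | n + 1, l => PI G H l ∧ (∀ v, ∃ w, EF G H n ((v, w) :: l)) ∧ (∀ w, ∃ v, EF G H n ((v, w) :: l))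

/-- quantifier depth -/
def qd {L : FirstOrder.Language} {α : Type} : {n : ℕ} → L.BoundedFormula α n → ℕ
  | _, .falsum => 0
  | _, .equal _ _ => 0
  | _, .rel _ _ => 0
  | _, .imp f g => max (qd f) (qd g)
  | _, .all f => qd f + 1

/-- truth of a sentence in a graph -/
def Sat {V : Type} (G : SimpleGraph V) (φ : FirstOrder.Language.graph.Sentence) : Prop :=
  @FirstOrder.Language.Sentence.Realize FirstOrder.Language.graph V
    (SimpleGraph.structure G) φ

/-- the sentence defines the finite graph -/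
def Defines (φ : FirstOrder.Language.graph.Sentence) {n : ℕ} (G : SimpleGraph (Fin n)) : Prop :=
  Sat G φ ∧ ∀ (m : ℕ) (H : SimpleGraph (Fin m)), Sat H φ → Nonempty (H ≃g G)

/-- logical depth -/
noncomputable def D {n : ℕ} (G : SimpleGraph (Fin n)) : ℕ :=
  sInf {d | ∃ φ : FirstOrder.Language.graph.Sentence, qd φ = d ∧ Defines φ G}

/-- rows of the adjacency matrix -/
noncomputable def adjMat {n : ℕ} (G : SimpleGraph (Fin n)) : List (List Bool) := by
  classical
  exact List.ofFn fun i : Fin n => List.ofFn fun j : Fin n => decide (G.Adj i j)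

end Pool.Agent.H88R3
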