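import Mathlib
import Pool.Agent.H88R3.EF

set_option autoImplicit false

namespace Pool.Agent.H88R3

variable {B B' : Type}

/-- adjacency after hanging `c b` pendant vertices at each `b` -/
def PGadj (G : SimpleGraph B) (c : B → ℕ) :
    (B ⊕ (Σ b, Fin (c b))) → (B ⊕ (Σ b, Fin (c b))) → Prop
  | .inl a, .inl b => G.Adj a b
  | .inl a, .inr p => p.1 = a
  | .inr p, .inl a => p.1 = a
  | .inr _, .inr _ => False

/-- the graph with pendant vertices -/
def PG (G : SimpleGraph B) (c : B → ℕ) : SimpleGraph (B ⊕ (Σ b, Fin (c b))) where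
  Adj := PGadj G c
  symm := by
    constructor
    rintro (a | p) (b | q) h
    · exact SimpleGraph.Adj.symm (G := G) h
    · exact h
    · exact h
    · exact h
  loopless := by
    constructor
    rintro (a | p) h
    · exact SimpleGraph.irrefl (G := G) h
    · exact h

/-- owner of a vertex -/
def own {c : B → ℕ} : (B ⊕ (Σ b, Fin (c b))) → B
  | .inl a => a
  | .inr p => p.1

/-- the game on the bodies with pendant counts -/
def BG (G : SimpleGraph B) (c : B → ℕ) (G' : SimpleGraph B') (c' : B' → ℕ) :
    ℕ → List (B × B') → Prop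
  | 0, l => PI G G' l
  | q + 1, l => PI G G' l ∧
      (∀ b, ∃ b', (c b = c' b' ∨ (q + 1 ≤ c b ∧ q + 1 ≤ c' b')) ∧ BG G c G' c' q ((b, b') :: l)) ∧
      (∀ b', ∃ b, (c b = c' b' ∨ (q + 1 ≤ c b ∧ q + 1 ≤ c' b')) ∧ BG G c G' c' q ((b, b') :: l))

variable {G : SimpleGraph B} {c : B → ℕ} {G' : SimpleGraph B'} {c' : B' → ℕ}

theorem BG.pi {q : ℕ} {l : List (B × B')} (h : BG G c G' c' q l) : PI G G' l := by
  cases q with
  | zero => exact h
  | succ q => exact h.1

theorem PI.swap {l : List (B × B')} (h : PI G G' l) : PI G' G (l.map Prod.swap) := by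
  intro p hp q hq
  obtain ⟨p', hp', rfl⟩ := List.mem_map.1 hp
  obtain ⟨q', hq', rfl⟩ := List.mem_map.1 hq
  exact ⟨((h p' hp' q' hq').1).symm, ((h p' hp' q' hq').2).symm⟩

theorem BG.swap {q : ℕ} : ∀ {l : List (B × B')}, BG G c G' c' q l →
    BG G' c' G c q (l.map Prod.swap) := by
  induction q with
  | zero => intro l h; exact PI.swap h
  | succ q ih =>
    intro l h
    refine ⟨PI.swap h.1, fun b' => ?_, fun b => ?_⟩
    · obtain ⟨b, h1, h2⟩ := h.2.2 b'
      refine ⟨b, ?_, ih h2⟩
      rcases h1 with h1 | h1
      · exact Or.inl h1.symm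
      · exact Or.inr ⟨h1.2, h1.1⟩
    · obtain ⟨b', h1, h2⟩ := h.2.1 b
      refine ⟨b', ?_, ih h2⟩
      rcases h1 with h1 | h1
      · exact Or.inl h1.symm
      · exact Or.inr ⟨h1.2, h1.1⟩

/-- pairs of owners -/
def ow (p : (B ⊕ (Σ b, Fin (c b))) × (B' ⊕ (Σ b, Fin (c' b)))) : B × B' := (own p.1, own p.2)

/-- matched vertices are of the same kind -/
def Kd (p : (B ⊕ (Σ b, Fin (c b))) × (B' ⊕ (Σ b, Fin (c' b)))) : Prop :=
  (∃ b b', p = (.inl b, .inl b')) ∨
    ∃ (x : Σ b, Fin (c b)) (x' : Σ b, Fin (c' b)), p = (.inr x, .inr x') ∧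
      (c x.1 = c' x'.1 → x.2.val = x'.2.val)

open Classical in
/-- the invariant -/
def Inv (G : SimpleGraph B) (c : B → ℕ) (G' : SimpleGraph B') (c' : B' → ℕ) (q : ℕ)
    (l : List ((B ⊕ (Σ b, Fin (c b))) × (B' ⊕ (Σ b, Fin (c' b))))) : Prop :=
  BG G c G' c' q (l.map ow) ∧ (∀ p ∈ l, Kd p) ∧
    (∀ p ∈ l, ∀ p' ∈ l, p.1 = p'.1 ↔ p.2 = p'.2) ∧
    ∀ x ∈ l.map ow, c x.1 = c' x.2 ∨
      ((l.map ow).count x + q ≤ c x.1 ∧ (l.map ow).count x + q ≤ c' x.2)

theorem Inv.swap {q : ℕ} {l : List ((B ⊕ (Σ b, Fin (c b))) × (B' ⊕ (Σ b, Fin (c' b))))}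
    (h : Inv G c G' c' q l) : Inv G' c' G c q (l.map Prod.swap) := by
  classical
  obtain ⟨h1, h2, h3, h4⟩ := h
  have e : (l.map Prod.swap).map ow = (l.map ow).map Prod.swap := by
    rw [List.map_map, List.map_map]
    rfl
  refine ⟨?_, ?_, ?_, ?_⟩
  · rw [e]
    exact h1.swap
  · intro p hp
    obtain ⟨p', hp', rfl⟩ := List.mem_map.1 hp
    rcases h2 p' hp' with ⟨b, b', rfl⟩ | ⟨x, x', rfl, h⟩
    · exact Or.inl ⟨b', b, rfl⟩
    · exact Or.inr ⟨x', x, rfl, fun h' => (h h'.symm).symm⟩
  · intro p hp q hq
    obtain ⟨p', hp', rfl⟩ := List.mem_map.1 hp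
    obtain ⟨q', hq', rfl⟩ := List.mem_map.1 hq
    exact (h3 p' hp' q' hq').symm
  · rw [e]
    intro x hx
    obtain ⟨x', hx', rfl⟩ := List.mem_map.1 hx
    have hc : ((l.map ow).map Prod.swap).count (Prod.swap x') = (l.map ow).count x' :=
      List.count_map_of_injective _ _ Prod.swap_injective _
    rw [hc]
    rcases h4 x' hx' with h | h
    · exact Or.inl h.symm
    · exact Or.inr ⟨h.2, h.1⟩

theorem Inv.forth {q : ℕ} {l : List ((B ⊕ (Σ b, Fin (c b))) × (B' ⊕ (Σ b, Fin (c' b))))}
    (h : Inv G c G' c' (q + 1) l) (v : B ⊕ (Σ b, Fin (c b))) :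
    ∃ w, Inv G c G' c' q ((v, w) :: l) := by
  classical
  obtain ⟨h1, h2, h3, h4⟩ := h
  obtain ⟨b', hok, hb⟩ := h1.2.1 (own v)
  have hpi := hb.pi
  -- the fourth condition for any answer with owner `b'`
  have key4 : ∀ x ∈ (own v, b') :: l.map ow, c x.1 = c' x.2 ∨
      (((own v, b') :: l.map ow).count x + q ≤ c x.1 ∧
        ((own v, b') :: l.map ow).count x + q ≤ c' x.2) := by
    intro x hx
    by_cases hxe : x = (own v, b')
    · subst hxe
      rw [List.count_cons_self]
      by_cases hm : (own v, b') ∈ l.map ow
      · rcases h4 _ hm with h | h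
        · exact Or.inl h
        · right
          constructor
          · have := h.1; omega
          · have := h.2; omega
      · rw [List.count_eq_zero_of_not_mem hm]
        rcases hok with h | h
        · exact Or.inl h
        · right
          constructor
          · have := h.1; simp only; omega
          · have := h.2; simp only; omega
    · have hx' : x ∈ l.map ow := by
        rcases List.mem_cons.1 hx with h | h
        · exact absurd h hxe
        · exact h
      rw [List.count_cons_of_ne (fun h => hxe h.symm)]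
      rcases h4 _ hx' with h | h
      · exact Or.inl h
      · right
        constructor
        · have := h.1; omega
        · have := h.2; omega
  have hown : ∀ p ∈ l, (own v = own p.1 ↔ b' = own p.2) := by
    intro p hp
    have := (hpi (own v, b') (by simp) (ow p) (List.mem_cons_of_mem _
      (List.mem_map_of_mem hp))).1
    exact this
  -- the equality condition
  have key3 : ∀ w, (∀ p ∈ l, (v = p.1 ↔ w = p.2)) →
      ∀ p ∈ (v, w) :: l, ∀ p' ∈ (v, w) :: l, p.1 = p'.1 ↔ p.2 = p'.2 := by
    intro w hw p hp p' hp'
    rcases List.mem_cons.1 hp with rfl | hp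
    · rcases List.mem_cons.1 hp' with rfl | hp'
      · simp
      · exact hw p' hp'
    · rcases List.mem_cons.1 hp' with rfl | hp'
      · have := hw p hp
        constructor
        · intro h; exact (this.1 h.symm).symm
        · intro h; exact (this.2 h.symm).symm
      · exact h3 p hp p' hp'
  have fin : ∀ w, own w = b' → Kd (v, w) → (∀ p ∈ l, (v = p.1 ↔ w = p.2)) →
      ∃ w, Inv G c G' c' q ((v, w) :: l) := by
    intro w hw hk he
    refine ⟨w, ?_, ?_, key3 w he, ?_⟩
    · rw [List.map_cons]
      have : ow (v, w) = (own v, b') := by unfold ow; rw [← hw]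
      rw [this]
      exact hb
    · intro p hp
      rcases List.mem_cons.1 hp with rfl | hp
      · exact hk
      · exact h2 p hp
    · rw [List.map_cons]
      have : ow (v, w) = (own v, b') := by unfold ow; rw [← hw]
      rw [this]
      exact key4
  rcases v with b | x
  · refine fin (.inl b') rfl (Or.inl ⟨b, b', rfl⟩) ?_
    intro p hp
    have h5 := hown p hp
    rcases h2 p hp with ⟨a, a', rfl⟩ | ⟨y, y', rfl, _⟩
    · simp only [own] at h5
      simp only [Sum.inl.injEq]
      exact h5
    · simp
  · by_cases hm : ∃ p ∈ l, p.1 = .inr x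
    · obtain ⟨p, hp, hpx⟩ := hm
      refine fin p.2 ?_ ?_ ?_
      · have h5 := hown p hp
        exact (h5.1 (by rw [hpx])).symm
      · have := h2 p hp
        have e : p = (.inr x, p.2) := by rw [← hpx]
        rw [e] at this
        exact this
      · intro p' hp'
        rw [← hpx]
        exact h3 p hp p' hp'
    · push Not at hm
      have hv : own (Sum.inr x : B ⊕ (Σ b, Fin (c b))) = x.1 := rfl
      rw [hv] at key4 hown hpi hb
      by_cases hc : c x.1 = c' b'
      · refine fin (.inr ⟨b', ⟨x.2.val, by rw [← hc]; exact x.2.2⟩⟩) rfl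
          (Or.inr ⟨x, _, rfl, fun _ => rfl⟩) ?_
        intro p hp
        refine iff_of_false (fun h => hm p hp h.symm) ?_
        intro h
        have h5 := hown p hp
        rcases h2 p hp with ⟨a, a', rfl⟩ | ⟨y, y', rfl, hyy⟩
        · simp at h
        · simp only [own] at h5
          simp only [Sum.inr.injEq] at h
          rw [← h] at h5 hyy
          have e1 : x.1 = y.1 := h5.2 rfl
          apply hm _ hp
          simp only [Sum.inr.injEq]
          have e2 : y.2.val = x.2.val := hyy (by rw [← e1]; exact hc)
          rcases x with ⟨x1, x2⟩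
          rcases y with ⟨y1, y2⟩
          simp only at e1 e2
          subst e1
          congr 1
          exact Fin.ext e2
      · -- a fresh pendant
        have h6 := key4 (x.1, b') (by simp)
        simp only [List.count_cons_self] at h6
        rcases h6 with h6 | h6
        · exact absurd h6 hc
        · -- used pendants
          have hfresh : ∃ i : Fin (c' b'), ∀ p ∈ l, p.2 ≠ .inr ⟨b', i⟩ := by
            by_contra hno
            push Not at hno
            choose P hP hP' using hno
            have hinj : Function.Injective P := by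
              intro i j hij
              have h7 := hP' i
              rw [hij, hP' j] at h7
              simp only [Sum.inr.injEq, Sigma.mk.injEq, heq_eq_eq, true_and] at h7
              exact h7.symm
            have hcard : c' b' ≤ ((l.toFinset).filter fun p => ow p = (x.1, b')).card := by
              rw [← Fintype.card_fin (c' b')]
              refine Finset.card_le_card_of_injOn P ?_ hinj.injOn
              intro i _
              simp only [Finset.coe_filter, List.mem_toFinset, Set.mem_ofPred_eq]
              refine ⟨hP i, ?_⟩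
              have h8 := hown (P i) (hP i)
              have h9 : own (P i).2 = b' := by rw [hP' i]; rfl
              unfold ow
              rw [h9]
              rw [h9] at h8
              rw [← h8.2 rfl]
            have hcount : ((l.toFinset).filter fun p => ow p = (x.1, b')).card ≤
                (l.map ow).count (x.1, b') := by
              have e1 : ((l.toFinset).filter fun p => ow p = (x.1, b')) =
                  (l.filter fun p => ow p = (x.1, b')).toFinset := by
                ext p
                simp
              rw [e1]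
              refine (List.toFinset_card_le _).trans ?_
              rw [List.count, List.countP_map, List.countP_eq_length_filter]
              apply le_of_eq
              congr 1
              apply List.filter_congr
              intro p _
              simp only [Function.comp]
              by_cases hh : ow p = (x.1, b') <;> simp [hh]
            omega
          obtain ⟨i, hi⟩ := hfresh
          refine fin (.inr ⟨b', i⟩) rfl (Or.inr ⟨x, _, rfl, fun h => absurd h hc⟩) ?_
          intro p hp
          exact iff_of_false (fun h => hm p hp h.symm) (fun h => hi p hp h.symm)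

theorem Inv.ef {q : ℕ} : ∀ {l : List ((B ⊕ (Σ b, Fin (c b))) × (B' ⊕ (Σ b, Fin (c' b))))},
    Inv G c G' c' q l → EF (PG G c) (PG G' c') q l := by
  have hpi : ∀ {q : ℕ} {l : List ((B ⊕ (Σ b, Fin (c b))) × (B' ⊕ (Σ b, Fin (c' b))))},
      Inv G c G' c' q l → PI (PG G c) (PG G' c') l := by
    rintro q l ⟨h1, h2, h3, _⟩ p hp p' hp'
    refine ⟨h3 p hp p' hp', ?_⟩
    have h5 := h1.pi (ow p) (List.mem_map_of_mem hp) (ow p') (List.mem_map_of_mem hp')
    rcases h2 p hp with ⟨a, a', rfl⟩ | ⟨y, y', rfl, _⟩ <;>
    rcases h2 p' hp' with ⟨b, b', rfl⟩ | ⟨z, z', rfl, _⟩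
    · exact h5.2
    · have := h5.1
      simp only [ow, own] at this
      change z.1 = a ↔ z'.1 = a'
      constructor
      · intro h; exact (this.1 h.symm).symm
      · intro h; exact (this.2 h.symm).symm
    · have := h5.1
      simp only [ow, own] at this
      change y.1 = b ↔ y'.1 = b'
      exact this
    · exact Iff.rfl
  induction q with
  | zero => intro l h; exact hpi h
  | succ q ih =>
    intro l h
    refine ⟨hpi h, fun v => ?_, fun w => ?_⟩
    · obtain ⟨w, hw⟩ := h.forth v
      exact ⟨w, ih hw⟩
    · obtain ⟨v, hv⟩ := h.swap.forth w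
      refine ⟨v, ih ?_⟩
      have := hv.swap
      simpa [List.map_map] using this

theorem pend {q : ℕ} (h : BG G c G' c' q []) : EF (PG G c) (PG G' c') q [] := by
  apply Inv.ef
  refine ⟨h, ?_, ?_, ?_⟩ <;> simp

end Pool.Agent.H88R3
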