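import Mathlib
import Pool.Agent.H88R3.LG
import Pool.Agent.H88R3.PG

set_option autoImplicit false

namespace Pool.Agent.H88R3

variable {V V' : Type} {b : ℕ}

/-- hidden adjacency between cells and bit constants -/
def Hadj (X : SimpleGraph V) (f : V → Fin b → Bool) : V ⊕ Fin b → V ⊕ Fin b → Prop
  | .inl x, .inl y => X.Adj x y
  | .inl x, .inr i => f x i = true
  | .inr i, .inl x => f x i = true
  | .inr _, .inr _ => False

/-- the hidden graph -/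
def Hg (X : SimpleGraph V) (f : V → Fin b → Bool) : SimpleGraph (V ⊕ Fin b) where
  Adj := Hadj X f
  symm := by
    constructor
    rintro (a | p) (b | q) h
    · exact SimpleGraph.Adj.symm (G := X) h
    · exact h
    · exact h
    · exact h
  loopless := by
    constructor
    rintro (a | p) h
    · exact SimpleGraph.irrefl (G := X) h
    · exact h

/-- adjacency of the bodies -/
def Badj {Z : Type} : Z ⊕ Sym2 Z → Z ⊕ Sym2 Z → Prop
  | .inl z, .inr e => z ∈ e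
  | .inr e, .inl z => z ∈ e
  | _, _ => False

/-- the body graph -/
def Bg (Z : Type) : SimpleGraph (Z ⊕ Sym2 Z) where
  Adj := Badj
  symm := by
    constructor
    rintro (a | p) (b | q) h
    · exact h
    · exact h
    · exact h
    · exact h
  loopless := by
    constructor
    rintro (a | p) h
    · exact h
    · exact h

open Classical in
/-- the pendant counts -/
noncomputable def ct (s : ℕ) (X : SimpleGraph V) (f : V → Fin b → Bool) :
    (V ⊕ Fin b) ⊕ Sym2 (V ⊕ Fin b) → ℕ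
  | .inl (.inl _) => 0
  | .inl (.inr i) => i.val + 1
  | .inr e => s + if e ∈ (Hg X f).edgeSet then 1 else 0

theorem ct_ge (s : ℕ) (X : SimpleGraph V) (f : V → Fin b → Bool) (e : Sym2 (V ⊕ Fin b)) :
    s ≤ ct s X f (.inr e) := Nat.le_add_right _ _

theorem ct_pos {s : ℕ} {X : SimpleGraph V} {f : V → Fin b → Bool} {z w : V ⊕ Fin b}
    (h : (Hg X f).Adj z w) : ct s X f (.inr s(z, w)) = s + 1 := by
  unfold ct
  exact congrArg (s + ·) (if_pos ((SimpleGraph.mem_edgeSet _).2 h))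

theorem ct_neg {s : ℕ} {X : SimpleGraph V} {f : V → Fin b → Bool} {z w : V ⊕ Fin b}
    (h : ¬ (Hg X f).Adj z w) : ct s X f (.inr s(z, w)) = s := by
  unfold ct
  exact congrArg (s + ·) (if_neg fun h' => h ((SimpleGraph.mem_edgeSet _).1 h'))

/-- the graph hiding a labelled graph -/
noncomputable def Gam (s : ℕ) (X : SimpleGraph V) (f : V → Fin b → Bool) :
    SimpleGraph (((V ⊕ Fin b) ⊕ Sym2 (V ⊕ Fin b)) ⊕ (Σ x, Fin (ct s X f x))) :=
  PG (Bg (V ⊕ Fin b)) (ct s X f)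

/-- matched pairs in the late phase -/
def Lt (K : List ((V ⊕ Fin b) × (V' ⊕ Fin b))) : Prop :=
  (∀ p ∈ K, (∃ v v', p = (.inl v, .inl v')) ∨ ∃ i, p = (.inr i, .inr i)) ∧
    ∀ p ∈ K, ∀ q ∈ K, (p.1 = q.1 ↔ p.2 = q.2)

theorem Lt.swap {K : List ((V ⊕ Fin b) × (V' ⊕ Fin b))} (h : Lt K) :
    Lt (K.map Prod.swap) := by
  constructor
  · intro p hp
    obtain ⟨p', hp', rfl⟩ := List.mem_map.1 hp
    rcases h.1 p' hp' with ⟨v, v', rfl⟩ | ⟨i, rfl⟩
    · exact Or.inl ⟨v', v, rfl⟩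
    · exact Or.inr ⟨i, rfl⟩
  · intro p hp q hq
    obtain ⟨p', hp', rfl⟩ := List.mem_map.1 hp
    obtain ⟨q', hq', rfl⟩ := List.mem_map.1 hq
    exact (h.2 p' hp' q' hq').symm

/-- the type has at least `n` elements -/
def Big (V : Type) (n : ℕ) : Prop := ∀ F : Finset V, F.card < n → ∃ v, v ∉ F

theorem Lt.forth {K : List ((V ⊕ Fin b) × (V' ⊕ Fin b))} (h : Lt K) {n : ℕ}
    (hn : K.length < n) (hV : Big V' n) (z : V ⊕ Fin b) : ∃ z', Lt ((z, z') :: K) := by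
  classical
  have fin : ∀ z', ((∃ v v', (z, z') = ((.inl v, .inl v') : (V ⊕ Fin b) × (V' ⊕ Fin b))) ∨
      ∃ i, (z, z') = ((.inr i, .inr i) : (V ⊕ Fin b) × (V' ⊕ Fin b))) →
      (∀ p ∈ K, (z = p.1 ↔ z' = p.2)) → ∃ z', Lt ((z, z') :: K) := by
    intro z' h1 h2
    refine ⟨z', ?_, ?_⟩
    · intro p hp
      rcases List.mem_cons.1 hp with rfl | hp
      · exact h1
      · exact h.1 p hp
    · intro p hp q hq
      rcases List.mem_cons.1 hp with rfl | hp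
      · rcases List.mem_cons.1 hq with rfl | hq
        · simp
        · exact h2 q hq
      · rcases List.mem_cons.1 hq with rfl | hq
        · have := h2 p hp
          exact ⟨fun h => (this.1 h.symm).symm, fun h => (this.2 h.symm).symm⟩
        · exact h.2 p hp q hq
  rcases z with v | i
  · by_cases hm : ∃ p ∈ K, p.1 = .inl v
    · obtain ⟨p, hp, hpv⟩ := hm
      refine fin p.2 ?_ ?_
      · have e : (Sum.inl v, p.2) = p := by rw [← hpv]
        rw [e]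
        exact h.1 p hp
      · intro q hq
        rw [← hpv]
        exact h.2 p hp q hq
    · push Not at hm
      obtain ⟨v', hv'⟩ := hV ((K.filterMap fun p => p.2.getLeft?).toFinset) (by
        refine lt_of_le_of_lt (List.toFinset_card_le _) ?_
        exact lt_of_le_of_lt (List.length_filterMap_le _ _) hn)
      refine fin (.inl v') (Or.inl ⟨v, v', rfl⟩) ?_
      intro p hp
      refine iff_of_false (fun h => hm p hp h.symm) ?_
      intro h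
      apply hv'
      rw [List.mem_toFinset, List.mem_filterMap]
      exact ⟨p, hp, by rw [← h]; rfl⟩
  · refine fin (.inr i) (Or.inr ⟨i, rfl⟩) ?_
    intro p hp
    rcases h.1 p hp with ⟨v, v', rfl⟩ | ⟨j, rfl⟩
    · simp
    · simp

theorem Lt.back {K : List ((V ⊕ Fin b) × (V' ⊕ Fin b))} (h : Lt K) {n : ℕ}
    (hn : K.length < n) (hV : Big V n) (z' : V' ⊕ Fin b) : ∃ z, Lt ((z, z') :: K) := by
  obtain ⟨z, hz⟩ := h.swap.forth (by simpa using hn) hV z'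
  refine ⟨z, ?_⟩
  have := hz.swap
  simpa [List.map_map] using this

/-- matched pairs in the early phase -/
def Ey (X : SimpleGraph V) (f : V → Fin b → Bool) (Y : SimpleGraph V') (g : V' → Fin b → Bool)
    (j : ℕ) (K : List ((V ⊕ Fin b) × (V' ⊕ Fin b))) : Prop :=
  ∃ Kc : List (V × V'), RE X f Y g j Kc ∧
    ∀ p ∈ K, (∃ v v', p = (.inl v, .inl v') ∧ (v, v') ∈ Kc) ∨ ∃ i, p = (.inr i, .inr i)

variable {X : SimpleGraph V} {f : V → Fin b → Bool} {Y : SimpleGraph V'} {g : V' → Fin b → Bool}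

theorem Ey.lt {j : ℕ} {K : List ((V ⊕ Fin b) × (V' ⊕ Fin b))} (h : Ey X f Y g j K) : Lt K := by
  obtain ⟨Kc, h1, h2⟩ := h
  constructor
  · intro p hp
    rcases h2 p hp with ⟨v, v', rfl, _⟩ | ⟨i, rfl⟩
    · exact Or.inl ⟨v, v', rfl⟩
    · exact Or.inr ⟨i, rfl⟩
  · intro p hp q hq
    rcases h2 p hp with ⟨v, v', rfl, h3⟩ | ⟨i, rfl⟩ <;>
    rcases h2 q hq with ⟨w, w', rfl, h4⟩ | ⟨k, rfl⟩
    · have := ((h1.pl _ h3).2 _ h4).1
      simpa using this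
    · simp
    · simp
    · simp

theorem Ey.hid {j : ℕ} {K : List ((V ⊕ Fin b) × (V' ⊕ Fin b))} (h : Ey X f Y g j K) :
    ∀ p ∈ K, ∀ q ∈ K, ((Hg X f).Adj p.1 q.1 ↔ (Hg Y g).Adj p.2 q.2) := by
  obtain ⟨Kc, h1, h2⟩ := h
  intro p hp q hq
  rcases h2 p hp with ⟨v, v', rfl, h3⟩ | ⟨i, rfl⟩ <;>
  rcases h2 q hq with ⟨w, w', rfl, h4⟩ | ⟨k, rfl⟩
  · exact ((h1.pl _ h3).2 _ h4).2
  · change f v k = true ↔ g v' k = true
    rw [show f v = g v' from (h1.pl _ h3).1]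
  · change f w i = true ↔ g w' i = true
    rw [show f w = g w' from (h1.pl _ h4).1]
  · exact Iff.rfl

theorem Ey.forth {j : ℕ} {K : List ((V ⊕ Fin b) × (V' ⊕ Fin b))} (h : Ey X f Y g (j + 1) K)
    (z : V ⊕ Fin b) : ∃ z', Ey X f Y g j ((z, z') :: K) := by
  obtain ⟨Kc, h1, h2⟩ := h
  rcases z with v | i
  · obtain ⟨v', hv'⟩ := h1.2.1 v
    refine ⟨.inl v', (v, v') :: Kc, hv', ?_⟩
    intro p hp
    rcases List.mem_cons.1 hp with rfl | hp
    · exact Or.inl ⟨v, v', rfl, by simp⟩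
    · rcases h2 p hp with ⟨w, w', rfl, h3⟩ | ⟨k, rfl⟩
      · exact Or.inl ⟨w, w', rfl, List.mem_cons_of_mem _ h3⟩
      · exact Or.inr ⟨k, rfl⟩
  · refine ⟨.inr i, Kc, h1.mono1, ?_⟩
    intro p hp
    rcases List.mem_cons.1 hp with rfl | hp
    · exact Or.inr ⟨i, rfl⟩
    · exact h2 p hp

theorem Ey.back {j : ℕ} {K : List ((V ⊕ Fin b) × (V' ⊕ Fin b))} (h : Ey X f Y g (j + 1) K)
    (z' : V' ⊕ Fin b) : ∃ z, Ey X f Y g j ((z, z') :: K) := by
  obtain ⟨Kc, h1, h2⟩ := h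
  rcases z' with v' | i
  · obtain ⟨v, hv⟩ := h1.2.2 v'
    refine ⟨.inl v, (v, v') :: Kc, hv, ?_⟩
    intro p hp
    rcases List.mem_cons.1 hp with rfl | hp
    · exact Or.inl ⟨v, v', rfl, by simp⟩
    · rcases h2 p hp with ⟨w, w', rfl, h3⟩ | ⟨k, rfl⟩
      · exact Or.inl ⟨w, w', rfl, List.mem_cons_of_mem _ h3⟩
      · exact Or.inr ⟨k, rfl⟩
  · refine ⟨.inr i, Kc, h1.mono1, ?_⟩
    intro p hp
    rcases List.mem_cons.1 hp with rfl | hp
    · exact Or.inr ⟨i, rfl⟩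
    · exact h2 p hp

/-- a pair of bodies built from the matched pairs -/
def Gn (K : List ((V ⊕ Fin b) × (V' ⊕ Fin b)))
    (x : ((V ⊕ Fin b) ⊕ Sym2 (V ⊕ Fin b)) × ((V' ⊕ Fin b) ⊕ Sym2 (V' ⊕ Fin b))) : Prop :=
  (∃ p ∈ K, x = (.inl p.1, .inl p.2)) ∨
    ∃ p ∈ K, ∃ q ∈ K, x = (.inr s(p.1, q.1), .inr s(p.2, q.2))

theorem Gn.mono {K K' : List ((V ⊕ Fin b) × (V' ⊕ Fin b))}
    {x : ((V ⊕ Fin b) ⊕ Sym2 (V ⊕ Fin b)) × ((V' ⊕ Fin b) ⊕ Sym2 (V' ⊕ Fin b))}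
    (hK : ∀ p ∈ K, p ∈ K') (h : Gn K x) : Gn K' x := by
  rcases h with ⟨p, hp, rfl⟩ | ⟨p, hp, q, hq, rfl⟩
  · exact Or.inl ⟨p, hK p hp, rfl⟩
  · exact Or.inr ⟨p, hK p hp, q, hK q hq, rfl⟩

theorem Gn.pi {K : List ((V ⊕ Fin b) × (V' ⊕ Fin b))} (hK : Lt K)
    {L : List (((V ⊕ Fin b) ⊕ Sym2 (V ⊕ Fin b)) × ((V' ⊕ Fin b) ⊕ Sym2 (V' ⊕ Fin b)))}
    (hL : ∀ x ∈ L, Gn K x) : PI (Bg (V ⊕ Fin b)) (Bg (V' ⊕ Fin b)) L := by
  intro x hx y hy
  rcases hL x hx with ⟨p, hp, rfl⟩ | ⟨p, hp, q, hq, rfl⟩ <;>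
  rcases hL y hy with ⟨r, hr, rfl⟩ | ⟨r, hr, t, ht, rfl⟩
  · refine ⟨?_, Iff.rfl⟩
    simpa using hK.2 p hp r hr
  · refine ⟨by simp, ?_⟩
    change p.1 ∈ s(r.1, t.1) ↔ p.2 ∈ s(r.2, t.2)
    rw [Sym2.mem_iff, Sym2.mem_iff, hK.2 p hp r hr, hK.2 p hp t ht]
  · refine ⟨by simp, ?_⟩
    change r.1 ∈ s(p.1, q.1) ↔ r.2 ∈ s(p.2, q.2)
    rw [Sym2.mem_iff, Sym2.mem_iff, hK.2 r hr p hp, hK.2 r hr q hq]
  · refine ⟨?_, Iff.rfl⟩
    simp only [Sum.inr.injEq, Sym2.eq_iff]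
    rw [hK.2 p hp r hr, hK.2 q hq t ht, hK.2 p hp t ht, hK.2 q hq r hr]

/-- two extensions give an extension by a body -/
theorem body_forth {P0 P1 P2 : List ((V ⊕ Fin b) × (V' ⊕ Fin b)) → Prop}
    (h1 : ∀ K, P0 K → ∀ z, ∃ z', P1 ((z, z') :: K))
    (h2 : ∀ K, P1 K → ∀ z, ∃ z', P2 ((z, z') :: K))
    {K : List ((V ⊕ Fin b) × (V' ⊕ Fin b))} (hK : P0 K)
    (x : (V ⊕ Fin b) ⊕ Sym2 (V ⊕ Fin b)) :
    ∃ x' K', P2 K' ∧ (∀ p ∈ K, p ∈ K') ∧ Gn K' (x, x') := by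
  rcases x with z | e
  · obtain ⟨z', hz'⟩ := h1 K hK z
    obtain ⟨z'', hz''⟩ := h2 _ hz' z
    refine ⟨.inl z', _, hz'', ?_, Or.inl ⟨(z, z'), by simp, rfl⟩⟩
    intro p hp
    exact List.mem_cons_of_mem _ (List.mem_cons_of_mem _ hp)
  · induction e using Sym2.ind with
    | _ z w =>
      obtain ⟨z', hz'⟩ := h1 K hK z
      obtain ⟨w', hw'⟩ := h2 _ hz' w
      refine ⟨.inr s(z', w'), _, hw', ?_, Or.inr ⟨(z, z'), by simp, (w, w'), by simp, rfl⟩⟩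
      intro p hp
      exact List.mem_cons_of_mem _ (List.mem_cons_of_mem _ hp)

theorem body_back {P0 P1 P2 : List ((V ⊕ Fin b) × (V' ⊕ Fin b)) → Prop}
    (h1 : ∀ K, P0 K → ∀ z', ∃ z, P1 ((z, z') :: K))
    (h2 : ∀ K, P1 K → ∀ z', ∃ z, P2 ((z, z') :: K))
    {K : List ((V ⊕ Fin b) × (V' ⊕ Fin b))} (hK : P0 K)
    (x' : (V' ⊕ Fin b) ⊕ Sym2 (V' ⊕ Fin b)) :
    ∃ x K', P2 K' ∧ (∀ p ∈ K, p ∈ K') ∧ Gn K' (x, x') := by
  rcases x' with z' | e
  · obtain ⟨z, hz⟩ := h1 K hK z'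
    obtain ⟨z'', hz''⟩ := h2 _ hz z'
    refine ⟨.inl z, _, hz'', ?_, Or.inl ⟨(z, z'), by simp, rfl⟩⟩
    intro p hp
    exact List.mem_cons_of_mem _ (List.mem_cons_of_mem _ hp)
  · induction e using Sym2.ind with
    | _ z' w' =>
      obtain ⟨z, hz⟩ := h1 K hK z'
      obtain ⟨w, hw⟩ := h2 _ hz w'
      refine ⟨.inr s(z, w), _, hw, ?_, Or.inr ⟨(z, z'), by simp, (w, w'), by simp, rfl⟩⟩
      intro p hp
      exact List.mem_cons_of_mem _ (List.mem_cons_of_mem _ hp)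

theorem ct_late {s q : ℕ} (hq : q ≤ s) {K : List ((V ⊕ Fin b) × (V' ⊕ Fin b))} (hK : Lt K)
    {x : (V ⊕ Fin b) ⊕ Sym2 (V ⊕ Fin b)} {x' : (V' ⊕ Fin b) ⊕ Sym2 (V' ⊕ Fin b)}
    (h : Gn K (x, x')) : ct s X f x = ct s Y g x' ∨ (q ≤ ct s X f x ∧ q ≤ ct s Y g x') := by
  rcases h with ⟨p, hp, h⟩ | ⟨p, hp, r, hr, h⟩
  · left
    obtain ⟨rfl, rfl⟩ := Prod.mk.inj h
    rcases hK.1 p hp with ⟨v, v', rfl⟩ | ⟨i, rfl⟩
    · rfl
    · rfl
  · right
    obtain ⟨rfl, rfl⟩ := Prod.mk.inj h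
    exact ⟨hq.trans (ct_ge _ _ _ _), hq.trans (ct_ge _ _ _ _)⟩

theorem ct_early {s j : ℕ} {K : List ((V ⊕ Fin b) × (V' ⊕ Fin b))} (hK : Ey X f Y g j K)
    {x : (V ⊕ Fin b) ⊕ Sym2 (V ⊕ Fin b)} {x' : (V' ⊕ Fin b) ⊕ Sym2 (V' ⊕ Fin b)}
    (h : Gn K (x, x')) : ct s X f x = ct s Y g x' := by
  rcases h with ⟨p, hp, h⟩ | ⟨p, hp, r, hr, h⟩
  · obtain ⟨rfl, rfl⟩ := Prod.mk.inj h
    rcases hK.lt.1 p hp with ⟨v, v', rfl⟩ | ⟨i, rfl⟩
    · rfl
    · rfl
  · obtain ⟨rfl, rfl⟩ := Prod.mk.inj h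
    have := hK.hid p hp r hr
    by_cases hh : (Hg X f).Adj p.1 r.1
    · rw [ct_pos hh, ct_pos (this.1 hh)]
    · rw [ct_neg hh, ct_neg (fun h => hh (this.2 h))]

theorem bg_late {s : ℕ} {N : ℕ} (hV : Big V N) (hV' : Big V' N) (q : ℕ) :
    q ≤ s → ∀ (K : List ((V ⊕ Fin b) × (V' ⊕ Fin b)))
      (L : List (((V ⊕ Fin b) ⊕ Sym2 (V ⊕ Fin b)) × ((V' ⊕ Fin b) ⊕ Sym2 (V' ⊕ Fin b)))),
      Lt K → (∀ x ∈ L, Gn K x) → K.length + 2 * q ≤ N →
      BG (Bg (V ⊕ Fin b)) (ct s X f) (Bg (V' ⊕ Fin b)) (ct s Y g) q L := by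
  induction q with
  | zero => intro _ K L hK hL _; exact Gn.pi hK hL
  | succ q ih =>
    intro hq K L hK hL hN
    refine ⟨Gn.pi hK hL, ?_, ?_⟩
    · intro x
      obtain ⟨x', K', h1, h2, h3⟩ := body_forth
        (P0 := fun K => Lt K ∧ K.length + 2 * q + 2 ≤ N)
        (P1 := fun K => Lt K ∧ K.length + 2 * q + 1 ≤ N)
        (P2 := fun K => Lt K ∧ K.length + 2 * q ≤ N)
        (fun K hK z => by
          obtain ⟨z', hz'⟩ := hK.1.forth (n := N) (by omega) hV' z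
          exact ⟨z', hz', by have := hK.2; simp only [List.length_cons]; omega⟩)
        (fun K hK z => by
          obtain ⟨z', hz'⟩ := hK.1.forth (n := N) (by omega) hV' z
          exact ⟨z', hz', by have := hK.2; simp only [List.length_cons]; omega⟩)
        (K := K) ⟨hK, by omega⟩ x
      refine ⟨x', ct_late hq h1.1 h3, ih (by omega) K' _ h1.1 ?_ h1.2⟩
      intro y hy
      rcases List.mem_cons.1 hy with rfl | hy
      · exact h3
      · exact (hL y hy).mono h2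
    · intro x'
      obtain ⟨x, K', h1, h2, h3⟩ := body_back
        (P0 := fun K => Lt K ∧ K.length + 2 * q + 2 ≤ N)
        (P1 := fun K => Lt K ∧ K.length + 2 * q + 1 ≤ N)
        (P2 := fun K => Lt K ∧ K.length + 2 * q ≤ N)
        (fun K hK z => by
          obtain ⟨z', hz'⟩ := hK.1.back (n := N) (by omega) hV z
          exact ⟨z', hz', by have := hK.2; simp only [List.length_cons]; omega⟩)
        (fun K hK z => by
          obtain ⟨z', hz'⟩ := hK.1.back (n := N) (by omega) hV z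
          exact ⟨z', hz', by have := hK.2; simp only [List.length_cons]; omega⟩)
        (K := K) ⟨hK, by omega⟩ x'
      refine ⟨x, ct_late hq h1.1 h3, ih (by omega) K' _ h1.1 ?_ h1.2⟩
      intro y hy
      rcases List.mem_cons.1 hy with rfl | hy
      · exact h3
      · exact (hL y hy).mono h2

theorem bg_early {s : ℕ} {N : ℕ} (hV : Big V N) (hV' : Big V' N) (j : ℕ) :
    ∀ (K : List ((V ⊕ Fin b) × (V' ⊕ Fin b)))
      (L : List (((V ⊕ Fin b) ⊕ Sym2 (V ⊕ Fin b)) × ((V' ⊕ Fin b) ⊕ Sym2 (V' ⊕ Fin b)))),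
      Ey X f Y g (2 * j) K → (∀ x ∈ L, Gn K x) → K.length + 2 * (s + j) ≤ N →
      BG (Bg (V ⊕ Fin b)) (ct s X f) (Bg (V' ⊕ Fin b)) (ct s Y g) (s + j) L := by
  induction j with
  | zero =>
    intro K L hK hL hN
    exact bg_late hV hV' s le_rfl K L hK.lt hL (by simpa using hN)
  | succ j ih =>
    intro K L hK hL hN
    refine ⟨Gn.pi hK.lt hL, ?_, ?_⟩
    · intro x
      obtain ⟨x', K', h1, h2, h3⟩ := body_forth
        (P0 := fun K => Ey X f Y g (2 * j + 2) K ∧ K.length + 2 * (s + j) + 2 ≤ N)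
        (P1 := fun K => Ey X f Y g (2 * j + 1) K ∧ K.length + 2 * (s + j) + 1 ≤ N)
        (P2 := fun K => Ey X f Y g (2 * j) K ∧ K.length + 2 * (s + j) ≤ N)
        (fun K hK z => by
          obtain ⟨z', hz'⟩ := hK.1.forth z
          exact ⟨z', hz', by have := hK.2; simp only [List.length_cons]; omega⟩)
        (fun K hK z => by
          obtain ⟨z', hz'⟩ := hK.1.forth z
          exact ⟨z', hz', by have := hK.2; simp only [List.length_cons]; omega⟩)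
        (K := K) ⟨hK, by omega⟩ x
      refine ⟨x', Or.inl (ct_early h1.1 h3), ih K' _ h1.1 ?_ h1.2⟩
      intro y hy
      rcases List.mem_cons.1 hy with rfl | hy
      · exact h3
      · exact (hL y hy).mono h2
    · intro x'
      obtain ⟨x, K', h1, h2, h3⟩ := body_back
        (P0 := fun K => Ey X f Y g (2 * j + 2) K ∧ K.length + 2 * (s + j) + 2 ≤ N)
        (P1 := fun K => Ey X f Y g (2 * j + 1) K ∧ K.length + 2 * (s + j) + 1 ≤ N)
        (P2 := fun K => Ey X f Y g (2 * j) K ∧ K.length + 2 * (s + j) ≤ N)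
        (fun K hK z => by
          obtain ⟨z', hz'⟩ := hK.1.back z
          exact ⟨z', hz', by have := hK.2; simp only [List.length_cons]; omega⟩)
        (fun K hK z => by
          obtain ⟨z', hz'⟩ := hK.1.back z
          exact ⟨z', hz', by have := hK.2; simp only [List.length_cons]; omega⟩)
        (K := K) ⟨hK, by omega⟩ x'
      refine ⟨x, Or.inl (ct_early h1.1 h3), ih K' _ h1.1 ?_ h1.2⟩
      intro y hy
      rcases List.mem_cons.1 hy with rfl | hy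
      · exact h3
      · exact (hL y hy).mono h2

/-- hiding preserves equivalence with many more rounds -/
theorem hide {s j : ℕ} (hV : Big V (2 * (s + j))) (hV' : Big V' (2 * (s + j)))
    (h : RE X f Y g (2 * j) []) : EF (Gam s X f) (Gam s Y g) (s + j) [] := by
  apply pend
  refine bg_early hV hV' j [] [] ⟨[], h, by simp⟩ (by simp) (by simp)

end Pool.Agent.H88R3
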