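import Mathlib
import Pool.Agent.H88R3.Gam

set_option autoImplicit false

namespace Pool.Agent.H88R3

variable {W : Type}

/-- degree one -/
def D1 (G : SimpleGraph W) (v : W) : Prop :=
  (∃ u, G.Adj v u) ∧ ∀ u u', G.Adj v u → G.Adj v u' → u = u'

open Classical in
/-- the number of neighbours of degree one -/
noncomputable def np [Fintype W] (G : SimpleGraph W) (v : W) : ℕ :=
  (Finset.univ.filter fun u => G.Adj v u ∧ D1 G u).card

/-- cells and constants -/
def isZ [Fintype W] (b : ℕ) (G : SimpleGraph W) (v : W) : Prop := ¬ D1 G v ∧ np G v ≤ b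

/-- connectors -/
def isC [Fintype W] (s : ℕ) (G : SimpleGraph W) (v : W) : Prop := s ≤ np G v

theorem isC.not_D1 [Fintype W] {s : ℕ} (hs : 2 ≤ s) {G : SimpleGraph W} {v : W}
    (h : isC s G v) : ¬ D1 G v := by
  classical
  intro hd
  have h1 : 1 < (Finset.univ.filter fun u => G.Adj v u ∧ D1 G u).card :=
    lt_of_lt_of_le (by omega) (show 2 ≤ np G v from hs.trans h)
  obtain ⟨u, hu, u', hu', hne⟩ := Finset.one_lt_card.1 h1
  rw [Finset.mem_filter] at hu hu'
  exact hne (hd.2 u u' hu.2.1 hu'.2.1)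

theorem isZ.not_C [Fintype W] {b s : ℕ} (hs : b < s) {G : SimpleGraph W} {v : W}
    (h : isZ b G v) : ¬ isC s G v := by
  intro h2
  have := h.2
  unfold isC at h2
  omega

/-- the data which determine the graph -/
theorem build [Fintype W] {Z : Type} {b s : ℕ} (hbs : b < s) (hs : 2 ≤ s)
    (H : SimpleGraph W) (c : Z ⊕ Sym2 Z → ℕ) (ψ : Z → W) (hinj : Function.Injective ψ)
    (hψ : ∀ w, isZ b H w ↔ ∃ z, ψ z = w)
    (h1 : ∀ w, D1 H w ∨ isZ b H w ∨ isC s H w)
    (h2 : ∀ u v, D1 H u → H.Adj u v → ¬ D1 H v)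
    (h3 : ∀ u v, H.Adj u v → ¬ D1 H u → ¬ D1 H v → (isZ b H u ∧ isC s H v) ∨
      (isC s H u ∧ isZ b H v))
    (hA : ∀ w, isC s H w → ∃ x y, isZ b H x ∧ isZ b H y ∧
      ∀ z, isZ b H z → (H.Adj w z ↔ z = x ∨ z = y))
    (hB : ∀ x y, isZ b H x → isZ b H y → ∃ w, isC s H w ∧
      ∀ z, isZ b H z → (H.Adj w z ↔ z = x ∨ z = y))
    (hC : ∀ x y w w', isZ b H x → isZ b H y → isC s H w → isC s H w' →
      (∀ z, isZ b H z → (H.Adj w z ↔ z = x ∨ z = y)) →
      (∀ z, isZ b H z → (H.Adj w' z ↔ z = x ∨ z = y)) → w = w')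
    (c1 : ∀ z, np H (ψ z) = c (.inl z))
    (c2 : ∀ z z' w, isC s H w → (∀ x, isZ b H x → (H.Adj w x ↔ x = ψ z ∨ x = ψ z')) →
      np H w = c (.inr s(z, z'))) :
    Nonempty (PG (Bg Z) c ≃g H) := by
  classical
  have hψZ : ∀ z, isZ b H (ψ z) := fun z => (hψ _).2 ⟨z, rfl⟩
  have hκ : ∀ e : Sym2 Z, ∃ w, isC s H w ∧ (∀ z, H.Adj w (ψ z) ↔ z ∈ e) ∧
      np H w = c (.inr e) := by
    intro e
    induction e using Sym2.ind with
    | _ z z' =>
      obtain ⟨w, hw, hw'⟩ := hB (ψ z) (ψ z') (hψZ z) (hψZ z')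
      refine ⟨w, hw, ?_, c2 z z' w hw hw'⟩
      intro x
      rw [hw' _ (hψZ x), Sym2.mem_iff, hinj.eq_iff, hinj.eq_iff]
  choose κ hκ1 hκ2 hκ3 using hκ
  have hκinj : Function.Injective κ := by
    intro e e' he
    apply Sym2.ext
    intro z
    rw [← hκ2, ← hκ2, he]
  let β : Z ⊕ Sym2 Z → W := Sum.elim ψ κ
  have hβD : ∀ x, ¬ D1 H (β x) := by
    rintro (z | e)
    · exact (hψZ z).1
    · exact (hκ1 e).not_D1 hs
  have hβinj : Function.Injective β := by
    rintro (z | e) (z' | e') h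
    · exact congrArg _ (hinj h)
    · have h' : ψ z = κ e' := h
      exact absurd (by rw [h']; exact hκ1 e') ((hψZ z).not_C hbs)
    · have h' : κ e = ψ z' := h
      exact absurd (by rw [← h']; exact hκ1 e) ((hψZ z').not_C hbs)
    · exact congrArg _ (hκinj h)
  have hβc : ∀ x, np H (β x) = c x := by
    rintro (z | e)
    · exact c1 z
    · exact hκ3 e
  have hβs : ∀ w, ¬ D1 H w → ∃ x, β x = w := by
    intro w hw
    rcases h1 w with h | h | h
    · exact absurd h hw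
    · obtain ⟨z, hz⟩ := (hψ w).1 h
      exact ⟨.inl z, hz⟩
    · obtain ⟨x, y, hx, hy, hxy⟩ := hA w h
      obtain ⟨z, rfl⟩ := (hψ x).1 hx
      obtain ⟨z', rfl⟩ := (hψ y).1 hy
      refine ⟨.inr s(z, z'), ?_⟩
      refine hC (ψ z) (ψ z') _ _ hx hy (hκ1 _) h ?_ hxy
      intro a ha
      obtain ⟨t, rfl⟩ := (hψ a).1 ha
      change H.Adj (κ s(z, z')) (ψ t) ↔ _
      rw [hκ2, Sym2.mem_iff, hinj.eq_iff, hinj.eq_iff]
  have hadj : ∀ x y, (Bg Z).Adj x y ↔ H.Adj (β x) (β y) := by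
    rintro (z | e) (z' | e')
    · refine iff_of_false (fun h => h) ?_
      intro h
      rcases h3 _ _ h (hβD _) (hβD _) with h | h
      · exact (hψZ z').not_C hbs h.2
      · exact (hψZ z).not_C hbs h.1
    · change z ∈ e' ↔ H.Adj (ψ z) (κ e')
      rw [← hκ2, SimpleGraph.adj_comm]
    · change z' ∈ e ↔ H.Adj (κ e) (ψ z')
      rw [← hκ2]
    · refine iff_of_false (fun h => h) ?_
      intro h
      rcases h3 _ _ h (hβD _) (hβD _) with h | h
      · exact h.1.not_C hbs (hκ1 e)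
      · exact h.2.not_C hbs (hκ1 e')
  have hπ : ∀ x, Nonempty (Fin (c x) ≃ {u : W // H.Adj (β x) u ∧ D1 H u}) := by
    intro x
    refine ⟨Fintype.equivOfCardEq ?_⟩
    rw [Fintype.card_fin, Fintype.card_subtype, ← hβc x]
    rfl
  let π := fun x => (hπ x).some
  let Ψ : ((Z ⊕ Sym2 Z) ⊕ (Σ x, Fin (c x))) → W
    | .inl x => β x
    | .inr p => (π p.1 p.2).val
  have hπ1 : ∀ x i, H.Adj (β x) (π x i).val := fun x i => (π x i).2.1
  have hπ2 : ∀ x i, D1 H (π x i).val := fun x i => (π x i).2.2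
  have hΨi : Function.Injective Ψ := by
    rintro (x | ⟨x, i⟩) (y | ⟨y, j⟩) h
    · exact congrArg _ (hβinj h)
    · have h' : β x = (π y j).val := h
      exact absurd (by rw [h']; exact hπ2 y j) (hβD x)
    · have h' : (π x i).val = β y := h
      exact absurd (by rw [← h']; exact hπ2 x i) (hβD y)
    · have h' : (π x i).val = (π y j).val := h
      have h4 : β x = β y := by
        refine (hπ2 x i).2 _ _ (hπ1 x i).symm ?_
        rw [h']
        exact (hπ1 y j).symm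
      have h5 := hβinj h4
      subst h5
      have h6 := (π x).injective (Subtype.ext h')
      subst h6
      rfl
  have hΨs : Function.Surjective Ψ := by
    intro w
    by_cases hw : D1 H w
    · obtain ⟨u, hu⟩ := hw.1
      obtain ⟨x, rfl⟩ := hβs u (h2 w u hw hu)
      obtain ⟨i, hi⟩ := (π x).surjective ⟨w, hu.symm, hw⟩
      refine ⟨.inr ⟨x, i⟩, ?_⟩
      change (π x i).val = w
      rw [hi]
    · obtain ⟨x, hx⟩ := hβs w hw
      exact ⟨.inl x, hx⟩
  refine ⟨⟨Equiv.ofBijective Ψ ⟨hΨi, hΨs⟩, ?_⟩⟩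
  rintro (x | ⟨x, i⟩) (y | ⟨y, j⟩)
  · exact (hadj x y).symm
  · change H.Adj (β x) (π y j).val ↔ y = x
    constructor
    · intro h
      exact hβinj ((hπ2 y j).2 _ _ (hπ1 y j).symm h.symm)
    · rintro rfl
      exact hπ1 y j
  · change H.Adj (π x i).val (β y) ↔ x = y
    constructor
    · intro h
      exact hβinj ((hπ2 x i).2 _ _ (hπ1 x i).symm h)
    · rintro rfl
      exact (hπ1 x i).symm
  · refine iff_of_false ?_ (fun h => h)
    intro h
    exact h2 _ _ (hπ2 x i) h (hπ2 y j)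

end Pool.Agent.H88R3
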