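import Mathlib
import Pool.Agent.H88R3.Build

set_option autoImplicit false

namespace Pool.Agent.H88R3

section basics
variable {U W : Type} {G : SimpleGraph U} {H : SimpleGraph W} {n : ℕ} {l : List (U × W)}

theorem EF.pi (h : EF G H n l) : PI G H l := by
  cases n with
  | zero => exact h
  | succ n => exact h.1

theorem EF.f (h : EF G H (n + 1) l) (u : U) : ∃ w, EF G H n ((u, w) :: l) := h.2.1 u

theorem EF.b (h : EF G H (n + 1) l) (w : W) : ∃ u, EF G H n ((u, w) :: l) := h.2.2 w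

theorem EF.mono1 : ∀ {l : List (U × W)}, EF G H (n + 1) l → EF G H n l := by
  induction n with
  | zero => intro l h; exact h.1
  | succ n ih =>
    intro l h
    refine ⟨h.1, fun v => ?_, fun w => ?_⟩
    · obtain ⟨w, hw⟩ := h.f v
      exact ⟨w, ih hw⟩
    · obtain ⟨v, hv⟩ := h.b w
      exact ⟨v, ih hv⟩

theorem EF.mono {m : ℕ} (hnm : m ≤ n) (h : EF G H n l) : EF G H m l := by
  induction n with
  | zero =>
    have : m = 0 := by omega
    subst this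
    exact h
  | succ n ih =>
    rcases Nat.lt_or_ge m (n + 1) with h1 | h1
    · exact ih (by omega) h.mono1
    · have : m = n + 1 := by omega
      subst this
      exact h

theorem EF.swap : ∀ {l : List (U × W)}, EF G H n l → EF H G n (l.map Prod.swap) := by
  induction n with
  | zero => intro l h; exact PI.swap h
  | succ n ih =>
    intro l h
    refine ⟨PI.swap h.1, fun w => ?_, fun u => ?_⟩
    · obtain ⟨u, hu⟩ := h.b w
      exact ⟨u, ih hu⟩
    · obtain ⟨w, hw⟩ := h.f u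
      exact ⟨w, ih hw⟩

theorem EF.D1 {u : U} {w : W} (h : EF G H (n + 2) l) (hp : (u, w) ∈ l) (hd : D1 G u) :
    D1 H w := by
  obtain ⟨⟨u1, hu1⟩, hd⟩ := hd
  constructor
  · obtain ⟨w1, hw1⟩ := h.f u1
    refine ⟨w1, ?_⟩
    exact ((hw1.pi (u, w) (List.mem_cons_of_mem _ hp) (u1, w1) (by simp)).2).1 hu1
  · intro w1 w2 h1 h2
    obtain ⟨v1, hv1⟩ := h.b w1
    obtain ⟨v2, hv2⟩ := hv1.b w2
    have hh := hv2.pi
    have e1 := ((hh (u, w) (by simp [hp]) (v1, w1) (by simp)).2).2 h1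
    have e2 := ((hh (u, w) (by simp [hp]) (v2, w2) (by simp)).2).2 h2
    exact ((hh (v1, w1) (by simp) (v2, w2) (by simp)).1).1 (hd v1 v2 e1 e2)

theorem EF.D1_iff {u : U} {w : W} (h : EF G H n l) (hn : 2 ≤ n) (hp : (u, w) ∈ l) :
    H88R3.D1 G u ↔ H88R3.D1 H w := by
  obtain ⟨m, rfl⟩ : ∃ m, n = m + 2 := ⟨n - 2, by omega⟩
  constructor
  · exact h.D1 hp
  · have h' := h.swap
    exact h'.D1 (List.mem_map.2 ⟨(u, w), hp, rfl⟩)

theorem EF.np_aux {u : U} {w : W} (k : ℕ) : ∀ {l : List (U × W)}, EF G H (k + 2) l →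
    (u, w) ∈ l → ∀ A : Finset U, A.card = k → (∀ x ∈ A, G.Adj u x ∧ H88R3.D1 G x) →
    ∃ A' : Finset W, A'.card = k ∧ (∀ x ∈ A', H.Adj w x ∧ H88R3.D1 H x) ∧
      ∀ x ∈ A', ∀ p ∈ l, p.2 = x → p.1 ∈ A := by
  classical
  induction k with
  | zero =>
    intro l _ _ A hA _
    exact ⟨∅, by simp, by simp, by simp⟩
  | succ k ih =>
    intro l h hp A hA hA'
    obtain ⟨x, hx⟩ : A.Nonempty := by
      rw [← Finset.card_pos]
      omega
    obtain ⟨y, hy⟩ := EF.f (n := k + 2) h x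
    obtain ⟨A', h1, h2, h3⟩ := ih hy (List.mem_cons_of_mem _ hp) (A.erase x)
      (by rw [Finset.card_erase_of_mem hx, hA]; rfl)
      (fun z hz => hA' z (Finset.mem_of_mem_erase hz))
    have hyA : y ∉ A' := by
      intro hy'
      have := h3 y hy' (x, y) (by simp) rfl
      exact Finset.notMem_erase x A this
    refine ⟨insert y A', ?_, ?_, ?_⟩
    · rw [Finset.card_insert_of_notMem hyA, h1]
    · intro z hz
      rcases Finset.mem_insert.1 hz with rfl | hz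
      · refine ⟨((hy.pi (u, w) (List.mem_cons_of_mem _ hp) (x, z) (by simp)).2).1 (hA' x hx).1, ?_⟩
        exact hy.D1 (by simp) (hA' x hx).2
      · exact h2 z hz
    · intro z hz p hpl hpz
      rcases Finset.mem_insert.1 hz with rfl | hz
      · have := ((hy.pi p (List.mem_cons_of_mem _ hpl) (x, z) (by simp)).1).2 hpz
        rw [this]
        exact hx
      · exact Finset.mem_of_mem_erase (h3 z hz p (List.mem_cons_of_mem _ hpl) hpz)

variable [Fintype U] [Fintype W]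

theorem EF.np_le {u : U} {w : W} {k : ℕ} (h : EF G H n l) (hn : k + 2 ≤ n) (hp : (u, w) ∈ l)
    (hk : k ≤ np G u) : k ≤ np H w := by
  classical
  obtain ⟨A, hA, hA'⟩ := Finset.exists_subset_card_eq hk
  obtain ⟨A', h1, h2, _⟩ := (h.mono hn).np_aux k hp A hA' (by
    intro x hx
    have := hA hx
    rw [Finset.mem_filter] at this
    exact this.2)
  rw [← h1]
  refine Finset.card_le_card ?_
  intro x hx
  rw [Finset.mem_filter]
  exact ⟨Finset.mem_univ _, h2 x hx⟩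

theorem EF.np_le_iff {u : U} {w : W} {k : ℕ} (h : EF G H n l) (hn : k + 2 ≤ n)
    (hp : (u, w) ∈ l) : k ≤ np G u ↔ k ≤ np H w := by
  refine ⟨h.np_le hn hp, ?_⟩
  exact h.swap.np_le hn (List.mem_map.2 ⟨(u, w), hp, rfl⟩)

theorem EF.np_eq_iff {u : U} {w : W} {k : ℕ} (h : EF G H n l) (hn : k + 3 ≤ n)
    (hp : (u, w) ∈ l) : np G u = k ↔ np H w = k := by
  have h1 := h.np_le_iff (k := k) (by omega) hp
  have h2 := h.np_le_iff (k := k + 1) (by omega) hp
  omega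

/-- all the invariants -/
theorem tr {b s : ℕ} (h : EF G H n l) (hn : s + 4 ≤ n) (hbs : b < s) {u : U} {w : W}
    (hp : (u, w) ∈ l) : (H88R3.D1 G u ↔ H88R3.D1 H w) ∧ (isZ b G u ↔ isZ b H w) ∧
      (isC s G u ↔ isC s H w) ∧ ∀ k, k ≤ s + 1 → (np G u = k ↔ np H w = k) := by
  refine ⟨h.D1_iff (by omega) hp, ?_, h.np_le_iff (by omega) hp,
    fun k hk => h.np_eq_iff (by omega) hp⟩
  unfold isZ
  have h1 := h.D1_iff (by omega) hp
  have h2 := h.np_le_iff (k := b + 1) (by omega) hp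
  rw [h1]
  have h3 : np G u ≤ b ↔ np H w ≤ b := by omega
  rw [h3]

end basics

section gam
variable {Z : Type} {c : Z ⊕ Sym2 Z → ℕ} {b s : ℕ}

theorem g_D1 (hZ : ∀ z : Z, ∃ w, w ≠ z) (hs : 2 ≤ s) (hc2 : ∀ e, s ≤ c (.inr e))
    {u : (Z ⊕ Sym2 Z) ⊕ (Σ x, Fin (c x))} : D1 (PG (Bg Z) c) u ↔ ∃ p, u = .inr p := by
  constructor
  · intro h
    rcases u with (z | e) | p
    · exfalso
      obtain ⟨w, hw⟩ := hZ z
      have h1 : (PG (Bg Z) c).Adj (.inl (.inl z)) (.inl (.inr s(z, z))) :=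
        Sym2.mem_mk_left z z
      have h2 : (PG (Bg Z) c).Adj (.inl (.inl z)) (.inl (.inr s(z, w))) :=
        Sym2.mem_mk_left z w
      have := h.2 _ _ h1 h2
      simp only [Sum.inl.injEq, Sum.inr.injEq] at this
      have h3 : w ∈ s(z, z) := by rw [this]; exact Sym2.mem_mk_right z w
      simp at h3
      exact hw h3
    · exfalso
      have hce := hc2 e
      have h1 : (PG (Bg Z) c).Adj (.inl (.inr e)) (.inr ⟨.inr e, ⟨0, by omega⟩⟩) := rfl
      have h2 : (PG (Bg Z) c).Adj (.inl (.inr e)) (.inr ⟨.inr e, ⟨1, by omega⟩⟩) := rfl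
      have := h.2 _ _ h1 h2
      simp at this
    · exact ⟨p, rfl⟩
  · rintro ⟨p, rfl⟩
    refine ⟨⟨.inl p.1, rfl⟩, ?_⟩
    rintro (x | q) (y | r) h1 h2
    · have h1 : p.1 = x := h1
      have h2 : p.1 = y := h2
      rw [← h1, ← h2]
    · exact absurd h2 (fun h => h)
    · exact absurd h1 (fun h => h)
    · exact absurd h1 (fun h => h)

variable [Fintype ((Z ⊕ Sym2 Z) ⊕ (Σ x, Fin (c x)))]

theorem g_np (hZ : ∀ z : Z, ∃ w, w ≠ z) (hs : 2 ≤ s) (hc2 : ∀ e, s ≤ c (.inr e))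
    (x : Z ⊕ Sym2 Z) : np (PG (Bg Z) c) (.inl x) = c x := by
  classical
  unfold np
  have e : (Finset.univ.filter fun u => (PG (Bg Z) c).Adj (.inl x) u ∧ D1 (PG (Bg Z) c) u) =
      (Finset.univ : Finset (Fin (c x))).map
        ⟨fun i => (Sum.inr ⟨x, i⟩ : (Z ⊕ Sym2 Z) ⊕ (Σ x, Fin (c x))), by
          intro i j hij
          simpa using hij⟩ := by
    ext u
    simp only [Finset.mem_filter, Finset.mem_univ, true_and, Finset.mem_map,
      Function.Embedding.coeFn_mk]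
    constructor
    · rintro ⟨h1, h2⟩
      obtain ⟨⟨y, i⟩, rfl⟩ := (g_D1 hZ hs hc2).1 h2
      have h1 : y = x := h1
      subst h1
      exact ⟨i, rfl⟩
    · rintro ⟨i, rfl⟩
      exact ⟨rfl, (g_D1 hZ hs hc2).2 ⟨_, rfl⟩⟩
  rw [e, Finset.card_map, Finset.card_univ, Fintype.card_fin]

theorem g_np' (hZ : ∀ z : Z, ∃ w, w ≠ z) (hs : 2 ≤ s) (hc2 : ∀ e, s ≤ c (.inr e))
    (p : Σ x, Fin (c x)) : np (PG (Bg Z) c) (.inr p) = 0 := by
  classical
  unfold np
  rw [Finset.card_eq_zero, Finset.filter_eq_empty_iff]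
  rintro u _ ⟨h1, h2⟩
  obtain ⟨q, rfl⟩ := (g_D1 hZ hs hc2).1 h2
  exact h1

theorem g_isC (hZ : ∀ z : Z, ∃ w, w ≠ z) (hs : 2 ≤ s) (hbs : b < s)
    (hc1 : ∀ z, c (.inl z) ≤ b) (hc2 : ∀ e, s ≤ c (.inr e))
    {u : (Z ⊕ Sym2 Z) ⊕ (Σ x, Fin (c x))} :
    isC s (PG (Bg Z) c) u ↔ ∃ e, u = .inl (.inr e) := by
  unfold isC
  constructor
  · intro h
    rcases u with (z | e) | p
    · rw [g_np hZ hs hc2] at h
      have := hc1 z
      omega
    · exact ⟨e, rfl⟩
    · rw [g_np' hZ hs hc2] at h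
      omega
  · rintro ⟨e, rfl⟩
    rw [g_np hZ hs hc2]
    exact hc2 e

theorem g_isZ (hZ : ∀ z : Z, ∃ w, w ≠ z) (hs : 2 ≤ s) (hbs : b < s)
    (hc1 : ∀ z, c (.inl z) ≤ b) (hc2 : ∀ e, s ≤ c (.inr e))
    {u : (Z ⊕ Sym2 Z) ⊕ (Σ x, Fin (c x))} :
    isZ b (PG (Bg Z) c) u ↔ ∃ z, u = .inl (.inl z) := by
  unfold isZ
  constructor
  · rintro ⟨h1, h2⟩
    rcases u with (z | e) | p
    · exact ⟨z, rfl⟩
    · rw [g_np hZ hs hc2] at h2
      have := hc2 e
      omega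
    · exact absurd ((g_D1 hZ hs hc2).2 ⟨p, rfl⟩) h1
  · rintro ⟨z, rfl⟩
    refine ⟨?_, ?_⟩
    · intro h
      obtain ⟨p, hp⟩ := (g_D1 hZ hs hc2).1 h
      simp at hp
    · rw [g_np hZ hs hc2]
      exact hc1 z

end gam

end Pool.Agent.H88R3
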