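import Mathlib
import Pool.Agent.H88R3.Inv

set_option autoImplicit false

set_option linter.unusedSectionVars false

namespace Pool.Agent.H88R3

section gen
variable {Z W : Type} {c : Z ⊕ Sym2 Z → ℕ} {b s : ℕ} {H : SimpleGraph W}
  [Fintype ((Z ⊕ Sym2 Z) ⊕ (Σ x, Fin (c x)))] [Fintype W]

variable (hZ : ∀ z : Z, ∃ w, w ≠ z) (hs : 2 ≤ s) (hbs : b < s)
  (hc1 : ∀ z, c (.inl z) ≤ b) (hc2 : ∀ e, s ≤ c (.inr e)) (hc3 : ∀ e, c (.inr e) ≤ s + 1)
  (h : EF (PG (Bg Z) c) H (s + 10) [])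

include hZ hs hbs hc1 hc2 h

theorem x_h1 (w : W) : D1 H w ∨ isZ b H w ∨ isC s H w := by
  obtain ⟨u, hu⟩ := EF.b (n := s + 9) h w
  have ht := tr hu (by omega) hbs (u := u) (w := w) (by simp)
  rw [← ht.1, ← ht.2.1, ← ht.2.2.1, g_D1 hZ hs hc2, g_isZ hZ hs hbs hc1 hc2,
    g_isC hZ hs hbs hc1 hc2]
  rcases u with (z | e) | p
  · exact Or.inr (Or.inl ⟨z, rfl⟩)
  · exact Or.inr (Or.inr ⟨e, rfl⟩)
  · exact Or.inl ⟨p, rfl⟩

theorem x_h2 (u v : W) (hu : D1 H u) (huv : H.Adj u v) : ¬ D1 H v := by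
  obtain ⟨u', hu'⟩ := EF.b (n := s + 9) h u
  obtain ⟨v', hv'⟩ := EF.b (n := s + 8) hu' v
  have t1 := tr hv' (by omega) hbs (u := u') (w := u) (by simp)
  have t2 := tr hv' (by omega) hbs (u := v') (w := v) (by simp)
  have t3 := (hv'.pi (u', u) (by simp) (v', v) (by simp)).2.2 huv
  rw [← t1.1, g_D1 hZ hs hc2] at hu
  rw [← t2.1, g_D1 hZ hs hc2]
  rintro ⟨p, rfl⟩
  obtain ⟨q, rfl⟩ := hu
  exact t3

theorem x_h3 (u v : W) (huv : H.Adj u v) (hu : ¬ D1 H u) (hv : ¬ D1 H v) :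
    (isZ b H u ∧ isC s H v) ∨ (isC s H u ∧ isZ b H v) := by
  obtain ⟨u', hu'⟩ := EF.b (n := s + 9) h u
  obtain ⟨v', hv'⟩ := EF.b (n := s + 8) hu' v
  have t1 := tr hv' (by omega) hbs (u := u') (w := u) (by simp)
  have t2 := tr hv' (by omega) hbs (u := v') (w := v) (by simp)
  have t3 := (hv'.pi (u', u) (by simp) (v', v) (by simp)).2.2 huv
  rw [← t1.1, g_D1 hZ hs hc2] at hu
  rw [← t2.1, g_D1 hZ hs hc2] at hv
  rw [← t1.2.1, ← t2.2.1, ← t1.2.2.1, ← t2.2.2.1, g_isZ hZ hs hbs hc1 hc2,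
    g_isC hZ hs hbs hc1 hc2, g_isZ hZ hs hbs hc1 hc2, g_isC hZ hs hbs hc1 hc2]
  rcases u' with (z | e) | p
  · rcases v' with (z' | e') | p'
    · exact absurd t3 (fun h => h)
    · exact Or.inl ⟨⟨z, rfl⟩, ⟨e', rfl⟩⟩
    · exact absurd ⟨p', rfl⟩ hv
  · rcases v' with (z' | e') | p'
    · exact Or.inr ⟨⟨e, rfl⟩, ⟨z', rfl⟩⟩
    · exact absurd t3 (fun h => h)
    · exact absurd ⟨p', rfl⟩ hv
  · exact absurd ⟨p, rfl⟩ hu

/-- pulling back the neighbours of a connector -/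
theorem x_nb {n : ℕ} {l : List (((Z ⊕ Sym2 Z) ⊕ (Σ x, Fin (c x))) × W)}
    (hl : EF (PG (Bg Z) c) H (n + 1) l) (hn : s + 4 ≤ n) {e : Sym2 Z} {w : W}
    (he : (.inl (.inr e), w) ∈ l) {z z' : Z} {x y : W} (hx : (.inl (.inl z), x) ∈ l)
    (hy : (.inl (.inl z'), y) ∈ l) :
    (∀ t, isZ b H t → (H.Adj w t ↔ t = x ∨ t = y)) ↔ e = s(z, z') := by
  constructor
  · intro hh
    apply Sym2.ext
    intro a
    obtain ⟨t, ht⟩ := hl.f (.inl (.inl a))
    have t1 := tr ht hn hbs (u := .inl (.inl a)) (w := t) (by simp)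
    have t2 := hh t (t1.2.1.1 ((g_isZ hZ hs hbs hc1 hc2).2 ⟨a, rfl⟩))
    have t3 := (ht.pi (.inl (.inr e), w) (by simp [he]) (.inl (.inl a), t) (by simp)).2
    have t4 := (ht.pi (.inl (.inl a), t) (by simp) (.inl (.inl z), x) (by simp [hx])).1
    have t5 := (ht.pi (.inl (.inl a), t) (by simp) (.inl (.inl z'), y) (by simp [hy])).1
    simp only [Sum.inl.injEq] at t4 t5
    rw [← t4, ← t5, ← t3] at t2
    rw [Sym2.mem_iff]
    exact t2
  · rintro rfl t hZt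
    obtain ⟨a, ha⟩ := hl.b t
    have t1 := tr ha hn hbs (u := a) (w := t) (by simp)
    obtain ⟨a, rfl⟩ := (g_isZ hZ hs hbs hc1 hc2).1 (t1.2.1.2 hZt)
    have t3 := (ha.pi (.inl (.inr s(z, z')), w) (by simp [he]) (.inl (.inl a), t) (by simp)).2
    have t4 := (ha.pi (.inl (.inl a), t) (by simp) (.inl (.inl z), x) (by simp [hx])).1
    have t5 := (ha.pi (.inl (.inl a), t) (by simp) (.inl (.inl z'), y) (by simp [hy])).1
    simp only [Sum.inl.injEq] at t4 t5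
    rw [← t4, ← t5, ← t3]
    exact Sym2.mem_iff

theorem x_hA (w : W) (hw : isC s H w) : ∃ x y, isZ b H x ∧ isZ b H y ∧
    ∀ z, isZ b H z → (H.Adj w z ↔ z = x ∨ z = y) := by
  obtain ⟨u, hu⟩ := EF.b (n := s + 9) h w
  have t1 := tr hu (by omega) hbs (u := u) (w := w) (by simp)
  obtain ⟨e, rfl⟩ := (g_isC hZ hs hbs hc1 hc2).1 (t1.2.2.1.2 hw)
  induction e using Sym2.ind with
  | _ z z' =>
    obtain ⟨x, hx⟩ := EF.f (n := s + 8) hu (.inl (.inl z))
    obtain ⟨y, hy⟩ := EF.f (n := s + 7) hx (.inl (.inl z'))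
    have t2 := tr hy (by omega) hbs (u := .inl (.inl z)) (w := x) (by simp)
    have t3 := tr hy (by omega) hbs (u := .inl (.inl z')) (w := y) (by simp)
    refine ⟨x, y, t2.2.1.1 ((g_isZ hZ hs hbs hc1 hc2).2 ⟨z, rfl⟩),
      t3.2.1.1 ((g_isZ hZ hs hbs hc1 hc2).2 ⟨z', rfl⟩), ?_⟩
    exact (x_nb hZ hs hbs hc1 hc2 h (n := s + 6) hy (by omega) (e := s(z, z')) (by simp)
      (by simp) (by simp)).2 rfl

theorem x_hB (x y : W) (hx : isZ b H x) (hy : isZ b H y) : ∃ w, isC s H w ∧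
    ∀ z, isZ b H z → (H.Adj w z ↔ z = x ∨ z = y) := by
  obtain ⟨u, hu⟩ := EF.b (n := s + 9) h x
  obtain ⟨v, hv⟩ := EF.b (n := s + 8) hu y
  have t1 := tr hv (by omega) hbs (u := u) (w := x) (by simp)
  have t2 := tr hv (by omega) hbs (u := v) (w := y) (by simp)
  obtain ⟨z, rfl⟩ := (g_isZ hZ hs hbs hc1 hc2).1 (t1.2.1.2 hx)
  obtain ⟨z', rfl⟩ := (g_isZ hZ hs hbs hc1 hc2).1 (t2.2.1.2 hy)
  obtain ⟨w, hw⟩ := EF.f (n := s + 7) hv (.inl (.inr s(z, z')))
  have t3 := tr hw (by omega) hbs (u := .inl (.inr s(z, z'))) (w := w) (by simp)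
  refine ⟨w, t3.2.2.1.1 ((g_isC hZ hs hbs hc1 hc2).2 ⟨_, rfl⟩), ?_⟩
  exact (x_nb hZ hs hbs hc1 hc2 h (n := s + 6) hw (by omega) (e := s(z, z')) (by simp)
    (z := z) (z' := z') (by simp) (by simp)).2 rfl

theorem x_hC (x y w w' : W) (hx : isZ b H x) (hy : isZ b H y) (hw : isC s H w)
    (hw' : isC s H w') (h1 : ∀ z, isZ b H z → (H.Adj w z ↔ z = x ∨ z = y))
    (h2 : ∀ z, isZ b H z → (H.Adj w' z ↔ z = x ∨ z = y)) : w = w' := by
  obtain ⟨u, hu⟩ := EF.b (n := s + 9) h x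
  obtain ⟨v, hv⟩ := EF.b (n := s + 8) hu y
  obtain ⟨p, hp⟩ := EF.b (n := s + 7) hv w
  obtain ⟨q, hq⟩ := EF.b (n := s + 6) hp w'
  have t1 := tr hq (by omega) hbs (u := u) (w := x) (by simp)
  have t2 := tr hq (by omega) hbs (u := v) (w := y) (by simp)
  have t3 := tr hq (by omega) hbs (u := p) (w := w) (by simp)
  have t4 := tr hq (by omega) hbs (u := q) (w := w') (by simp)
  obtain ⟨z, rfl⟩ := (g_isZ hZ hs hbs hc1 hc2).1 (t1.2.1.2 hx)
  obtain ⟨z', rfl⟩ := (g_isZ hZ hs hbs hc1 hc2).1 (t2.2.1.2 hy)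
  obtain ⟨e, rfl⟩ := (g_isC hZ hs hbs hc1 hc2).1 (t3.2.2.1.2 hw)
  obtain ⟨e', rfl⟩ := (g_isC hZ hs hbs hc1 hc2).1 (t4.2.2.1.2 hw')
  have e1 := (x_nb hZ hs hbs hc1 hc2 h (n := s + 5) hq (by omega) (e := e) (w := w) (by simp)
    (z := z) (z' := z') (x := x) (y := y) (by simp) (by simp)).1 h1
  have e2 := (x_nb hZ hs hbs hc1 hc2 h (n := s + 5) hq (by omega) (e := e') (w := w') (by simp)
    (z := z) (z' := z') (x := x) (y := y) (by simp) (by simp)).1 h2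
  have := (hq.pi (.inl (.inr e), w) (by simp) (.inl (.inr e'), w') (by simp)).1
  rw [e1, e2] at this
  exact this.1 rfl

/-- the count of a connector -/
theorem x_cnt (w : W) (hw : isC s H w) (x y : W) (hx : isZ b H x) (hy : isZ b H y)
    (h1 : ∀ z, isZ b H z → (H.Adj w z ↔ z = x ∨ z = y)) :
    ∃ z z' : Z, np H x = c (.inl z) ∧ np H y = c (.inl z') ∧ (x = y ↔ z = z') ∧
      ∀ k ≤ s + 1, (np H w = k ↔ c (.inr s(z, z')) = k) := by
  obtain ⟨u, hu⟩ := EF.b (n := s + 9) h x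
  obtain ⟨v, hv⟩ := EF.b (n := s + 8) hu y
  obtain ⟨p, hp⟩ := EF.b (n := s + 7) hv w
  have t1 := tr hp (by omega) hbs (u := u) (w := x) (by simp)
  have t2 := tr hp (by omega) hbs (u := v) (w := y) (by simp)
  have t3 := tr hp (by omega) hbs (u := p) (w := w) (by simp)
  obtain ⟨z, rfl⟩ := (g_isZ hZ hs hbs hc1 hc2).1 (t1.2.1.2 hx)
  obtain ⟨z', rfl⟩ := (g_isZ hZ hs hbs hc1 hc2).1 (t2.2.1.2 hy)
  obtain ⟨e, rfl⟩ := (g_isC hZ hs hbs hc1 hc2).1 (t3.2.2.1.2 hw)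
  have e1 := (x_nb hZ hs hbs hc1 hc2 h (n := s + 6) hp (by omega) (e := e) (w := w) (by simp)
    (z := z) (z' := z') (x := x) (y := y) (by simp) (by simp)).1 h1
  have b1 := hc1 z
  have b2 := hc1 z'
  refine ⟨z, z', ?_, ?_, ?_, ?_⟩
  · refine (t1.2.2.2 _ (by omega)).1 ?_
    rw [g_np hZ hs hc2]
  · refine (t2.2.2.2 _ (by omega)).1 ?_
    rw [g_np hZ hs hc2]
  · have := (hp.pi (.inl (.inl z), x) (by simp) (.inl (.inl z'), y) (by simp)).1
    simp only [Sum.inl.injEq] at this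
    exact this.symm
  · intro k hk
    rw [← t3.2.2.2 k hk, g_np hZ hs hc2, e1]

end gen

section spec
variable {V W : Type} {b s : ℕ} {X : SimpleGraph V} {f : V → Fin b → Bool} {H : SimpleGraph W}

theorem ct1 (z : V ⊕ Fin b) : ct s X f (.inl z) ≤ b := by
  rcases z with v | i
  · exact Nat.zero_le _
  · exact i.2

theorem ct3 (e : Sym2 (V ⊕ Fin b)) : ct s X f (.inr e) ≤ s + 1 := by
  induction e using Sym2.ind with
  | _ z z' =>
    by_cases hh : (Hg X f).Adj z z'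
    · rw [ct_pos hh]
    · rw [ct_neg hh]; omega

/-- cells of the other graph -/
def Cel [Fintype W] (H : SimpleGraph W) : Type := {w : W // ¬ D1 H w ∧ np H w = 0}

/-- the decoded graph -/
def Yg [Fintype W] (s : ℕ) (H : SimpleGraph W) : SimpleGraph (Cel H) where
  Adj x y := x ≠ y ∧ ∃ e, isC s H e ∧ H.Adj e x.val ∧ H.Adj e y.val ∧ np H e = s + 1
  symm := by
    constructor
    rintro x y ⟨h1, e, h2, h3, h4, h5⟩
    exact ⟨h1.symm, e, h2, h4, h3, h5⟩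
  loopless := by
    constructor
    rintro x ⟨h1, _⟩
    exact h1 rfl

open Classical in
/-- the decoded labels -/
noncomputable def Yf [Fintype W] (b s : ℕ) (H : SimpleGraph W) (x : Cel H) (i : Fin b) : Bool :=
  decide (∃ e c', isC s H e ∧ H.Adj e x.val ∧ H.Adj e c' ∧ isZ b H c' ∧ np H c' = i.val + 1 ∧
    np H e = s + 1)

theorem Yf_iff [Fintype W] (b s : ℕ) (H : SimpleGraph W) (x : Cel H) (i : Fin b) :
    Yf b s H x i = true ↔ ∃ e c', isC s H e ∧ H.Adj e x.val ∧ H.Adj e c' ∧ isZ b H c' ∧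
      np H c' = i.val + 1 ∧ np H e = s + 1 := by
  classical
  unfold Yf
  constructor
  · intro h
    exact of_decide_eq_true h
  · intro h
    exact decide_eq_true h

variable [Fintype (((V ⊕ Fin b) ⊕ Sym2 (V ⊕ Fin b)) ⊕ (Σ x, Fin (ct s X f x)))] [Fintype W]

theorem two_mem {Z : Type} {z z' : Z} (hne : z ≠ z') {e : Sym2 Z} (h1 : z ∈ e) (h2 : z' ∈ e) :
    e = s(z, z') := (Sym2.mem_and_mem_iff hne).1 ⟨h1, h2⟩

theorem re_pl (hZ : ∀ z : V ⊕ Fin b, ∃ w, w ≠ z) (hs : 2 ≤ s) (hbs : b < s) {n : ℕ}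
    {K : List (V × Cel H)}
    (h : EF (Gam s X f) H n
      (K.map fun p => (Sum.inl (Sum.inl (Sum.inl p.1)), p.2.val))) (hn : s + 6 ≤ n) :
    PL X f (Yg s H) (Yf b s H) K := by
  have hc1 := ct1 (s := s) (X := X) (f := f)
  have hc2 := ct_ge s X f
  have hmem : ∀ p ∈ K, (Sum.inl (Sum.inl (Sum.inl p.1)), p.2.val) ∈
      (K.map fun p => ((Sum.inl (Sum.inl (Sum.inl p.1)) :
        ((V ⊕ Fin b) ⊕ Sym2 (V ⊕ Fin b)) ⊕ (Σ x, Fin (ct s X f x))), p.2.val)) :=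
    fun p hp => List.mem_map.2 ⟨p, hp, rfl⟩
  have h : EF (Gam s X f) H (s + 6) _ := h.mono hn
  intro p hp
  constructor
  · funext i
    rw [Bool.eq_iff_iff]
    rw [Yf_iff]
    constructor
    · intro hf
      obtain ⟨e', he'⟩ := EF.f (n := s + 5) h (.inl (.inr s(.inl p.1, .inr i)))
      obtain ⟨c', hc'⟩ := EF.f (n := s + 4) he' (.inl (.inl (.inr i)))
      have t1 := tr hc' (by omega) hbs (u := .inl (.inr s(.inl p.1, .inr i))) (w := e') (by simp)
      have t2 := tr hc' (by omega) hbs (u := .inl (.inl (.inr i))) (w := c') (by simp)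
      refine ⟨e', c', t1.2.2.1.1 ((g_isC hZ hs hbs hc1 hc2).2 ⟨_, rfl⟩), ?_, ?_,
        t2.2.1.1 ((g_isZ hZ hs hbs hc1 hc2).2 ⟨_, rfl⟩), ?_, ?_⟩
      · refine ((hc'.pi (.inl (.inr s(.inl p.1, .inr i)), e') (by simp)
          (.inl (.inl (.inl p.1)), p.2.val) ?_).2).1 ?_
        · exact List.mem_cons_of_mem _ (List.mem_cons_of_mem _ (hmem p hp))
        · exact Sym2.mem_mk_left _ _
      · exact ((hc'.pi (.inl (.inr s(.inl p.1, .inr i)), e') (by simp)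
          (.inl (.inl (.inr i)), c') (by simp)).2).1 (Sym2.mem_mk_right _ _)
      · refine (t2.2.2.2 _ (by omega)).1 ?_
        unfold Gam
        rw [g_np hZ hs hc2]
        rfl
      · refine (t1.2.2.2 _ le_rfl).1 ?_
        unfold Gam
        rw [g_np hZ hs hc2]
        exact ct_pos hf
    · rintro ⟨e', c', h1, h2, h3, h4, h5, h6⟩
      obtain ⟨e0, he0⟩ := EF.b (n := s + 5) h e'
      obtain ⟨c0, hc0⟩ := EF.b (n := s + 4) he0 c'
      have t1 := tr hc0 (by omega) hbs (u := e0) (w := e') (by simp)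
      have t2 := tr hc0 (by omega) hbs (u := c0) (w := c') (by simp)
      obtain ⟨ε, rfl⟩ := (g_isC hZ hs hbs hc1 hc2).1 (t1.2.2.1.2 h1)
      obtain ⟨z, rfl⟩ := (g_isZ hZ hs hbs hc1 hc2).1 (t2.2.1.2 h4)
      have h5' := (t2.2.2.2 _ (by omega)).2 h5
      have h6' := (t1.2.2.2 _ le_rfl).2 h6
      unfold Gam at h5' h6'
      rw [g_np hZ hs hc2] at h5' h6'
      have hz : z = .inr i := by
        rcases z with v | k
        · exact absurd h5' (by simp [ct])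
        · simp only [ct] at h5'
          exact congrArg _ (Fin.ext (by omega))
      subst hz
      have a1 := ((hc0.pi (.inl (.inr ε), e') (by simp)
          (.inl (.inl (.inl p.1)), p.2.val)
          (List.mem_cons_of_mem _ (List.mem_cons_of_mem _ (hmem p hp)))).2).2 h2
      have a2 := ((hc0.pi (.inl (.inr ε), e') (by simp)
          (.inl (.inl (.inr i)), c') (by simp)).2).2 h3
      have hε : ε = s(.inl p.1, .inr i) := two_mem (by simp) a1 a2
      subst hε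
      by_contra hno
      have : ¬ (Hg X f).Adj (.inl p.1) (.inr i) := hno
      rw [ct_neg this] at h6'
      omega
  · intro q hq
    have hpq := (h.pi _ (hmem p hp) _ (hmem q hq)).1
    simp only [Sum.inl.injEq] at hpq
    have hpq' : p.1 = q.1 ↔ p.2 = q.2 := hpq.trans Subtype.ext_iff.symm
    refine ⟨hpq', ?_⟩
    constructor
    · intro hadj
      obtain ⟨e', he'⟩ := EF.f (n := s + 5) h (.inl (.inr s(.inl p.1, .inl q.1)))
      have t1 := tr he' (by omega) hbs (u := .inl (.inr s(.inl p.1, .inl q.1))) (w := e')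
        (by simp)
      refine ⟨fun hh => hadj.ne (hpq'.2 hh), e',
        t1.2.2.1.1 ((g_isC hZ hs hbs hc1 hc2).2 ⟨_, rfl⟩), ?_, ?_, ?_⟩
      · exact ((he'.pi (.inl (.inr s(.inl p.1, .inl q.1)), e') (by simp)
          (.inl (.inl (.inl p.1)), p.2.val) (List.mem_cons_of_mem _ (hmem p hp))).2).1
          (Sym2.mem_mk_left _ _)
      · exact ((he'.pi (.inl (.inr s(.inl p.1, .inl q.1)), e') (by simp)
          (.inl (.inl (.inl q.1)), q.2.val) (List.mem_cons_of_mem _ (hmem q hq))).2).1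
          (Sym2.mem_mk_right _ _)
      · refine (t1.2.2.2 _ le_rfl).1 ?_
        unfold Gam
        rw [g_np hZ hs hc2]
        exact ct_pos hadj
    · rintro ⟨hne, e', h1, h2, h3, h6⟩
      obtain ⟨e0, he0⟩ := EF.b (n := s + 5) h e'
      have t1 := tr he0 (by omega) hbs (u := e0) (w := e') (by simp)
      obtain ⟨ε, rfl⟩ := (g_isC hZ hs hbs hc1 hc2).1 (t1.2.2.1.2 h1)
      have h6' := (t1.2.2.2 _ le_rfl).2 h6
      unfold Gam at h6'
      rw [g_np hZ hs hc2] at h6'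
      have a1 := ((he0.pi (.inl (.inr ε), e') (by simp)
          (.inl (.inl (.inl p.1)), p.2.val) (List.mem_cons_of_mem _ (hmem p hp))).2).2 h2
      have a2 := ((he0.pi (.inl (.inr ε), e') (by simp)
          (.inl (.inl (.inl q.1)), q.2.val) (List.mem_cons_of_mem _ (hmem q hq))).2).2 h3
      have hε : ε = s(.inl p.1, .inl q.1) :=
        two_mem (fun hh => hne (hpq'.1 (Sum.inl.inj hh))) a1 a2
      subst hε
      by_contra hno
      have : ¬ (Hg X f).Adj (.inl p.1) (.inl q.1) := hno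
      rw [ct_neg this] at h6'
      omega

theorem re_of (hZ : ∀ z : V ⊕ Fin b, ∃ w, w ≠ z) (hs : 2 ≤ s) (hbs : b < s) (j : ℕ) :
    ∀ (K : List (V × Cel H)), EF (Gam s X f) H (s + 6 + j)
      (K.map fun p => (Sum.inl (Sum.inl (Sum.inl p.1)), p.2.val)) →
    RE X f (Yg s H) (Yf b s H) j K := by
  have hc1 := ct1 (s := s) (X := X) (f := f)
  have hc2 := ct_ge s X f
  induction j with
  | zero => intro K h; exact re_pl hZ hs hbs h (by omega)
  | succ j ih =>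
    intro K h
    refine ⟨re_pl hZ hs hbs h (by omega), ?_, ?_⟩
    · intro v
      obtain ⟨w, hw⟩ := EF.f (n := s + 6 + j) h (.inl (.inl (.inl v)))
      have t1 := tr hw (by omega) hbs (u := .inl (.inl (.inl v))) (w := w) (by simp)
      have t2 : np (Gam s X f) (.inl (.inl (.inl v))) = 0 := by
        unfold Gam
        rw [g_np hZ hs hc2]
        rfl
      exact ⟨⟨w, (t1.2.1.1 ((g_isZ hZ hs hbs hc1 hc2).2 ⟨_, rfl⟩)).1,
        (t1.2.2.2 0 (by omega)).1 t2⟩, ih _ hw⟩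
    · intro w
      obtain ⟨u, hu⟩ := EF.b (n := s + 6 + j) h w.val
      have t1 := tr hu (by omega) hbs (u := u) (w := w.val) (by simp)
      have t2 : isZ b H w.val := ⟨w.2.1, by rw [w.2.2]; omega⟩
      obtain ⟨z, rfl⟩ := (g_isZ hZ hs hbs hc1 hc2).1 (t1.2.1.2 t2)
      have t3 := (t1.2.2.2 0 (by omega)).2 w.2.2
      unfold Gam at t3
      rw [g_np hZ hs hc2] at t3
      rcases z with v | i
      · exact ⟨v, ih _ hu⟩
      · exact absurd t3 (by simp [ct])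

end spec

end Pool.Agent.H88R3
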