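import Mathlib
import Pool.Agent.H88R3.Extr

set_option autoImplicit false
set_option linter.unusedSectionVars false

namespace Pool.Agent.H88R3

variable {V W : Type} {b s : ℕ} {X : SimpleGraph V} {f : V → Fin b → Bool} {H : SimpleGraph W}
variable [Fintype (((V ⊕ Fin b) ⊕ Sym2 (V ⊕ Fin b)) ⊕ (Σ x, Fin (ct s X f x)))] [Fintype W]

theorem extract_iso (hZ : ∀ z : V ⊕ Fin b, ∃ w, w ≠ z) (hs : 2 ≤ s) (hbs : b < s)
    (h : EF (Gam s X f) H (s + 10) []) (φ : V ≃ Cel H)
    (h1 : ∀ x y, X.Adj x y ↔ (Yg s H).Adj (φ x) (φ y)) (h2 : ∀ x, f x = Yf b s H (φ x)) :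
    Nonempty (Gam s X f ≃g H) := by
  have hc1 := ct1 (s := s) (X := X) (f := f)
  have hc2 := ct_ge s X f
  have h : EF (PG (Bg (V ⊕ Fin b)) (ct s X f)) H (s + 10) [] := h
  have hκ : ∀ i : Fin b, ∃ w, isZ b H w ∧ np H w = i.val + 1 := by
    intro i
    obtain ⟨w, hw⟩ := EF.f (n := s + 9) h (.inl (.inl (.inr i)))
    have t1 := tr hw (by omega) hbs (u := .inl (.inl (.inr i))) (w := w) (by simp)
    refine ⟨w, t1.2.1.1 ((g_isZ hZ hs hbs hc1 hc2).2 ⟨_, rfl⟩), ?_⟩
    refine (t1.2.2.2 _ (by omega)).1 ?_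
    rw [g_np hZ hs hc2]
    rfl
  have hU : ∀ w w', isZ b H w → isZ b H w' → np H w = np H w' → 1 ≤ np H w → w = w' := by
    intro w w' hw hw' hn hp
    obtain ⟨u, hu⟩ := EF.b (n := s + 9) h w
    obtain ⟨v, hv⟩ := EF.b (n := s + 8) hu w'
    have t1 := tr hv (by omega) hbs (u := u) (w := w) (by simp)
    have t2 := tr hv (by omega) hbs (u := v) (w := w') (by simp)
    obtain ⟨z, rfl⟩ := (g_isZ hZ hs hbs hc1 hc2).1 (t1.2.1.2 hw)
    obtain ⟨z', rfl⟩ := (g_isZ hZ hs hbs hc1 hc2).1 (t2.2.1.2 hw')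
    have e1 := (t1.2.2.2 (np H w) (by have := hw.2; omega)).2 rfl
    have e2 := (t2.2.2.2 (np H w') (by have := hw'.2; omega)).2 rfl
    rw [g_np hZ hs hc2] at e1 e2
    refine ((hv.pi (.inl (.inl z), w) (by simp) (.inl (.inl z'), w') (by simp)).1).1 ?_
    rcases z with x | i
    · simp only [ct] at e1; omega
    · rcases z' with x' | j
      · simp only [ct] at e2; omega
      · simp only [ct] at e1 e2
        have : i = j := Fin.ext (by omega)
        rw [this]
  choose κ hκ1 hκ2 using hκ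
  have hφZ : ∀ x, isZ b H (φ x).val := fun x => ⟨(φ x).2.1, by rw [(φ x).2.2]; omega⟩
  have hval : ∀ w, isC s H w → np H w = s ∨ np H w = s + 1 := by
    intro w hw
    obtain ⟨x, y, hx, hy, hxy⟩ := x_hA hZ hs hbs hc1 hc2 h w hw
    obtain ⟨z, z', _, _, _, hk⟩ := x_cnt hZ hs hbs hc1 hc2 h w hw x y hx hy hxy
    by_cases hh : (Hg X f).Adj z z'
    · right
      exact (hk _ le_rfl).2 (ct_pos hh)
    · left
      exact (hk _ (by omega)).2 (ct_neg hh)
  have hsame : ∀ w a, isC s H w → isZ b H a → (∀ z, isZ b H z → (H.Adj w z ↔ z = a ∨ z = a)) →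
      np H w = s := by
    intro w a hw ha hwa
    obtain ⟨z, z', _, _, he, hk⟩ := x_cnt hZ hs hbs hc1 hc2 h w hw a a ha ha hwa
    have he := he.1 rfl
    subst he
    exact (hk _ (by omega)).2 (ct_neg (SimpleGraph.irrefl _))
  have hcc : ∀ w a a', isC s H w → isZ b H a → isZ b H a' → 1 ≤ np H a → 1 ≤ np H a' →
      (∀ z, isZ b H z → (H.Adj w z ↔ z = a ∨ z = a')) → np H w = s := by
    intro w a a' hw ha ha' hp hp' hwa
    obtain ⟨z, z', e1, e2, he, hk⟩ := x_cnt hZ hs hbs hc1 hc2 h w hw a a' ha ha' hwa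
    refine (hk _ (by omega)).2 (ct_neg ?_)
    rcases z with x | i
    · simp only [ct] at e1; omega
    · rcases z' with x' | j
      · simp only [ct] at e2; omega
      · exact fun hh => hh
  have huniq : ∀ w e a a', isC s H w → isC s H e → isZ b H a → isZ b H a' → a ≠ a' →
      (∀ z, isZ b H z → (H.Adj w z ↔ z = a ∨ z = a')) → H.Adj e a → H.Adj e a' → e = w := by
    intro w e a a' hw he ha ha' hne hwa hea hea'
    obtain ⟨x, y, hx, hy, hxy⟩ := x_hA hZ hs hbs hc1 hc2 h e he
    refine x_hC hZ hs hbs hc1 hc2 h a a' e w ha ha' he hw ?_ hwa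
    intro z hz
    rw [hxy z hz]
    rcases (hxy a ha).1 hea with rfl | rfl <;> rcases (hxy a' ha').1 hea' with rfl | rfl
    · exact absurd rfl hne
    · exact Iff.rfl
    · exact or_comm
    · exact absurd rfl hne
  have hmix : ∀ x i w, isC s H w →
      (∀ t, isZ b H t → (H.Adj w t ↔ t = (φ x).val ∨ t = κ i)) →
      np H w = ct s X f (.inr s(.inl x, .inr i)) := by
    intro x i w hw hwn
    have hne : (φ x).val ≠ κ i := by
      intro hh
      have := (φ x).2.2
      rw [hh, hκ2] at this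
      omega
    by_cases hf : f x i = true
    · have : (Hg X f).Adj (.inl x) (.inr i) := hf
      rw [ct_pos this]
      rw [h2, Yf_iff] at hf
      obtain ⟨e, c', a1, a2, a3, a4, a5, a6⟩ := hf
      have hc' : c' = κ i := hU c' (κ i) a4 (hκ1 i) (by rw [a5, hκ2]) (by omega)
      subst hc'
      have := huniq w e _ _ hw a1 (hφZ x) (hκ1 i) hne hwn a2 a3
      rw [← this]
      exact a6
    · have : ¬ (Hg X f).Adj (.inl x) (.inr i) := hf
      rw [ct_neg this]
      rcases hval w hw with h3 | h3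
      · exact h3
      · exfalso
        apply hf
        rw [h2, Yf_iff]
        exact ⟨w, κ i, hw, (hwn _ (hφZ x)).2 (Or.inl rfl), (hwn _ (hκ1 i)).2 (Or.inr rfl),
          hκ1 i, hκ2 i, h3⟩
  refine build (Z := V ⊕ Fin b) (b := b) (s := s) hbs hs H (ct s X f)
    (Sum.elim (fun v => (φ v).val) κ) ?_ ?_ (x_h1 hZ hs hbs hc1 hc2 h)
    (x_h2 hZ hs hbs hc1 hc2 h) (x_h3 hZ hs hbs hc1 hc2 h) (x_hA hZ hs hbs hc1 hc2 h)
    (x_hB hZ hs hbs hc1 hc2 h) (x_hC hZ hs hbs hc1 hc2 h) ?_ ?_
  · rintro (x | i) (y | j) hxy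
    · exact congrArg _ (φ.injective (Subtype.ext hxy))
    · exfalso
      have hxy : (φ x).val = κ j := hxy
      have := (φ x).2.2
      rw [hxy, hκ2] at this
      omega
    · exfalso
      have hxy : κ i = (φ y).val := hxy
      have := (φ y).2.2
      rw [← hxy, hκ2] at this
      omega
    · have hxy : κ i = κ j := hxy
      have := hκ2 i
      rw [hxy, hκ2] at this
      exact congrArg _ (Fin.ext (by omega))
  · intro w
    constructor
    · intro hw
      rcases Nat.eq_zero_or_pos (np H w) with h0 | h0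
      · obtain ⟨x, hx⟩ := φ.surjective (⟨w, hw.1, h0⟩ : Cel H)
        refine ⟨.inl x, ?_⟩
        change (φ x).val = w
        rw [hx]
      · have hb := hw.2
        refine ⟨.inr ⟨np H w - 1, by omega⟩, ?_⟩
        have hk : np H (κ ⟨np H w - 1, by omega⟩) = np H w := by
          rw [hκ2]
          simp only
          omega
        exact hU _ _ (hκ1 _) hw hk (hk.symm ▸ h0 : 1 ≤ np H (κ ⟨np H w - 1, by omega⟩))
    · rintro ⟨x | i, rfl⟩
      · exact hφZ x
      · exact hκ1 i
  · rintro (x | i)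
    · exact (φ x).2.2
    · exact hκ2 i
  · rintro (x | i) (y | j) w hw hwn
    · change ∀ t, isZ b H t → (H.Adj w t ↔ t = (φ x).val ∨ t = (φ y).val) at hwn
      by_cases hadj : X.Adj x y
      · have : (Hg X f).Adj (.inl x) (.inl y) := hadj
        rw [ct_pos this]
        obtain ⟨hne, e, a1, a2, a3, a4⟩ := (h1 x y).1 hadj
        have := huniq w e _ _ hw a1 (hφZ x) (hφZ y) (fun hh => hne (Subtype.ext hh)) hwn a2 a3
        rw [← this]
        exact a4
      · have : ¬ (Hg X f).Adj (.inl x) (.inl y) := hadj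
        rw [ct_neg this]
        rcases hval w hw with h3 | h3
        · exact h3
        · exfalso
          apply hadj
          rw [h1]
          refine ⟨?_, w, hw, (hwn _ (hφZ x)).2 (Or.inl rfl), (hwn _ (hφZ y)).2 (Or.inr rfl), h3⟩
          intro hxy
          rw [← hxy] at hwn
          have := hsame w _ hw (hφZ x) hwn
          omega
    · exact hmix x j w hw hwn
    · rw [Sym2.eq_swap]
      refine hmix y i w hw ?_
      intro t ht
      rw [or_comm]
      exact hwn t ht
    · change ∀ t, isZ b H t → (H.Adj w t ↔ t = κ i ∨ t = κ j) at hwn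
      have : ¬ (Hg X f).Adj (.inr i) (.inr j) := fun hh => hh
      rw [ct_neg this]
      exact hcc w _ _ hw (hκ1 i) (hκ1 j) (by rw [hκ2]; omega) (by rw [hκ2]; omega) hwn

end Pool.Agent.H88R3
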