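import Mathlib
import Pool.Agent.H88R3.Extr2

set_option autoImplicit false
set_option linter.unusedSectionVars false

namespace Pool.Agent.H88R3

section tra
variable {U W U' W' : Type} {G : SimpleGraph U} {H : SimpleGraph W} {G' : SimpleGraph U'}
  {H' : SimpleGraph W'}

theorem PI.tra (e : G ≃g G') (e' : H ≃g H') {l : List (U × W)} (h : PI G H l) :
    PI G' H' (l.map (Prod.map e e')) := by
  intro p hp q hq
  obtain ⟨p', hp', rfl⟩ := List.mem_map.1 hp
  obtain ⟨q', hq', rfl⟩ := List.mem_map.1 hq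
  obtain ⟨h1, h2⟩ := h p' hp' q' hq'
  refine ⟨?_, ?_⟩
  · change e p'.1 = e q'.1 ↔ e' p'.2 = e' q'.2
    rw [e.injective.eq_iff, e'.injective.eq_iff]
    exact h1
  · change G'.Adj (e p'.1) (e q'.1) ↔ H'.Adj (e' p'.2) (e' q'.2)
    rw [e.map_adj_iff, e'.map_adj_iff]
    exact h2

theorem EF.tra (e : G ≃g G') (e' : H ≃g H') {n : ℕ} : ∀ {l : List (U × W)}, EF G H n l →
    EF G' H' n (l.map (Prod.map e e')) := by
  induction n with
  | zero => intro l h; exact PI.tra e e' h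
  | succ n ih =>
    intro l h
    refine ⟨PI.tra e e' h.1, fun v => ?_, fun w => ?_⟩
    · obtain ⟨w, hw⟩ := h.f (e.symm v)
      refine ⟨e' w, ?_⟩
      have := ih hw
      simpa using this
    · obtain ⟨v, hv⟩ := h.b (e'.symm w)
      refine ⟨e v, ?_⟩
      have := ih hv
      simpa using this

theorem EF.tra0 (e : G ≃g G') (e' : H ≃g H') {n : ℕ} (h : EF G H n []) : EF G' H' n [] :=
  EF.tra e e' h

theorem iso_D1 (e : G ≃g H) {v : U} (h : D1 G v) : D1 H (e v) := by
  obtain ⟨⟨u, hu⟩, h2⟩ := h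
  refine ⟨⟨e u, e.map_adj_iff.2 hu⟩, ?_⟩
  intro a b ha hb
  obtain ⟨a', rfl⟩ := e.surjective a
  obtain ⟨b', rfl⟩ := e.surjective b
  rw [h2 a' b' (e.map_adj_iff.1 ha) (e.map_adj_iff.1 hb)]

theorem iso_D1_iff (e : G ≃g H) {v : U} : D1 G v ↔ D1 H (e v) := by
  refine ⟨iso_D1 e, fun h => ?_⟩
  have := iso_D1 e.symm h
  simpa using this

theorem iso_np [Fintype U] [Fintype W] (e : G ≃g H) (v : U) : np G v = np H (e v) := by
  classical
  unfold np
  refine Finset.card_bij (fun u _ => e u) ?_ ?_ ?_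
  · intro u hu
    rw [Finset.mem_filter] at hu ⊢
    exact ⟨Finset.mem_univ _, e.map_adj_iff.2 hu.2.1, iso_D1 e hu.2.2⟩
  · intro u _ u' _ h
    exact e.injective h
  · intro w hw
    rw [Finset.mem_filter] at hw
    obtain ⟨u, rfl⟩ := e.surjective w
    exact ⟨u, by
      rw [Finset.mem_filter]
      exact ⟨Finset.mem_univ _, e.map_adj_iff.1 hw.2.1, (iso_D1_iff e).2 hw.2.2⟩, rfl⟩

/-- isomorphic graphs have equally many cells -/
theorem iso_cel [Fintype U] [Fintype W] (e : G ≃g H) : Nonempty (Cel G ≃ Cel H) := by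
  refine ⟨Equiv.subtypeEquiv e.toEquiv ?_⟩
  intro v
  change (¬ D1 G v ∧ np G v = 0) ↔ (¬ D1 H (e v) ∧ np H (e v) = 0)
  rw [← iso_D1_iff e, iso_np e]

end tra

section cel
variable {V : Type} {b s : ℕ} {X : SimpleGraph V} {f : V → Fin b → Bool}
  [Fintype (((V ⊕ Fin b) ⊕ Sym2 (V ⊕ Fin b)) ⊕ (Σ x, Fin (ct s X f x)))]

theorem cel_gam (hZ : ∀ z : V ⊕ Fin b, ∃ w, w ≠ z) (hs : 2 ≤ s) (hbs : b < s) :
    Nonempty (V ≃ Cel (Gam s X f)) := by
  classical
  have hc1 := ct1 (s := s) (X := X) (f := f)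
  have hc2 := ct_ge s X f
  have h0 : ∀ v : V, ¬ D1 (Gam s X f) (.inl (.inl (.inl v))) ∧
      np (Gam s X f) (.inl (.inl (.inl v))) = 0 := by
    intro v
    refine ⟨((g_isZ hZ hs hbs hc1 hc2).2 ⟨_, rfl⟩).1, ?_⟩
    unfold Gam
    rw [g_np hZ hs hc2]
    rfl
  refine ⟨Equiv.ofBijective (fun v => ⟨.inl (.inl (.inl v)), h0 v⟩) ⟨?_, ?_⟩⟩
  · intro v v' h
    have := congrArg Subtype.val h
    simpa using this
  · rintro ⟨u, h1, h2⟩
    have h3 : isZ b (Gam s X f) u := ⟨h1, by rw [h2]; omega⟩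
    obtain ⟨z, rfl⟩ := (g_isZ hZ hs hbs hc1 hc2).1 h3
    unfold Gam at h2
    rw [g_np hZ hs hc2] at h2
    rcases z with v | i
    · exact ⟨v, rfl⟩
    · exact absurd h2 (by simp [ct])

end cel

section lab
variable {V W L L' : Type} {X : SimpleGraph V} {Y : SimpleGraph W}

theorem RE.lab {f : V → L} {g : W → L} (i : L → L') {n : ℕ} :
    ∀ {l : List (V × W)}, RE X f Y g n l → RE X (fun v => i (f v)) Y (fun w => i (g w)) n l := by
  have hpl : ∀ {l : List (V × W)}, PL X f Y g l →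
      PL X (fun v => i (f v)) Y (fun w => i (g w)) l := by
    intro l h p hp
    exact ⟨congrArg i (h p hp).1, (h p hp).2⟩
  induction n with
  | zero => intro l h; exact hpl h
  | succ n ih =>
    intro l h
    refine ⟨hpl h.1, fun v => ?_, fun w => ?_⟩
    · obtain ⟨w, hw⟩ := h.2.1 v
      exact ⟨w, ih hw⟩
    · obtain ⟨v, hv⟩ := h.2.2 w
      exact ⟨v, ih hv⟩

theorem RE.unlab {f : V → L} {i : L → L'} (hi : Function.Injective i) {g' : W → L'} {n : ℕ}
    (h : RE X (fun v => i (f v)) Y g' (n + 1) []) :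
    ∃ g : W → L, (∀ w, g' w = i (g w)) ∧ RE X f Y g (n + 1) [] := by
  have hex : ∀ w, ∃ a, g' w = i a := by
    intro w
    obtain ⟨v, hv⟩ := h.2.2 w
    exact ⟨f v, ((hv.pl (v, w) (by simp)).1).symm⟩
  choose g hg using hex
  refine ⟨g, hg, ?_⟩
  have hpl : ∀ {l : List (V × W)}, PL X (fun v => i (f v)) Y g' l → PL X f Y g l := by
    intro l h p hp
    refine ⟨?_, (h p hp).2⟩
    have := (h p hp).1
    rw [hg] at this
    exact hi this
  have key : ∀ (n : ℕ) {l : List (V × W)}, RE X (fun v => i (f v)) Y g' n l →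
      RE X f Y g n l := by
    intro n
    induction n with
    | zero => intro l h; exact hpl h
    | succ n ih =>
      intro l h
      refine ⟨hpl h.1, fun v => ?_, fun w => ?_⟩
      · obtain ⟨w, hw⟩ := h.2.1 v
        exact ⟨w, ih hw⟩
      · obtain ⟨v, hv⟩ := h.2.2 w
        exact ⟨v, ih hv⟩
  exact key _ h

end lab

theorem big_of_card {V : Type} [Finite V] {n : ℕ} (h : n ≤ Nat.card V) : Big V n := by
  classical
  intro F hF
  by_contra hno
  push Not at hno
  let _ : Fintype V := Fintype.ofFinite V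
  have : Fintype.card V ≤ F.card := by
    rw [← Finset.card_univ]
    exact Finset.card_le_card fun y _ => hno y
  rw [Nat.card_eq_fintype_card] at h
  omega

end Pool.Agent.H88R3
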