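import Mathlib
import Pool.Agent.H88R3.LG

set_option autoImplicit false

namespace Pool.Agent.H88R3

/-- a labelled graph whose neighbours are determined by types read off from labels -/
structure TG (A L T : Type) where
  G : SimpleGraph A
  lab : A → L
  ty : L → L → T
  ex : L → T → Prop
  det : ∀ x y z, G.Adj x y → G.Adj x z → ty (lab x) (lab y) = ty (lab x) (lab z) → y = z
  ne : ∀ x y, G.Adj x y → lab x ≠ lab y
  ex1 : ∀ x y, G.Adj x y → ex (lab x) (ty (lab x) (lab y))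
  ex2 : ∀ x t, ex (lab x) t → ∃ y, G.Adj x y ∧ ty (lab x) (lab y) = t

/-- a window and its interior -/
structure Wn {A : Type} (G : SimpleGraph A) (F F' : Set A) : Prop where
  sub : ∀ x ∈ F', x ∈ F
  nb : ∀ x ∈ F', ∀ y, G.Adj x y → y ∈ F
  conn : ∀ P : A → Prop, (∀ x ∈ F, ∀ y ∈ F, G.Adj x y → P x → P y) → (∃ x ∈ F, P x) →
    ∀ x ∈ F, P x
  out : ∃ x ∈ F, x ∉ F'

section defs
variable {A T ι : Type}

/-- vertices of the windows -/
abbrev VX (FA : ι → Set A) (FT : ι → Set T) : Type :=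
  {v : ι × A × T // v.2.1 ∈ FA v.1 ∧ v.2.2 ∈ FT v.1}

/-- the graph of the windows -/
def XG (GA : SimpleGraph A) (GT : SimpleGraph T) (FA : ι → Set A) (FT : ι → Set T) :
    SimpleGraph (VX FA FT) where
  Adj v w := v.1.1 = w.1.1 ∧ ((GA.Adj v.1.2.1 w.1.2.1 ∧ v.1.2.2 = w.1.2.2) ∨
    (v.1.2.1 = w.1.2.1 ∧ GT.Adj v.1.2.2 w.1.2.2))
  symm := by
    constructor
    rintro v w ⟨h1, h2 | h2⟩
    · exact ⟨h1.symm, Or.inl ⟨h2.1.symm, h2.2.symm⟩⟩
    · exact ⟨h1.symm, Or.inr ⟨h2.1.symm, h2.2.symm⟩⟩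
  loopless := by
    constructor
    rintro v ⟨_, h2 | h2⟩
    · exact GA.irrefl h2.1
    · exact GT.irrefl h2.2

/-- interior vertices -/
def Nm {FA : ι → Set A} {FT : ι → Set T} (FA' : ι → Set A) (FT' : ι → Set T) (v : VX FA FT) :
    Prop := v.1.2.1 ∈ FA' v.1.1 ∧ v.1.2.2 ∈ FT' v.1.1

variable {LA LT D : Type}

/-- the full label -/
def nl {FA : ι → Set A} {FT : ι → Set T} (la : A → LA) (lt : T → LT) (d : A → T → D)
    (v : VX FA FT) : LA × LT × D := (la v.1.2.1, lt v.1.2.2, d v.1.2.1 v.1.2.2)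

open Classical in
/-- the visible label: boundary vertices have unique ones -/
noncomputable def fX {FA : ι → Set A} {FT : ι → Set T} (FA' : ι → Set A) (FT' : ι → Set T)
    (la : A → LA) (lt : T → LT) (d : A → T → D) (v : VX FA FT) : (LA × LT × D) ⊕ VX FA FT :=
  if Nm FA' FT' v then .inl (nl la lt d v) else .inr v

/-- recovering the full label -/
def vl {FA : ι → Set A} {FT : ι → Set T} (la : A → LA) (lt : T → LT) (d : A → T → D) :
    (LA × LT × D) ⊕ VX FA FT → LA × LT × D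
  | .inl n => n
  | .inr v => nl la lt d v

end defs

section main

variable {A T ι LA LT TA TT D W : Type} {ga : TG A LA TA} {gt : TG T LT TT} {d : A → T → D}
  {FA FA' : ι → Set A} {FT FT' : ι → Set T}
  {Y : SimpleGraph W} {g : W → (LA × LT × D) ⊕ VX FA FT}

theorem fX_nm {v : VX FA FT} (h : Nm FA' FT' v) :
    fX FA' FT' ga.lab gt.lab d v = .inl (nl ga.lab gt.lab d v) := by
  classical
  unfold fX
  exact if_pos h

theorem fX_gb {v : VX FA FT} (h : ¬ Nm FA' FT' v) :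
    fX FA' FT' ga.lab gt.lab d v = .inr v := by
  classical
  unfold fX
  exact if_neg h

theorem fX_inr {v w : VX FA FT} (h : fX FA' FT' ga.lab gt.lab d v = .inr w) :
    v = w ∧ ¬ Nm FA' FT' v := by
  by_cases hn : Nm FA' FT' v
  · rw [fX_nm hn] at h
    simp at h
  · rw [fX_gb hn] at h
    exact ⟨Sum.inr.inj h, hn⟩

theorem fX_inl {v : VX FA FT} {n : LA × LT × D} (h : fX FA' FT' ga.lab gt.lab d v = .inl n) :
    nl ga.lab gt.lab d v = n ∧ Nm FA' FT' v := by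
  by_cases hn : Nm FA' FT' v
  · rw [fX_nm hn] at h
    exact ⟨Sum.inl.inj h, hn⟩
  · rw [fX_gb hn] at h
    simp at h

theorem vl_fX (v : VX FA FT) : vl ga.lab gt.lab d (fX FA' FT' ga.lab gt.lab d v) =
    nl ga.lab gt.lab d v := by
  by_cases hn : Nm FA' FT' v
  · rw [fX_nm hn]; rfl
  · rw [fX_gb hn]; rfl

/-- the label of a vertex of the other graph -/
def vY (ga : TG A LA TA) (gt : TG T LT TT) (d : A → T → D)
    (g : W → (LA × LT × D) ⊕ VX FA FT) (y : W) : LA × LT × D := vl ga.lab gt.lab d (g y)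

/-- edges in the first direction -/
def EA (ga : TG A LA TA) (gt : TG T LT TT) (d : A → T → D) (Y : SimpleGraph W)
    (g : W → (LA × LT × D) ⊕ VX FA FT) (y y' : W) : Prop :=
  Y.Adj y y' ∧ (vY ga gt d g y).1 ≠ (vY ga gt d g y').1

/-- edges in the second direction -/
def ET (ga : TG A LA TA) (gt : TG T LT TT) (d : A → T → D) (Y : SimpleGraph W)
    (g : W → (LA × LT × D) ⊕ VX FA FT) (y y' : W) : Prop :=
  Y.Adj y y' ∧ (vY ga gt d g y).1 = (vY ga gt d g y').1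

theorem pull4 (h : RE (XG ga.G gt.G FA FT) (fX FA' FT' ga.lab gt.lab d) Y g 4 [])
    (y1 y2 y3 y4 : W) : ∃ x1 x2 x3 x4, PL (XG ga.G gt.G FA FT) (fX FA' FT' ga.lab gt.lab d) Y g
      [(x4, y4), (x3, y3), (x2, y2), (x1, y1)] := by
  obtain ⟨x1, h1⟩ := h.2.2 y1
  obtain ⟨x2, h2⟩ := h1.2.2 y2
  obtain ⟨x3, h3⟩ := h2.2.2 y3
  obtain ⟨x4, h4⟩ := h3.2.2 y4
  exact ⟨x1, x2, x3, x4, h4.pl⟩

theorem PL.vl {l : List (VX FA FT × W)}
    (h : PL (XG ga.G gt.G FA FT) (fX FA' FT' ga.lab gt.lab d) Y g l) {x : VX FA FT} {y : W}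
    (hp : (x, y) ∈ l) : vY ga gt d g y = (ga.lab x.1.2.1, gt.lab x.1.2.2, d x.1.2.1 x.1.2.2) := by
  have := (h _ hp).1
  unfold vY
  rw [← this]
  exact vl_fX x

theorem PL.adj {l : List (VX FA FT × W)}
    (h : PL (XG ga.G gt.G FA FT) (fX FA' FT' ga.lab gt.lab d) Y g l) {x x' : VX FA FT} {y y' : W}
    (hp : (x, y) ∈ l) (hp' : (x', y') ∈ l) : (XG ga.G gt.G FA FT).Adj x x' ↔ Y.Adj y y' :=
  ((h _ hp).2 _ hp').2

theorem PL.eq {l : List (VX FA FT × W)}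
    (h : PL (XG ga.G gt.G FA FT) (fX FA' FT' ga.lab gt.lab d) Y g l) {x x' : VX FA FT} {y y' : W}
    (hp : (x, y) ∈ l) (hp' : (x', y') ∈ l) : x = x' ↔ y = y' :=
  ((h _ hp).2 _ hp').1

/-- first-direction edges pull back -/
theorem PL.ea {l : List (VX FA FT × W)}
    (h : PL (XG ga.G gt.G FA FT) (fX FA' FT' ga.lab gt.lab d) Y g l) {x x' : VX FA FT} {y y' : W}
    (hp : (x, y) ∈ l) (hp' : (x', y') ∈ l) :
    EA ga gt d Y g y y' ↔ x.1.1 = x'.1.1 ∧ ga.G.Adj x.1.2.1 x'.1.2.1 ∧ x.1.2.2 = x'.1.2.2 := by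
  unfold EA
  rw [← h.adj hp hp', h.vl hp, h.vl hp']
  constructor
  · rintro ⟨⟨h1, h2 | h2⟩, h3⟩
    · exact ⟨h1, h2⟩
    · exact absurd (by rw [h2.1]) h3
  · rintro ⟨h1, h2, h3⟩
    exact ⟨⟨h1, Or.inl ⟨h2, h3⟩⟩, ga.ne _ _ h2⟩

theorem PL.et {l : List (VX FA FT × W)}
    (h : PL (XG ga.G gt.G FA FT) (fX FA' FT' ga.lab gt.lab d) Y g l) {x x' : VX FA FT} {y y' : W}
    (hp : (x, y) ∈ l) (hp' : (x', y') ∈ l) :
    ET ga gt d Y g y y' ↔ x.1.1 = x'.1.1 ∧ x.1.2.1 = x'.1.2.1 ∧ gt.G.Adj x.1.2.2 x'.1.2.2 := by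
  unfold ET
  rw [← h.adj hp hp', h.vl hp, h.vl hp']
  constructor
  · rintro ⟨⟨h1, h2 | h2⟩, h3⟩
    · exact absurd h3 (ga.ne _ _ h2.1)
    · exact ⟨h1, h2⟩
  · rintro ⟨h1, h2, h3⟩
    exact ⟨⟨h1, Or.inr ⟨h2, h3⟩⟩, by simp only; rw [h2]⟩

variable (h : RE (XG ga.G gt.G FA FT) (fX FA' FT' ga.lab gt.lab d) Y g 4 [])
include h

/-- L1 -/
theorem EA.tau {y y' : W} (he : EA ga gt d Y g y y') :
    (vY ga gt d g y).2.1 = (vY ga gt d g y').2.1 := by
  obtain ⟨x1, x2, x3, x4, hp⟩ := pull4 h y y' y y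
  have := (hp.ea (x := x1) (x' := x2) (by simp) (by simp)).1 he
  rw [hp.vl (x := x1) (by simp), hp.vl (x := x2) (y := y') (by simp)]
  simp only
  rw [this.2.2]

/-- L2 -/
theorem EA.det {y y1 y2 : W} (h1 : EA ga gt d Y g y y1) (h2 : EA ga gt d Y g y y2)
    (ht : ga.ty (vY ga gt d g y).1 (vY ga gt d g y1).1 =
      ga.ty (vY ga gt d g y).1 (vY ga gt d g y2).1) : y1 = y2 := by
  obtain ⟨x1, x2, x3, x4, hp⟩ := pull4 h y y1 y2 y
  have e1 := (hp.ea (x := x1) (x' := x2) (by simp) (by simp)).1 h1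
  have e2 := (hp.ea (x := x1) (x' := x3) (by simp) (by simp)).1 h2
  rw [hp.vl (x := x1) (by simp), hp.vl (x := x2) (y := y1) (by simp),
    hp.vl (x := x3) (y := y2) (by simp)] at ht
  have e3 := ga.det _ _ _ e1.2.1 e2.2.1 ht
  refine (hp.eq (x := x2) (x' := x3) (by simp) (by simp)).1 ?_
  apply Subtype.ext
  refine Prod.ext (e1.1.symm.trans e2.1) (Prod.ext e3 (e1.2.2.symm.trans e2.2.2))

theorem ET.det {y y1 y2 : W} (h1 : ET ga gt d Y g y y1) (h2 : ET ga gt d Y g y y2)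
    (ht : gt.ty (vY ga gt d g y).2.1 (vY ga gt d g y1).2.1 =
      gt.ty (vY ga gt d g y).2.1 (vY ga gt d g y2).2.1) : y1 = y2 := by
  obtain ⟨x1, x2, x3, x4, hp⟩ := pull4 h y y1 y2 y
  have e1 := (hp.et (x := x1) (x' := x2) (by simp) (by simp)).1 h1
  have e2 := (hp.et (x := x1) (x' := x3) (by simp) (by simp)).1 h2
  rw [hp.vl (x := x1) (by simp), hp.vl (x := x2) (y := y1) (by simp),
    hp.vl (x := x3) (y := y2) (by simp)] at ht
  have e3 := gt.det _ _ _ e1.2.2 e2.2.2 ht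
  refine (hp.eq (x := x2) (x' := x3) (by simp) (by simp)).1 ?_
  apply Subtype.ext
  refine Prod.ext (e1.1.symm.trans e2.1) (Prod.ext (e1.2.1.symm.trans e2.2.1) e3)

theorem EA.exl {y y' : W} (he : EA ga gt d Y g y y') :
    ga.ex (vY ga gt d g y).1 (ga.ty (vY ga gt d g y).1 (vY ga gt d g y').1) := by
  obtain ⟨x1, x2, x3, x4, hp⟩ := pull4 h y y' y y
  have := (hp.ea (x := x1) (x' := x2) (by simp) (by simp)).1 he
  rw [hp.vl (x := x1) (by simp), hp.vl (x := x2) (y := y') (by simp)]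
  exact ga.ex1 _ _ this.2.1

theorem ET.exl {y y' : W} (he : ET ga gt d Y g y y') :
    gt.ex (vY ga gt d g y).2.1 (gt.ty (vY ga gt d g y).2.1 (vY ga gt d g y').2.1) := by
  obtain ⟨x1, x2, x3, x4, hp⟩ := pull4 h y y' y y
  have := (hp.et (x := x1) (x' := x2) (by simp) (by simp)).1 he
  rw [hp.vl (x := x1) (by simp), hp.vl (x := x2) (y := y') (by simp)]
  exact gt.ex1 _ _ this.2.2

/-- L3 -/
theorem comm1 {y y1 z z1 : W} (h1 : EA ga gt d Y g y y1) (h2 : ET ga gt d Y g y z)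
    (h3 : ET ga gt d Y g y1 z1)
    (ht : gt.ty (vY ga gt d g y).2.1 (vY ga gt d g z).2.1 =
      gt.ty (vY ga gt d g y1).2.1 (vY ga gt d g z1).2.1) : EA ga gt d Y g z z1 := by
  obtain ⟨x1, x2, x3, x4, hp⟩ := pull4 h y y1 z z1
  have e1 := (hp.ea (x := x1) (x' := x2) (by simp) (by simp)).1 h1
  have e2 := (hp.et (x := x1) (x' := x3) (by simp) (by simp)).1 h2
  have e3 := (hp.et (x := x2) (x' := x4) (by simp) (by simp)).1 h3
  rw [hp.vl (x := x1) (by simp), hp.vl (x := x2) (y := y1) (by simp),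
    hp.vl (x := x3) (y := z) (by simp), hp.vl (x := x4) (y := z1) (by simp)] at ht
  refine (hp.ea (x := x3) (x' := x4) (by simp) (by simp)).2 ?_
  refine ⟨e2.1.symm.trans (e1.1.trans e3.1), ?_, ?_⟩
  · rw [← e2.2.1, ← e3.2.1]
    exact e1.2.1
  · have e4 := e3.2.2
    rw [← e1.2.2] at e4
    simp only at ht
    rw [← e1.2.2] at ht
    exact gt.det _ _ _ e2.2.2 e4 ht

/-- L3' -/
theorem comm2 {y y1 z z1 : W} (h1 : EA ga gt d Y g y y1) (h2 : ET ga gt d Y g y z)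
    (h3 : EA ga gt d Y g z z1) (ht : (vY ga gt d g y1).1 = (vY ga gt d g z1).1) :
    ET ga gt d Y g y1 z1 := by
  obtain ⟨x1, x2, x3, x4, hp⟩ := pull4 h y y1 z z1
  have e1 := (hp.ea (x := x1) (x' := x2) (by simp) (by simp)).1 h1
  have e2 := (hp.et (x := x1) (x' := x3) (by simp) (by simp)).1 h2
  have e3 := (hp.ea (x := x3) (x' := x4) (by simp) (by simp)).1 h3
  rw [hp.vl (x := x2) (y := y1) (by simp), hp.vl (x := x4) (y := z1) (by simp)] at ht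
  refine (hp.et (x := x2) (x' := x4) (by simp) (by simp)).2 ?_
  refine ⟨e1.1.symm.trans (e2.1.trans e3.1), ?_, ?_⟩
  · have e4 := e3.2.1
    rw [← e2.2.1] at e4
    simp only at ht
    exact ga.det _ _ _ e1.2.1 e4 (by rw [ht])
  · rw [← e1.2.2, ← e3.2.2]
    exact e2.2.2

/-- interior vertices have all the neighbours which their labels announce -/
theorem exA (hA : ∀ p, Wn ga.G (FA p) (FA' p)) {y : W} {n : LA × LT × D} (hy : g y = .inl n)
    {t : TA} (ht : ga.ex (vY ga gt d g y).1 t) :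
    ∃ y', EA ga gt d Y g y y' ∧ ga.ty (vY ga gt d g y).1 (vY ga gt d g y').1 = t := by
  obtain ⟨x, hx⟩ := h.2.2 y
  have hp := hx.pl
  have h1 := (hp (x, y) (by simp)).1
  simp only at h1
  rw [hy] at h1
  have h2 := (fX_inl h1).2
  rw [hp.vl (x := x) (by simp)] at ht
  obtain ⟨a, ha, ha'⟩ := ga.ex2 _ _ ht
  obtain ⟨x', hx'⟩ : ∃ x' : VX FA FT, x'.1 = (x.1.1, a, x.1.2.2) :=
    ⟨⟨(x.1.1, a, x.1.2.2), (hA x.1.1).nb _ h2.1 _ ha, x.2.2⟩, rfl⟩
  obtain ⟨y', hy'⟩ := hx.2.1 x'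
  have hp' := hy'.pl
  refine ⟨y', ?_, ?_⟩
  · refine (hp'.ea (x := x) (x' := x') (by simp) (by simp)).2 ?_
    rw [hx']
    exact ⟨rfl, ha, rfl⟩
  · rw [hp'.vl (x := x) (y := y) (by simp), hp'.vl (x := x') (y := y') (by simp), hx']
    exact ha'

theorem exT (hT : ∀ p, Wn gt.G (FT p) (FT' p)) {y : W} {n : LA × LT × D} (hy : g y = .inl n)
    {t : TT} (ht : gt.ex (vY ga gt d g y).2.1 t) :
    ∃ y', ET ga gt d Y g y y' ∧ gt.ty (vY ga gt d g y).2.1 (vY ga gt d g y').2.1 = t := by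
  obtain ⟨x, hx⟩ := h.2.2 y
  have hp := hx.pl
  have h1 := (hp (x, y) (by simp)).1
  simp only at h1
  rw [hy] at h1
  have h2 := (fX_inl h1).2
  rw [hp.vl (x := x) (by simp)] at ht
  obtain ⟨a, ha, ha'⟩ := gt.ex2 _ _ ht
  obtain ⟨x', hx'⟩ : ∃ x' : VX FA FT, x'.1 = (x.1.1, x.1.2.1, a) :=
    ⟨⟨(x.1.1, x.1.2.1, a), x.2.1, (hT x.1.1).nb _ h2.2 _ ha⟩, rfl⟩
  obtain ⟨y', hy'⟩ := hx.2.1 x'
  have hp' := hy'.pl
  refine ⟨y', ?_, ?_⟩
  · refine (hp'.et (x := x) (x' := x') (by simp) (by simp)).2 ?_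
    rw [hx']
    exact ⟨rfl, rfl, ha⟩
  · rw [hp'.vl (x := x) (y := y) (by simp), hp'.vl (x := x') (y := y') (by simp), hx']
    exact ha'

/-- L5 -/
theorem gb_uniq {y y' : W} {v : VX FA FT} (h1 : g y = .inr v) (h2 : g y' = .inr v) : y = y' := by
  obtain ⟨x1, x2, x3, x4, hp⟩ := pull4 h y y' y y
  have e1 := (hp (x1, y) (by simp)).1
  have e2 := (hp (x2, y') (by simp)).1
  simp only at e1 e2
  rw [h1] at e1
  rw [h2] at e2
  refine (hp.eq (x := x1) (x' := x2) (by simp) (by simp)).1 ?_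
  rw [(fX_inr e1).1, (fX_inr e2).1]

theorem gb_ex {v : VX FA FT} (hv : ¬ Nm FA' FT' v) : ∃ y, g y = .inr v := by
  obtain ⟨y, hy⟩ := h.2.1 v
  have := (hy.pl (v, y) (by simp)).1
  simp only at this
  rw [fX_gb hv] at this
  exact ⟨y, this.symm⟩

theorem gb_nm {y : W} {v : VX FA FT} (h1 : g y = .inr v) : ¬ Nm FA' FT' v := by
  obtain ⟨x1, x2, x3, x4, hp⟩ := pull4 h y y y y
  have e1 := (hp (x1, y) (by simp)).1
  simp only at e1
  rw [h1] at e1
  obtain ⟨h2, h3⟩ := fX_inr e1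
  rw [← h2]
  exact h3

/-- L6 -/
theorem gb_adj {y y' : W} {v v' : VX FA FT} (h1 : g y = .inr v) (h2 : g y' = .inr v') :
    (XG ga.G gt.G FA FT).Adj v v' ↔ Y.Adj y y' := by
  obtain ⟨x1, x2, x3, x4, hp⟩ := pull4 h y y' y y
  have e1 := (hp (x1, y) (by simp)).1
  have e2 := (hp (x2, y') (by simp)).1
  simp only at e1 e2
  rw [h1] at e1
  rw [h2] at e2
  rw [← (fX_inr e1).1, ← (fX_inr e2).1]
  exact hp.adj (by simp) (by simp)

/-- L7 -/
theorem gb_nb {y : W} {v v' : VX FA FT} (h1 : g y = .inr v)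
    (h2 : (XG ga.G gt.G FA FT).Adj v v') :
    ∃ y', Y.Adj y y' ∧ g y' = fX FA' FT' ga.lab gt.lab d v' := by
  obtain ⟨y0, hy0⟩ := h.2.1 v
  have e0 := (hy0.pl (v, y0) (by simp)).1
  simp only at e0
  rw [fX_gb (gb_nm h h1)] at e0
  have := gb_uniq h h1 e0.symm
  subst this
  obtain ⟨y', hy'⟩ := hy0.2.1 v'
  exact ⟨y', (hy'.pl.adj (x := v) (by simp) (by simp)).1 h2, ((hy'.pl (v', y') (by simp)).1).symm⟩

/-- L8 -/
theorem gb_bk {y y' : W} {v : VX FA FT} (h1 : g y = .inr v) (h2 : Y.Adj y y') :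
    ∃ v', (XG ga.G gt.G FA FT).Adj v v' ∧ fX FA' FT' ga.lab gt.lab d v' = g y' := by
  obtain ⟨x1, x2, x3, x4, hp⟩ := pull4 h y y' y y
  have e1 := (hp (x1, y) (by simp)).1
  simp only at e1
  rw [h1] at e1
  have e2 := (hp.adj (x := x1) (x' := x2) (by simp) (by simp)).2 h2
  rw [(fX_inr e1).1] at e2
  exact ⟨x2, e2, (hp (x2, y') (by simp)).1⟩

end main

end Pool.Agent.H88R3
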