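import Mathlib
import Pool.Agent.H88R3.Forced

set_option autoImplicit false
set_option linter.unusedSectionVars false

namespace Pool.Agent.H88R3

section main

variable {A T ι LA LT TA TT D W : Type} {ga : TG A LA TA} {gt : TG T LT TT} {d : A → T → D}
  {FA FA' : ι → Set A} {FT FT' : ι → Set T}
  {Y : SimpleGraph W} {g : W → (LA × LT × D) ⊕ VX FA FT}

theorem XG_a {v w : VX FA FT} (h : (XG ga.G gt.G FA FT).Adj v w)
    (hne : ga.lab v.1.2.1 ≠ ga.lab w.1.2.1) :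
    v.1.1 = w.1.1 ∧ ga.G.Adj v.1.2.1 w.1.2.1 ∧ v.1.2.2 = w.1.2.2 := by
  obtain ⟨h1, h2 | h2⟩ := h
  · exact ⟨h1, h2⟩
  · exact absurd (by rw [h2.1]) hne

theorem XG_t {v w : VX FA FT} (h : (XG ga.G gt.G FA FT).Adj v w)
    (he : ga.lab v.1.2.1 = ga.lab w.1.2.1) :
    v.1.1 = w.1.1 ∧ v.1.2.1 = w.1.2.1 ∧ gt.G.Adj v.1.2.2 w.1.2.2 := by
  obtain ⟨h1, h2 | h2⟩ := h
  · exact absurd he (ga.ne _ _ h2.1)
  · exact ⟨h1, h2⟩

theorem vY_inr {y : W} {v : VX FA FT} (h : g y = .inr v) :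
    vY ga gt d g y = (ga.lab v.1.2.1, gt.lab v.1.2.2, d v.1.2.1 v.1.2.2) := by
  unfold vY
  rw [h]
  rfl

/-- a row whose image is known -/
def Kn (ga : TG A LA TA) (gt : TG T LT TT) (d : A → T → D) (FA' : ι → Set A) (FT' : ι → Set T)
    (Y : SimpleGraph W) (g : W → (LA × LT × D) ⊕ VX FA FT) (p : ι) (u : T) (ψ : A → W) : Prop :=
  (∀ v : VX FA FT, v.1.1 = p → v.1.2.2 = u → (Nm FA' FT' v → ∃ n, g (ψ v.1.2.1) = .inl n) ∧
    (¬ Nm FA' FT' v → g (ψ v.1.2.1) = .inr v) ∧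
    (vY ga gt d g (ψ v.1.2.1)).1 = ga.lab v.1.2.1 ∧
    (vY ga gt d g (ψ v.1.2.1)).2.1 = gt.lab v.1.2.2) ∧
  ∀ x ∈ FA p, ∀ x' ∈ FA p, ga.G.Adj x x' → Y.Adj (ψ x) (ψ x')

variable (h : RE (XG ga.G gt.G FA FT) (fX FA' FT' ga.lab gt.lab d) Y g 4 [])
  (hA : ∀ p, Wn ga.G (FA p) (FA' p)) (hT : ∀ p, Wn gt.G (FT p) (FT' p))
include h hA hT

theorem kn_base (p : ι) (u : T) (hu : u ∈ FT p) (hu' : u ∉ FT' p) :
    ∃ ψ, Kn ga gt d FA' FT' Y g p u ψ := by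
  classical
  obtain ⟨xo, hxo, hxo'⟩ := (hA p).out
  obtain ⟨w0, _⟩ := gb_ex h (v := ⟨(p, xo, u), hxo, hu⟩) (fun hh => hxo' hh.1)
  have hex : ∀ x, ∃ w, ∀ hx : x ∈ FA p, g w = .inr ⟨(p, x, u), hx, hu⟩ := by
    intro x
    by_cases hx : x ∈ FA p
    · obtain ⟨w, hw⟩ := gb_ex h (v := ⟨(p, x, u), hx, hu⟩) (fun hh => hu' hh.2)
      exact ⟨w, fun _ => hw⟩
    · exact ⟨w0, fun hx' => absurd hx' hx⟩
  choose ψ hψ using hex
  refine ⟨ψ, ?_, ?_⟩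
  · rintro ⟨⟨q, x, u'⟩, hx, hu1⟩ hq hu2
    simp only at hq hu2
    subst hq
    subst hu2
    have h1 := hψ x hx
    refine ⟨fun hh => absurd hh.2 hu', fun _ => h1, ?_, ?_⟩
    · rw [vY_inr h1]
    · rw [vY_inr h1]
  · intro x hx x' hx' hadj
    refine (gb_adj h (hψ x hx) (hψ x' hx')).1 ?_
    exact ⟨rfl, Or.inl ⟨hadj, rfl⟩⟩

theorem kn_step (p : ι) (u1 u : T) (hu1 : u1 ∈ FT p) (hu : u ∈ FT' p) (hadj : gt.G.Adj u1 u)
    (ψ1 : A → W) (hk : Kn ga gt d FA' FT' Y g p u1 ψ1) :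
    ∃ ψ, Kn ga gt d FA' FT' Y g p u ψ := by
  classical
  have huF : u ∈ FT p := (hT p).sub u hu
  have hex : ∀ x, ∃ w, ∀ hx : x ∈ FA p, ET ga gt d Y g (ψ1 x) w ∧
      gt.ty (vY ga gt d g (ψ1 x)).2.1 (vY ga gt d g w).2.1 = gt.ty (gt.lab u1) (gt.lab u) ∧
      (¬ Nm FA' FT' (⟨(p, x, u1), hx, hu1⟩ : VX FA FT) →
        g w = fX FA' FT' ga.lab gt.lab d ⟨(p, x, u), hx, huF⟩) := by
    intro x
    by_cases hx : x ∈ FA p
    · obtain ⟨k1, k2, k3, k4⟩ := hk.1 ⟨(p, x, u1), hx, hu1⟩ rfl rfl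
      simp only at k1 k2 k3 k4
      by_cases hn : Nm FA' FT' (⟨(p, x, u1), hx, hu1⟩ : VX FA FT)
      · obtain ⟨n, hn'⟩ := k1 hn
        obtain ⟨w, hw, hw'⟩ := exT h hT hn' (t := gt.ty (gt.lab u1) (gt.lab u)) (by
          rw [k4]
          exact gt.ex1 _ _ hadj)
        exact ⟨w, fun _ => ⟨hw, hw', fun hh => absurd hn hh⟩⟩
      · obtain ⟨w, hw, hw'⟩ := gb_nb h (k2 hn) (v' := ⟨(p, x, u), hx, huF⟩)
          ⟨rfl, Or.inr ⟨rfl, hadj⟩⟩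
        have e : vY ga gt d g w = (ga.lab x, gt.lab u, d x u) := by
          unfold vY
          rw [hw']
          exact vl_fX _
        refine ⟨w, fun _ => ⟨⟨hw, ?_⟩, ?_, fun _ => hw'⟩⟩
        · rw [k3, e]
        · rw [k4, e]
    · exact ⟨ψ1 x, fun hx' => absurd hx' hx⟩
  choose ψ hψ using hex
  have hea1 : ∀ x ∈ FA p, ∀ x' ∈ FA p, ga.G.Adj x x' → EA ga gt d Y g (ψ1 x) (ψ1 x') := by
    intro x hx x' hx' hadj
    refine ⟨hk.2 x hx x' hx' hadj, ?_⟩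
    have k3 := (hk.1 ⟨(p, x, u1), hx, hu1⟩ rfl rfl).2.2.1
    have k3' := (hk.1 ⟨(p, x', u1), hx', hu1⟩ rfl rfl).2.2.1
    simp only at k3 k3'
    rw [k3, k3']
    exact ga.ne _ _ hadj
  have hea : ∀ x ∈ FA p, ∀ x' ∈ FA p, ga.G.Adj x x' → EA ga gt d Y g (ψ x) (ψ x') := by
    intro x hx x' hx' hadj
    refine comm1 h (hea1 x hx x' hx' hadj) (hψ x hx).1 (hψ x' hx').1 ?_
    rw [(hψ x hx).2.1, (hψ x' hx').2.1]
  have hα : ∀ x ∈ FA p, (vY ga gt d g (ψ x)).1 = ga.lab x := by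
    intro x hx
    rw [← (hψ x hx).1.2]
    exact (hk.1 ⟨(p, x, u1), hx, hu1⟩ rfl rfl).2.2.1
  -- boundary vertices
  have hgb : ∀ x (hx : x ∈ FA p), x ∉ FA' p → g (ψ x) = .inr ⟨(p, x, u), hx, huF⟩ := by
    intro x hx hx'
    rw [(hψ x hx).2.2 (fun hh => hx' hh.1)]
    exact fX_gb (fun hh => hx' hh.1)
  obtain ⟨xo, hxo, hxo'⟩ := (hA p).out
  have hτ : ∀ x ∈ FA p, (vY ga gt d g (ψ x)).2.1 = gt.lab u := by
    refine (hA p).conn _ ?_ ⟨xo, hxo, ?_⟩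
    · intro x hx x' hx' hadj hh
      rw [← hh]
      exact ((hea x hx x' hx' hadj).tau h).symm
    · rw [vY_inr (hgb xo hxo hxo')]
  refine ⟨ψ, ?_, fun x hx x' hx' hadj => (hea x hx x' hx' hadj).1⟩
  rintro ⟨⟨q, x, u'⟩, hx, hu2⟩ hq hu3
  simp only at hq hu3
  subst hq
  subst hu3
  refine ⟨?_, fun hn => hgb x hx (fun hh => hn ⟨hh, hu⟩), hα x hx, hτ x hx⟩
  rintro ⟨hxI, _⟩
  simp only at hxI
  by_cases hu1' : u1 ∈ FT' q
  · obtain ⟨n1, hn1⟩ := (hk.1 ⟨(q, x, u1), hx, hu1⟩ rfl rfl).1 ⟨hxI, hu1'⟩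
    simp only at hn1
    rcases hgx : g (ψ x) with n | v
    · exact ⟨n, rfl⟩
    · exfalso
      -- the garbage vertex lies in a boundary row
      obtain ⟨v1, hv1, hv1'⟩ := gb_bk h hgx (hψ x hx).1.1.symm
      rw [hn1] at hv1'
      obtain ⟨hv2, hv3⟩ := fX_inl hv1'
      have e1 : ga.lab v.1.2.1 = ga.lab v1.1.2.1 := by
        have a1 : (vY ga gt d g (ψ x)).1 = ga.lab v.1.2.1 := by rw [vY_inr hgx]
        have a2 : (vY ga gt d g (ψ1 x)).1 = ga.lab v1.1.2.1 := by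
          unfold vY
          rw [hn1, ← hv2]
          rfl
        rw [← a1, ← a2]
        exact (hψ x hx).1.2.symm
      obtain ⟨b1, b2, b3⟩ := XG_t hv1 e1
      have hvn := gb_nm h hgx
      have hrow : v.1.2.2 ∉ FT' v.1.1 := by
        intro hh
        apply hvn
        refine ⟨?_, hh⟩
        rw [b1, b2]
        exact hv3.1
      have htr : ∀ z ∈ FA q, ∃ v' : VX FA FT, v'.1.1 = v.1.1 ∧ v'.1.2.2 = v.1.2.2 ∧
          g (ψ z) = .inr v' := by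
        refine (hA q).conn _ ?_ ⟨x, hx, v, rfl, rfl, hgx⟩
        rintro z hz z' hz' hadj' ⟨v', c1, c2, c3⟩
        obtain ⟨v2, d1, d2⟩ := gb_bk h c3 (hea z hz z' hz' hadj').1
        have e2 : ga.lab v'.1.2.1 ≠ ga.lab v2.1.2.1 := by
          have a1 : (vY ga gt d g (ψ z)).1 = ga.lab v'.1.2.1 := by rw [vY_inr c3]
          have a2 : (vY ga gt d g (ψ z')).1 = ga.lab v2.1.2.1 := by
            unfold vY
            rw [← d2, vl_fX]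
            rfl
          rw [← a1, ← a2]
          exact (hea z hz z' hz' hadj').2
        obtain ⟨f1, f2, f3⟩ := XG_a d1 e2
        refine ⟨v2, f1.symm.trans c1, f3.symm.trans c2, ?_⟩
        rw [← d2]
        apply fX_gb
        intro hh
        apply hrow
        rw [← c1, ← c2, f1, f3]
        exact hh.2
      obtain ⟨v', c1, c2, c3⟩ := htr xo hxo
      rw [hgb xo hxo hxo'] at c3
      have c4 := Sum.inr.inj c3
      rw [← c4] at c1 c2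
      simp only at c1 c2
      apply hrow
      rw [← c1, ← c2]
      exact hu
  · refine ⟨nl ga.lab gt.lab d ⟨(q, x, u'), hx, huF⟩, ?_⟩
    rw [(hψ x hx).2.2 (fun hh => hu1' hh.2)]
    exact fX_nm ⟨hxI, hu⟩

theorem kn_all (p : ι) : ∀ u ∈ FT p, ∃ ψ, Kn ga gt d FA' FT' Y g p u ψ := by
  classical
  obtain ⟨uo, huo, huo'⟩ := (hT p).out
  refine (hT p).conn _ ?_ ⟨uo, huo, kn_base h hA hT p uo huo huo'⟩
  rintro u hu u' hu' hadj ⟨ψ, hψ⟩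
  by_cases hi : u' ∈ FT' p
  · exact kn_step h hA hT p u u' hu hi hadj ψ hψ
  · exact kn_base h hA hT p u' hu' hi

/-- the boundary forces a copy of the windows -/
theorem forced : ∃ Φ : VX FA FT → W,
    (∀ v, Nm FA' FT' v → ∃ n, g (Φ v) = .inl n) ∧
    (∀ v, ¬ Nm FA' FT' v → g (Φ v) = .inr v) ∧
    (∀ v, (vY ga gt d g (Φ v)).1 = ga.lab v.1.2.1 ∧
      (vY ga gt d g (Φ v)).2.1 = gt.lab v.1.2.2) ∧
    (∀ v v', (XG ga.G gt.G FA FT).Adj v v' → Y.Adj (Φ v) (Φ v')) ∧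
    (∀ v y, Y.Adj (Φ v) y → ∃ v', (XG ga.G gt.G FA FT).Adj v v' ∧ Φ v' = y) ∧
    Function.Injective Φ := by
  classical
  have hex : ∀ p u, ∃ ψ : A → W, u ∈ FT p → Kn ga gt d FA' FT' Y g p u ψ := by
    intro p u
    by_cases hu : u ∈ FT p
    · obtain ⟨ψ, hψ⟩ := kn_all h hA hT p u hu
      exact ⟨ψ, fun _ => hψ⟩
    · obtain ⟨uo, huo, huo'⟩ := (hT p).out
      obtain ⟨ψ, hψ⟩ := kn_base h hA hT p uo huo huo'
      exact ⟨ψ, fun hh => absurd hh hu⟩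
  choose ψ hψ using hex
  let Φ : VX FA FT → W := fun v => ψ v.1.1 v.1.2.2 v.1.2.1
  have hK : ∀ v : VX FA FT, Kn ga gt d FA' FT' Y g v.1.1 v.1.2.2 (ψ v.1.1 v.1.2.2) :=
    fun v => hψ _ _ v.2.2
  have p1 : ∀ v, Nm FA' FT' v → ∃ n, g (Φ v) = .inl n := fun v => ((hK v).1 v rfl rfl).1
  have p2 : ∀ v, ¬ Nm FA' FT' v → g (Φ v) = .inr v := fun v => ((hK v).1 v rfl rfl).2.1
  have p3 : ∀ v, (vY ga gt d g (Φ v)).1 = ga.lab v.1.2.1 ∧
      (vY ga gt d g (Φ v)).2.1 = gt.lab v.1.2.2 := fun v =>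
    ((hK v).1 v rfl rfl).2.2
  -- horizontal adjacency
  have pA : ∀ p u (_ : u ∈ FT p), ∀ x ∈ FA p, ∀ x' ∈ FA p, ga.G.Adj x x' →
      EA ga gt d Y g (ψ p u x) (ψ p u x') := by
    intro p u hu x hx x' hx' hadj
    refine ⟨(hψ p u hu).2 x hx x' hx' hadj, ?_⟩
    have a1 := (p3 ⟨(p, x, u), hx, hu⟩).1
    have a2 := (p3 ⟨(p, x', u), hx', hu⟩).1
    simp only at a1 a2
    change (vY ga gt d g (Φ ⟨(p, x, u), hx, hu⟩)).1 ≠ (vY ga gt d g (Φ ⟨(p, x', u), hx', hu⟩)).1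
    rw [a1, a2]
    exact ga.ne _ _ hadj
  have pT : ∀ p u u' (hu : u ∈ FT p) (hu' : u' ∈ FT p), gt.G.Adj u u' → ∀ x ∈ FA p,
      ET ga gt d Y g (ψ p u x) (ψ p u' x) := by
    intro p u u' hu hu' hadj
    obtain ⟨xo, hxo, hxo'⟩ := (hA p).out
    refine (hA p).conn _ ?_ ⟨xo, hxo, ?_⟩
    · intro x hx x' hx' hadj' hh
      refine comm2 h (pA p u hu x hx x' hx' hadj') hh (pA p u' hu' x hx x' hx' hadj') ?_
      have a1 := (p3 ⟨(p, x', u), hx', hu⟩).1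
      have a2 := (p3 ⟨(p, x', u'), hx', hu'⟩).1
      exact a1.trans a2.symm
    · constructor
      · refine (gb_adj h (p2 ⟨(p, xo, u), hxo, hu⟩ (fun hh => hxo' hh.1))
          (p2 ⟨(p, xo, u'), hxo, hu'⟩ (fun hh => hxo' hh.1))).1 ?_
        exact ⟨rfl, Or.inr ⟨rfl, hadj⟩⟩
      · have a1 := (p3 ⟨(p, xo, u), hxo, hu⟩).1
        have a2 := (p3 ⟨(p, xo, u'), hxo, hu'⟩).1
        exact a1.trans a2.symm
  have p4 : ∀ v v', (XG ga.G gt.G FA FT).Adj v v' → Y.Adj (Φ v) (Φ v') := by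
    rintro ⟨⟨p, x, u⟩, hx, hu⟩ ⟨⟨q, x', u'⟩, hx', hu'⟩ ⟨h1, h2 | h2⟩
    · simp only at h1 h2
      obtain ⟨h2, h3⟩ := h2
      subst h1
      subst h3
      exact (pA p u hu x hx x' hx' h2).1
    · simp only at h1 h2
      obtain ⟨h2, h3⟩ := h2
      subst h1
      subst h2
      exact (pT p u u' hu hu' h3 x hx).1
  have p5 : ∀ v y, Y.Adj (Φ v) y → ∃ v', (XG ga.G gt.G FA FT).Adj v v' ∧ Φ v' = y := by
    intro v y hy
    by_cases hn : Nm FA' FT' v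
    · by_cases hα : (vY ga gt d g (Φ v)).1 = (vY ga gt d g y).1
      · have he : ET ga gt d Y g (Φ v) y := ⟨hy, hα⟩
        have h1 := ET.exl h he
        rw [(p3 v).2] at h1
        obtain ⟨u', hu', hu''⟩ := gt.ex2 _ _ h1
        have hF : u' ∈ FT v.1.1 := (hT _).nb _ hn.2 _ hu'
        refine ⟨⟨(v.1.1, v.1.2.1, u'), v.2.1, hF⟩, ⟨rfl, Or.inr ⟨rfl, hu'⟩⟩, ?_⟩
        have he' : ET ga gt d Y g (Φ v) (Φ ⟨(v.1.1, v.1.2.1, u'), v.2.1, hF⟩) :=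
          pT v.1.1 v.1.2.2 u' v.2.2 hF hu' _ v.2.1
        refine ET.det h he' he ?_
        rw [(p3 v).2, (p3 ⟨(v.1.1, v.1.2.1, u'), v.2.1, hF⟩).2]
        exact hu''
      · have he : EA ga gt d Y g (Φ v) y := ⟨hy, hα⟩
        have h1 := EA.exl h he
        rw [(p3 v).1] at h1
        obtain ⟨x', hx', hx''⟩ := ga.ex2 _ _ h1
        have hF : x' ∈ FA v.1.1 := (hA _).nb _ hn.1 _ hx'
        refine ⟨⟨(v.1.1, x', v.1.2.2), hF, v.2.2⟩, ⟨rfl, Or.inl ⟨hx', rfl⟩⟩, ?_⟩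
        have he' : EA ga gt d Y g (Φ v) (Φ ⟨(v.1.1, x', v.1.2.2), hF, v.2.2⟩) :=
          pA v.1.1 v.1.2.2 v.2.2 _ v.2.1 _ hF hx'
        refine EA.det h he' he ?_
        rw [(p3 v).1, (p3 ⟨(v.1.1, x', v.1.2.2), hF, v.2.2⟩).1]
        exact hx''
    · obtain ⟨v', h1, h2⟩ := gb_bk h (p2 v hn) hy
      refine ⟨v', h1, ?_⟩
      have h3 := p4 v v' h1
      have h4 : vY ga gt d g y = nl ga.lab gt.lab d v' := by
        unfold vY
        rw [← h2, vl_fX]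
      have h5 := p3 v'
      by_cases hα : (vY ga gt d g (Φ v)).1 = (vY ga gt d g y).1
      · have he : ET ga gt d Y g (Φ v) y := ⟨hy, hα⟩
        have he' : ET ga gt d Y g (Φ v) (Φ v') := ⟨h3, by rw [h5.1, hα, h4]; rfl⟩
        refine ET.det h he' he ?_
        rw [h5.2, h4]
        rfl
      · have he : EA ga gt d Y g (Φ v) y := ⟨hy, hα⟩
        have he' : EA ga gt d Y g (Φ v) (Φ v') := ⟨h3, by
          rw [h5.1]
          intro hh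
          apply hα
          rw [hh, h4]
          rfl⟩
        refine EA.det h he' he ?_
        rw [h5.1, h4]
        rfl
  refine ⟨Φ, p1, p2, p3, p4, p5, ?_⟩
  intro v v' hvv
  obtain ⟨xo, hxo, hxo'⟩ := (hA v.1.1).out
  have key : ∀ z ∈ FA v.1.1, ∃ w : VX FA FT, w.1.1 = v'.1.1 ∧ w.1.2.2 = v'.1.2.2 ∧
      ψ v.1.1 v.1.2.2 z = Φ w ∧ (w.1.2.1 = z → v'.1.2.1 = v.1.2.1) := by
    refine (hA v.1.1).conn _ ?_ ⟨v.1.2.1, v.2.1, v', rfl, rfl, hvv, fun hh => hh⟩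
    rintro z hz z' hz' hadj ⟨w, w1, w2, w3, w4⟩
    have he := pA v.1.1 v.1.2.2 v.2.2 z hz z' hz' hadj
    have hy : Y.Adj (Φ w) (ψ v.1.1 v.1.2.2 z') := by rw [← w3]; exact he.1
    obtain ⟨w', f1, f2⟩ := p5 w _ hy
    have e1 : (vY ga gt d g (Φ w)).1 = ga.lab z := by
      rw [← w3]; exact (p3 ⟨(v.1.1, z, v.1.2.2), hz, v.2.2⟩).1
    have e2 : (vY ga gt d g (Φ w')).1 = ga.lab z' := by
      rw [f2]; exact (p3 ⟨(v.1.1, z', v.1.2.2), hz', v.2.2⟩).1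
    rw [(p3 w).1] at e1
    rw [(p3 w').1] at e2
    obtain ⟨f3, f4, f5⟩ := XG_a f1 (by rw [e1, e2]; exact ga.ne _ _ hadj)
    refine ⟨w', f3.symm.trans w1, f5.symm.trans w2, f2.symm, ?_⟩
    intro hh
    apply w4
    rw [hh] at f4
    refine ga.det _ _ _ f4.symm hadj.symm ?_
    rw [e1]
  obtain ⟨w, w1, w2, w3, w4⟩ := key xo hxo
  have g1 := p2 ⟨(v.1.1, xo, v.1.2.2), hxo, v.2.2⟩ (fun hh => hxo' hh.1)
  have g2 : g (Φ w) = .inr ⟨(v.1.1, xo, v.1.2.2), hxo, v.2.2⟩ := by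
    rw [← w3]
    exact g1
  have hwn : ¬ Nm FA' FT' w := by
    intro hh
    obtain ⟨n, hn⟩ := p1 w hh
    rw [hn] at g2
    simp at g2
  rw [p2 w hwn] at g2
  have g3 := Sum.inr.inj g2
  have g4 : w.1 = (v.1.1, xo, v.1.2.2) := congrArg Subtype.val g3
  apply Subtype.ext
  have a1 : v.1.1 = v'.1.1 := by rw [← w1, g4]
  have a2 : v.1.2.2 = v'.1.2.2 := by rw [← w2, g4]
  have a3 : v'.1.2.1 = v.1.2.1 := w4 (by rw [g4])
  exact Prod.ext a1 (Prod.ext a3.symm a2)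

end main

end Pool.Agent.H88R3
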