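import Mathlib
import Pool.Agent.H88R3.Forced2

set_option autoImplicit false

namespace Pool.Agent.H88R3

/-- residue modulo three -/
def la {m : ℕ} (hm : 3 ∣ m) (i : ZMod m) : ZMod 3 := ZMod.castHom hm (ZMod 3) i

theorem la_succ {m : ℕ} (hm : 3 ∣ m) (i : ZMod m) : la hm (i + 1) = la hm i + 1 := by
  unfold la
  rw [map_add, map_one]

theorem z3 (a : ZMod 3) : a + 1 ≠ a ∧ a + 1 + 1 ≠ a ∧ a + 1 + 1 + 1 = a := by
  revert a
  decide

/-- the ring -/
def gr {m : ℕ} (hm : 3 ∣ m) : TG (ZMod m) (ZMod 3) Bool where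
  G :=
    { Adj := fun i j => j = i + 1 ∨ i = j + 1
      symm := ⟨fun i j h => h.symm⟩
      loopless := ⟨fun i h => by
        have h1 : i = i + 1 := by rcases h with h | h <;> exact h
        have h2 := congrArg (la hm) h1
        rw [la_succ] at h2
        exact (z3 _).1 h2.symm⟩ }
  lab := la hm
  ty a b := decide (b = a + 1)
  ex _ _ := True
  det := by
    intro x y z hy hz ht
    rw [decide_eq_decide] at ht
    rcases hy with hy | hy <;> rcases hz with hz | hz
    · rw [hy, hz]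
    · exfalso
      have h1 := ht.1 (by rw [hy, la_succ])
      rw [hz, la_succ] at h1
      exact (z3 _).2.1 h1.symm
    · exfalso
      have h1 := ht.2 (by rw [hz, la_succ])
      rw [hy, la_succ] at h1
      exact (z3 _).2.1 h1.symm
    · have : y + 1 = z + 1 := hy.symm.trans hz
      exact add_right_cancel this
  ne := by
    intro x y hy he
    rcases hy with hy | hy
    · rw [hy, la_succ] at he
      exact (z3 _).1 he.symm
    · rw [hy, la_succ] at he
      exact (z3 _).1 he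
  ex1 _ _ _ := trivial
  ex2 := by
    intro x t _
    cases t with
    | true =>
      refine ⟨x + 1, Or.inl rfl, ?_⟩
      rw [decide_eq_true_iff, la_succ]
    | false =>
      refine ⟨x - 1, Or.inr (by ring), ?_⟩
      rw [decide_eq_false_iff_not]
      intro h
      have e : la hm x = la hm (x - 1) + 1 := by rw [← la_succ, sub_add_cancel]
      rw [e] at h
      exact (z3 _).2.1 h.symm

/-- edge types of the tree of rings -/
inductive TT : Type
  | jp | jm | pa | c0 | c1
  deriving DecidableEq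

/-- positions: level and index in the ring of the level -/
abbrev TN (N : ℕ) : Type := {p : ℕ × ℕ // p.1 ≤ N ∧ p.2 < 3 * 2 ^ p.1}

/-- next index in a ring of length `3 * q` -/
def nx (q j j' : ℕ) : Prop := j' = j + 1 ∨ (j + 1 = 3 * q ∧ j' = 0)

/-- labels of positions -/
abbrev LT : Type := Fin 3 × Fin 3 × Fin 2 × Bool × Bool

/-- the label of a position -/
def lt (N : ℕ) (u : TN N) : LT :=
  (⟨u.1.1 % 3, Nat.mod_lt _ (by norm_num)⟩, ⟨u.1.2 % 3, Nat.mod_lt _ (by norm_num)⟩,
    ⟨u.1.2 % 2, Nat.mod_lt _ (by norm_num)⟩, decide (u.1.1 = 0), decide (u.1.1 = N))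

/-- the type of an edge -/
def tyT (a b : LT) : TT :=
  if b.1.val = a.1.val then (if b.2.1.val = (a.2.1.val + 1) % 3 then .jp else .jm)
  else if b.1.val = (a.1.val + 1) % 3 then (if b.2.2.1.val = 0 then .c0 else .c1) else .pa

/-- adjacency of positions -/
def TAdj {N : ℕ} (u v : TN N) : Prop :=
  (u.1.1 = v.1.1 ∧ (nx (2 ^ u.1.1) u.1.2 v.1.2 ∨ nx (2 ^ v.1.1) v.1.2 u.1.2)) ∨
    (v.1.1 = u.1.1 + 1 ∧ v.1.2 / 2 = u.1.2) ∨ (u.1.1 = v.1.1 + 1 ∧ u.1.2 / 2 = v.1.2)

/-- meaning of the types -/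
def Sp {N : ℕ} : TT → TN N → TN N → Prop
  | .jp, u, v => u.1.1 = v.1.1 ∧ nx (2 ^ u.1.1) u.1.2 v.1.2
  | .jm, u, v => u.1.1 = v.1.1 ∧ nx (2 ^ v.1.1) v.1.2 u.1.2
  | .pa, u, v => u.1.1 = v.1.1 + 1 ∧ u.1.2 / 2 = v.1.2
  | .c0, u, v => v.1.1 = u.1.1 + 1 ∧ v.1.2 = 2 * u.1.2
  | .c1, u, v => v.1.1 = u.1.1 + 1 ∧ v.1.2 = 2 * u.1.2 + 1

theorem Sp_of {N : ℕ} {u v : TN N} (h : TAdj u v) : Sp (tyT (lt N u) (lt N v)) u v := by
  obtain ⟨⟨k, j⟩, hk, hj⟩ := u
  obtain ⟨⟨k', j'⟩, hk', hj'⟩ := v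
  unfold tyT lt
  simp only at hk hj hk' hj' ⊢
  rcases h with ⟨h1, h2⟩ | ⟨h1, h2⟩ | ⟨h1, h2⟩
  · simp only at h1 h2
    subst h1
    rw [if_pos rfl]
    unfold nx at h2
    split_ifs with h3
    · refine ⟨rfl, ?_⟩
      simp only
      unfold nx
      omega
    · refine ⟨rfl, ?_⟩
      simp only
      unfold nx
      omega
  · simp only at h1 h2
    rw [if_neg (by omega), if_pos (by omega)]
    split_ifs with h3
    · refine ⟨h1, ?_⟩
      simp only
      omega
    · refine ⟨h1, ?_⟩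
      simp only
      omega
  · simp only at h1 h2
    rw [if_neg (by omega), if_neg (by omega)]
    exact ⟨h1, h2⟩

theorem Sp_adj {N : ℕ} {t : TT} {u v : TN N} (h : Sp t u v) :
    TAdj u v ∧ tyT (lt N u) (lt N v) = t := by
  have hadj : TAdj u v := by
    cases t with
    | jp => exact Or.inl ⟨h.1, Or.inl h.2⟩
    | jm => exact Or.inl ⟨h.1, Or.inr h.2⟩
    | pa => exact Or.inr (Or.inr h)
    | c0 =>
      refine Or.inr (Or.inl ⟨h.1, ?_⟩)
      have := h.2
      omega
    | c1 =>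
      refine Or.inr (Or.inl ⟨h.1, ?_⟩)
      have := h.2
      omega
  refine ⟨hadj, ?_⟩
  obtain ⟨⟨k, j⟩, hk, hj⟩ := u
  obtain ⟨⟨k', j'⟩, hk', hj'⟩ := v
  unfold tyT lt
  simp only at hk hj hk' hj' ⊢
  cases t with
  | jp =>
    obtain ⟨h1, h2⟩ := h
    simp only at h1 h2
    subst h1
    unfold nx at h2
    rw [if_pos rfl, if_pos (by omega)]
  | jm =>
    obtain ⟨h1, h2⟩ := h
    simp only at h1 h2
    subst h1
    unfold nx at h2
    rw [if_pos rfl, if_neg (by omega)]
  | pa =>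
    obtain ⟨h1, h2⟩ := h
    simp only at h1 h2
    rw [if_neg (by omega), if_neg (by omega)]
  | c0 =>
    obtain ⟨h1, h2⟩ := h
    simp only at h1 h2
    rw [if_neg (by omega), if_pos (by omega), if_pos (by omega)]
  | c1 =>
    obtain ⟨h1, h2⟩ := h
    simp only at h1 h2
    rw [if_neg (by omega), if_pos (by omega), if_neg (by omega)]

theorem Sp_det {N : ℕ} {t : TT} {u v w : TN N} (h : Sp t u v) (h' : Sp t u w) : v = w := by
  obtain ⟨⟨k, j⟩, hk, hj⟩ := u
  obtain ⟨⟨k', j'⟩, hk', hj'⟩ := v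
  obtain ⟨⟨k'', j''⟩, hk'', hj''⟩ := w
  apply Subtype.ext
  simp only at hk hj hk' hj' hk'' hj'' ⊢
  cases t with
  | jp =>
    obtain ⟨h1, h2⟩ := h
    obtain ⟨h3, h4⟩ := h'
    simp only at h1 h2 h3 h4
    subst h1
    subst h3
    unfold nx at h2 h4
    have : j' = j'' := by omega
    rw [this]
  | jm =>
    obtain ⟨h1, h2⟩ := h
    obtain ⟨h3, h4⟩ := h'
    simp only at h1 h2 h3 h4
    subst h1
    subst h3
    unfold nx at h2 h4
    have : j' = j'' := by omega
    rw [this]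
  | pa =>
    obtain ⟨h1, h2⟩ := h
    obtain ⟨h3, h4⟩ := h'
    simp only at h1 h2 h3 h4
    have e1 : k' = k'' := by omega
    have e2 : j' = j'' := by omega
    rw [e1, e2]
  | c0 =>
    obtain ⟨h1, h2⟩ := h
    obtain ⟨h3, h4⟩ := h'
    simp only at h1 h2 h3 h4
    rw [h1, h2, h3, h4]
  | c1 =>
    obtain ⟨h1, h2⟩ := h
    obtain ⟨h3, h4⟩ := h'
    simp only at h1 h2 h3 h4
    rw [h1, h2, h3, h4]

theorem TAdj_symm {N : ℕ} {u v : TN N} (h : TAdj u v) : TAdj v u := by
  rcases h with ⟨h1, h2⟩ | h | h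
  · exact Or.inl ⟨h1.symm, h2.symm⟩
  · exact Or.inr (Or.inr h)
  · exact Or.inr (Or.inl h)

theorem TAdj_ne {N : ℕ} {u v : TN N} (h : TAdj u v) :
    (lt N u).1.val ≠ (lt N v).1.val ∨
      ((lt N u).1.val = (lt N v).1.val ∧ (lt N u).2.1.val ≠ (lt N v).2.1.val) := by
  obtain ⟨⟨k, j⟩, hk, hj⟩ := u
  obtain ⟨⟨k', j'⟩, hk', hj'⟩ := v
  unfold lt
  simp only at hk hj hk' hj' ⊢
  rcases h with ⟨h1, h2⟩ | ⟨h1, h2⟩ | ⟨h1, h2⟩
  · simp only at h1 h2
    subst h1
    unfold nx at h2
    omega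
  · simp only at h1 h2
    omega
  · simp only at h1 h2
    omega

/-- which types occur -/
def exT' (a : LT) : TT → Prop
  | .jp => True
  | .jm => True
  | .pa => a.2.2.2.1 = false
  | .c0 => a.2.2.2.2 = false
  | .c1 => a.2.2.2.2 = false

/-- the tree of rings -/
def gtr (N : ℕ) : TG (TN N) LT TT where
  G :=
    { Adj := TAdj
      symm := ⟨fun u v h => TAdj_symm h⟩
      loopless := ⟨fun u h => by
        rcases TAdj_ne h with h | h
        · exact h rfl
        · exact h.2 rfl⟩ }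
  lab := lt N
  ty := tyT
  ex := exT'
  det := by
    intro x y z hy hz ht
    have h1 := Sp_of hy
    have h2 := Sp_of hz
    rw [← ht] at h2
    exact Sp_det h1 h2
  ne := by
    intro x y hy he
    rcases TAdj_ne hy with h | h
    · rw [he] at h
      exact h rfl
    · rw [he] at h
      exact h.2 rfl
  ex1 := by
    intro x y hy
    have h := Sp_of hy
    generalize ht : tyT (lt N x) (lt N y) = t at *
    have hy2 := y.2.1
    cases t with
    | jp => trivial
    | jm => trivial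
    | pa =>
      change decide (x.1.1 = 0) = false
      have := h.1
      rw [decide_eq_false_iff_not]
      omega
    | c0 =>
      change decide (x.1.1 = N) = false
      have := h.1
      rw [decide_eq_false_iff_not]
      omega
    | c1 =>
      change decide (x.1.1 = N) = false
      have := h.1
      rw [decide_eq_false_iff_not]
      omega
  ex2 := by
    rintro ⟨⟨k, j⟩, hk, hj⟩ t ht
    simp only at hk hj
    have key : ∃ y : TN N, Sp t ⟨(k, j), hk, hj⟩ y := by
      cases t with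
      | jp =>
        by_cases hc : j + 1 = 3 * 2 ^ k
        · exact ⟨⟨(k, 0), hk, by simp only; omega⟩, rfl, Or.inr ⟨hc, rfl⟩⟩
        · exact ⟨⟨(k, j + 1), hk, by simp only; omega⟩, rfl, Or.inl rfl⟩
      | jm =>
        by_cases hc : j = 0
        · exact ⟨⟨(k, 3 * 2 ^ k - 1), hk, by simp only; omega⟩, rfl,
            Or.inr ⟨by simp only; omega, hc⟩⟩
        · exact ⟨⟨(k, j - 1), hk, by simp only; omega⟩, rfl, Or.inl (by simp only; omega)⟩
      | pa =>
        have ht : decide (k = 0) = false := ht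
        rw [decide_eq_false_iff_not] at ht
        obtain ⟨k', rfl⟩ : ∃ k', k = k' + 1 := ⟨k - 1, by omega⟩
        rw [pow_succ] at hj
        exact ⟨⟨(k', j / 2), by simp only; omega, by simp only; omega⟩, rfl, rfl⟩
      | c0 =>
        have ht : decide (k = N) = false := ht
        rw [decide_eq_false_iff_not] at ht
        exact ⟨⟨(k + 1, 2 * j), by simp only; omega, by simp only; rw [pow_succ]; omega⟩,
          rfl, rfl⟩
      | c1 =>
        have ht : decide (k = N) = false := ht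
        rw [decide_eq_false_iff_not] at ht
        exact ⟨⟨(k + 1, 2 * j + 1), by simp only; omega, by simp only; rw [pow_succ]; omega⟩,
          rfl, rfl⟩
    obtain ⟨y, hy⟩ := key
    exact ⟨y, Sp_adj hy⟩

end Pool.Agent.H88R3
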