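import Mathlib
import Pool.Agent.H88R3.Conc

set_option autoImplicit false
set_option linter.unusedSectionVars false

namespace Pool.Agent.H88R3

section nr
variable {A : Type} {G : SimpleGraph A}

/-- balls -/
def Nr (G : SimpleGraph A) (x : A) : ℕ → Set A
  | 0 => {x}
  | k + 1 => {y | y ∈ Nr G x k ∨ ∃ z ∈ Nr G x k, G.Adj z y}

theorem Nr_self (x : A) (k : ℕ) : x ∈ Nr G x k := by
  induction k with
  | zero => exact rfl
  | succ k ih => exact Or.inl ih

theorem Nr_mono {x y : A} {k l : ℕ} (hkl : k ≤ l) (h : y ∈ Nr G x k) : y ∈ Nr G x l := by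
  induction l with
  | zero =>
    have : k = 0 := by omega
    subst this
    exact h
  | succ l ih =>
    rcases Nat.lt_or_ge k (l + 1) with h1 | h1
    · exact Or.inl (ih (by omega))
    · have : k = l + 1 := by omega
      subst this
      exact h

theorem Nr_card {d : ℕ} (hdeg : ∀ y : A, ∃ N : Finset A, N.card ≤ d ∧ ∀ z, G.Adj y z → z ∈ N)
    (x : A) (k : ℕ) : ∃ F : Finset A, F.card ≤ (d + 1) ^ k ∧ ∀ y, y ∈ Nr G x k → y ∈ F := by
  classical
  induction k with
  | zero =>
    refine ⟨{x}, by simp, ?_⟩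
    intro y hy
    have hy : y = x := hy
    simp [hy]
  | succ k ih =>
    obtain ⟨F, hF, hF'⟩ := ih
    choose N hN hN' using hdeg
    refine ⟨F ∪ F.biUnion N, ?_, ?_⟩
    · refine (Finset.card_union_le _ _).trans ?_
      have h1 : (F.biUnion N).card ≤ F.card * d :=
        Finset.card_biUnion_le_card_mul _ _ _ fun z _ => hN z
      have h2 : F.card * d ≤ (d + 1) ^ k * d := Nat.mul_le_mul_right _ hF
      rw [pow_succ]
      nlinarith
    · intro y hy
      rcases hy with hy | ⟨z, hz, hzy⟩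
      · exact Finset.mem_union_left _ (hF' y hy)
      · exact Finset.mem_union_right _ (Finset.mem_biUnion.2 ⟨z, hF' z hz, hN' z y hzy⟩)

theorem Nr_wn {x : A} {k : ℕ} (hout : ∃ y ∈ Nr G x (k + 1), y ∉ Nr G x k) :
    Wn G (Nr G x (k + 1)) (Nr G x k) where
  sub y hy := Or.inl hy
  nb y hy z hz := Or.inr ⟨y, hy, hz⟩
  out := hout
  conn := by
    intro P hP hex y hy
    have toC : ∀ j, j ≤ k + 1 → ∀ z ∈ Nr G x j, P z → P x := by
      intro j
      induction j with
      | zero =>
        intro _ z hz hPz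
        have : z = x := hz
        rw [this] at hPz
        exact hPz
      | succ j ih =>
        intro hj z hz hPz
        rcases hz with hz | ⟨w, hw, hwz⟩
        · exact ih (by omega) z hz hPz
        · refine ih (by omega) w hw ?_
          refine hP z ?_ w (Nr_mono (by omega) hw) hwz.symm hPz
          exact Nr_mono hj (Or.inr ⟨w, hw, hwz⟩)
    have fromC : P x → ∀ j, j ≤ k + 1 → ∀ z ∈ Nr G x j, P z := by
      intro hx j
      induction j with
      | zero =>
        intro _ z hz
        have : z = x := hz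
        rw [this]
        exact hx
      | succ j ih =>
        intro hj z hz
        rcases hz with hz | ⟨w, hw, hwz⟩
        · exact ih (by omega) z hz
        · refine hP w (Nr_mono (by omega) hw) z ?_ hwz (ih (by omega) w hw)
          exact Nr_mono hj (Or.inr ⟨w, hw, hwz⟩)
    obtain ⟨z, hz, hPz⟩ := hex
    exact fromC (toC (k + 1) le_rfl z hz hPz) (k + 1) le_rfl y hy

end nr

/-- degrees in the ring -/
theorem gr_deg {m : ℕ} (hm : 3 ∣ m) (y : ZMod m) :
    ∃ N : Finset (ZMod m), N.card ≤ 2 ∧ ∀ z, (gr hm).G.Adj y z → z ∈ N := by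
  classical
  refine ⟨{y + 1, y - 1}, Finset.card_le_two, ?_⟩
  rintro z (h | h)
  · simp [h]
  · have : z = y - 1 := by rw [h]; ring
    simp [this]

/-- degrees in the tree of rings -/
theorem gtr_deg (N : ℕ) (y : TN N) :
    ∃ F : Finset (TN N), F.card ≤ 5 ∧ ∀ z, (gtr N).G.Adj y z → z ∈ F := by
  classical
  have hex : ∀ t : TT, ∃ F : Finset (TN N), F.card ≤ 1 ∧ ∀ z, Sp t y z → z ∈ F := by
    intro t
    by_cases h : ∃ z, Sp t y z
    · obtain ⟨z, hz⟩ := h
      refine ⟨{z}, by simp, ?_⟩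
      intro z' hz'
      rw [Sp_det hz' hz]
      simp
    · push Not at h
      exact ⟨∅, by simp, fun z hz => absurd hz (h z)⟩
  choose F hF hF' using hex
  refine ⟨F .jp ∪ F .jm ∪ F .pa ∪ F .c0 ∪ F .c1, ?_, ?_⟩
  · have h1 := Finset.card_union_le (F .jp ∪ F .jm ∪ F .pa ∪ F .c0) (F .c1)
    have h2 := Finset.card_union_le (F .jp ∪ F .jm ∪ F .pa) (F .c0)
    have h3 := Finset.card_union_le (F .jp ∪ F .jm) (F .pa)
    have h4 := Finset.card_union_le (F .jp) (F .jm)
    have a1 := hF .jp
    have a2 := hF .jm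
    have a3 := hF .pa
    have a4 := hF .c0
    have a5 := hF .c1
    omega
  · intro z hz
    have h := hF' _ z (Sp_of hz)
    simp only [Finset.mem_union]
    revert h
    generalize tyT (lt N y) (lt N z) = t
    intro h
    cases t with
    | jp => exact Or.inl (Or.inl (Or.inl (Or.inl h)))
    | jm => exact Or.inl (Or.inl (Or.inl (Or.inr h)))
    | pa => exact Or.inl (Or.inl (Or.inr h))
    | c0 => exact Or.inl (Or.inr h)
    | c1 => exact Or.inr h

theorem gr_out {m : ℕ} (hm : 3 ∣ m) (hm0 : 0 < m) {k : ℕ} (hk : 3 ^ k < m) (x : ZMod m) :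
    ∃ y ∈ Nr (gr hm).G x (k + 1), y ∉ Nr (gr hm).G x k := by
  classical
  by_contra hno
  push Not at hno
  have hcl : ∀ n : ℕ, x + (n : ZMod m) ∈ Nr (gr hm).G x k := by
    intro n
    induction n with
    | zero => simpa using Nr_self x k
    | succ n ih =>
      refine hno _ (Or.inr ⟨_, ih, Or.inl ?_⟩)
      push_cast
      ring
  obtain ⟨F, hF, hF'⟩ := Nr_card (gr_deg hm) x k
  have : NeZero m := ⟨by omega⟩
  have hall : ∀ y : ZMod m, y ∈ F := by
    intro y
    apply hF'
    have := hcl (y - x).val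
    rw [ZMod.natCast_val, ZMod.cast_id', id] at this
    simpa using this
  have h1 : Fintype.card (ZMod m) ≤ F.card := by
    rw [← Finset.card_univ]
    exact Finset.card_le_card fun y _ => hall y
  rw [ZMod.card] at h1
  have h2 : (2 + 1) ^ k = 3 ^ k := by norm_num
  rw [h2] at hF
  omega

theorem gtr_out {N k : ℕ} (hk : 6 ^ k ≤ N) (x : TN N) :
    ∃ y ∈ Nr (gtr N).G x (k + 1), y ∉ Nr (gtr N).G x k := by
  classical
  by_contra hno
  push Not at hno
  have hcl : ∀ y ∈ Nr (gtr N).G x k, ∀ z, TAdj y z → z ∈ Nr (gtr N).G x k :=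
    fun y hy z hz => hno z (Or.inr ⟨y, hy, hz⟩)
  -- a position of level zero
  have h0 : ∀ n, ∀ y ∈ Nr (gtr N).G x k, y.1.1 = n → ∃ z ∈ Nr (gtr N).G x k, z.1.1 = 0 := by
    intro n
    induction n with
    | zero => intro y hy h; exact ⟨y, hy, h⟩
    | succ n ih =>
      intro y hy h
      obtain ⟨w, hw, hw'⟩ := (gtr N).ex2 y .pa (by
        change decide (y.1.1 = 0) = false
        rw [decide_eq_false_iff_not]
        omega)
      have h1 := Sp_of hw
      have hw' : tyT (lt N y) (lt N w) = .pa := hw'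
      rw [hw'] at h1
      refine ih w (hcl y hy w hw) ?_
      have := h1.1
      omega
  obtain ⟨z0, hz0, hz0'⟩ := h0 _ x (Nr_self x k) rfl
  have h1 : ∀ n, n ≤ N → ∃ z ∈ Nr (gtr N).G x k, z.1.1 = n := by
    intro n
    induction n with
    | zero => intro _; exact ⟨z0, hz0, hz0'⟩
    | succ n ih =>
      intro hn
      obtain ⟨y, hy, hyn⟩ := ih (by omega)
      obtain ⟨w, hw, hw'⟩ := (gtr N).ex2 y .c0 (by
        change decide (y.1.1 = N) = false
        rw [decide_eq_false_iff_not]
        omega)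
      have h2 := Sp_of hw
      have hw' : tyT (lt N y) (lt N w) = .c0 := hw'
      rw [hw'] at h2
      refine ⟨w, hcl y hy w hw, ?_⟩
      rw [h2.1, hyn]
  obtain ⟨F, hF, hF'⟩ := Nr_card (gtr_deg N) x k
  have h2 : ∀ n : Fin (N + 1), ∃ z ∈ F, z.1.1 = n.val := by
    intro n
    obtain ⟨z, hz, hz'⟩ := h1 n.val (by omega)
    exact ⟨z, hF' z hz, hz'⟩
  choose q hq hq' using h2
  have h3 : (Finset.univ : Finset (Fin (N + 1))).card ≤ F.card := by
    refine Finset.card_le_card_of_injOn q (fun n _ => hq n) ?_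
    intro a _ b _ hab
    apply Fin.ext
    rw [← hq', ← hq', hab]
  rw [Finset.card_univ, Fintype.card_fin] at h3
  have h4 : (5 + 1) ^ k = 6 ^ k := by norm_num
  rw [h4] at hF
  omega

end Pool.Agent.H88R3
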