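import Mathlib
import Pool.Agent.H88R3.Win

set_option autoImplicit false
set_option linter.unusedSectionVars false

namespace Pool.Agent.H88R3

section sum
variable {V W L : Type}

/-- adjacency in the disjoint union -/
def SAdj (G : SimpleGraph V) (H : SimpleGraph W) : V ⊕ W → V ⊕ W → Prop
  | .inl x, .inl y => G.Adj x y
  | .inr x, .inr y => H.Adj x y
  | _, _ => False

/-- disjoint union -/
def SG (G : SimpleGraph V) (H : SimpleGraph W) : SimpleGraph (V ⊕ W) where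
  Adj := SAdj G H
  symm := by
    constructor
    rintro (x | x) (y | y) h
    · exact SimpleGraph.Adj.symm (G := G) h
    · exact h
    · exact h
    · exact SimpleGraph.Adj.symm (G := H) h
  loopless := by
    constructor
    rintro (x | x) h
    · exact SimpleGraph.irrefl (G := G) h
    · exact SimpleGraph.irrefl (G := H) h

variable {G : SimpleGraph V} {H : SimpleGraph W} {f : V → L} {g : W → L}

theorem Wk_inl {x : V} {w : List L} {z : V ⊕ W} :
    Wk (SG G H) (Sum.elim f g) (.inl x) w z ↔ ∃ z', z = .inl z' ∧ Wk G f x w z' := by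
  induction w generalizing x with
  | nil =>
    constructor
    · intro h; exact ⟨x, (show Sum.inl x = z from h).symm, rfl⟩
    · rintro ⟨z', rfl, h⟩
      exact congrArg _ (show x = z' from h)
  | cons a w ih =>
    constructor
    · rintro ⟨y, h1, h2, h3⟩
      rcases y with y | y
      · obtain ⟨z', h4, h5⟩ := ih.1 h3
        exact ⟨z', h4, y, h1, h2, h5⟩
      · exact absurd h1 (fun h => h)
    · rintro ⟨z', h4, y, h1, h2, h5⟩
      exact ⟨.inl y, h1, h2, ih.2 ⟨z', h4, h5⟩⟩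

theorem Wk_inr {x : W} {w : List L} {z : V ⊕ W} :
    Wk (SG G H) (Sum.elim f g) (.inr x) w z ↔ ∃ z', z = .inr z' ∧ Wk H g x w z' := by
  induction w generalizing x with
  | nil =>
    constructor
    · intro h; exact ⟨x, (show Sum.inr x = z from h).symm, rfl⟩
    · rintro ⟨z', rfl, h⟩
      exact congrArg _ (show x = z' from h)
  | cons a w ih =>
    constructor
    · rintro ⟨y, h1, h2, h3⟩
      rcases y with y | y
      · exact absurd h1 (fun h => h)
      · obtain ⟨z', h4, h5⟩ := ih.1 h3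
        exact ⟨z', h4, y, h1, h2, h5⟩
    · rintro ⟨z', h4, y, h1, h2, h5⟩
      exact ⟨.inr y, h1, h2, ih.2 ⟨z', h4, h5⟩⟩

theorem Cn_inl {x : V} {w w' : List L} :
    Cn (SG G H) (Sum.elim f g) (.inl x) w w' (.inl x) ↔ Cn G f x w w' x := by
  unfold Cn
  constructor
  · rintro ⟨z, h1, h2⟩
    obtain ⟨z', rfl, h3⟩ := Wk_inl.1 h1
    obtain ⟨z'', h4, h5⟩ := Wk_inl.1 h2
    obtain rfl := Sum.inl.inj h4
    exact ⟨z', h3, h5⟩
  · rintro ⟨z, h1, h2⟩
    exact ⟨.inl z, Wk_inl.2 ⟨z, rfl, h1⟩, Wk_inl.2 ⟨z, rfl, h2⟩⟩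

theorem Cn_inr {x : W} {w w' : List L} :
    Cn (SG G H) (Sum.elim f g) (.inr x) w w' (.inr x) ↔ Cn H g x w w' x := by
  unfold Cn
  constructor
  · rintro ⟨z, h1, h2⟩
    obtain ⟨z', rfl, h3⟩ := Wk_inr.1 h1
    obtain ⟨z'', h4, h5⟩ := Wk_inr.1 h2
    obtain rfl := Sum.inr.inj h4
    exact ⟨z', h3, h5⟩
  · rintro ⟨z, h1, h2⟩
    exact ⟨.inr z, Wk_inr.2 ⟨z, rfl, h1⟩, Wk_inr.2 ⟨z, rfl, h2⟩⟩

theorem Dt_sum (h1 : Dt G f) (h2 : Dt H g) : Dt (SG G H) (Sum.elim f g) := by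
  rintro (x | x) (y | y) (z | z) hy hz hf
  · exact congrArg _ (h1 x y z hy hz hf)
  · exact absurd hz (fun h => h)
  · exact absurd hy (fun h => h)
  · exact absurd hy (fun h => h)
  · exact absurd hy (fun h => h)
  · exact absurd hy (fun h => h)
  · exact absurd hz (fun h => h)
  · exact congrArg _ (h2 x y z hy hz hf)

theorem deg_sum {d : ℕ}
    (h1 : ∀ y : V, ∃ N : Finset V, N.card ≤ d ∧ ∀ z, G.Adj y z → z ∈ N)
    (h2 : ∀ y : W, ∃ N : Finset W, N.card ≤ d ∧ ∀ z, H.Adj y z → z ∈ N) :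
    ∀ y : V ⊕ W, ∃ N : Finset (V ⊕ W), N.card ≤ d ∧ ∀ z, (SG G H).Adj y z → z ∈ N := by
  classical
  rintro (y | y)
  · obtain ⟨N, hN, hN'⟩ := h1 y
    refine ⟨N.map ⟨Sum.inl, Sum.inl_injective⟩, by rw [Finset.card_map]; exact hN, ?_⟩
    rintro (z | z) hz
    · exact Finset.mem_map.2 ⟨z, hN' z hz, rfl⟩
    · exact absurd hz (fun h => h)
  · obtain ⟨N, hN, hN'⟩ := h2 y
    refine ⟨N.map ⟨Sum.inr, Sum.inr_injective⟩, by rw [Finset.card_map]; exact hN, ?_⟩
    rintro (z | z) hz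
    · exact absurd hz (fun h => h)
    · exact Finset.mem_map.2 ⟨z, hN' z hz, rfl⟩

end sum

section eg
variable {A T LA LT TA TT D : Type}

/-- the product graph -/
def EG (GA : SimpleGraph A) (GT : SimpleGraph T) : SimpleGraph (A × T) where
  Adj e e' := (GA.Adj e.1 e'.1 ∧ e.2 = e'.2) ∨ (e.1 = e'.1 ∧ GT.Adj e.2 e'.2)
  symm := by
    constructor
    rintro e e' (h | h)
    · exact Or.inl ⟨h.1.symm, h.2.symm⟩
    · exact Or.inr ⟨h.1.symm, h.2.symm⟩
  loopless := by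
    constructor
    rintro e (h | h)
    · exact GA.irrefl h.1
    · exact GT.irrefl h.2

/-- labels of the product -/
def fE (ga : TG A LA TA) (gt : TG T LT TT) (d : A → T → D) (e : A × T) : LA × LT × D :=
  (ga.lab e.1, gt.lab e.2, d e.1 e.2)

variable {ga : TG A LA TA} {gt : TG T LT TT} {d : A → T → D}

theorem E_det {e e1 e2 : A × T} (h1 : (EG ga.G gt.G).Adj e e1) (h2 : (EG ga.G gt.G).Adj e e2)
    (h3 : fE ga gt d e1 = fE ga gt d e2) : e1 = e2 := by
  unfold fE at h3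
  have h4 : ga.lab e1.1 = ga.lab e2.1 := congrArg Prod.fst h3
  have h5 : gt.lab e1.2 = gt.lab e2.2 := congrArg (fun p => p.2.1) h3
  rcases h1 with h1 | h1 <;> rcases h2 with h2 | h2
  · refine Prod.ext (ga.det _ _ _ h1.1 h2.1 (by rw [h4])) (h1.2.symm.trans h2.2)
  · exfalso
    apply ga.ne _ _ h1.1
    rw [h2.1, ← h4]
  · exfalso
    apply ga.ne _ _ h2.1
    rw [h1.1, h4]
  · refine Prod.ext (h1.1.symm.trans h2.1) (gt.det _ _ _ h1.2 h2.2 (by rw [h5]))

theorem E_deg {dA dT : ℕ}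
    (h1 : ∀ y : A, ∃ N : Finset A, N.card ≤ dA ∧ ∀ z, ga.G.Adj y z → z ∈ N)
    (h2 : ∀ y : T, ∃ N : Finset T, N.card ≤ dT ∧ ∀ z, gt.G.Adj y z → z ∈ N) (e : A × T) :
    ∃ N : Finset (A × T), N.card ≤ dA + dT ∧ ∀ z, (EG ga.G gt.G).Adj e z → z ∈ N := by
  classical
  obtain ⟨N1, a1, a2⟩ := h1 e.1
  obtain ⟨N2, b1, b2⟩ := h2 e.2
  refine ⟨N1.image (fun x => (x, e.2)) ∪ N2.image (fun u => (e.1, u)), ?_, ?_⟩
  · refine (Finset.card_union_le _ _).trans ?_
    exact Nat.add_le_add (Finset.card_image_le.trans a1) (Finset.card_image_le.trans b1)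
  · rintro z (h | h)
    · refine Finset.mem_union_left _ (Finset.mem_image.2 ⟨z.1, a2 _ h.1, ?_⟩)
      rw [h.2]
    · refine Finset.mem_union_right _ (Finset.mem_image.2 ⟨z.2, b2 _ h.2, ?_⟩)
      rw [h.1]

theorem Wk_map {V L L' : Type} {G : SimpleGraph V} {f : V → L} {i : L → L'}
    (hi : Function.Injective i) {x z : V} {w : List L'} :
    Wk G (fun v => i (f v)) x w z ↔ ∃ w0, w = w0.map i ∧ Wk G f x w0 z := by
  induction w generalizing x with
  | nil =>
    constructor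
    · intro h; exact ⟨[], rfl, h⟩
    · rintro ⟨w0, h1, h2⟩
      have : w0 = [] := by
        cases w0 with
        | nil => rfl
        | cons a w => simp at h1
      subst this
      exact h2
  | cons a w ih =>
    constructor
    · rintro ⟨y, h1, h2, h3⟩
      obtain ⟨w0, h4, h5⟩ := ih.1 h3
      have h2 : i (f y) = a := h2
      exact ⟨f y :: w0, by rw [List.map_cons, h4, h2], y, h1, rfl, h5⟩
    · rintro ⟨w0, h1, h2⟩
      cases w0 with
      | nil => simp at h1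
      | cons b w0 =>
        rw [List.map_cons, List.cons.injEq] at h1
        obtain ⟨y, h3, h4, h5⟩ := h2
        exact ⟨y, h3, by rw [h1.1, ← h4], ih.2 ⟨w0, h1.2, h5⟩⟩

theorem Cn_map {V L L' : Type} {G : SimpleGraph V} {f : V → L} {i : L → L'}
    (hi : Function.Injective i) {x y : V} {w w' : List L'} :
    Cn G (fun v => i (f v)) x w w' y ↔
      ∃ w0 w0', w = w0.map i ∧ w' = w0'.map i ∧ Cn G f x w0 w0' y := by
  unfold Cn
  constructor
  · rintro ⟨z, h1, h2⟩
    obtain ⟨w0, h3, h4⟩ := (Wk_map hi).1 h1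
    obtain ⟨w0', h5, h6⟩ := (Wk_map hi).1 h2
    exact ⟨w0, w0', h3, h5, z, h4, h6⟩
  · rintro ⟨w0, w0', h3, h5, z, h4, h6⟩
    exact ⟨z, (Wk_map hi).2 ⟨w0, h3, h4⟩, (Wk_map hi).2 ⟨w0', h5, h6⟩⟩

/-- words of bounded length -/
abbrev Wd (L : Type) (R : ℕ) : Type := {w : List L // w.length ≤ R}

open Classical in
/-- local types -/
noncomputable def tc (ga : TG A LA TA) (gt : TG T LT TT) (d : A → T → D) (R : ℕ) (e : A × T) :
    (LA × LT × D) × (Wd (LA × LT × D) R → Wd (LA × LT × D) R → Bool) :=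
  (fE ga gt d e, fun w w' => decide (Cn (EG ga.G gt.G) (fE ga gt d) e w.1 w'.1 e))

theorem tc_cn {L' : Type} {i : LA × LT × D → L'} (hi : Function.Injective i) {R : ℕ}
    {e e' : A × T} (h : tc ga gt d R e = tc ga gt d R e') {w w' : List L'} (hw : w.length ≤ R)
    (hw' : w'.length ≤ R) :
    Cn (EG ga.G gt.G) (fun v => i (fE ga gt d v)) e w w' e ↔
      Cn (EG ga.G gt.G) (fun v => i (fE ga gt d v)) e' w w' e' := by
  classical
  have key : ∀ (e e' : A × T), tc ga gt d R e = tc ga gt d R e' →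
      Cn (EG ga.G gt.G) (fun v => i (fE ga gt d v)) e w w' e →
      Cn (EG ga.G gt.G) (fun v => i (fE ga gt d v)) e' w w' e' := by
    intro e e' h hc
    obtain ⟨w0, w0', h1, h2, h3⟩ := (Cn_map hi).1 hc
    refine (Cn_map hi).2 ⟨w0, w0', h1, h2, ?_⟩
    have h4 := congrFun (congrFun (congrArg Prod.snd h) ⟨w0, by
      rw [h1, List.length_map] at hw; exact hw⟩) ⟨w0', by
      rw [h2, List.length_map] at hw'; exact hw'⟩
    simp only [tc, decide_eq_decide] at h4
    exact h4.1 h3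
  exact ⟨key e e' h, key e' e h.symm⟩

end eg

end Pool.Agent.H88R3
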