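import Mathlib
import Pool.Agent.H88R3.Dich

set_option autoImplicit false
set_option linter.unusedSectionVars false

namespace Pool.Agent.H88R3

variable {A T ι LA LT TA TT D : Type} {ga : TG A LA TA} {gt : TG T LT TT} {d : A → T → D}
  {FA FA' : ι → Set A} {FT FT' : ι → Set T}

/-- a boundary vertex is within reach -/
def Sees (ga : TG A LA TA) (gt : TG T LT TT) (d : A → T → D) (FA FA' : ι → Set A)
    (FT FT' : ι → Set T) (r : ℕ) (x : VX FA FT) : Prop :=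
  ∃ (w : List ((LA × LT × D) ⊕ VX FA FT)) (z : VX FA FT), w.length ≤ r ∧
    Wk (XG ga.G gt.G FA FT) (fX FA' FT' ga.lab gt.lab d) x w z ∧ ¬ Nm FA' FT' z

/-- labels of the full product among the labels of the windows -/
def fI (ga : TG A LA TA) (gt : TG T LT TT) (d : A → T → D) (FA : ι → Set A)
    (FT : ι → Set T) (e : A × T) : (LA × LT × D) ⊕ VX FA FT := .inl (fE ga gt d e)

theorem X_det : Dt (XG ga.G gt.G FA FT) (fX FA' FT' ga.lab gt.lab d) := by
  intro x y z hy hz hf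
  have h1 : nl ga.lab gt.lab d y = nl ga.lab gt.lab d z := by
    rw [← vl_fX (FA' := FA') (FT' := FT'), ← vl_fX (FA' := FA') (FT' := FT'), hf]
  have h2 : (EG ga.G gt.G).Adj x.1.2 y.1.2 := hy.2
  have h3 : (EG ga.G gt.G).Adj x.1.2 z.1.2 := hz.2
  have h4 := E_det h2 h3 h1
  apply Subtype.ext
  exact Prod.ext (hy.1.symm.trans hz.1) h4

theorem X_deg {dd : ℕ}
    (h : ∀ e : A × T, ∃ N : Finset (A × T), N.card ≤ dd ∧ ∀ z, (EG ga.G gt.G).Adj e z → z ∈ N)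
    (x : VX FA FT) : ∃ N : Finset (VX FA FT), N.card ≤ dd ∧
      ∀ z, (XG ga.G gt.G FA FT).Adj x z → z ∈ N := by
  classical
  obtain ⟨N, hN, hN'⟩ := h x.1.2
  let j : VX FA FT → A × T := fun z => z.1.2
  let S : Set (VX FA FT) := {z | (XG ga.G gt.G FA FT).Adj x z}
  have hinj : Set.InjOn j S := by
    intro z hz z' hz' hzz
    apply Subtype.ext
    have h1 : x.1.1 = z.1.1 := hz.1
    have h2 : x.1.1 = z'.1.1 := hz'.1
    exact Prod.ext (h1.symm.trans h2) hzz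
  have hmaps : Set.MapsTo j S (N : Set (A × T)) := by
    intro z hz
    exact hN' _ hz.2
  have hfin : S.Finite := Set.Finite.of_injOn hmaps hinj N.finite_toSet
  refine ⟨hfin.toFinset, ?_, ?_⟩
  · refine le_trans ?_ hN
    refine Finset.card_le_card_of_injOn j ?_ ?_
    · intro z hz
      exact hmaps (hfin.mem_toFinset.1 hz)
    · intro z hz z' hz' hzz
      exact hinj (hfin.mem_toFinset.1 hz) (hfin.mem_toFinset.1 hz') hzz
  · intro z hz
    exact hfin.mem_toFinset.2 hz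

theorem Sees.nm {r : ℕ} {x : VX FA FT} (h : ¬ Sees ga gt d FA FA' FT FT' r x) :
    Nm FA' FT' x := by
  by_contra hn
  exact h ⟨[], x, by simp, rfl, hn⟩

theorem Sees.step {r : ℕ} {x y : VX FA FT} (h : ¬ Sees ga gt d FA FA' FT FT' (r + 1) x)
    (hxy : (XG ga.G gt.G FA FT).Adj x y) : ¬ Sees ga gt d FA FA' FT FT' r y := by
  rintro ⟨w, z, h1, h2, h3⟩
  exact h ⟨_ :: w, z, by simp; omega, ⟨y, hxy, rfl, h2⟩, h3⟩

theorem T1 (hA : ∀ p, Wn ga.G (FA p) (FA' p)) (hT : ∀ p, Wn gt.G (FT p) (FT' p))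
    (w : List ((LA × LT × D) ⊕ VX FA FT)) : ∀ (r : ℕ) (x : VX FA FT), w.length ≤ r →
    ¬ Sees ga gt d FA FA' FT FT' r x → ∀ e', Wk (EG ga.G gt.G) (fI ga gt d FA FT) x.1.2 w e' →
    ∃ z : VX FA FT, z.1.1 = x.1.1 ∧ z.1.2 = e' ∧
      Wk (XG ga.G gt.G FA FT) (fX FA' FT' ga.lab gt.lab d) x w z := by
  induction w with
  | nil =>
    intro r x _ _ e' h
    exact ⟨x, rfl, h, rfl⟩
  | cons a w ih =>
    intro r x hw hs e' h
    obtain ⟨e1, h1, h2, h3⟩ := h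
    simp only [List.length_cons] at hw
    obtain ⟨r', rfl⟩ : ∃ r', r = r' + 1 := ⟨r - 1, by omega⟩
    have hn := Sees.nm hs
    have hmem : e1.1 ∈ FA x.1.1 ∧ e1.2 ∈ FT x.1.1 := by
      rcases h1 with h1 | h1
      · refine ⟨(hA _).nb _ hn.1 _ h1.1, ?_⟩
        rw [← h1.2]
        exact x.2.2
      · refine ⟨?_, (hT _).nb _ hn.2 _ h1.2⟩
        rw [← h1.1]
        exact x.2.1
    obtain ⟨y, hy⟩ : ∃ y : VX FA FT, y.1 = (x.1.1, e1) := ⟨⟨(x.1.1, e1), hmem⟩, rfl⟩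
    have hadj : (XG ga.G gt.G FA FT).Adj x y := by
      change x.1.1 = y.1.1 ∧ _
      rw [hy]
      exact ⟨rfl, h1⟩
    have hs' := Sees.step hs hadj
    have hyn := Sees.nm hs'
    have hfy : fX FA' FT' ga.lab gt.lab d y = a := by
      rw [fX_nm hyn, ← h2]
      unfold fI nl fE
      rw [hy]
    have h3' : Wk (EG ga.G gt.G) (fI ga gt d FA FT) y.1.2 w e' := by
      rw [hy]
      exact h3
    obtain ⟨z, z1, z2, z3⟩ := ih r' y (by omega) hs' e' h3'
    refine ⟨z, z1.trans hadj.1.symm, z2, y, hadj, hfy, z3⟩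

theorem T2 (w : List ((LA × LT × D) ⊕ VX FA FT)) : ∀ (r : ℕ) (x : VX FA FT), w.length ≤ r →
    ¬ Sees ga gt d FA FA' FT FT' r x → ∀ z,
      Wk (XG ga.G gt.G FA FT) (fX FA' FT' ga.lab gt.lab d) x w z →
      Wk (EG ga.G gt.G) (fI ga gt d FA FT) x.1.2 w z.1.2 ∧ z.1.1 = x.1.1 := by
  induction w with
  | nil =>
    intro r x _ _ z h
    have h : x = z := h
    subst h
    exact ⟨rfl, rfl⟩
  | cons a w ih =>
    intro r x hw hs z h
    obtain ⟨y, h1, h2, h3⟩ := h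
    simp only [List.length_cons] at hw
    obtain ⟨r', rfl⟩ : ∃ r', r = r' + 1 := ⟨r - 1, by omega⟩
    have hs' := Sees.step hs h1
    have hyn := Sees.nm hs'
    obtain ⟨h4, h5⟩ := ih r' y (by omega) hs' z h3
    refine ⟨⟨y.1.2, h1.2, ?_, h4⟩, h5.trans h1.1.symm⟩
    rw [← h2, fX_nm hyn]
    rfl

theorem cnX (hA : ∀ p, Wn ga.G (FA p) (FA' p)) (hT : ∀ p, Wn gt.G (FT p) (FT' p)) {r : ℕ}
    {x : VX FA FT} (hs : ¬ Sees ga gt d FA FA' FT FT' r x)
    {w w' : List ((LA × LT × D) ⊕ VX FA FT)} (hw : w.length ≤ r) (hw' : w'.length ≤ r) :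
    Cn (XG ga.G gt.G FA FT) (fX FA' FT' ga.lab gt.lab d) x w w' x ↔
      Cn (EG ga.G gt.G) (fI ga gt d FA FT) x.1.2 w w' x.1.2 := by
  constructor
  · rintro ⟨z, h1, h2⟩
    exact ⟨z.1.2, (T2 w r x hw hs z h1).1, (T2 w' r x hw' hs z h2).1⟩
  · rintro ⟨e, h1, h2⟩
    obtain ⟨z, a1, a2, a3⟩ := T1 hA hT w r x hw hs e h1
    obtain ⟨z', b1, b2, b3⟩ := T1 hA hT w' r x hw' hs e h2
    have : z = z' := by
      apply Subtype.ext
      exact Prod.ext (a1.trans b1.symm) (a2.trans b2.symm)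
    subst this
    exact ⟨z, a3, b3⟩

theorem U1 {r : ℕ} {x x' : VX FA FT} (hs : Sees ga gt d FA FA' FT FT' r x)
    (hl : fX FA' FT' ga.lab gt.lab d x' = fX FA' FT' ga.lab gt.lab d x)
    (hc : ∀ w w' : List ((LA × LT × D) ⊕ VX FA FT), w.length ≤ r → w'.length ≤ r →
      (Cn (XG ga.G gt.G FA FT) (fX FA' FT' ga.lab gt.lab d) x' w w' x' ↔
        Cn (XG ga.G gt.G FA FT) (fX FA' FT' ga.lab gt.lab d) x w w' x)) : x' = x := by
  obtain ⟨w, z, h1, h2, h3⟩ := hs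
  obtain ⟨z', hz'⟩ := Cn_end.1 ((hc w w h1 h1).2 (Cn_end.2 ⟨z, h2⟩))
  rcases List.eq_nil_or_concat' w with rfl | ⟨w0, a, rfl⟩
  · have h2 : x = z := h2
    subst h2
    rw [fX_gb h3] at hl
    exact (fX_inr hl).1
  · have e1 := Wk_lab h2
    have e2 := Wk_lab hz'
    rw [← e1, fX_gb h3] at e2
    have := (fX_inr e2).1
    subst this
    exact Wk_back X_det hz' h2 hl

theorem U2 {r : ℕ} {x : VX FA FT} {e : A × T} (hs : Sees ga gt d FA FA' FT FT' r x)
    (hl : fI ga gt d FA FT e = fX FA' FT' ga.lab gt.lab d x)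
    (hc : ∀ w w' : List ((LA × LT × D) ⊕ VX FA FT), w.length ≤ r → w'.length ≤ r →
      (Cn (EG ga.G gt.G) (fI ga gt d FA FT) e w w' e ↔
        Cn (XG ga.G gt.G FA FT) (fX FA' FT' ga.lab gt.lab d) x w w' x)) : False := by
  obtain ⟨w, z, h1, h2, h3⟩ := hs
  obtain ⟨z', hz'⟩ := Cn_end.1 ((hc w w h1 h1).2 (Cn_end.2 ⟨z, h2⟩))
  rcases List.eq_nil_or_concat' w with rfl | ⟨w0, a, rfl⟩
  · have h2 : x = z := h2
    subst h2
    rw [fX_gb h3] at hl
    exact absurd hl (by unfold fI; simp)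
  · have e1 := Wk_lab h2
    have e2 := Wk_lab hz'
    rw [← e1, fX_gb h3] at e2
    exact absurd e2 (by unfold fI; simp)

/-- every local type of the product occurs often in the windows -/
def Ab (ga : TG A LA TA) (gt : TG T LT TT) (d : A → T → D) (FA FA' : ι → Set A)
    (FT FT' : ι → Set T) (r K : ℕ) : Prop :=
  ∀ (e : A × T) (F : Finset (VX FA FT)), F.card ≤ K → ∃ x, x ∉ F ∧
    ¬ Sees ga gt d FA FA' FT FT' r x ∧
    fX FA' FT' ga.lab gt.lab d x = fI ga gt d FA FT e ∧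
    ∀ w w' : List ((LA × LT × D) ⊕ VX FA FT), w.length ≤ r → w'.length ≤ r →
      (Cn (XG ga.G gt.G FA FT) (fX FA' FT' ga.lab gt.lab d) x w w' x ↔
        Cn (EG ga.G gt.G) (fI ga gt d FA FT) e w w' e)

theorem LE_one {V W L : Type} {X : SimpleGraph V} {f : V → L} {Y : SimpleGraph W} {g : W → L}
    {r : ℕ} {a : V} {b : W} : LE X f Y g r [(a, b)] ↔ f a = g b ∧
      ∀ w w' : List L, w.length ≤ r → w'.length ≤ r → (Cn X f a w w' a ↔ Cn Y g b w w' b) := by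
  constructor
  · intro h
    exact ⟨(h (a, b) (by simp)).1, fun w w' h1 h2 => (h (a, b) (by simp)).2 (a, b) (by simp) w w' h1 h2⟩
  · rintro ⟨h1, h2⟩ p hp
    have hp : p = (a, b) := by simpa using hp
    subst hp
    refine ⟨h1, ?_⟩
    intro q hq w w' h3 h4
    have hq : q = (a, b) := by simpa using hq
    subst hq
    exact h2 w w' h3 h4

theorem ext_XY (hA : ∀ p, Wn ga.G (FA p) (FA' p)) (hT : ∀ p, Wn gt.G (FT p) (FT' p))
    {r K : ℕ} (hab : Ab ga gt d FA FA' FT FT' r K) :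
    Ext (XG ga.G gt.G FA FT) (fX FA' FT' ga.lab gt.lab d)
      (SG (XG ga.G gt.G FA FT) (EG ga.G gt.G))
      (Sum.elim (fX FA' FT' ga.lab gt.lab d) (fI ga gt d FA FT)) r K := by
  classical
  intro a
  by_cases hs : Sees ga gt d FA FA' FT FT' r a
  · left
    refine ⟨.inl a, LE_one.2 ⟨rfl, fun w w' _ _ => Cn_inl.symm⟩, ?_⟩
    intro a' ha'
    obtain ⟨h1, h2⟩ := LE_one.1 ha'
    refine U1 hs h1 ?_
    intro w w' h3 h4
    rw [h2 w w' h3 h4]
    exact Cn_inl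
  · right
    intro F hF
    obtain ⟨x, h1, h2, h3, h4⟩ := hab a.1.2 (F.preimage Sum.inl Sum.inl_injective.injOn) (by
      refine le_trans ?_ hF
      refine Finset.card_le_card_of_injOn Sum.inl ?_ Sum.inl_injective.injOn
      intro y hy
      exact Finset.mem_preimage.1 hy)
    refine ⟨.inl x, fun hh => h1 (Finset.mem_preimage.2 hh), LE_one.2 ⟨?_, ?_⟩⟩
    · change fX FA' FT' ga.lab gt.lab d a = fX FA' FT' ga.lab gt.lab d x
      rw [h3, fX_nm (Sees.nm hs)]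
      rfl
    · intro w w' h5 h6
      rw [Cn_inl, h4 w w' h5 h6, cnX hA hT hs h5 h6]

theorem ext_YX (hA : ∀ p, Wn ga.G (FA p) (FA' p)) (hT : ∀ p, Wn gt.G (FT p) (FT' p))
    {r K : ℕ} (hab : Ab ga gt d FA FA' FT FT' r K) :
    Ext (SG (XG ga.G gt.G FA FT) (EG ga.G gt.G))
      (Sum.elim (fX FA' FT' ga.lab gt.lab d) (fI ga gt d FA FT))
      (XG ga.G gt.G FA FT) (fX FA' FT' ga.lab gt.lab d) r K := by
  classical
  rintro (a | e)
  · by_cases hs : Sees ga gt d FA FA' FT FT' r a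
    · left
      refine ⟨a, LE_one.2 ⟨rfl, fun w w' _ _ => Cn_inl⟩, ?_⟩
      rintro (a' | e') ha'
      · obtain ⟨h1, h2⟩ := LE_one.1 ha'
        refine congrArg _ (U1 hs h1 ?_)
        intro w w' h3 h4
        rw [← h2 w w' h3 h4]
        exact Cn_inl.symm
      · exfalso
        obtain ⟨h1, h2⟩ := LE_one.1 ha'
        refine U2 hs h1 ?_
        intro w w' h3 h4
        rw [← h2 w w' h3 h4]
        exact Cn_inr.symm
    · right
      intro F hF
      obtain ⟨x, h1, h2, h3, h4⟩ := hab a.1.2 F hF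
      refine ⟨x, h1, LE_one.2 ⟨?_, ?_⟩⟩
      · change fX FA' FT' ga.lab gt.lab d a = fX FA' FT' ga.lab gt.lab d x
        rw [h3, fX_nm (Sees.nm hs)]
        rfl
      · intro w w' h5 h6
        rw [Cn_inl, h4 w w' h5 h6, cnX hA hT hs h5 h6]
  · right
    intro F hF
    obtain ⟨x, h1, h2, h3, h4⟩ := hab e F hF
    refine ⟨x, h1, LE_one.2 ⟨h3.symm, ?_⟩⟩
    intro w w' h5 h6
    rw [Cn_inr, h4 w w' h5 h6]

theorem dich (hA : ∀ p, Wn ga.G (FA p) (FA' p)) (hT : ∀ p, Wn gt.G (FT p) (FT' p))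
    {n0 K dd : ℕ} (hab : ∀ n, n < n0 → Ab ga gt d FA FA' FT FT' (3 ^ n) K)
    (hdeg : ∀ e : A × T, ∃ N : Finset (A × T), N.card ≤ dd ∧
      ∀ z, (EG ga.G gt.G).Adj e z → z ∈ N)
    (hK : n0 * (dd + 1) ^ (2 * 3 ^ n0) ≤ K) :
    RE (XG ga.G gt.G FA FT) (fX FA' FT' ga.lab gt.lab d)
      (SG (XG ga.G gt.G FA FT) (EG ga.G gt.G))
      (Sum.elim (fX FA' FT' ga.lab gt.lab d) (fI ga gt d FA FT)) n0 [] := by
  have hE : Dt (EG ga.G gt.G) (fI ga gt d FA FT) := by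
    intro x y z hy hz hf
    exact E_det hy hz (Sum.inl.inj hf)
  refine hanf X_det (Dt_sum X_det hE) (fun n hn => ext_XY hA hT (hab n hn))
    (fun n hn => ext_YX hA hT (hab n hn)) (X_deg hdeg) (deg_sum (X_deg hdeg) hdeg) hK n0 []
    (by simp) ?_
  intro p hp
  simp at hp

/-! centres of windows -/

theorem Wk_near {ctr : ι → A × T} {R : ℕ}
    {f : VX (fun i => Nr ga.G (ctr i).1 (R + 1)) (fun i => Nr gt.G (ctr i).2 (R + 1)) →
      (LA × LT × D) ⊕ VX (fun i => Nr ga.G (ctr i).1 (R + 1))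
        (fun i => Nr gt.G (ctr i).2 (R + 1))}
    (w : List ((LA × LT × D) ⊕ VX (fun i => Nr ga.G (ctr i).1 (R + 1))
      (fun i => Nr gt.G (ctr i).2 (R + 1)))) :
    ∀ (j : ℕ) (x z : VX (fun i => Nr ga.G (ctr i).1 (R + 1))
      (fun i => Nr gt.G (ctr i).2 (R + 1))),
    x.1.2.1 ∈ Nr ga.G (ctr x.1.1).1 j → x.1.2.2 ∈ Nr gt.G (ctr x.1.1).2 j →
    Wk (XG ga.G gt.G _ _) f x w z →
    z.1.1 = x.1.1 ∧ z.1.2.1 ∈ Nr ga.G (ctr x.1.1).1 (j + w.length) ∧
      z.1.2.2 ∈ Nr gt.G (ctr x.1.1).2 (j + w.length) := by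
  induction w with
  | nil =>
    intro j x z h1 h2 h
    have h : x = z := h
    subst h
    exact ⟨rfl, h1, h2⟩
  | cons a w ih =>
    intro j x z h1 h2 h
    obtain ⟨y, hxy, _, h3⟩ := h
    have e : y.1.1 = x.1.1 := hxy.1.symm
    have hy1 : y.1.2.1 ∈ Nr ga.G (ctr y.1.1).1 (j + 1) := by
      rw [e]
      rcases hxy.2 with h | h
      · exact Or.inr ⟨_, h1, h.1⟩
      · rw [← h.1]
        exact Or.inl h1
    have hy2 : y.1.2.2 ∈ Nr gt.G (ctr y.1.1).2 (j + 1) := by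
      rw [e]
      rcases hxy.2 with h | h
      · rw [← h.2]
        exact Or.inl h2
      · exact Or.inr ⟨_, h2, h.2⟩
    obtain ⟨z1, z2, z3⟩ := ih (j + 1) y z hy1 hy2 h3
    rw [e] at z1 z2 z3
    refine ⟨z1, ?_, ?_⟩
    · rw [List.length_cons, show j + (w.length + 1) = j + 1 + w.length by ring]
      exact z2
    · rw [List.length_cons, show j + (w.length + 1) = j + 1 + w.length by ring]
      exact z3

theorem centre_Ab {R K t' r : ℕ} (hr : r ≤ R) (hK : K < t')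
    (ctr : ((LA × LT × D) × (Wd (LA × LT × D) R → Wd (LA × LT × D) R → Bool)) × Fin t' → A × T)
    (hctr : ∀ e j, tc ga gt d R (ctr (tc ga gt d R e, j)) = tc ga gt d R e)
    (hA : ∀ p, Wn ga.G (Nr ga.G (ctr p).1 (R + 1)) (Nr ga.G (ctr p).1 R))
    (hT : ∀ p, Wn gt.G (Nr gt.G (ctr p).2 (R + 1)) (Nr gt.G (ctr p).2 R)) :
    Ab ga gt d (fun i => Nr ga.G (ctr i).1 (R + 1)) (fun i => Nr ga.G (ctr i).1 R)
      (fun i => Nr gt.G (ctr i).2 (R + 1)) (fun i => Nr gt.G (ctr i).2 R) r K := by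
  classical
  intro e F hF
  let cv : Fin t' → VX (fun i => Nr ga.G (ctr i).1 (R + 1))
      (fun i => Nr gt.G (ctr i).2 (R + 1)) := fun j =>
    ⟨((tc ga gt d R e, j), ctr (tc ga gt d R e, j)), Nr_self _ _, Nr_self _ _⟩
  have hinj : Function.Injective cv := by
    intro i j hij
    have := congrArg (fun v => v.1.1.2) hij
    exact this
  obtain ⟨j, hj⟩ : ∃ j, cv j ∉ F := by
    by_contra hno
    push Not at hno
    have h1 : (Finset.univ : Finset (Fin t')).card ≤ F.card :=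
      Finset.card_le_card_of_injOn cv (fun i _ => hno i) hinj.injOn
    rw [Finset.card_univ, Fintype.card_fin] at h1
    omega
  have hs : ∀ r', r' ≤ R → ¬ Sees ga gt d (fun i => Nr ga.G (ctr i).1 (R + 1))
      (fun i => Nr ga.G (ctr i).1 R) (fun i => Nr gt.G (ctr i).2 (R + 1))
      (fun i => Nr gt.G (ctr i).2 R) r' (cv j) := by
    rintro r' hr' ⟨w, z, h1, h2, h3⟩
    obtain ⟨a1, a2, a3⟩ := Wk_near w 0 (cv j) z rfl rfl h2
    apply h3
    constructor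
    · rw [a1]
      exact Nr_mono (by omega) a2
    · rw [a1]
      exact Nr_mono (by omega) a3
  refine ⟨cv j, hj, hs r hr, ?_, ?_⟩
  · rw [fX_nm (Sees.nm (hs r hr))]
    unfold fI
    exact congrArg Sum.inl (congrArg Prod.fst (hctr e j))
  · intro w w' hw hw'
    rw [cnX hA hT (hs r hr) hw hw']
    exact tc_cn Sum.inl_injective (hctr e j) (hw.trans hr) (hw'.trans hr)

end Pool.Agent.H88R3
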