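import Mathlib
import Pool.Agent.H88R3.Dich2
import Pool.Agent.H88R3.Gam

set_option autoImplicit false
set_option linter.unusedSectionVars false

namespace Pool.Agent.H88R3

instance fin_TN (N : ℕ) : Finite (TN N) := by
  refine Finite.of_injective (fun u : TN N => ((⟨u.1.1, by have := u.2.1; omega⟩,
    ⟨u.1.2, ?_⟩) : Fin (N + 1) × Fin (3 * 2 ^ N))) ?_
  · have h1 := u.2.2
    have h2 : 2 ^ u.1.1 ≤ 2 ^ N := Nat.pow_le_pow_right (by norm_num) u.2.1
    omega
  · intro u v h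
    simp only [Prod.mk.injEq, Fin.mk.injEq] at h
    exact Subtype.ext (Prod.ext h.1 h.2)

theorem card_VX {A T ι : Type} [Finite ι] {FA : ι → Set A} {FT : ι → Set T} {a c : ℕ}
    (hA : ∀ i, ∃ F : Finset A, F.card ≤ a ∧ ∀ x, x ∈ FA i → x ∈ F)
    (hT : ∀ i, ∃ F : Finset T, F.card ≤ c ∧ ∀ x, x ∈ FT i → x ∈ F) :
    Finite (VX FA FT) ∧ Nat.card (VX FA FT) ≤ Nat.card ι * (a * c) := by
  classical
  let _ : Fintype ι := Fintype.ofFinite ι
  choose F hF hF' using hA
  choose E hE hE' using hT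
  let j : VX FA FT → (Σ i : ι, ({x // x ∈ F i} × {u // u ∈ E i})) := fun v =>
    ⟨v.1.1, ⟨v.1.2.1, hF' _ _ v.2.1⟩, ⟨v.1.2.2, hE' _ _ v.2.2⟩⟩
  have hj : Function.Injective j := by
    rintro ⟨⟨p, x, u⟩, h1⟩ ⟨⟨q, y, w⟩, h2⟩ h
    simp only [j, Sigma.mk.injEq] at h
    obtain ⟨h3, h4⟩ := h
    subst h3
    have h4 := eq_of_heq h4
    simp only [Prod.mk.injEq, Subtype.mk.injEq] at h4
    obtain ⟨h5, h6⟩ := h4
    subst h5
    subst h6
    rfl
  refine ⟨Finite.of_injective j hj, ?_⟩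
  refine (Nat.card_le_card_of_injective j hj).trans ?_
  rw [Nat.card_sigma]
  have h1 : ∀ i ∈ (Finset.univ : Finset ι),
      Nat.card ({x // x ∈ F i} × {u // u ∈ E i}) ≤ a * c := by
    intro i _
    rw [Nat.card_prod, Nat.card_eq_fintype_card, Nat.card_eq_fintype_card, Fintype.card_coe,
      Fintype.card_coe]
    exact Nat.mul_le_mul (hF i) (hE i)
  refine (Finset.sum_le_sum h1).trans ?_
  rw [Finset.sum_const, Finset.card_univ, Nat.card_eq_fintype_card, smul_eq_mul]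

theorem fin_Wd (L : Type) [Finite L] (R : ℕ) : Finite (Wd L R) ∧
    Nat.card (Wd L R) ≤ (Nat.card L + 1) ^ R := by
  classical
  let j : Wd L R → (Fin R → Option L) := fun w i => w.1[i.val]?
  have hj : Function.Injective j := by
    rintro ⟨w, hw⟩ ⟨w', hw'⟩ h
    apply Subtype.ext
    simp only
    apply List.ext_getElem?
    intro i
    by_cases hi : i < R
    · exact congrFun h ⟨i, hi⟩
    · rw [List.getElem?_eq_none (by omega), List.getElem?_eq_none (by omega)]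
  refine ⟨Finite.of_injective j hj, ?_⟩
  refine (Nat.card_le_card_of_injective j hj).trans ?_
  rw [Nat.card_fun, Finite.card_option, Nat.card_fin]

/-- the number of local types -/
def tyB (L R : ℕ) : ℕ := L * (2 ^ ((L + 1) ^ R)) ^ ((L + 1) ^ R)

theorem card_Ty (L : Type) [Finite L] (R : ℕ) :
    Finite (L × (Wd L R → Wd L R → Bool)) ∧
    Nat.card (L × (Wd L R → Wd L R → Bool)) ≤ tyB (Nat.card L) R := by
  obtain ⟨h1, h2⟩ := fin_Wd L R
  refine ⟨inferInstance, ?_⟩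
  rw [Nat.card_prod, Nat.card_fun, Nat.card_fun]
  unfold tyB
  refine Nat.mul_le_mul_left _ ?_
  have e : Nat.card Bool = 2 := by rw [Nat.card_eq_fintype_card, Fintype.card_bool]
  rw [e]
  refine (Nat.pow_le_pow_left (Nat.pow_le_pow_right (by norm_num) h2) _).trans ?_
  exact Nat.pow_le_pow_right (Nat.pos_of_ne_zero (by positivity)) h2

/-- bound for the size of the hiding graph -/
def gB (v : ℕ) : ℕ := (2 * v + 4 * v * v) * (v + 4)

theorem gB_mono {v w : ℕ} (h : v ≤ w) : gB v ≤ gB w := by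
  unfold gB
  refine Nat.mul_le_mul (Nat.add_le_add (Nat.mul_le_mul_left _ h) ?_) (by omega)
  exact Nat.mul_le_mul (Nat.mul_le_mul_left _ h) h

theorem card_Gam {V : Type} [Finite V] {b : ℕ} (X : SimpleGraph V) (f : V → Fin b → Bool)
    (hb : b ≤ Nat.card V) :
    Nat.card (((V ⊕ Fin b) ⊕ Sym2 (V ⊕ Fin b)) ⊕ (Σ x, Fin (ct (b + 2) X f x))) ≤
      gB (Nat.card V) := by
  classical
  let _ : Fintype V := Fintype.ofFinite V
  let _ : Fintype ((V ⊕ Fin b) ⊕ Sym2 (V ⊕ Fin b)) := Fintype.ofFinite _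
  set v := Nat.card V with hv
  have hZ : Nat.card (V ⊕ Fin b) ≤ 2 * v := by
    rw [Nat.card_sum, Nat.card_fin]
    omega
  have hS : Nat.card (Sym2 (V ⊕ Fin b)) ≤ 2 * v * (2 * v) := by
    have h1 : Nat.card (Sym2 (V ⊕ Fin b)) ≤ Nat.card ((V ⊕ Fin b) × (V ⊕ Fin b)) :=
      Nat.card_le_card_of_surjective (fun p => s(p.1, p.2)) (by
        intro e
        induction e using Sym2.ind with
        | _ x y => exact ⟨(x, y), rfl⟩)
    rw [Nat.card_prod] at h1
    exact h1.trans (Nat.mul_le_mul hZ hZ)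
  have hB : Nat.card ((V ⊕ Fin b) ⊕ Sym2 (V ⊕ Fin b)) ≤ 2 * v + 4 * v * v := by
    rw [Nat.card_sum]
    nlinarith
  have hct : ∀ x, ct (b + 2) X f x ≤ b + 3 := by
    rintro ((x | i) | e)
    · exact Nat.zero_le _
    · have := i.2
      simp only [ct]
      omega
    · induction e using Sym2.ind with
      | _ z z' =>
        by_cases hh : (Hg X f).Adj z z'
        · rw [ct_pos hh]
        · rw [ct_neg hh]; omega
  rw [Nat.card_sum, Nat.card_sigma]
  have h2 : ∑ x : (V ⊕ Fin b) ⊕ Sym2 (V ⊕ Fin b), Nat.card (Fin (ct (b + 2) X f x)) ≤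
      Nat.card ((V ⊕ Fin b) ⊕ Sym2 (V ⊕ Fin b)) * (b + 3) := by
    refine (Finset.sum_le_card_nsmul Finset.univ _ (b + 3) ?_).trans ?_
    · intro x _
      rw [Nat.card_fin]
      exact hct x
    · rw [Finset.card_univ, smul_eq_mul, Nat.card_eq_fintype_card]
  refine (Nat.add_le_add_left h2 _).trans ?_
  have h3 : Nat.card ((V ⊕ Fin b) ⊕ Sym2 (V ⊕ Fin b)) +
      Nat.card ((V ⊕ Fin b) ⊕ Sym2 (V ⊕ Fin b)) * (b + 3) =
      Nat.card ((V ⊕ Fin b) ⊕ Sym2 (V ⊕ Fin b)) * (b + 4) := by ring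
  rw [h3]
  unfold gB
  exact Nat.mul_le_mul hB (by omega)

end Pool.Agent.H88R3
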