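import Mathlib
import Pool.Agent.H88R3.Conc

set_option autoImplicit false
set_option linter.unusedSectionVars false

namespace Pool.Agent.H88R3

/-- a cellular automaton with constraints on the initial row -/
structure CA (S C : Type) where
  A : S → S → Prop
  ini : S → C
  f : C → C → C → C
  hal : C

/-- the data of the tableau -/
def dat {S C : Type} {m : ℕ} (σ : ZMod m → S) (tl : ℕ → ZMod m → C) (N : ℕ) (i : ZMod m)
    (u : TN N) : S × C := (σ i, tl u.1.1 i)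

/-- a tableau on a ring -/
structure Tab {S C : Type} (ca : CA S C) {m : ℕ} (σ : ZMod m → S) (tl : ℕ → ZMod m → C)
    (N : ℕ) : Prop where
  a : ∀ i, ca.A (σ i) (σ (i + 1))
  z : ∀ i, tl 0 i = ca.ini (σ i)
  s : ∀ t i, tl (t + 1) i = ca.f (tl t (i - 1)) (tl t i) (tl t (i + 1))
  e : ∀ i, tl N i = ca.hal

section
variable {S C ι W : Type} {ca : CA S C} {m N : ℕ} {hm : 3 ∣ m} {σ : ZMod m → S}
  {tl : ℕ → ZMod m → C}
  {FA FA' : ι → Set (ZMod m)} {FT FT' : ι → Set (TN N)}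
  {Y : SimpleGraph W} {g : W → (ZMod 3 × LT × (S × C)) ⊕ VX FA FT}

theorem z3d : ∀ (s : Bool) (a b c : ZMod 3), decide (a = c + 1) = s → c ≠ a →
    decide (b = c + 1) = s → c ≠ b → a = b := by
  decide

/-- typed edges in the ring direction -/
def RA (hm : 3 ∣ m) (σ : ZMod m → S) (tl : ℕ → ZMod m → C) (Y : SimpleGraph W)
    (g : W → (ZMod 3 × LT × (S × C)) ⊕ VX FA FT) (t : Bool) (y y' : W) : Prop :=
  EA (gr hm) (gtr N) (dat σ tl N) Y g y y' ∧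
    decide ((vY (gr hm) (gtr N) (dat σ tl N) g y').1 =
      (vY (gr hm) (gtr N) (dat σ tl N) g y).1 + 1) = t

/-- typed edges in the tree direction -/
def RT (hm : 3 ∣ m) (σ : ZMod m → S) (tl : ℕ → ZMod m → C) (Y : SimpleGraph W)
    (g : W → (ZMod 3 × LT × (S × C)) ⊕ VX FA FT) (t : TT) (y y' : W) : Prop :=
  ET (gr hm) (gtr N) (dat σ tl N) Y g y y' ∧
    tyT (vY (gr hm) (gtr N) (dat σ tl N) g y).2.1 (vY (gr hm) (gtr N) (dat σ tl N) g y').2.1 = t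

theorem PL.ra {l : List (VX FA FT × W)}
    (h : PL (XG (gr hm).G (gtr N).G FA FT) (fX FA' FT' (gr hm).lab (gtr N).lab (dat σ tl N))
      Y g l) {x x' : VX FA FT} {y y' : W} (hp : (x, y) ∈ l) (hp' : (x', y') ∈ l) :
    RA hm σ tl Y g true y y' ↔ x.1.1 = x'.1.1 ∧ x'.1.2.1 = x.1.2.1 + 1 ∧ x.1.2.2 = x'.1.2.2 := by
  unfold RA
  rw [h.ea hp hp', h.vl hp, h.vl hp', decide_eq_true_iff]
  constructor
  · rintro ⟨⟨h1, h2 | h2, h3⟩, h4⟩
    · exact ⟨h1, h2, h3⟩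
    · exfalso
      have h4 : la hm x'.1.2.1 = la hm x.1.2.1 + 1 := h4
      rw [h2, la_succ] at h4
      exact (z3 _).2.1 h4.symm
  · rintro ⟨h1, h2, h3⟩
    refine ⟨⟨h1, Or.inl h2, h3⟩, ?_⟩
    change la hm x'.1.2.1 = la hm x.1.2.1 + 1
    rw [h2, la_succ]

theorem PL.ra' {l : List (VX FA FT × W)}
    (h : PL (XG (gr hm).G (gtr N).G FA FT) (fX FA' FT' (gr hm).lab (gtr N).lab (dat σ tl N))
      Y g l) {x x' : VX FA FT} {y y' : W} (hp : (x, y) ∈ l) (hp' : (x', y') ∈ l) :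
    RA hm σ tl Y g false y y' ↔ x.1.1 = x'.1.1 ∧ x.1.2.1 = x'.1.2.1 + 1 ∧ x.1.2.2 = x'.1.2.2 := by
  unfold RA
  rw [h.ea hp hp', h.vl hp, h.vl hp', decide_eq_false_iff_not]
  constructor
  · rintro ⟨⟨h1, h2 | h2, h3⟩, h4⟩
    · exfalso
      apply h4
      change la hm x'.1.2.1 = la hm x.1.2.1 + 1
      rw [h2, la_succ]
    · exact ⟨h1, h2, h3⟩
  · rintro ⟨h1, h2, h3⟩
    refine ⟨⟨h1, Or.inr h2, h3⟩, ?_⟩
    intro h4
    have h4 : la hm x'.1.2.1 = la hm x.1.2.1 + 1 := h4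
    rw [h2, la_succ] at h4
    exact (z3 _).2.1 h4.symm

theorem PL.rt {l : List (VX FA FT × W)}
    (h : PL (XG (gr hm).G (gtr N).G FA FT) (fX FA' FT' (gr hm).lab (gtr N).lab (dat σ tl N))
      Y g l) {x x' : VX FA FT} {y y' : W} (hp : (x, y) ∈ l) (hp' : (x', y') ∈ l) {t : TT} :
    RT hm σ tl Y g t y y' ↔ x.1.1 = x'.1.1 ∧ x.1.2.1 = x'.1.2.1 ∧ Sp t x.1.2.2 x'.1.2.2 := by
  unfold RT
  rw [h.et hp hp', h.vl hp, h.vl hp']
  constructor
  · rintro ⟨⟨h1, h2, h3⟩, h4⟩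
    refine ⟨h1, h2, ?_⟩
    have := Sp_of h3
    have h4 : tyT (lt N x.1.2.2) (lt N x'.1.2.2) = t := h4
    rw [h4] at this
    exact this
  · rintro ⟨h1, h2, h3⟩
    exact ⟨⟨h1, h2, (Sp_adj h3).1⟩, (Sp_adj h3).2⟩

variable (h : RE (XG (gr hm).G (gtr N).G FA FT)
  (fX FA' FT' (gr hm).lab (gtr N).lab (dat σ tl N)) Y g 4 [])
include h

theorem law_sig {y y' : W} (he : ET (gr hm) (gtr N) (dat σ tl N) Y g y y') :
    (vY (gr hm) (gtr N) (dat σ tl N) g y).2.2.1 =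
      (vY (gr hm) (gtr N) (dat σ tl N) g y').2.2.1 := by
  obtain ⟨x1, x2, x3, x4, hp⟩ := pull4 h y y' y y
  have := (hp.et (x := x1) (x' := x2) (by simp) (by simp)).1 he
  rw [hp.vl (x := x1) (by simp), hp.vl (x := x2) (y := y') (by simp)]
  change σ x1.1.2.1 = σ x2.1.2.1
  rw [this.2.1]

theorem law_A (hT : Tab ca σ tl N) {y y' : W} (he : RA hm σ tl Y g true y y') :
    ca.A (vY (gr hm) (gtr N) (dat σ tl N) g y).2.2.1
      (vY (gr hm) (gtr N) (dat σ tl N) g y').2.2.1 := by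
  obtain ⟨x1, x2, x3, x4, hp⟩ := pull4 h y y' y y
  have := (hp.ra (x := x1) (x' := x2) (by simp) (by simp)).1 he
  rw [hp.vl (x := x1) (by simp), hp.vl (x := x2) (y := y') (by simp)]
  change ca.A (σ x1.1.2.1) (σ x2.1.2.1)
  rw [this.2.1]
  exact hT.a _

theorem law_f (hT : Tab ca σ tl N) {y a b z : W} (h1 : RA hm σ tl Y g false y a)
    (h2 : RA hm σ tl Y g true y b) (h3 : RT hm σ tl Y g .c0 y z ∨ RT hm σ tl Y g .c1 y z) :
    (vY (gr hm) (gtr N) (dat σ tl N) g z).2.2.2 =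
      ca.f (vY (gr hm) (gtr N) (dat σ tl N) g a).2.2.2
        (vY (gr hm) (gtr N) (dat σ tl N) g y).2.2.2
        (vY (gr hm) (gtr N) (dat σ tl N) g b).2.2.2 := by
  obtain ⟨x1, x2, x3, x4, hp⟩ := pull4 h y a b z
  have e1 := (hp.ra' (x := x1) (x' := x2) (by simp) (by simp)).1 h1
  have e2 := (hp.ra (x := x1) (x' := x3) (by simp) (by simp)).1 h2
  have e3 : x1.1.2.1 = x4.1.2.1 ∧ x4.1.2.2.1.1 = x1.1.2.2.1.1 + 1 := by
    rcases h3 with h3 | h3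
    · have := (hp.rt (x := x1) (x' := x4) (by simp) (by simp)).1 h3
      exact ⟨this.2.1, this.2.2.1⟩
    · have := (hp.rt (x := x1) (x' := x4) (by simp) (by simp)).1 h3
      exact ⟨this.2.1, this.2.2.1⟩
  rw [hp.vl (x := x1) (y := y) (by simp), hp.vl (x := x2) (y := a) (by simp),
    hp.vl (x := x3) (y := b) (by simp), hp.vl (x := x4) (y := z) (by simp)]
  change tl x4.1.2.2.1.1 x4.1.2.1 = ca.f (tl x2.1.2.2.1.1 x2.1.2.1) (tl x1.1.2.2.1.1 x1.1.2.1)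
    (tl x3.1.2.2.1.1 x3.1.2.1)
  rw [e3.2, ← e3.1, ← e1.2.2, ← e2.2.2, e2.2.1, hT.s]
  congr 2
  rw [e1.2.1]
  ring

theorem law_root (hT : Tab ca σ tl N) {y : W}
    (hr : (vY (gr hm) (gtr N) (dat σ tl N) g y).2.1.2.2.2.1 = true) :
    (vY (gr hm) (gtr N) (dat σ tl N) g y).2.2.2 =
      ca.ini (vY (gr hm) (gtr N) (dat σ tl N) g y).2.2.1 := by
  obtain ⟨x1, x2, x3, x4, hp⟩ := pull4 h y y y y
  rw [hp.vl (x := x1) (y := y) (by simp)] at hr ⊢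
  have hr : decide (x1.1.2.2.1.1 = 0) = true := hr
  rw [decide_eq_true_iff] at hr
  change tl x1.1.2.2.1.1 x1.1.2.1 = ca.ini (σ x1.1.2.1)
  rw [hr, hT.z]

theorem law_leaf (hT : Tab ca σ tl N) {y : W}
    (hr : (vY (gr hm) (gtr N) (dat σ tl N) g y).2.1.2.2.2.2 = true) :
    (vY (gr hm) (gtr N) (dat σ tl N) g y).2.2.2 = ca.hal := by
  obtain ⟨x1, x2, x3, x4, hp⟩ := pull4 h y y y y
  rw [hp.vl (x := x1) (y := y) (by simp)] at hr ⊢
  have hr : decide (x1.1.2.2.1.1 = N) = true := hr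
  rw [decide_eq_true_iff] at hr
  change tl x1.1.2.2.1.1 x1.1.2.1 = ca.hal
  rw [hr, hT.e]

/-- pulling a tree edge back to positions -/
theorem law_u {y y' : W} {t : TT} (he : RT hm σ tl Y g t y y') : ∃ u v : TN N, Sp t u v ∧
    (vY (gr hm) (gtr N) (dat σ tl N) g y).2.1 = lt N u ∧
    (vY (gr hm) (gtr N) (dat σ tl N) g y').2.1 = lt N v := by
  obtain ⟨x1, x2, x3, x4, hp⟩ := pull4 h y y' y y
  have := (hp.rt (x := x1) (x' := x2) (by simp) (by simp)).1 he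
  refine ⟨x1.1.2.2, x2.1.2.2, this.2.2, ?_, ?_⟩
  · rw [hp.vl (x := x1) (by simp)]; rfl
  · rw [hp.vl (x := x2) (y := y') (by simp)]; rfl

theorem RT.det {t : TT} {y y1 y2 : W} (h1 : RT hm σ tl Y g t y y1)
    (h2 : RT hm σ tl Y g t y y2) : y1 = y2 :=
  ET.det h h1.1 h2.1 (h1.2.trans h2.2.symm)

theorem RA.det {t : Bool} {y y1 y2 : W} (h1 : RA hm σ tl Y g t y y1)
    (h2 : RA hm σ tl Y g t y y2) : y1 = y2 :=
  EA.det h h1.1 h2.1 (h1.2.trans h2.2.symm)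

theorem RA.symm {y y' : W} : RA hm σ tl Y g true y y' ↔ RA hm σ tl Y g false y' y := by
  obtain ⟨x1, x2, x3, x4, hp⟩ := pull4 h y y' y y
  rw [hp.ra (x := x1) (x' := x2) (by simp) (by simp),
    hp.ra' (x := x2) (x' := x1) (by simp) (by simp)]
  constructor
  · rintro ⟨a1, a2, a3⟩
    exact ⟨a1.symm, a2, a3.symm⟩
  · rintro ⟨a1, a2, a3⟩
    exact ⟨a1.symm, a2, a3.symm⟩

theorem RT.jsymm {y y' : W} : RT hm σ tl Y g .jp y y' ↔ RT hm σ tl Y g .jm y' y := by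
  obtain ⟨x1, x2, x3, x4, hp⟩ := pull4 h y y' y y
  rw [hp.rt (x := x1) (x' := x2) (by simp) (by simp),
    hp.rt (x := x2) (x' := x1) (by simp) (by simp)]
  constructor
  · rintro ⟨a1, a2, a3, a4⟩
    exact ⟨a1.symm, a2.symm, a3.symm, a4⟩
  · rintro ⟨a1, a2, a3, a4⟩
    exact ⟨a1.symm, a2.symm, a3.symm, a4⟩

theorem RT.up {y y' : W} (he : RT hm σ tl Y g .c0 y y' ∨ RT hm σ tl Y g .c1 y y') :
    RT hm σ tl Y g .pa y' y := by
  obtain ⟨x1, x2, x3, x4, hp⟩ := pull4 h y y' y y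
  rw [hp.rt (x := x1) (x' := x2) (by simp) (by simp),
    hp.rt (x := x1) (x' := x2) (by simp) (by simp)] at he
  rw [hp.rt (x := x2) (x' := x1) (by simp) (by simp)]
  rcases he with ⟨a1, a2, a3, a4⟩ | ⟨a1, a2, a3, a4⟩
  · exact ⟨a1.symm, a2.symm, a3, by omega⟩
  · exact ⟨a1.symm, a2.symm, a3, by omega⟩

theorem RT.down {y y' : W} (he : RT hm σ tl Y g .pa y y') :
    RT hm σ tl Y g .c0 y' y ∨ RT hm σ tl Y g .c1 y' y := by
  obtain ⟨x1, x2, x3, x4, hp⟩ := pull4 h y y' y y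
  rw [hp.rt (x := x1) (x' := x2) (by simp) (by simp)] at he
  rw [hp.rt (x := x2) (x' := x1) (by simp) (by simp),
    hp.rt (x := x2) (x' := x1) (by simp) (by simp)]
  obtain ⟨a1, a2, a3, a4⟩ := he
  rcases Nat.even_or_odd' x1.1.2.2.1.2 with ⟨n, hn | hn⟩
  · left
    exact ⟨a1.symm, a2.symm, a3, by omega⟩
  · right
    exact ⟨a1.symm, a2.symm, a3, by omega⟩

/-- T1 -/
theorem law_T1 {y z w : W} (h1 : RT hm σ tl Y g .c0 y z) (h2 : RT hm σ tl Y g .jp z w) :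
    RT hm σ tl Y g .c1 y w := by
  obtain ⟨x1, x2, x3, x4, hp⟩ := pull4 h y z w y
  obtain ⟨a1, a2, a3, a4⟩ := (hp.rt (x := x1) (x' := x2) (by simp) (by simp)).1 h1
  obtain ⟨b1, b2, b3, b4⟩ := (hp.rt (x := x2) (x' := x3) (by simp) (by simp)).1 h2
  refine (hp.rt (x := x1) (x' := x3) (by simp) (by simp)).2 ?_
  refine ⟨a1.trans b1, a2.trans b2, b3.symm.trans a3, ?_⟩
  rw [a3, pow_succ] at b4
  unfold nx at b4
  omega

/-- T2 -/
theorem law_T2 {y z w v : W} (h1 : RT hm σ tl Y g .c1 y z) (h2 : RT hm σ tl Y g .jp z w)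
    (h3 : RT hm σ tl Y g .jp y v) : RT hm σ tl Y g .c0 v w := by
  obtain ⟨x1, x2, x3, x4, hp⟩ := pull4 h y z w v
  obtain ⟨a1, a2, a3, a4⟩ := (hp.rt (x := x1) (x' := x2) (by simp) (by simp)).1 h1
  obtain ⟨b1, b2, b3, b4⟩ := (hp.rt (x := x2) (x' := x3) (by simp) (by simp)).1 h2
  obtain ⟨c1, c2, c3, c4⟩ := (hp.rt (x := x1) (x' := x4) (by simp) (by simp)).1 h3
  refine (hp.rt (x := x4) (x' := x3) (by simp) (by simp)).2 ?_
  refine ⟨c1.symm.trans (a1.trans b1), c2.symm.trans (a2.trans b2), ?_, ?_⟩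
  · omega
  · rw [a3, pow_succ] at b4
    unfold nx at b4 c4
    have q1 := x4.1.2.2.2.2
    rw [← c3] at q1
    have q2 := x1.1.2.2.2.2
    have q3 := x3.1.2.2.2.2
    rw [← b3, a3, pow_succ] at q3
    omega

/-- commutation of a child edge with ring edges -/
theorem law_comm {t : TT} {s : Bool} {y y' z z' : W} (h1 : RA hm σ tl Y g s y y')
    (h2 : RA hm σ tl Y g s z z') (h3 : RT hm σ tl Y g t y z) : RT hm σ tl Y g t y' z' := by
  have hα : (vY (gr hm) (gtr N) (dat σ tl N) g y').1 =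
      (vY (gr hm) (gtr N) (dat σ tl N) g z').1 := by
    have e1 := h1.2
    have e2 := h2.2
    have e3 := h3.1.2
    have e4 := h1.1.2
    have e5 := h2.1.2
    rw [← e3] at e2 e5
    exact z3d _ _ _ _ e1 e4 e2 e5
  refine ⟨comm2 h h1.1 h3.1 h2.1 hα, ?_⟩
  rw [← EA.tau h h1.1, ← EA.tau h h2.1]
  exact h3.2

end

end Pool.Agent.H88R3
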