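import Mathlib
import Pool.Agent.H88R3.Laws

set_option autoImplicit false
set_option linter.unusedSectionVars false

namespace Pool.Agent.H88R3

section
variable {S C ι W : Type} {ca : CA S C} {m N : ℕ} {hm : 3 ∣ m} {σ : ZMod m → S}
  {tl : ℕ → ZMod m → C}
  {FA FA' : ι → Set (ZMod m)} {FT FT' : ι → Set (TN N)}
  {Y : SimpleGraph W} {g : W → (ZMod 3 × LT × (S × C)) ⊕ VX FA FT}

variable (h : RE (XG (gr hm).G (gtr N).G FA FT)
  (fX FA' FT' (gr hm).lab (gtr N).lab (dat σ tl N)) Y g 4 [])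
  (hA : ∀ p, Wn (gr hm).G (FA p) (FA' p)) (hW : ∀ p, Wn (gtr N).G (FT p) (FT' p))
include h hA hW

/-- the data labels are forced as well -/
theorem data_ok (hT : Tab ca σ tl N) (Φ : VX FA FT → W)
    (p1 : ∀ v, Nm FA' FT' v → ∃ n, g (Φ v) = .inl n)
    (p2 : ∀ v, ¬ Nm FA' FT' v → g (Φ v) = .inr v)
    (p3 : ∀ v, (vY (gr hm) (gtr N) (dat σ tl N) g (Φ v)).1 = la hm v.1.2.1 ∧
      (vY (gr hm) (gtr N) (dat σ tl N) g (Φ v)).2.1 = lt N v.1.2.2)
    (p4 : ∀ v v', (XG (gr hm).G (gtr N).G FA FT).Adj v v' → Y.Adj (Φ v) (Φ v')) :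
    ∀ v, g (Φ v) = fX FA' FT' (gr hm).lab (gtr N).lab (dat σ tl N) v := by
  classical
  have pet : ∀ v v' : VX FA FT, v.1.1 = v'.1.1 → v.1.2.1 = v'.1.2.1 →
      TAdj v.1.2.2 v'.1.2.2 → ET (gr hm) (gtr N) (dat σ tl N) Y g (Φ v) (Φ v') := by
    intro v v' h1 h2 h3
    refine ⟨p4 v v' ⟨h1, Or.inr ⟨h2, h3⟩⟩, ?_⟩
    rw [(p3 v).1, (p3 v').1, h2]
  have hσ : ∀ p, ∀ x (hx : x ∈ FA p), ∀ u ∈ FT p, ∀ hu : u ∈ FT p,
      (vY (gr hm) (gtr N) (dat σ tl N) g (Φ ⟨(p, x, u), hx, hu⟩)).2.2.1 = σ x := by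
    intro p x hx
    obtain ⟨uo, huo, huo'⟩ := (hW p).out
    refine (hW p).conn _ ?_ ⟨uo, huo, ?_⟩
    · intro u hu u' hu' hadj hh _
      rw [← hh hu]
      exact (law_sig h (pet ⟨(p, x, u), hx, hu⟩ ⟨(p, x, u'), hx, hu'⟩ rfl rfl hadj)).symm
    · intro hu
      rw [vY_inr (p2 ⟨(p, x, uo), hx, hu⟩ (fun hh => huo' hh.2))]
      rfl
  have hτ : ∀ k : ℕ, ∀ v : VX FA FT, v.1.2.2.1.1 = k →
      (vY (gr hm) (gtr N) (dat σ tl N) g (Φ v)).2.2.2 = tl k v.1.2.1 := by
    intro k
    induction k with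
    | zero =>
      rintro ⟨⟨p, x, u⟩, hx, hu⟩ hk
      simp only at hk
      rw [law_root h hT, hσ p x hx u hu hu, hT.z]
      rw [(p3 ⟨(p, x, u), hx, hu⟩).2]
      change decide (u.1.1 = 0) = true
      rw [decide_eq_true_iff]
      exact hk
    | succ k ih =>
      rintro ⟨⟨p, x, u⟩, hx, hu⟩ hk
      simp only at hk
      by_cases hn : Nm FA' FT' (⟨(p, x, u), hx, hu⟩ : VX FA FT)
      · have hx' : x ∈ FA' p := hn.1
        have hu' : u ∈ FT' p := hn.2
        -- the parent
        have hkN := u.2.1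
        have hj := u.2.2
        rw [hk, pow_succ] at hj
        obtain ⟨w, hw⟩ : ∃ w : TN N, w.1 = (k, u.1.2 / 2) :=
          ⟨⟨(k, u.1.2 / 2), by simp only; omega, by simp only; omega⟩, rfl⟩
        have hpa : Sp .pa u w := by
          refine ⟨?_, ?_⟩
          · rw [hw]; exact hk
          · rw [hw]
        have hadj : TAdj u w := (Sp_adj hpa).1
        have hwF : w ∈ FT p := (hW p).nb u hu' w hadj
        have hl : x - 1 ∈ FA p := (hA p).nb x hx' (x - 1) (Or.inr (by ring))
        have hr : x + 1 ∈ FA p := (hA p).nb x hx' (x + 1) (Or.inl rfl)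
        have e1 : RA hm σ tl Y g false (Φ ⟨(p, x, w), hx, hwF⟩) (Φ ⟨(p, x - 1, w), hl, hwF⟩) := by
          refine ⟨⟨p4 _ _ ⟨rfl, Or.inl ⟨Or.inr (by simp only; ring), rfl⟩⟩, ?_⟩, ?_⟩
          · rw [(p3 _).1, (p3 _).1]
            intro hh
            have hh : la hm x = la hm (x - 1) := hh
            have e : la hm x = la hm (x - 1) + 1 := by rw [← la_succ, sub_add_cancel]
            rw [hh] at e
            exact (z3 _).1 e.symm
          · rw [(p3 _).1, (p3 _).1, decide_eq_false_iff_not]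
            intro hh
            have hh : la hm (x - 1) = la hm x + 1 := hh
            have e : la hm x = la hm (x - 1) + 1 := by rw [← la_succ, sub_add_cancel]
            rw [e] at hh
            exact (z3 _).2.1 hh.symm
        have e2 : RA hm σ tl Y g true (Φ ⟨(p, x, w), hx, hwF⟩) (Φ ⟨(p, x + 1, w), hr, hwF⟩) := by
          refine ⟨⟨p4 _ _ ⟨rfl, Or.inl ⟨Or.inl rfl, rfl⟩⟩, ?_⟩, ?_⟩
          · rw [(p3 _).1, (p3 _).1]
            intro hh
            have hh : la hm x = la hm (x + 1) := hh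
            rw [la_succ] at hh
            exact (z3 _).1 hh.symm
          · rw [(p3 _).1, (p3 _).1, decide_eq_true_iff]
            exact la_succ hm x
        have e3 : RT hm σ tl Y g .pa (Φ ⟨(p, x, u), hx, hu⟩) (Φ ⟨(p, x, w), hx, hwF⟩) := by
          refine ⟨pet _ _ rfl rfl hadj, ?_⟩
          rw [(p3 _).2, (p3 _).2]
          exact (Sp_adj hpa).2
        rw [law_f h hT e1 e2 (RT.down h e3)]
        rw [ih ⟨(p, x - 1, w), hl, hwF⟩ (by simp only [hw]),
          ih ⟨(p, x, w), hx, hwF⟩ (by simp only [hw]),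
          ih ⟨(p, x + 1, w), hr, hwF⟩ (by simp only [hw])]
        exact (hT.s k x).symm
      · rw [vY_inr (p2 _ hn)]
        change tl u.1.1 x = tl (k + 1) x
        rw [hk]
  rintro ⟨⟨p, x, u⟩, hx, hu⟩
  by_cases hn : Nm FA' FT' (⟨(p, x, u), hx, hu⟩ : VX FA FT)
  · obtain ⟨n, hn'⟩ := p1 _ hn
    rw [hn', fX_nm hn]
    congr 1
    have e : vY (gr hm) (gtr N) (dat σ tl N) g (Φ ⟨(p, x, u), hx, hu⟩) = n := by
      unfold vY
      rw [hn']
      rfl
    rw [← e]
    refine Prod.ext (p3 _).1 (Prod.ext (p3 _).2 (Prod.ext (hσ p x hx u hu hu) ?_))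
    exact hτ _ ⟨(p, x, u), hx, hu⟩ rfl
  · rw [p2 _ hn, fX_gb hn]

/-- a closed part without boundary vertices yields a halting tableau -/
theorem closed_part [Fintype W] (hT : Tab ca σ tl N) (K : Set W) (hne : K.Nonempty)
    (hcl : ∀ y ∈ K, ∀ y', Y.Adj y y' → y' ∈ K) (hnm : ∀ y ∈ K, ∃ n, g y = .inl n) :
    ∃ N' ≤ Fintype.card W, ∃ (σ' : ℤ → S) (T' : ℕ → ℤ → C),
      (∀ z, ca.A (σ' z) (σ' (z + 1))) ∧ (∀ z, T' 0 z = ca.ini (σ' z)) ∧
      (∀ k, k < N' → ∀ z, T' (k + 1) z = ca.f (T' k (z - 1)) (T' k z) (T' k (z + 1))) ∧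
      T' N' 0 = ca.hal := by
  classical
  let V : W → ZMod 3 × LT × (S × C) := vY (gr hm) (gtr N) (dat σ tl N) g
  have hra : ∀ (t : Bool) (y : K), ∃ y' : K, RA hm σ tl Y g t y.1 y'.1 := by
    intro t y
    obtain ⟨n, hn⟩ := hnm y.1 y.2
    obtain ⟨y', h1, h2⟩ := exA h hA hn (t := t) trivial
    exact ⟨⟨y', hcl _ y.2 _ h1.1⟩, h1, h2⟩
  have hrt : ∀ (t : TT) (y : K), exT' (V y.1).2.1 t → ∃ y' : K, RT hm σ tl Y g t y.1 y'.1 := by
    intro t y ht
    obtain ⟨n, hn⟩ := hnm y.1 y.2
    obtain ⟨y', h1, h2⟩ := exT h hW hn (t := t) ht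
    exact ⟨⟨y', hcl _ y.2 _ h1.1⟩, h1, h2⟩
  have hjp : ∀ y : K, ∃ y' : K, RT hm σ tl Y g .jp y.1 y'.1 := fun y => hrt .jp y trivial
  choose J hJ using hjp
  have hJi : Function.Injective J := by
    intro y y' hyy
    apply Subtype.ext
    have h1 := (RT.jsymm h).1 (hJ y)
    have h2 := (RT.jsymm h).1 (hJ y')
    rw [← hyy] at h2
    exact RT.det h h1 h2
  have : Finite K := inferInstance
  let _ : Fintype K := Fintype.ofFinite K
  have hper : ∀ y, 0 < Function.minimalPeriod J y := fun y =>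
    Function.minimalPeriod_pos_of_mem_periodicPts (hJi.mem_periodicPts y)
  have hPle : ∀ y, Function.minimalPeriod J y ≤ Fintype.card W := fun y =>
    Function.minimalPeriod_le_card.trans (Fintype.card_le_of_injective _ Subtype.val_injective)
  have hPJ : ∀ y, Function.minimalPeriod J (J y) = Function.minimalPeriod J y := fun y =>
    Function.minimalPeriod_apply (hJi.mem_periodicPts y)
  -- labels along ring edges of the tree part
  have hroot : ∀ y, (V (J y).1).2.1.2.2.2.1 = (V y.1).2.1.2.2.2.1 := by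
    intro y
    obtain ⟨u, v, h1, h2, h3⟩ := law_u h (hJ y)
    change (vY _ _ _ g (J y).1).2.1.2.2.2.1 = (vY _ _ _ g y.1).2.1.2.2.2.1
    rw [h2, h3]
    change decide (v.1.1 = 0) = decide (u.1.1 = 0)
    rw [h1.1]
  have hpar : ∀ y, (V y.1).2.1.2.2.2.1 = false →
      (V (J y).1).2.1.2.2.1.val = ((V y.1).2.1.2.2.1.val + 1) % 2 := by
    intro y hy
    obtain ⟨u, v, h1, h2, h3⟩ := law_u h (hJ y)
    change (vY _ _ _ g (J y).1).2.1.2.2.1.val = ((vY _ _ _ g y.1).2.1.2.2.1.val + 1) % 2
    have hy : (vY _ _ _ g y.1).2.1.2.2.2.1 = false := hy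
    rw [h2] at hy
    rw [h2, h3]
    have hy : decide (u.1.1 = 0) = false := hy
    rw [decide_eq_false_iff_not] at hy
    change v.1.2 % 2 = (u.1.2 % 2 + 1) % 2
    have h4 := h1.2
    obtain ⟨k, hk⟩ : ∃ k, u.1.1 = k + 1 := ⟨u.1.1 - 1, by omega⟩
    rw [hk, pow_succ] at h4
    unfold nx at h4
    omega
  have hchild : ∀ x y : K, RT hm σ tl Y g .c0 x.1 y.1 →
      (V y.1).2.1.2.2.2.1 = false ∧ (V y.1).2.1.2.2.1.val = 0 := by
    intro x y hxy
    obtain ⟨u, v, h1, h2, h3⟩ := law_u h hxy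
    change (vY _ _ _ g y.1).2.1.2.2.2.1 = false ∧ (vY _ _ _ g y.1).2.1.2.2.1.val = 0
    rw [h3]
    refine ⟨?_, ?_⟩
    · change decide (v.1.1 = 0) = false
      rw [decide_eq_false_iff_not]
      have := h1.1
      omega
    · change v.1.2 % 2 = 0
      have := h1.2
      omega
  have hroots : ∀ n y, (V (J^[n] y).1).2.1.2.2.2.1 = (V y.1).2.1.2.2.2.1 := by
    intro n
    induction n with
    | zero => intro y; rfl
    | succ n ih => intro y; rw [Function.iterate_succ_apply', hroot, ih]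
  have hpars : ∀ n y, (V y.1).2.1.2.2.2.1 = false →
      (V (J^[n] y).1).2.1.2.2.1.val % 2 = ((V y.1).2.1.2.2.1.val + n) % 2 := by
    intro n
    induction n with
    | zero => intro y _; rfl
    | succ n ih =>
      intro y hy
      rw [Function.iterate_succ_apply', hpar _ (by rw [hroots]; exact hy)]
      have := ih y hy
      omega
  have hit : ∀ x y : K, RT hm σ tl Y g .c0 x.1 y.1 → ∀ n,
      RT hm σ tl Y g .c0 (J^[n] x).1 (J^[2 * n] y).1 := by
    intro x y hxy n
    induction n with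
    | zero => exact hxy
    | succ n ih =>
      rw [Function.iterate_succ_apply', show 2 * (n + 1) = 2 * n + 1 + 1 by ring,
        Function.iterate_succ_apply', Function.iterate_succ_apply']
      have h1 := law_T1 h ih (hJ _)
      exact law_T2 h h1 (hJ _) (hJ _)
  have hpaU : ∀ x x' y : K, RT hm σ tl Y g .c0 x.1 y.1 → RT hm σ tl Y g .c0 x'.1 y.1 →
      x = x' := by
    intro x x' y h1 h2
    apply Subtype.ext
    exact RT.det h (RT.up h (Or.inl h1)) (RT.up h (Or.inl h2))
  have hdouble : ∀ x y : K, RT hm σ tl Y g .c0 x.1 y.1 →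
      Function.minimalPeriod J y = 2 * Function.minimalPeriod J x := by
    intro x y hxy
    apply Nat.dvd_antisymm
    · apply Function.IsPeriodicPt.minimalPeriod_dvd
      have h1 := hit x y hxy (Function.minimalPeriod J x)
      have h2 : J^[Function.minimalPeriod J x] x = x :=
        Function.isPeriodicPt_minimalPeriod J x
      rw [h2] at h1
      change J^[2 * Function.minimalPeriod J x] y = y
      apply Subtype.ext
      exact RT.det h h1 hxy
    · have h1 : J^[Function.minimalPeriod J y] y = y :=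
        Function.isPeriodicPt_minimalPeriod J y
      obtain ⟨hc1, hc2⟩ := hchild x y hxy
      have h2 := hpars (Function.minimalPeriod J y) y hc1
      rw [h1, hc2] at h2
      obtain ⟨n, hn⟩ : ∃ n, Function.minimalPeriod J y = 2 * n :=
        ⟨Function.minimalPeriod J y / 2, by omega⟩
      rw [hn] at h1 ⊢
      have h3 := hit x y hxy n
      rw [h1] at h3
      have h4 := hpaU _ _ _ h3 hxy
      exact Nat.mul_dvd_mul_left 2 (Function.IsPeriodicPt.minimalPeriod_dvd h4)
  -- a root exists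
  have hex : ∀ n, ∀ y : K, Function.minimalPeriod J y ≤ n →
      ∃ s : K, (V s.1).2.1.2.2.2.1 = true := by
    intro n
    induction n with
    | zero =>
      intro y hy
      have := hper y
      omega
    | succ n ih =>
      intro y hy
      by_cases hr : (V y.1).2.1.2.2.2.1 = true
      · exact ⟨y, hr⟩
      · have hr : (V y.1).2.1.2.2.2.1 = false := by
          revert hr
          cases (V y.1).2.1.2.2.2.1 <;> simp
        obtain ⟨x, hx⟩ := hrt .pa y hr
        rcases RT.down h hx with h1 | h1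
        · have := hdouble x y h1
          have := hper x
          exact ih x (by omega)
        · have hle : exT' (V x.1).2.1 .c0 := by
            have := ET.exl h h1.1
            have e := h1.2
            change exT' _ (tyT _ _) at this
            rw [e] at this
            exact this
          obtain ⟨y0, hy0⟩ := hrt .c0 x hle
          have h2 := law_T1 h hy0 (hJ y0)
          have h3 : J y0 = y := Subtype.ext (RT.det h h2 h1)
          have h4 := hdouble x y0 hy0
          have h5 := hPJ y0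
          rw [h3] at h5
          have := hper x
          exact ih x (by omega)
  obtain ⟨y0, hy0⟩ := hne
  obtain ⟨s0, hs0⟩ := hex _ ⟨y0, hy0⟩ le_rfl
  -- the chain of first children
  have hnxt : ∀ s : K, ∃ s' : K, (V s.1).2.1.2.2.2.2 = false → RT hm σ tl Y g .c0 s.1 s'.1 := by
    intro s
    by_cases hl : (V s.1).2.1.2.2.2.2 = false
    · obtain ⟨s', hs'⟩ := hrt .c0 s hl
      exact ⟨s', fun _ => hs'⟩
    · exact ⟨s, fun hh => absurd hh hl⟩
  choose nxt hnxt using hnxt
  let s : ℕ → K := fun n => nxt^[n] s0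
  have hss : ∀ n, s (n + 1) = nxt (s n) := fun n => Function.iterate_succ_apply' _ _ _
  have hleafex : ∃ n, n ≤ Fintype.card W ∧ (V (s n).1).2.1.2.2.2.2 = true := by
    by_contra hno
    push Not at hno
    have hno' : ∀ n, n ≤ Fintype.card W → (V (s n).1).2.1.2.2.2.2 = false := by
      intro n hn
      have := hno n hn
      revert this
      cases (V (s n).1).2.1.2.2.2.2 <;> simp
    have hP : ∀ n, n ≤ Fintype.card W → 2 ^ n ≤ Function.minimalPeriod J (s n) := by
      intro n
      induction n with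
      | zero => intro _; exact hper _
      | succ n ih =>
        intro hn
        have h1 := hnxt (s n) (hno' n (by omega))
        rw [← hss] at h1
        have h2 := hdouble _ _ h1
        have h3 := ih (by omega)
        rw [h2, pow_succ]
        omega
    have h1 := hP (Fintype.card W) le_rfl
    have h2 := hPle (s (Fintype.card W))
    have h3 : Fintype.card W < 2 ^ Fintype.card W := Nat.lt_two_pow_self
    omega
  have hleafex' : ∃ n, (V (s n).1).2.1.2.2.2.2 = true := by
    obtain ⟨n, _, hn⟩ := hleafex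
    exact ⟨n, hn⟩
  let N' := Nat.find hleafex'
  have hN'1 : (V (s N').1).2.1.2.2.2.2 = true := Nat.find_spec hleafex'
  have hN'2 : ∀ k, k < N' → (V (s k).1).2.1.2.2.2.2 = false := by
    intro k hk
    have := Nat.find_min hleafex' hk
    revert this
    cases (V (s k).1).2.1.2.2.2.2 <;> simp
  have hN'3 : N' ≤ Fintype.card W := by
    obtain ⟨n, hn, hn'⟩ := hleafex
    exact (Nat.find_min' hleafex' hn').trans hn
  -- the ring permutation
  choose R hR using hra
  let π : Equiv.Perm K :=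
    { toFun := R true
      invFun := R false
      left_inv := by
        intro y
        apply Subtype.ext
        exact RA.det h (hR false _) ((RA.symm h).1 (hR true y))
      right_inv := by
        intro y
        apply Subtype.ext
        exact RA.det h (hR true _) ((RA.symm h).2 (hR false y)) }
  have hπ1 : ∀ y, RA hm σ tl Y g true y.1 (π y).1 := hR true
  have hπ2 : ∀ y, RA hm σ tl Y g false y.1 (π⁻¹ y).1 := hR false
  have hz1 : ∀ (z : ℤ) (y : K), RA hm σ tl Y g true ((π ^ z) y).1 ((π ^ (z + 1)) y).1 := by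
    intro z y
    rw [add_comm z 1, zpow_add, zpow_one, Equiv.Perm.mul_apply]
    exact hπ1 _
  have hz2 : ∀ (z : ℤ) (y : K), RA hm σ tl Y g false ((π ^ z) y).1 ((π ^ (z - 1)) y).1 := by
    intro z y
    have := hz1 (z - 1) y
    rw [sub_add_cancel] at this
    exact (RA.symm h).1 this
  have hcz : ∀ (x y : K), RT hm σ tl Y g .c0 x.1 y.1 → ∀ z : ℤ,
      RT hm σ tl Y g .c0 ((π ^ z) x).1 ((π ^ z) y).1 := by
    intro x y hxy z
    induction z using Int.induction_on with
    | zero => simpa using hxy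
    | succ n ih => exact law_comm h (hz1 _ _) (hz1 _ _) ih
    | pred n ih => exact law_comm h (hz2 _ _) (hz2 _ _) ih
  have hrz : ∀ z : ℤ, (V ((π ^ z) (s 0)).1).2.1.2.2.2.1 = true := by
    intro z
    induction z using Int.induction_on with
    | zero => rw [zpow_zero]; exact hs0
    | succ n ih =>
      have := EA.tau h (hz1 (n : ℤ) (s 0)).1
      change (vY _ _ _ g _).2.1.2.2.2.1 = true
      rw [← this]
      exact ih
    | pred n ih =>
      have := EA.tau h (hz2 (-(n : ℤ)) (s 0)).1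
      change (vY _ _ _ g _).2.1.2.2.2.1 = true
      rw [← this]
      exact ih
  refine ⟨N', hN'3, fun z => (V ((π ^ z) (s 0)).1).2.2.1, fun k z => (V ((π ^ z) (s k)).1).2.2.2,
    ?_, ?_, ?_, ?_⟩
  · intro z
    exact law_A h hT (hz1 z _)
  · intro z
    exact law_root h hT (hrz z)
  · intro k hk z
    have h1 := hnxt (s k) (hN'2 k hk)
    rw [← hss] at h1
    exact law_f h hT (hz2 z (s k)) (hz1 z (s k)) (Or.inl (hcz _ _ h1 z))
  · have := law_leaf h hT hN'1
    simpa using this

end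

end Pool.Agent.H88R3
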