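import Mathlib
import Pool.Agent.H88R3.Asm1
import Pool.Agent.H88R3.Card
import Pool.Agent.H88R3.Second

set_option autoImplicit false
set_option linter.unusedSectionVars false

namespace Pool.Agent.H88R3

theorem pow_big (b : ℕ) (hb : 10 ≤ b) : 4 * b + 50 ≤ 2 ^ b := by
  induction b, hb using Nat.le_induction with
  | base => norm_num
  | succ n hn ih => rw [pow_succ]; omega

theorem ntv {V : Type} [Finite V] {b : ℕ} (h : 2 ≤ Nat.card V) (z : V ⊕ Fin b) :
    ∃ w, w ≠ z := by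
  have h1 : Nontrivial V := Finite.one_lt_card_iff_nontrivial.1 (by omega)
  obtain ⟨x, y, hxy⟩ := exists_pair_ne V
  have h2 : Nontrivial (V ⊕ Fin b) := ⟨⟨.inl x, .inl y, fun hh => hxy (Sum.inl.inj hh)⟩⟩
  exact exists_ne z

/-- the output of the decoding -/
def Out {S C : Type} (ca : CA S C) (M : ℕ) : Prop :=
  ∃ N' ≤ M, ∃ (σ' : ℤ → S) (T' : ℕ → ℤ → C),
      (∀ z, ca.A (σ' z) (σ' (z + 1))) ∧ (∀ z, T' 0 z = ca.ini (σ' z)) ∧
      (∀ k, k < N' → ∀ z, T' (k + 1) z = ca.f (T' k (z - 1)) (T' k z) (T' k (z + 1))) ∧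
      T' N' 0 = ca.hal

theorem key_tab {S C : Type} [Finite S] [Finite C] (ca : CA S C) {m N R K n0 : ℕ}
    (hm : 3 ∣ m) (hm0 : 0 < m) (hmR : 3 ^ R < m) (hN : 6 ^ R ≤ N) (h0 : n0 = 2 * 10)
    (hR : ∀ n, n < n0 → 3 ^ n ≤ R) (hK : n0 * (2 + 5 + 1) ^ (2 * 3 ^ n0) ≤ K)
    (σ : ZMod m → S) (tl : ℕ → ZMod m → C) (hT : Tab ca σ tl N) :
    ∃ NG, 0 < NG ∧ NG ≤ gB (tyB (Nat.card (ZMod 3 × LT × (S × C))) R * (K + 100) *
        (3 ^ (R + 1) * 6 ^ (R + 1))) ∧
      ∃ (G : SimpleGraph (Fin NG)) (k : ℕ),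
        (∃ (M : ℕ) (H : SimpleGraph (Fin M)), EF G H k [] ∧ ¬ Nonempty (G ≃g H)) ∧
        (∀ (M : ℕ) (H : SimpleGraph (Fin M)), EF G H k [] → ¬ Nonempty (G ≃g H) →
          Out ca M) := by
  classical
  have hmne : NeZero m := ⟨by omega⟩
  let e0 : ZMod m × TN N := (0, ⟨(0, 0), by simp⟩)
  let ctr : ((ZMod 3 × LT × (S × C)) × (Wd (ZMod 3 × LT × (S × C)) R →
      Wd (ZMod 3 × LT × (S × C)) R → Bool)) × Fin (K + 100) → ZMod m × TN N := fun p =>
    if h : ∃ e, tc (gr hm) (gtr N) (dat σ tl N) R e = p.1 then h.choose else e0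
  have hctr : ∀ e j, tc (gr hm) (gtr N) (dat σ tl N) R
      (ctr (tc (gr hm) (gtr N) (dat σ tl N) R e, j)) = tc (gr hm) (gtr N) (dat σ tl N) R e := by
    intro e j
    have hex : ∃ e', tc (gr hm) (gtr N) (dat σ tl N) R e' =
        tc (gr hm) (gtr N) (dat σ tl N) R e := ⟨e, rfl⟩
    have e1 : ctr (tc (gr hm) (gtr N) (dat σ tl N) R e, j) = hex.choose := dif_pos hex
    rw [e1]
    exact hex.choose_spec
  have hA : ∀ p, Wn (gr hm).G (Nr (gr hm).G (ctr p).1 (R + 1)) (Nr (gr hm).G (ctr p).1 R) :=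
    fun p => Nr_wn (gr_out hm hm0 hmR _)
  have hW : ∀ p, Wn (gtr N).G (Nr (gtr N).G (ctr p).2 (R + 1)) (Nr (gtr N).G (ctr p).2 R) :=
    fun p => Nr_wn (gtr_out hN _)
  have hab : ∀ n, n < n0 → Ab (gr hm) (gtr N) (dat σ tl N)
      (fun i => Nr (gr hm).G (ctr i).1 (R + 1)) (fun i => Nr (gr hm).G (ctr i).1 R)
      (fun i => Nr (gtr N).G (ctr i).2 (R + 1)) (fun i => Nr (gtr N).G (ctr i).2 R) (3 ^ n) K :=
    fun n hn => centre_Ab (hR n hn) (by omega) ctr hctr hA hW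
  have hdich := dich hA hW hab (E_deg (gr_deg hm) (gtr_deg N)) hK
  rw [h0] at hdich
  -- sizes
  obtain ⟨hTy1, hTy2⟩ := card_Ty (ZMod 3 × LT × (S × C)) R
  obtain ⟨hF, hv⟩ := card_VX (A := ZMod m) (T := TN N)
    (ι := ((ZMod 3 × LT × (S × C)) × (Wd (ZMod 3 × LT × (S × C)) R →
      Wd (ZMod 3 × LT × (S × C)) R → Bool)) × Fin (K + 100))
    (FA := fun i => Nr (gr hm).G (ctr i).1 (R + 1)) (FT := fun i => Nr (gtr N).G (ctr i).2 (R + 1))
    (a := 3 ^ (R + 1)) (c := 6 ^ (R + 1)) (fun i => Nr_card (gr_deg hm) _ _)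
    (fun i => Nr_card (gtr_deg N) _ _)
  rw [Nat.card_prod, Nat.card_fin] at hv
  have hv1 := hv.trans (Nat.mul_le_mul_right (3 ^ (R + 1) * 6 ^ (R + 1))
    (Nat.mul_le_mul_right (K + 100) hTy2))
  -- lower bounds
  have hlow : Nat.card ((ZMod 3 × LT × (S × C)) × (Wd (ZMod 3 × LT × (S × C)) R →
      Wd (ZMod 3 × LT × (S × C)) R → Bool)) * (K + 100) ≤
      Nat.card (VX (fun i => Nr (gr hm).G (ctr i).1 (R + 1))
        (fun i => Nr (gtr N).G (ctr i).2 (R + 1))) := by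
    have h1 := Nat.card_le_card_of_injective
      (fun p => (⟨(p, ctr p), Nr_self _ _, Nr_self _ _⟩ :
        VX (fun i => Nr (gr hm).G (ctr i).1 (R + 1)) (fun i => Nr (gtr N).G (ctr i).2 (R + 1))))
      (fun p q hpq => congrArg (fun v => v.1.1) hpq)
    rw [Nat.card_prod, Nat.card_fin] at h1
    exact h1
  generalize hVdef : VX (fun i => Nr (gr hm).G (ctr i).1 (R + 1))
        (fun i => Nr (gtr N).G (ctr i).2 (R + 1)) = V0 at hlow hv1
  have hLpos : 0 < Nat.card (ZMod 3 × LT × (S × C)) := by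
    have : Nonempty (ZMod 3 × LT × (S × C)) := ⟨fE (gr hm) (gtr N) (dat σ tl N) e0⟩
    exact Nat.card_pos
  have hfunpos : 0 < Nat.card (Wd (ZMod 3 × LT × (S × C)) R →
      Wd (ZMod 3 × LT × (S × C)) R → Bool) := by
    obtain ⟨h1, _⟩ := fin_Wd (ZMod 3 × LT × (S × C)) R
    exact Nat.card_pos
  have hTyl : Nat.card (ZMod 3 × LT × (S × C)) ≤
      Nat.card ((ZMod 3 × LT × (S × C)) × (Wd (ZMod 3 × LT × (S × C)) R →
      Wd (ZMod 3 × LT × (S × C)) R → Bool)) := by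
    rw [Nat.card_prod (ZMod 3 × LT × (S × C))]
    exact Nat.le_mul_of_pos_right _ hfunpos
  obtain ⟨v, hvdef⟩ : ∃ v, v = Nat.card V0 := ⟨_, rfl⟩
  rw [← hvdef] at hlow hv1
  obtain ⟨L, hL⟩ : ∃ L, L = Nat.card (ZMod 3 × LT × (S × C)) := ⟨_, rfl⟩
  rw [← hL] at hTyl hLpos hv1
  have hvL : L ≤ v ∧ 100 ≤ v := by
    constructor
    · nlinarith
    · nlinarith
  subst hVdef
  obtain ⟨b, hb⟩ : ∃ b, b = v / 2 - 12 := ⟨_, rfl⟩
  have hb1 : 2 * (b + 12) ≤ v := by omega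
  have hb2 : v ≤ 2 * b + 25 := by omega
  have hb3 : 10 ≤ b := by omega
  have hpow := pow_big b hb3
  -- embedding of the labels
  have hfinL : Finite ((ZMod 3 × LT × (S × C)) ⊕ VX (fun i => Nr (gr hm).G (ctr i).1 (R + 1))
        (fun i => Nr (gtr N).G (ctr i).2 (R + 1))) := inferInstance
  obtain ⟨lam⟩ : Nonempty (((ZMod 3 × LT × (S × C)) ⊕
      VX (fun i => Nr (gr hm).G (ctr i).1 (R + 1))
        (fun i => Nr (gtr N).G (ctr i).2 (R + 1))) ↪ (Fin b → Bool)) := by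
    let _ := Fintype.ofFinite ((ZMod 3 × LT × (S × C)) ⊕
      VX (fun i => Nr (gr hm).G (ctr i).1 (R + 1)) (fun i => Nr (gtr N).G (ctr i).2 (R + 1)))
    apply Function.Embedding.nonempty_of_card_le
    rw [← Nat.card_eq_fintype_card, Nat.card_sum, ← hL, ← hvdef, Fintype.card_fun,
      Fintype.card_bool, Fintype.card_fin]
    omega
  have hlam : Function.Injective lam := lam.injective
  obtain ⟨V, hV⟩ : ∃ V, V = VX (fun i => Nr (gr hm).G (ctr i).1 (R + 1))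
        (fun i => Nr (gtr N).G (ctr i).2 (R + 1)) := ⟨_, rfl⟩
  -- the two graphs
  have hE : Finite (ZMod m × TN N) := inferInstance
  have hcS : Nat.card (VX (fun i => Nr (gr hm).G (ctr i).1 (R + 1))
        (fun i => Nr (gtr N).G (ctr i).2 (R + 1)) ⊕ (ZMod m × TN N)) =
      v + Nat.card (ZMod m × TN N) := by
    rw [Nat.card_sum, ← hvdef]
  have hhide := hide (s := b + 2) (j := 10) (big_of_card (n := 2 * (b + 2 + 10)) (by omega))
    (big_of_card (n := 2 * (b + 2 + 10)) (by rw [hcS]; omega)) (hdich.lab lam)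
  have hz1 : ∀ z : VX (fun i => Nr (gr hm).G (ctr i).1 (R + 1))
        (fun i => Nr (gtr N).G (ctr i).2 (R + 1)) ⊕ Fin b, ∃ w, w ≠ z := ntv (by omega)
  have hz2 : ∀ z : (VX (fun i => Nr (gr hm).G (ctr i).1 (R + 1))
        (fun i => Nr (gtr N).G (ctr i).2 (R + 1)) ⊕ (ZMod m × TN N)) ⊕ Fin b, ∃ w, w ≠ z :=
    ntv (by rw [hcS]; omega)
  have hsize := card_Gam (b := b) (XG (gr hm).G (gtr N).G (fun i => Nr (gr hm).G (ctr i).1 (R + 1))
        (fun i => Nr (gtr N).G (ctr i).2 (R + 1)))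
    (fun x => lam (fX (fun i => Nr (gr hm).G (ctr i).1 R) (fun i => Nr (gtr N).G (ctr i).2 R)
      (gr hm).lab (gtr N).lab (dat σ tl N) x)) (by omega)
  let _ : Fintype (((VX (fun i => Nr (gr hm).G (ctr i).1 (R + 1))
        (fun i => Nr (gtr N).G (ctr i).2 (R + 1)) ⊕ Fin b) ⊕ Sym2 (VX (fun i => Nr (gr hm).G (ctr i).1 (R + 1))
        (fun i => Nr (gtr N).G (ctr i).2 (R + 1)) ⊕ Fin b)) ⊕
      (Σ x, Fin (ct (b + 2) (XG (gr hm).G (gtr N).G (fun i => Nr (gr hm).G (ctr i).1 (R + 1))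
        (fun i => Nr (gtr N).G (ctr i).2 (R + 1)))
        (fun x => lam (fX (fun i => Nr (gr hm).G (ctr i).1 R) (fun i => Nr (gtr N).G (ctr i).2 R)
      (gr hm).lab (gtr N).lab (dat σ tl N) x)) x))) := Fintype.ofFinite _
  let G0 := Gam (b + 2) (XG (gr hm).G (gtr N).G (fun i => Nr (gr hm).G (ctr i).1 (R + 1))
        (fun i => Nr (gtr N).G (ctr i).2 (R + 1)))
    (fun x => lam (fX (fun i => Nr (gr hm).G (ctr i).1 R) (fun i => Nr (gtr N).G (ctr i).2 R)
      (gr hm).lab (gtr N).lab (dat σ tl N) x))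
  let eG := G0.overFinIso rfl
  refine ⟨_, ?_, ?_, G0.overFin rfl, b + 2 + 10, ?_, ?_⟩
  · rw [Fintype.card_pos_iff]
    obtain ⟨w, _⟩ := hz1 (.inr ⟨0, by omega⟩)
    exact ⟨.inl (.inl w)⟩
  · rw [← Nat.card_eq_fintype_card]
    refine hsize.trans (gB_mono ?_)
    rw [← hvdef, ← hL]
    exact hv1
  · let _ : Fintype ((((VX (fun i => Nr (gr hm).G (ctr i).1 (R + 1))
        (fun i => Nr (gtr N).G (ctr i).2 (R + 1)) ⊕ (ZMod m × TN N)) ⊕ Fin b) ⊕
        Sym2 ((VX (fun i => Nr (gr hm).G (ctr i).1 (R + 1))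
        (fun i => Nr (gtr N).G (ctr i).2 (R + 1)) ⊕ (ZMod m × TN N)) ⊕ Fin b)) ⊕
      (Σ x, Fin (ct (b + 2) (SG (XG (gr hm).G (gtr N).G (fun i => Nr (gr hm).G (ctr i).1 (R + 1))
        (fun i => Nr (gtr N).G (ctr i).2 (R + 1))) (EG (gr hm).G (gtr N).G))
        (fun w => lam (Sum.elim (fX (fun i => Nr (gr hm).G (ctr i).1 R)
          (fun i => Nr (gtr N).G (ctr i).2 R) (gr hm).lab (gtr N).lab (dat σ tl N))
          (fI (gr hm) (gtr N) (dat σ tl N) (fun i => Nr (gr hm).G (ctr i).1 (R + 1))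
        (fun i => Nr (gtr N).G (ctr i).2 (R + 1))) w)) x))) := Fintype.ofFinite _
    let eH := (Gam (b + 2) (SG (XG (gr hm).G (gtr N).G (fun i => Nr (gr hm).G (ctr i).1 (R + 1))
        (fun i => Nr (gtr N).G (ctr i).2 (R + 1))) (EG (gr hm).G (gtr N).G))
        (fun w => lam (Sum.elim (fX (fun i => Nr (gr hm).G (ctr i).1 R)
          (fun i => Nr (gtr N).G (ctr i).2 R) (gr hm).lab (gtr N).lab (dat σ tl N))
          (fI (gr hm) (gtr N) (dat σ tl N) (fun i => Nr (gr hm).G (ctr i).1 (R + 1))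
        (fun i => Nr (gtr N).G (ctr i).2 (R + 1))) w))).overFinIso rfl
    refine ⟨_, _, EF.tra0 eG eH hhide, ?_⟩
    rintro ⟨e⟩
    obtain ⟨e1⟩ := iso_cel ((eG.trans e).trans eH.symm)
    obtain ⟨e2⟩ := cel_gam (s := b + 2) (X := XG (gr hm).G (gtr N).G
      (fun i => Nr (gr hm).G (ctr i).1 (R + 1)) (fun i => Nr (gtr N).G (ctr i).2 (R + 1)))
      (f := fun x => lam (fX (fun i => Nr (gr hm).G (ctr i).1 R)
        (fun i => Nr (gtr N).G (ctr i).2 R) (gr hm).lab (gtr N).lab (dat σ tl N) x))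
      hz1 (by omega) (by omega)
    obtain ⟨e3⟩ := cel_gam (s := b + 2) (X := SG (XG (gr hm).G (gtr N).G
      (fun i => Nr (gr hm).G (ctr i).1 (R + 1))
        (fun i => Nr (gtr N).G (ctr i).2 (R + 1))) (EG (gr hm).G (gtr N).G))
      (f := fun w => lam (Sum.elim (fX (fun i => Nr (gr hm).G (ctr i).1 R)
          (fun i => Nr (gtr N).G (ctr i).2 R) (gr hm).lab (gtr N).lab (dat σ tl N))
          (fI (gr hm) (gtr N) (dat σ tl N) (fun i => Nr (gr hm).G (ctr i).1 (R + 1))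
        (fun i => Nr (gtr N).G (ctr i).2 (R + 1))) w))
      hz2 (by omega) (by omega)
    have h1 := Nat.card_congr ((e2.trans e1).trans e3.symm)
    rw [hcS, ← hvdef] at h1
    have h2 : 0 < Nat.card (ZMod m × TN N) := by
      have : Nonempty (ZMod m × TN N) := ⟨e0⟩
      exact Nat.card_pos
    omega
  · intro M H hEF hniso
    have h1 : EF G0 H (b + 2 + 10) [] := EF.tra0 eG.symm (SimpleGraph.Iso.refl) hEF
    have h2 : EF G0 H (b + 2 + 6 + 4) [] := by
      have e : b + 2 + 6 + 4 = b + 2 + 10 := by omega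
      rw [e]
      exact h1
    have h3 := re_of hz1 (by omega) (by omega) 4 [] h2
    obtain ⟨g, hg, hRE⟩ := RE.unlab hlam (n := 3) h3
    obtain ⟨Φ, p1, p2, p3, p4, p5, p6⟩ := forced hRE hA hW
    have hlab := data_ok hRE hA hW hT Φ p1 p2 p3 p4
    by_cases hsurj : Function.Surjective Φ
    · exfalso
      apply hniso
      obtain ⟨e⟩ := extract_iso hz1 (by omega) (by omega) h1 (Equiv.ofBijective Φ ⟨p6, hsurj⟩)
        (by
          intro x y
          refine ⟨p4 x y, ?_⟩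
          intro hh
          obtain ⟨v', h4, h5⟩ := p5 x _ hh
          rw [← p6 h5]
          exact h4)
        (by
          intro x
          have := hg (Φ x)
          rw [hlab x] at this
          exact this.symm)
      exact ⟨eG.symm.trans e⟩
    · have hfc : Finite (Cel H) := Subtype.finite
      let _ : Fintype (Cel H) := Fintype.ofFinite _
      obtain ⟨N', hN', hrest⟩ := closed_part hRE hA hW hT (Set.range Φ)ᶜ
        (by
          unfold Function.Surjective at hsurj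
          push Not at hsurj
          obtain ⟨y, hy⟩ := hsurj
          exact ⟨y, fun ⟨x, hx⟩ => hy x hx⟩)
        (by
          intro y hy y' hadj hy'
          obtain ⟨x, rfl⟩ := hy'
          obtain ⟨v', _, h5⟩ := p5 x y hadj.symm
          exact hy ⟨v', h5⟩)
        (by
          intro y hy
          rcases hgy : g y with n | v'
          · exact ⟨n, rfl⟩
          · exfalso
            apply hy
            exact ⟨v', gb_uniq hRE (p2 v' (gb_nm hRE hgy)) hgy⟩)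
      refine ⟨N', hN'.trans ?_, hrest⟩
      rw [← Nat.card_eq_fintype_card]
      refine (Nat.card_le_card_of_injective (fun x : Cel H => x.val)
        Subtype.val_injective).trans ?_
      rw [Nat.card_fin]

end Pool.Agent.H88R3
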