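import Mathlib
import Pool.Agent.H88R3.EF

set_option autoImplicit false

namespace Pool.Agent.H88R3.P

open FirstOrder FirstOrder.Language

section EFbasic

variable {V W : Type} {G : SimpleGraph V} {H : SimpleGraph W}

theorem EF_pi {n : ℕ} {l : List (V × W)} (h : EF G H n l) : PI G H l := by
  cases n with
  | zero => exact h
  | succ n => exact h.1

theorem PI_congr {l l' : List (V × W)} (hl : ∀ p, p ∈ l ↔ p ∈ l') (h : PI G H l) : PI G H l' :=
  fun p hp q hq => h p ((hl p).2 hp) q ((hl q).2 hq)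

theorem EF_congr {n : ℕ} : ∀ {l l' : List (V × W)}, (∀ p, p ∈ l ↔ p ∈ l') → EF G H n l →
    EF G H n l' := by
  induction n with
  | zero => intro l l' hl h; exact PI_congr hl h
  | succ n ih =>
    intro l l' hl h
    refine ⟨PI_congr hl h.1, fun v => ?_, fun w => ?_⟩
    · obtain ⟨w, hw⟩ := h.2.1 v
      exact ⟨w, ih (fun p => by simp [hl p]) hw⟩
    · obtain ⟨v, hv⟩ := h.2.2 w
      exact ⟨v, ih (fun p => by simp [hl p]) hv⟩

theorem EF_refl (n : ℕ) : ∀ l : List (V × V), (∀ p ∈ l, p.1 = p.2) → EF G G n l := by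
  have hpi : ∀ l : List (V × V), (∀ p ∈ l, p.1 = p.2) → PI G G l := by
    intro l hl p hp q hq
    rw [← hl p hp, ← hl q hq]
    exact ⟨Iff.rfl, Iff.rfl⟩
  induction n with
  | zero => exact hpi
  | succ n ih =>
    intro l hl
    refine ⟨hpi l hl, fun v => ⟨v, ih _ ?_⟩, fun v => ⟨v, ih _ ?_⟩⟩
    · intro p hp
      rcases List.mem_cons.1 hp with rfl | hp
      · rfl
      · exact hl p hp
    · intro p hp
      rcases List.mem_cons.1 hp with rfl | hp
      · rfl
      · exact hl p hp

/-- Spoiler plays the vertices of a list. -/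
theorem EF_play (j : ℕ) : ∀ (vs : List V) (l : List (V × W)), EF G H (vs.length + j) l →
    ∃ l', EF G H j l' ∧ (∀ v ∈ vs, ∃ w, (v, w) ∈ l') ∧ ∀ p ∈ l, p ∈ l' := by
  intro vs
  induction vs with
  | nil => intro l h; exact ⟨l, by simpa using h, by simp, fun p hp => hp⟩
  | cons v vs ih =>
    intro l h
    have h' : EF G H ((vs.length + j) + 1) l := by
      have : (v :: vs).length + j = (vs.length + j) + 1 := by simp; omega
      rw [this] at h; exact h
    obtain ⟨w, hw⟩ := h'.2.1 v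
    obtain ⟨l', h1, h2, h3⟩ := ih _ hw
    refine ⟨l', h1, ?_, fun p hp => h3 p (List.mem_cons_of_mem _ hp)⟩
    intro u hu
    rcases List.mem_cons.1 hu with rfl | hu
    · exact ⟨w, h3 _ List.mem_cons_self⟩
    · exact h2 u hu

theorem iso_of_EF {n : ℕ} (G : SimpleGraph (Fin n)) (H : SimpleGraph W)
    (h : EF G H (n + 1) []) : Nonempty (G ≃g H) := by
  have h0 : EF G H ((List.finRange n).length + 1) [] := by simpa using h
  obtain ⟨l', h1, h2, -⟩ := EF_play 1 (List.finRange n) [] h0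
  have h3 : ∀ v : Fin n, ∃ w, (v, w) ∈ l' := fun v => h2 v (List.mem_finRange v)
  choose f hf using h3
  have hpi := EF_pi h1
  have hinj : Function.Injective f := fun a b hab =>
    (hpi _ (hf a) _ (hf b)).1.2 hab
  have hsurj : Function.Surjective f := by
    intro w
    obtain ⟨v, hv⟩ := h1.2.2 w
    have := EF_pi hv
    refine ⟨v, ?_⟩
    exact (this (v, f v) (List.mem_cons_of_mem _ (hf v)) (v, w) List.mem_cons_self).1.1 rfl
  exact ⟨⟨Equiv.ofBijective f ⟨hinj, hsurj⟩, by
    intro a b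
    exact (hpi _ (hf a) _ (hf b)).2.symm⟩⟩

end EFbasic

/-- the position of two tuples -/
def pos {V W : Type} {n : ℕ} (v : Fin n → V) (w : Fin n → W) : List (V × W) :=
  List.ofFn fun i => (v i, w i)

theorem mem_pos {V W : Type} {n : ℕ} {v : Fin n → V} {w : Fin n → W} {p : V × W} :
    p ∈ pos v w ↔ ∃ i, p = (v i, w i) := by
  simp only [pos, List.mem_ofFn, eq_comm]

theorem mem_pos_snoc {V W : Type} {n : ℕ} {v : Fin n → V} {w : Fin n → W} {a : V} {b : W}
    (p : V × W) :
    p ∈ (a, b) :: pos v w ↔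
      p ∈ pos (Fin.snoc (α := fun _ => V) v a) (Fin.snoc (α := fun _ => W) w b) := by
  rw [List.mem_cons, mem_pos, mem_pos]
  constructor
  · rintro (rfl | ⟨i, rfl⟩)
    · exact ⟨Fin.last n, by simp⟩
    · exact ⟨i.castSucc, by simp⟩
  · rintro ⟨i, rfl⟩
    induction i using Fin.lastCases with
    | last => left; simp
    | cast i => right; exact ⟨i, by simp⟩

theorem EF_snoc {V W : Type} {G : SimpleGraph V} {H : SimpleGraph W} {k n : ℕ}
    {v : Fin n → V} {w : Fin n → W} {a : V} {b : W} :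
    EF G H k ((a, b) :: pos v w) ↔
      EF G H k (pos (Fin.snoc (α := fun _ => V) v a) (Fin.snoc (α := fun _ => W) w b)) :=
  ⟨EF_congr mem_pos_snoc, EF_congr fun p => (mem_pos_snoc p).symm⟩

/-- truth of a formula at a tuple -/
def Rz {V : Type} (G : SimpleGraph V) {n : ℕ}
    (φ : FirstOrder.Language.graph.BoundedFormula Empty n) (v : Fin n → V) : Prop :=
  @BoundedFormula.Realize FirstOrder.Language.graph V (SimpleGraph.structure G) Empty n φ
    (fun e => e.elim) v

theorem Sat_iff {V : Type} (G : SimpleGraph V) (φ : FirstOrder.Language.graph.Sentence) :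
    Sat G φ ↔ Rz G φ default := by
  unfold Sat Rz Sentence.Realize Formula.Realize
  have : (default : Empty → V) = fun e => e.elim := by funext e; exact e.elim
  rw [this]

theorem term_var {n : ℕ} (t : FirstOrder.Language.graph.Term (Empty ⊕ Fin n)) :
    ∃ i : Fin n, t = Term.var (Sum.inr i) := by
  cases t with
  | var x =>
    rcases x with e | i
    · exact e.elim
    · exact ⟨i, rfl⟩
  | func f ts => exact (f : Empty).elim

/-- soundness -/
theorem sound {V W : Type} {G : SimpleGraph V} {H : SimpleGraph W} {n : ℕ}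
    (φ : FirstOrder.Language.graph.BoundedFormula Empty n) :
    ∀ (k : ℕ), qd φ ≤ k → ∀ (v : Fin n → V) (w : Fin n → W), EF G H k (pos v w) →
      (Rz G φ v ↔ Rz H φ w) := by
  let sG : FirstOrder.Language.graph.Structure V := G.structure
  let sH : FirstOrder.Language.graph.Structure W := H.structure
  induction φ with
  | falsum => intro k _ v w _; exact Iff.rfl
  | equal t₁ t₂ =>
    intro k _ v w h
    obtain ⟨i, rfl⟩ := term_var t₁
    obtain ⟨j, rfl⟩ := term_var t₂
    have hp := EF_pi h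
    exact (hp _ (mem_pos.2 ⟨i, rfl⟩) _ (mem_pos.2 ⟨j, rfl⟩)).1
  | rel R ts =>
    intro k _ v w h
    have hp := EF_pi h
    cases R with
    | adj =>
      obtain ⟨i, hi⟩ := term_var (ts 0)
      obtain ⟨j, hj⟩ := term_var (ts 1)
      have := (hp _ (mem_pos.2 ⟨i, rfl⟩) _ (mem_pos.2 ⟨j, rfl⟩)).2
      change G.Adj (Term.realize _ (ts 0)) (Term.realize _ (ts 1)) ↔
        H.Adj (Term.realize _ (ts 0)) (Term.realize _ (ts 1))
      rw [hi, hj]
      exact this
  | imp f g ihf ihg =>
    intro k hk v w h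
    have h1 : qd f ≤ k := le_trans (le_max_left _ _) hk
    have h2 : qd g ≤ k := le_trans (le_max_right _ _) hk
    have e1 := ihf k h1 v w h
    have e2 := ihg k h2 v w h
    change (Rz G f v → Rz G g v) ↔ (Rz H f w → Rz H g w)
    rw [e1, e2]
  | all f ih =>
    intro k hk v w h
    have hk' : qd f + 1 ≤ k := hk
    obtain ⟨k', rfl⟩ : ∃ k', k = k' + 1 := ⟨k - 1, by omega⟩
    change (∀ a : V, Rz G f (Fin.snoc v a)) ↔ (∀ b : W, Rz H f (Fin.snoc w b))
    constructor
    · intro hG b
      obtain ⟨a, ha⟩ := h.2.2 b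
      exact (ih k' (by omega) _ _ (EF_snoc.1 ha)).1 (hG a)
    · intro hH a
      obtain ⟨b, hb⟩ := h.2.1 a
      exact (ih k' (by omega) _ _ (EF_snoc.1 hb)).2 (hH b)

/-- finite conjunctions -/
theorem exists_conj {n k : ℕ} {ι : Type} (s : List ι)
    (P : ι → ∀ (W : Type), SimpleGraph W → (Fin n → W) → Prop)
    (h : ∀ i ∈ s, ∃ χ : FirstOrder.Language.graph.BoundedFormula Empty n, qd χ ≤ k ∧
      ∀ (W : Type) (H : SimpleGraph W) (w : Fin n → W), Rz H χ w ↔ P i W H w) :
    ∃ χ : FirstOrder.Language.graph.BoundedFormula Empty n, qd χ ≤ k ∧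
      ∀ (W : Type) (H : SimpleGraph W) (w : Fin n → W), Rz H χ w ↔ ∀ i ∈ s, P i W H w := by
  induction s with
  | nil =>
    refine ⟨.imp .falsum .falsum, by simp [qd], fun W H w => ?_⟩
    constructor
    · intro _ i hi; exact absurd hi (by simp)
    · intro _ hf; exact hf
  | cons a s ih =>
    obtain ⟨χ₁, h1, h1'⟩ := h a List.mem_cons_self
    obtain ⟨χ₂, h2, h2'⟩ := ih fun i hi => h i (List.mem_cons_of_mem _ hi)
    refine ⟨.imp (.imp χ₁ (.imp χ₂ .falsum)) .falsum, ?_, fun W H w => ?_⟩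
    · simp only [qd]
      omega
    · change ((Rz H χ₁ w → Rz H χ₂ w → False) → False) ↔ _
      rw [h1' W H w, h2' W H w]
      simp only [List.forall_mem_cons]
      tauto

theorem exists_not {n k : ℕ} (P : ∀ (W : Type), SimpleGraph W → (Fin n → W) → Prop)
    (h : ∃ χ : FirstOrder.Language.graph.BoundedFormula Empty n, qd χ ≤ k ∧
      ∀ (W : Type) (H : SimpleGraph W) (w : Fin n → W), Rz H χ w ↔ P W H w) :
    ∃ χ : FirstOrder.Language.graph.BoundedFormula Empty n, qd χ ≤ k ∧
      ∀ (W : Type) (H : SimpleGraph W) (w : Fin n → W), Rz H χ w ↔ ¬ P W H w := by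
  obtain ⟨χ, h1, h2⟩ := h
  refine ⟨.imp χ .falsum, by simpa [qd] using h1, fun W H w => ?_⟩
  change (Rz H χ w → False) ↔ _
  rw [h2 W H w]

theorem exists_all {n k : ℕ} (P : ∀ (W : Type), SimpleGraph W → (Fin (n + 1) → W) → Prop)
    (h : ∃ χ : FirstOrder.Language.graph.BoundedFormula Empty (n + 1), qd χ ≤ k ∧
      ∀ (W : Type) (H : SimpleGraph W) (w : Fin (n + 1) → W), Rz H χ w ↔ P W H w) :
    ∃ χ : FirstOrder.Language.graph.BoundedFormula Empty n, qd χ ≤ k + 1 ∧
      ∀ (W : Type) (H : SimpleGraph W) (w : Fin n → W),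
        Rz H χ w ↔ ∀ b : W, P W H (Fin.snoc w b) := by
  obtain ⟨χ, h1, h2⟩ := h
  refine ⟨.all χ, by simpa [qd] using h1, fun W H w => ?_⟩
  change (∀ b : W, Rz H χ (Fin.snoc w b)) ↔ _
  simp only [h2]

/-- the quantifier free type -/
theorem exists_pi {N n : ℕ} (G : SimpleGraph (Fin N)) (v : Fin n → Fin N) :
    ∃ χ : FirstOrder.Language.graph.BoundedFormula Empty n, qd χ ≤ 0 ∧
      ∀ (W : Type) (H : SimpleGraph W) (w : Fin n → W), Rz H χ w ↔ PI G H (pos v w) := by
  classical
  have key : ∃ χ : FirstOrder.Language.graph.BoundedFormula Empty n, qd χ ≤ 0 ∧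
      ∀ (W : Type) (H : SimpleGraph W) (w : Fin n → W), Rz H χ w ↔
        ∀ ij ∈ (Finset.univ : Finset (Fin n × Fin n)).toList,
          (∀ b ∈ [true, false],
            (if b = true then (v ij.1 = v ij.2 ↔ w ij.1 = w ij.2)
              else (G.Adj (v ij.1) (v ij.2) ↔ H.Adj (w ij.1) (w ij.2)))) := by
    refine exists_conj (k := 0) _ _ fun ij _ => ?_
    refine exists_conj (k := 0) _
      (fun b W H w => (if b = true then (v ij.1 = v ij.2 ↔ w ij.1 = w ij.2)
              else (G.Adj (v ij.1) (v ij.2) ↔ H.Adj (w ij.1) (w ij.2)))) fun b _ => ?_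
    cases b with
    | true =>
      simp only [if_true]
      have h0 : ∃ χ : FirstOrder.Language.graph.BoundedFormula Empty n, qd χ ≤ 0 ∧
          ∀ (W : Type) (H : SimpleGraph W) (w : Fin n → W), Rz H χ w ↔ w ij.1 = w ij.2 :=
        ⟨.equal (Term.var (Sum.inr ij.1)) (Term.var (Sum.inr ij.2)), by simp [qd],
          fun W H w => Iff.rfl⟩
      by_cases hv : v ij.1 = v ij.2
      · simpa only [hv, true_iff] using h0
      · simpa only [hv, false_iff] using exists_not _ h0
    | false =>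
      simp only [Bool.false_eq_true, if_false]
      have h0 : ∃ χ : FirstOrder.Language.graph.BoundedFormula Empty n, qd χ ≤ 0 ∧
          ∀ (W : Type) (H : SimpleGraph W) (w : Fin n → W),
            Rz H χ w ↔ H.Adj (w ij.1) (w ij.2) :=
        ⟨.rel (l := 2) FirstOrder.Language.adj
          ![Term.var (Sum.inr ij.1), Term.var (Sum.inr ij.2)], by simp [qd],
          fun W H w => Iff.rfl⟩
      by_cases hv : G.Adj (v ij.1) (v ij.2)
      · simpa only [hv, true_iff] using h0
      · simpa only [hv, false_iff] using exists_not _ h0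
  obtain ⟨χ, h1, h2⟩ := key
  refine ⟨χ, h1, fun W H w => (h2 W H w).trans ?_⟩
  constructor
  · intro h p hp q hq
    obtain ⟨i, rfl⟩ := mem_pos.1 hp
    obtain ⟨j, rfl⟩ := mem_pos.1 hq
    have hij := h (i, j) (by simp)
    exact ⟨by simpa using hij true (by simp), by simpa using hij false (by simp)⟩
  · intro h ij _ b _
    have := h _ (mem_pos.2 ⟨ij.1, rfl⟩) _ (mem_pos.2 ⟨ij.2, rfl⟩)
    cases b with
    | true => simpa using this.1
    | false => simpa using this.2

/-- Hintikka formulas -/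
theorem exists_hintikka {N : ℕ} (G : SimpleGraph (Fin N)) (k : ℕ) :
    ∀ (n : ℕ) (v : Fin n → Fin N),
    ∃ χ : FirstOrder.Language.graph.BoundedFormula Empty n, qd χ ≤ k ∧
      ∀ (W : Type) (H : SimpleGraph W) (w : Fin n → W), Rz H χ w ↔ EF G H k (pos v w) := by
  classical
  induction k with
  | zero => intro n v; exact exists_pi G v
  | succ k ih =>
    intro n v
    -- every a has an answer
    have hA : ∃ χ : FirstOrder.Language.graph.BoundedFormula Empty n, qd χ ≤ k + 1 ∧
        ∀ (W : Type) (H : SimpleGraph W) (w : Fin n → W), Rz H χ w ↔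
          ∀ a ∈ (Finset.univ : Finset (Fin N)).toList, ¬ ∀ b : W, ¬ EF G H k
            (pos (Fin.snoc (α := fun _ => Fin N) v a) (Fin.snoc (α := fun _ => W) w b)) := by
      refine exists_conj _ _ fun a _ => exists_not _ (exists_all
        (fun W H w' => ¬ EF G H k (pos (Fin.snoc (α := fun _ => Fin N) v a) w'))
        (exists_not _ (ih (n + 1) (Fin.snoc v a))))
    have hB : ∃ χ : FirstOrder.Language.graph.BoundedFormula Empty n, qd χ ≤ k + 1 ∧
        ∀ (W : Type) (H : SimpleGraph W) (w : Fin n → W), Rz H χ w ↔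
          ∀ b : W, ¬ ∀ a ∈ (Finset.univ : Finset (Fin N)).toList, ¬ EF G H k
            (pos (Fin.snoc (α := fun _ => Fin N) v a) (Fin.snoc (α := fun _ => W) w b)) := by
      refine exists_all (fun W H w' => ¬ ∀ a ∈ (Finset.univ : Finset (Fin N)).toList, ¬ EF G H k
            (pos (Fin.snoc (α := fun _ => Fin N) v a) w')) (exists_not _
          (exists_conj _ (fun a W H w' => ¬ EF G H k
            (pos (Fin.snoc (α := fun _ => Fin N) v a) w')) fun a _ => exists_not _ (ih _ _)))
    obtain ⟨χ₀, h0, h0'⟩ := exists_pi G v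
    obtain ⟨χ₁, h1, h1'⟩ := hA
    obtain ⟨χ₂, h2, h2'⟩ := hB
    obtain ⟨χ, hc, hc'⟩ := exists_conj (k := k + 1) [0, 1, 2]
      (fun (i : Fin 3) W H w => Rz H (![χ₀, χ₁, χ₂] i) w) (fun i _ => ⟨![χ₀, χ₁, χ₂] i, by
        fin_cases i
        · exact le_trans h0 (Nat.zero_le _)
        · exact h1
        · exact h2, fun W H w => Iff.rfl⟩)
    refine ⟨χ, hc, fun W H w => (hc' W H w).trans ?_⟩
    have e : (∀ i ∈ [(0 : Fin 3), 1, 2], Rz H (![χ₀, χ₁, χ₂] i) w) ↔
        (Rz H χ₀ w ∧ Rz H χ₁ w ∧ Rz H χ₂ w) := by simp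
    rw [e, h0' W H w, h1' W H w, h2' W H w]
    constructor
    · rintro ⟨ha, hb, hd⟩
      refine ⟨ha, fun a => ?_, fun b => ?_⟩
      · have := hb a (by simp)
        push Not at this
        obtain ⟨b, hb⟩ := this
        exact ⟨b, EF_snoc.2 hb⟩
      · have := hd b
        push Not at this
        obtain ⟨a, -, hb⟩ := this
        exact ⟨a, EF_snoc.2 hb⟩
    · rintro ⟨ha, hb, hd⟩
      refine ⟨ha, fun a _ => ?_, fun b => ?_⟩
      · intro hall
        obtain ⟨b, hb⟩ := hb a
        exact hall b (EF_snoc.1 hb)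
      · intro hall
        obtain ⟨a, ha⟩ := hd b
        exact hall a (by simp) (EF_snoc.1 ha)

/-- a rank which separates `G` from all other finite graphs gives a definition -/
theorem defines_of {n : ℕ} (G : SimpleGraph (Fin n)) (k : ℕ)
    (h : ∀ (m : ℕ) (H : SimpleGraph (Fin m)), EF G H k [] → Nonempty (G ≃g H)) :
    ∃ φ : FirstOrder.Language.graph.Sentence, qd φ ≤ k ∧ Defines φ G := by
  obtain ⟨χ, h1, h2⟩ := exists_hintikka G k 0 default
  have hpos : ∀ (W : Type) (w : Fin 0 → W), pos (default : Fin 0 → Fin n) w = [] := by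
    intro W w; simp [pos]
  refine ⟨χ, h1, ?_, fun m H hH => ?_⟩
  · rw [Sat_iff, h2, hpos]
    exact EF_refl k [] (by simp)
  · rw [Sat_iff, h2, hpos] at hH
    obtain ⟨e⟩ := h m H hH
    exact ⟨e.symm⟩

/-- Package A -/
theorem D_le_iff {n : ℕ} (G : SimpleGraph (Fin n)) (k : ℕ) :
    D G ≤ k ↔ ∀ (m : ℕ) (H : SimpleGraph (Fin m)), EF G H k [] → Nonempty (G ≃g H) := by
  constructor
  · intro hD m H hH
    have hne : {d | ∃ φ : FirstOrder.Language.graph.Sentence, qd φ = d ∧ Defines φ G}.Nonempty := by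
      obtain ⟨φ, -, h⟩ := defines_of G (n + 1) fun m H hH => iso_of_EF G H hH
      exact ⟨qd φ, φ, rfl, h⟩
    obtain ⟨φ, hq, hdef⟩ : ∃ φ : FirstOrder.Language.graph.Sentence, qd φ = D G ∧ Defines φ G :=
      Nat.sInf_mem hne
    have hq' : qd φ ≤ k := hq.le.trans hD
    have hS : Sat H φ := by
      rw [Sat_iff]
      refine (sound φ k hq' default default ?_).1 ((Sat_iff G φ).1 hdef.1)
      simpa [pos] using hH
    obtain ⟨e⟩ := hdef.2 m H hS
    exact ⟨e.symm⟩
  · intro h
    obtain ⟨φ, hq, hdef⟩ := defines_of G k h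
    have hm : qd φ ∈ {d | ∃ φ : FirstOrder.Language.graph.Sentence, qd φ = d ∧ Defines φ G} :=
      ⟨φ, rfl, hdef⟩
    exact (Nat.sInf_le hm).trans hq

end Pool.Agent.H88R3.P
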