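import Mathlib

set_option autoImplicit false

namespace Pool.Agent.H88R3.TM

open Turing

/-- cells of the cellular automaton: a wall, the spreading halting state, or a tape
cell with an optional head -/
inductive Cell (Γ Λ : Type) : Type
  | hash : Cell Γ Λ
  | halt : Cell Γ Λ
  | c (a : Γ) (h : Option Λ) : Cell Γ Λ

/-- symbols of the initial row: wall, left blanks, the `k`-th input cell, right blanks -/
inductive Sg : Type
  | hash : Sg
  | lb : Sg
  | rb : Sg
  | inp (k : ℕ) : Sg

/-- allowed horizontal neighbours in the initial row, `n` being the length of the input -/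
def Al (n : ℕ) : Sg → Sg → Prop
  | .hash, .lb => True
  | .lb, .lb => True
  | .lb, .inp k => k = 0
  | .inp k, .inp k' => k' = k + 1 ∧ k + 1 < n
  | .inp k, .rb => k + 1 = n
  | .rb, .rb => True
  | .rb, .hash => True
  | _, _ => False

variable {Γ Λ : Type} [Inhabited Γ] [Inhabited Λ]

/-- the initial cell of a symbol -/
def ini (l : List Γ) : Sg → Cell Γ Λ
  | .hash => .hash
  | .lb => .c default none
  | .rb => .c default none
  | .inp k => .c (l.getI k) (if k = 0 then some default else none)

/-- the local rule: arguments are the left neighbour, the cell itself, the right neighbour -/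
def rule (M : TM0.Machine Γ Λ) : Cell Γ Λ → Cell Γ Λ → Cell Γ Λ → Cell Γ Λ
  | .halt, _, _ => .halt
  | _, .halt, _ => .halt
  | _, _, .halt => .halt
  | _, .hash, _ => .hash
  | _, .c a (some q), _ =>
      match M q a with
      | none => .halt
      | some (q', .write b) => .c b (some q')
      | some (_, .move _) => .c a none
  | L, .c a none, R =>
      match L with
      | .c b (some q) =>
          match M q b with
          | some (q', .move .right) => .c a (some q')
          | _ => .c a none
      | _ =>
          match R with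
          | .c b (some q) =>
              match M q b with
              | some (q', .move .left) => .c a (some q')
              | _ => .c a none
          | _ => .c a none

/-- the machine has stopped on the input `l` after at most `t` steps -/
def HW (M : TM0.Machine Γ Λ) (l : List Γ) (t : ℕ) : Prop :=
  (fun o : Option (TM0.Cfg Γ Λ) => o.bind (TM0.step M))^[t] (some (TM0.init l)) = none


/-! ### auxiliary facts (helper116) -/

/-- configuration after `t` steps -/
def run (M : TM0.Machine Γ Λ) (l : List Γ) (t : ℕ) : Option (TM0.Cfg Γ Λ) :=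
  (fun o : Option (TM0.Cfg Γ Λ) => o.bind (TM0.step M))^[t] (some (TM0.init l))

theorem run_zero (M : TM0.Machine Γ Λ) (l : List Γ) : run M l 0 = some (TM0.init l) := rfl

theorem run_succ (M : TM0.Machine Γ Λ) (l : List Γ) (t : ℕ) :
    run M l (t + 1) = (run M l t).bind (TM0.step M) := by
  unfold run; rw [Function.iterate_succ_apply']

theorem HW_iff (M : TM0.Machine Γ Λ) (l : List Γ) (t : ℕ) : HW M l t ↔ run M l t = none := Iff.rfl

theorem HW_succ {M : TM0.Machine Γ Λ} {l : List Γ} {t : ℕ} (h : HW M l t) : HW M l (t + 1) := by
  rw [HW_iff] at *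
  rw [run_succ, h]; rfl

theorem HW_mono {M : TM0.Machine Γ Λ} {l : List Γ} {t t' : ℕ} (htt : t ≤ t') (h : HW M l t) :
    HW M l t' := by
  induction htt with
  | refl => exact h
  | step _ ih => exact HW_succ ih

/-- no wall between two cells -/
def NH (σ : ℤ → Sg) (x y : ℤ) : Prop := ∀ z, min x y ≤ z → z ≤ max x y → σ z ≠ .hash

theorem NH.self {σ : ℤ → Sg} {x : ℤ} (h : σ x ≠ .hash) : NH σ x x := by
  intro z h1 h2
  have : z = x := by omega
  rw [this]; exact h

theorem NH.right {σ : ℤ → Sg} {x y : ℤ} (h : NH σ x y) : σ y ≠ .hash := h y (by omega) (by omega)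

theorem NH.step {σ : ℤ → Sg} {x y y' : ℤ} (h : NH σ x y) (hy : σ y' ≠ .hash)
    (h' : y' = y ∨ y' = y + 1 ∨ y' = y - 1) : NH σ x y' := by
  intro z h1 h2
  by_cases hz : z = y'
  · rw [hz]; exact hy
  · exact h z (by omega) (by omega)

theorem NH.mono {σ : ℤ → Sg} {x y y' : ℤ} (h : NH σ x y) (h1 : min x y ≤ y') (h2 : y' ≤ max x y) :
    NH σ x y' := fun z h3 h4 => h z (by omega) (by omega)

section rules

omit [Inhabited Γ]

variable {M : TM0.Machine Γ Λ} {L C R : Cell Γ Λ}

theorem rule_hash (hL : L ≠ .halt) (hR : R ≠ .halt) : rule M L .hash R = .hash := by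
  cases L <;> cases R <;> simp_all [rule]

theorem rule_head {a : Γ} {q : Λ} (hL : L ≠ .halt) (hR : R ≠ .halt) :
    rule M L (.c a (some q)) R = (match M q a with
      | none => .halt
      | some (q', .write b) => .c b (some q')
      | some (_, .move _) => .c a none) := by
  cases L <;> cases R <;> simp_all [rule]

theorem rule_none_stay {a : Γ} (hL : L ≠ .halt) (hR : R ≠ .halt)
    (hL' : ∀ b q, L = .c b (some q) → ∀ q', M q b ≠ some (q', .move .right))
    (hR' : ∀ b q, R = .c b (some q) → ∀ q', M q b ≠ some (q', .move .left)) :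
    rule M L (.c a none) R = .c a none := by
  have hRR : (match R with
          | .c b (some q) =>
              match M q b with
              | some (q', .move .left) => Cell.c a (some q')
              | _ => .c a none
          | _ => .c a none) = .c a none := by
    cases R with
    | hash => rfl
    | halt => rfl
    | c b h =>
      cases h with
      | none => rfl
      | some q =>
        have := hR' b q rfl
        rcases hM : M q b with _ | ⟨q', s⟩
        · simp [hM]
        · rcases s with d | b'
          · cases d
            · exact absurd hM (this q')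
            · simp [hM]
          · simp [hM]
  cases L with
  | hash => cases R <;> simp_all [rule]
  | halt => exact absurd rfl hL
  | c b h =>
    cases h with
    | none => cases R <;> simp_all [rule]
    | some q =>
      have := hL' b q rfl
      rcases hM : M q b with _ | ⟨q', s⟩
      · cases R <;> simp_all [rule]
      · rcases s with d | b'
        · cases d
          · cases R <;> simp_all [rule]
          · exact absurd hM (this q')
        · cases R <;> simp_all [rule]

theorem rule_none_right {a b : Γ} {q q' : Λ} (hR : R ≠ .halt)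
    (hM : M q b = some (q', .move .right)) :
    rule M (.c b (some q)) (.c a none) R = .c a (some q') := by
  cases R <;> simp_all [rule]

theorem rule_none_left {a b : Γ} {q q' : Λ} (hL : L ≠ .halt) (hL' : ∀ b q, L ≠ .c b (some q))
    (hM : M q b = some (q', .move .left)) :
    rule M L (.c a none) (.c b (some q)) = .c a (some q') := by
  cases L with
  | hash => simp_all [rule]
  | halt => exact absurd rfl hL
  | c b' h =>
    cases h with
    | none => simp_all [rule]
    | some q => exact absurd rfl (hL' b' q)

theorem rule_source {a : Γ} {q : Λ} (hL : L ≠ .halt) (hR : R ≠ .halt)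
    (h : rule M L C R = .c a (some q)) :
    (∃ b q, L = .c b (some q)) ∨ (∃ b q, C = .c b (some q)) ∨ (∃ b q, R = .c b (some q)) := by
  by_contra hcon
  push Not at hcon
  obtain ⟨h1, h2, h3⟩ := hcon
  cases C with
  | hash => rw [rule_hash hL hR] at h; simp at h
  | halt => cases L <;> cases R <;> simp_all [rule]
  | c b o =>
    cases o with
    | none =>
      rw [rule_none_stay hL hR (fun b q hb => absurd hb (h1 b q))
        (fun b q hb => absurd hb (h3 b q))] at h
      simp at h
    | some q' => exact h2 b q' rfl

theorem rule_not_hash (hC : C ≠ .hash) (hL : L ≠ .halt) (hC' : C ≠ .halt) (hR : R ≠ .halt) :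
    rule M L C R ≠ .hash := by
  cases C with
  | hash => exact absurd rfl hC
  | halt => exact absurd rfl hC'
  | c a o =>
    cases o with
    | some q =>
      rw [rule_head hL hR]
      rcases M q a with _ | ⟨q', s⟩
      · simp
      · rcases s with d | b <;> simp
    | none =>
      intro h
      cases L with
      | halt => exact absurd rfl hL
      | hash =>
        cases R with
        | halt => exact absurd rfl hR
        | hash => simp [rule] at h
        | c b o =>
          cases o with
          | none => simp [rule] at h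
          | some q =>
            rcases hM : M q b with _ | ⟨q', s⟩
            · simp [rule, hM] at h
            · rcases s with d | b'
              · cases d <;> simp [rule, hM] at h
              · simp [rule, hM] at h
      | c b' o' =>
        cases o' with
        | none =>
          cases R with
          | halt => exact absurd rfl hR
          | hash => simp [rule] at h
          | c b o =>
            cases o with
            | none => simp [rule] at h
            | some q =>
              rcases hM : M q b with _ | ⟨q', s⟩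
              · simp [rule, hM] at h
              · rcases s with d | b'
                · cases d <;> simp [rule, hM] at h
                · simp [rule, hM] at h
        | some q =>
          cases R with
          | halt => exact absurd rfl hR
          | hash =>
            rcases hM : M q b' with _ | ⟨q', s⟩
            · simp [rule, hM] at h
            · rcases s with d | b''
              · cases d <;> simp [rule, hM] at h
              · simp [rule, hM] at h
          | c b o =>
            rcases hM : M q b' with _ | ⟨q', s⟩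
            · simp [rule, hM] at h
            · rcases s with d | b''
              · cases d <;> simp [rule, hM] at h
              · simp [rule, hM] at h

theorem rule_not_halt (hC : C ≠ .halt) (hL : L ≠ .halt) (hR : R ≠ .halt)
    (hC' : ∀ a q, C = .c a (some q) → M q a ≠ none) : rule M L C R ≠ .halt := by
  cases C with
  | hash => rw [rule_hash hL hR]; simp
  | halt => exact absurd rfl hC
  | c a o =>
    cases o with
    | some q =>
      rw [rule_head hL hR]
      have := hC' a q rfl
      rcases hM : M q a with _ | ⟨q', s⟩
      · exact absurd hM this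
      · rcases s with d | b <;> simp
    | none =>
      intro h
      cases L with
      | halt => exact absurd rfl hL
      | hash =>
        cases R with
        | halt => exact absurd rfl hR
        | hash => simp [rule] at h
        | c b o =>
          cases o with
          | none => simp [rule] at h
          | some q =>
            rcases hM : M q b with _ | ⟨q', s⟩
            · simp [rule, hM] at h
            · rcases s with d | b'
              · cases d <;> simp [rule, hM] at h
              · simp [rule, hM] at h
      | c b' o' =>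
        cases o' with
        | none =>
          cases R with
          | halt => exact absurd rfl hR
          | hash => simp [rule] at h
          | c b o =>
            cases o with
            | none => simp [rule] at h
            | some q =>
              rcases hM : M q b with _ | ⟨q', s⟩
              · simp [rule, hM] at h
              · rcases s with d | b'
                · cases d <;> simp [rule, hM] at h
                · simp [rule, hM] at h
        | some q =>
          cases R with
          | halt => exact absurd rfl hR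
          | hash =>
            rcases hM : M q b' with _ | ⟨q', s⟩
            · simp [rule, hM] at h
            · rcases s with d | b''
              · cases d <;> simp [rule, hM] at h
              · simp [rule, hM] at h
          | c b o =>
            rcases hM : M q b' with _ | ⟨q', s⟩
            · simp [rule, hM] at h
            · rcases s with d | b''
              · cases d <;> simp [rule, hM] at h
              · simp [rule, hM] at h

end rules

/-- the zone of the origin `i0` shows the configuration `c` with the head at `j` -/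
def Zone (σ : ℤ → Sg) (T : ℤ → Cell Γ Λ) (c : TM0.Cfg Γ Λ) (i0 j : ℤ) : Prop :=
  ∀ i, NH σ i0 i → T i = .c (c.Tape.nth (i - j)) (if i = j then some c.q else none)

/-- the invariant -/
structure Inv (σ : ℤ → Sg) (T : ℤ → Cell Γ Λ) (c : TM0.Cfg Γ Λ) : Prop where
  nohalt : ∀ i, T i ≠ .halt
  hash : ∀ i, T i = .hash ↔ σ i = .hash
  head : ∀ j a q, T j = .c a (some q) → ∃ i0, σ i0 = .inp 0 ∧ NH σ i0 j ∧ Zone σ T c i0 j

/-- the next row -/
def nxt (M : TM0.Machine Γ Λ) (T : ℤ → Cell Γ Λ) (i : ℤ) : Cell Γ Λ :=
  rule M (T (i - 1)) (T i) (T (i + 1))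

theorem step_some {M : TM0.Machine Γ Λ} {c c' : TM0.Cfg Γ Λ} (h : TM0.step M c = some c') :
    ∃ q' s, M c.q c.Tape.head = some (q', s) ∧ c'.q = q' ∧
      ((∃ b, s = .write b ∧ c'.Tape = c.Tape.write b) ∨ (∃ d, s = .move d ∧
        c'.Tape = c.Tape.move d)) := by
  obtain ⟨q, T⟩ := c
  unfold TM0.step at h
  rw [Option.map_eq_some_iff] at h
  obtain ⟨⟨q', s⟩, hM, rfl⟩ := h
  refine ⟨q', s, hM, rfl, ?_⟩
  rcases s with d | b
  · exact Or.inr ⟨d, rfl, rfl⟩
  · exact Or.inl ⟨b, rfl, rfl⟩

theorem zone_step {M : TM0.Machine Γ Λ} {σ : ℤ → Sg} {T : ℤ → Cell Γ Λ} {c c' : TM0.Cfg Γ Λ}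
    {i0 j : ℤ} (hh : ∀ i, T i ≠ .halt) (hs : ∀ i, T i = .hash ↔ σ i = .hash)
    (hz : Zone σ T c i0 j) (hj : NH σ i0 j) (hst : TM0.step M c = some c') :
    ∃ j', (j' = j ∨ j' = j + 1 ∨ j' = j - 1) ∧ Zone σ (nxt M T) c' i0 j' := by
  obtain ⟨q', s, hM, hq, hs'⟩ := step_some hst
  have hTj : T j = .c c.Tape.head (some c.q) := by
    rw [hz j hj, if_pos rfl, sub_self, Tape.nth_zero]
  -- a head near the zone is the head of the zone
  have near : ∀ i i', NH σ i0 i → (i' = i + 1 ∨ i' = i - 1) → ∀ b p, T i' = .c b (some p) →
      i' = j ∧ b = c.Tape.head ∧ p = c.q := by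
    intro i i' hi hii b p hb
    have h1 : σ i' ≠ .hash := by
      intro h2
      rw [(hs i').2 h2] at hb
      simp at hb
    have h3 := hz i' (hi.step h1 (Or.inr hii))
    rw [hb] at h3
    by_cases hj : i' = j
    · subst hj
      rw [if_pos rfl, sub_self, Tape.nth_zero] at h3
      simp only [Cell.c.injEq, Option.some.injEq] at h3
      exact ⟨rfl, h3.1, h3.2⟩
    · rw [if_neg hj] at h3
      simp at h3
  have hL : ∀ i, NH σ i0 i → ∀ b p, T (i - 1) = .c b (some p) →
      i - 1 = j ∧ b = c.Tape.head ∧ p = c.q := fun i hi b p hb =>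
    near i (i - 1) hi (Or.inr rfl) b p hb
  have hR : ∀ i, NH σ i0 i → ∀ b p, T (i + 1) = .c b (some p) →
      i + 1 = j ∧ b = c.Tape.head ∧ p = c.q := fun i hi b p hb =>
    near i (i + 1) hi (Or.inl rfl) b p hb
  rcases hs' with ⟨b, rfl, hT⟩ | ⟨d, rfl, hT⟩
  · refine ⟨j, Or.inl rfl, ?_⟩
    intro i hi
    unfold nxt
    rw [hz i hi, hT, hq, Tape.write_nth]
    by_cases hij : i = j
    · subst hij
      rw [if_pos rfl, if_pos rfl, sub_self, if_pos rfl, Tape.nth_zero,
        rule_head (hh _) (hh _), hM]
    · rw [if_neg hij, if_neg hij, if_neg (by omega), rule_none_stay (hh _) (hh _)]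
      · intro b' p hb' q'' hc
        obtain ⟨-, rfl, rfl⟩ := hL i hi b' p hb'
        rw [hM] at hc
        simp at hc
      · intro b' p hb' q'' hc
        obtain ⟨-, rfl, rfl⟩ := hR i hi b' p hb'
        rw [hM] at hc
        simp at hc
  · cases d with
    | right =>
      refine ⟨j + 1, Or.inr (Or.inl rfl), ?_⟩
      intro i hi
      unfold nxt
      rw [hz i hi, hT, hq, Tape.move_right_nth, show i - (j + 1) + 1 = i - j by ring]
      by_cases hij : i = j
      · subst hij
        rw [if_pos rfl, if_neg (by omega), sub_self, Tape.nth_zero,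
          rule_head (hh _) (hh _), hM]
      · rw [if_neg hij]
        by_cases hij' : i = j + 1
        · rw [if_pos hij', show i - 1 = j by omega, hTj, rule_none_right (hh _) hM]
        · rw [if_neg hij', rule_none_stay (hh _) (hh _)]
          · intro b' p hb' q'' hc
            obtain ⟨h1, -, -⟩ := hL i hi b' p hb'
            omega
          · intro b' p hb' q'' hc
            obtain ⟨-, rfl, rfl⟩ := hR i hi b' p hb'
            rw [hM] at hc
            simp at hc
    | left =>
      refine ⟨j - 1, Or.inr (Or.inr rfl), ?_⟩
      intro i hi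
      unfold nxt
      rw [hz i hi, hT, hq, Tape.move_left_nth, show i - (j - 1) - 1 = i - j by ring]
      by_cases hij : i = j
      · subst hij
        rw [if_pos rfl, if_neg (by omega), sub_self, Tape.nth_zero,
          rule_head (hh _) (hh _), hM]
      · rw [if_neg hij]
        by_cases hij' : i = j - 1
        · rw [if_pos hij', show i + 1 = j by omega, hTj, rule_none_left (hh _) _ hM]
          intro b' p hb'
          obtain ⟨h1, -, -⟩ := hL i hi b' p hb'
          omega
        · rw [if_neg hij', rule_none_stay (hh _) (hh _)]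
          · intro b' p hb' q'' hc
            obtain ⟨-, rfl, rfl⟩ := hL i hi b' p hb'
            rw [hM] at hc
            simp at hc
          · intro b' p hb' q'' hc
            obtain ⟨h1, -, -⟩ := hR i hi b' p hb'
            omega

theorem inv_step {M : TM0.Machine Γ Λ} {σ : ℤ → Sg} {T : ℤ → Cell Γ Λ} {c c' : TM0.Cfg Γ Λ}
    (hI : Inv σ T c) (hst : TM0.step M c = some c') : Inv σ (nxt M T) c' := by
  obtain ⟨q', s, hM, hq, hs'⟩ := step_some hst
  have hcell : ∀ j a q, T j = .c a (some q) → a = c.Tape.head ∧ q = c.q := by
    intro j a q hj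
    obtain ⟨i0, -, h2, h3⟩ := hI.head j a q hj
    have h4 := h3 j h2
    rw [hj, if_pos rfl, sub_self, Tape.nth_zero] at h4
    simp only [Cell.c.injEq, Option.some.injEq] at h4
    exact h4
  have hhash : ∀ i, nxt M T i = .hash ↔ σ i = .hash := by
    intro i
    constructor
    · intro h
      by_contra hne
      refine rule_not_hash (fun h' => hne ((hI.hash i).1 h')) (hI.nohalt _) (hI.nohalt _)
        (hI.nohalt _) h
    · intro h
      unfold nxt
      rw [(hI.hash i).2 h, rule_hash (hI.nohalt _) (hI.nohalt _)]
  refine ⟨?_, hhash, ?_⟩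
  · intro i
    refine rule_not_halt (hI.nohalt _) (hI.nohalt _) (hI.nohalt _) ?_
    intro a q hT hN
    obtain ⟨rfl, rfl⟩ := hcell i a q hT
    rw [hM] at hN
    simp at hN
  · intro j' a q hj'
    have hσ : σ j' ≠ .hash := by
      intro h
      rw [(hhash j').2 h] at hj'
      simp at hj'
    have hsrc : ∃ j b p, (j' = j ∨ j' = j + 1 ∨ j' = j - 1) ∧ T j = .c b (some p) := by
      rcases rule_source (hI.nohalt _) (hI.nohalt _) hj' with ⟨b, p, h⟩ | ⟨b, p, h⟩ | ⟨b, p, h⟩
      · exact ⟨j' - 1, b, p, by omega, h⟩
      · exact ⟨j', b, p, by omega, h⟩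
      · exact ⟨j' + 1, b, p, by omega, h⟩
    obtain ⟨j, b, p, hjj, hTj⟩ := hsrc
    obtain ⟨i0, h1, h2, h3⟩ := hI.head j b p hTj
    obtain ⟨j'', hj'', hz⟩ := zone_step hI.nohalt hI.hash h3 h2 hst
    have h4 : NH σ i0 j' := h2.step hσ hjj
    have h5 := hz j' h4
    rw [hj'] at h5
    by_cases he : j' = j''
    · subst he
      exact ⟨i0, h1, h4, hz⟩
    · rw [if_neg he] at h5
      simp at h5

theorem inv_zero {l : List Γ} (hl : 0 < l.length) {σ : ℤ → Sg}
    (hσ : ∀ i, Al l.length (σ i) (σ (i + 1))) :
    Inv σ (fun i => (ini l (σ i) : Cell Γ Λ)) (TM0.init l) := by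
  refine ⟨?_, ?_, ?_⟩
  · intro i
    cases h : σ i <;> simp [ini, h]
  · intro i
    cases h : σ i <;> simp [ini, h]
  · intro j a q hj
    have h0 : σ j = .inp 0 := by
      cases h : σ j with
      | inp k =>
        simp only [ini, h] at hj
        by_cases hk : k = 0
        · rw [hk]
        · simp [hk] at hj
      | _ => simp [ini, h] at hj
    have hr : ∀ m : ℕ, NH σ j (j + m) →
        σ (j + m) = if m < l.length then .inp m else .rb := by
      intro m
      induction m with
      | zero => intro _; simp [h0, hl]
      | succ m ih =>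
        intro hN
        have h1 := ih (hN.mono (by push_cast; omega) (by push_cast; omega))
        have h2 := hσ (j + m)
        have h3 := hN.right
        rw [show j + ((m + 1 : ℕ) : ℤ) = j + m + 1 by push_cast; ring] at h3 ⊢
        rw [h1] at h2
        by_cases hm : m < l.length
        · rw [if_pos hm] at h2
          cases h : σ (j + m + 1) with
          | hash => exact absurd h h3
          | lb => rw [h] at h2; simp [Al] at h2
          | rb =>
            rw [h] at h2
            simp only [Al] at h2
            rw [if_neg (by omega)]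
          | inp k =>
            rw [h] at h2
            simp only [Al] at h2
            rw [if_pos h2.2, h2.1]
        · rw [if_neg hm] at h2
          cases h : σ (j + m + 1) with
          | hash => exact absurd h h3
          | lb => rw [h] at h2; simp [Al] at h2
          | rb => rw [if_neg (by omega)]
          | inp k => rw [h] at h2; simp [Al] at h2
    have hlft : ∀ m : ℕ, NH σ j (j - (m + 1 : ℕ)) → σ (j - (m + 1 : ℕ)) = .lb := by
      intro m
      induction m with
      | zero =>
        intro hN
        have h2 := hσ (j - 1)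
        have h3 := hN.right
        simp only [Nat.zero_add, Nat.cast_one] at h3 ⊢
        rw [show j - 1 + 1 = j by ring, h0] at h2
        cases h : σ (j - 1) with
        | hash => exact absurd h h3
        | lb => rfl
        | rb => rw [h] at h2; simp [Al] at h2
        | inp k => rw [h] at h2; simp [Al] at h2
      | succ m ih =>
        intro hN
        have h1 := ih (hN.mono (by push_cast; omega) (by push_cast; omega))
        have h2 := hσ (j - ((m + 1 + 1 : ℕ) : ℤ))
        have h3 := hN.right
        rw [show j - ((m + 1 + 1 : ℕ) : ℤ) + 1 = j - (m + 1 : ℕ) by push_cast; ring, h1] at h2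
        cases h : σ (j - ((m + 1 + 1 : ℕ) : ℤ)) with
        | hash => exact absurd h h3
        | lb => rfl
        | rb => rw [h] at h2; simp [Al] at h2
        | inp k => rw [h] at h2; simp [Al] at h2
    refine ⟨j, h0, NH.self (by rw [h0]; simp), ?_⟩
    intro i hi
    change ini l (σ i) = _
    rcases le_or_gt j i with hij | hij
    · obtain ⟨m, hm⟩ := Int.eq_ofNat_of_zero_le (sub_nonneg.2 hij)
      obtain rfl : i = j + m := by omega
      rw [hr m hi, show j + (m : ℤ) - j = (m : ℤ) by ring]
      have hnth : (TM0.init l : TM0.Cfg Γ Λ).Tape.nth (m : ℤ) = l.getI m := by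
        change (Tape.mk₁ l).nth (m : ℤ) = _
        unfold Tape.mk₁ Tape.mk₂
        rw [Tape.mk'_nth_nat, ListBlank.nth_mk]
      rw [hnth]
      by_cases hm' : m < l.length
      · rw [if_pos hm']
        simp only [ini]
        by_cases h00 : m = 0
        · subst h00
          rw [if_pos rfl, if_pos (by simp)]
          rfl
        · rw [if_neg h00, if_neg (by omega)]
      · rw [if_neg hm']
        simp only [ini]
        rw [if_neg (by omega), List.getI_eq_default l (by omega)]
    · obtain ⟨m, hm⟩ := Int.eq_ofNat_of_zero_le (show 0 ≤ j - i - 1 by omega)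
      obtain rfl : i = j - (m + 1 : ℕ) := by push_cast; omega
      rw [hlft m hi, show j - ((m + 1 : ℕ) : ℤ) - j = -((m + 1 : ℕ) : ℤ) by ring,
        if_neg (by push_cast; omega)]
      have hnth : (TM0.init l : TM0.Cfg Γ Λ).Tape.nth (-((m + 1 : ℕ) : ℤ)) = default := by
        change (Tape.mk₁ l).nth _ = _
        unfold Tape.mk₁ Tape.mk₂ Tape.mk'
        change (ListBlank.mk []).nth m = default
        rw [ListBlank.nth_mk]
        simp
      rw [hnth]
      rfl

/-- Package B1: soundness on the integers -/
theorem sound (M : TM0.Machine Γ Λ) (l : List Γ) (hl : 0 < l.length)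
    (σ : ℤ → Sg) (hσ : ∀ i, Al l.length (σ i) (σ (i + 1)))
    (T : ℕ → ℤ → Cell Γ Λ) (h0 : ∀ i, T 0 i = ini l (σ i)) (N : ℕ)
    (hs : ∀ t, t < N → ∀ i, T (t + 1) i = rule M (T t (i - 1)) (T t i) (T t (i + 1)))
    (hN : T N 0 = .halt) : HW M l N := by
  by_contra hcon
  have key : ∀ t, t ≤ N → ∃ c, run M l t = some c ∧ Inv σ (T t) c := by
    intro t
    induction t with
    | zero =>
      intro _
      refine ⟨_, run_zero M l, ?_⟩
      have : T 0 = fun i => ini l (σ i) := funext h0
      rw [this]
      exact inv_zero hl hσ
    | succ t ih =>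
      intro ht
      obtain ⟨c, hc, hI⟩ := ih (by omega)
      have h1 : run M l (t + 1) ≠ none := fun h => hcon (HW_mono ht h)
      rw [run_succ, hc, Option.bind_some] at h1
      obtain ⟨c', hc'⟩ := Option.ne_none_iff_exists'.1 h1
      refine ⟨c', by rw [run_succ, hc, Option.bind_some, hc'], ?_⟩
      have : T (t + 1) = nxt M (T t) := funext (hs t (by omega))
      rw [this]
      exact inv_step hI hc'
  obtain ⟨c, -, hI⟩ := key N le_rfl
  exact hI.nohalt 0 hN


/-! ### package B2 -/

/-- symbols of the ring, `P` being the position of the first input cell -/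
def rg (P n x : ℕ) : Sg :=
  if x = 0 then .hash else if x < P then .lb else if x < P + n then .inp (x - P) else .rb

theorem rg_next {P n x : ℕ} (hP : 1 < P) (hn : 0 < n) : Al n (rg P n x) (rg P n (x + 1)) := by
  unfold rg
  rw [if_neg (Nat.succ_ne_zero x)]
  by_cases h0 : x = 0
  · subst h0
    rw [if_pos rfl, if_pos (by omega)]
    trivial
  rw [if_neg h0]
  by_cases h1 : x < P
  · rw [if_pos h1]
    by_cases h2 : x + 1 < P
    · rw [if_pos h2]; trivial
    · rw [if_neg h2, if_pos (by omega)]
      change x + 1 - P = 0
      omega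
  · rw [if_neg h1, if_neg (show ¬ x + 1 < P by omega)]
    by_cases h2 : x < P + n
    · rw [if_pos h2]
      by_cases h3 : x + 1 < P + n
      · rw [if_pos h3]
        change x + 1 - P = x - P + 1 ∧ x - P + 1 < n
        omega
      · rw [if_neg h3]
        change x - P + 1 = n
        omega
    · rw [if_neg h2, if_neg (by omega)]
      trivial

/-- the run of the cellular automaton on a ring -/
def tr (M : TM0.Machine Γ Λ) {m : ℕ} (r0 : ZMod m → Cell Γ Λ) : ℕ → ZMod m → Cell Γ Λ
  | 0 => r0
  | t + 1 => fun i => rule M (tr M r0 t (i - 1)) (tr M r0 t i) (tr M r0 t (i + 1))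

theorem rule_halt_left (M : TM0.Machine Γ Λ) (C R : Cell Γ Λ) : rule M .halt C R = .halt := by
  cases C <;> cases R <;> rfl

theorem rule_halt_mid (M : TM0.Machine Γ Λ) (L R : Cell Γ Λ) : rule M L .halt R = .halt := by
  cases L <;> cases R <;> rfl

theorem rule_halt_right (M : TM0.Machine Γ Λ) (L C : Cell Γ Λ) : rule M L C .halt = .halt := by
  cases L <;> cases C <;> rfl

theorem spread (M : TM0.Machine Γ Λ) {m : ℕ} (T : ℕ → ZMod m → Cell Γ Λ)
    (hT : ∀ t i, T (t + 1) i = rule M (T t (i - 1)) (T t i) (T t (i + 1)))
    {t : ℕ} {i : ZMod m} (h : T t i = .halt) (s : ℕ) :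
    ∀ r : ℕ, r ≤ s → T (t + s) (i + (r : ZMod m)) = .halt := by
  induction s with
  | zero =>
    intro r hr
    obtain rfl : r = 0 := by omega
    simpa using h
  | succ s ih =>
    intro r hr
    rw [← add_assoc, hT]
    by_cases hrs : r ≤ s
    · rw [ih r hrs, rule_halt_mid]
    · obtain rfl : r = s + 1 := by omega
      have : i + ((s + 1 : ℕ) : ZMod m) - 1 = i + (s : ZMod m) := by push_cast; ring
      rw [this, ih s le_rfl, rule_halt_left]

/-- Package B2: completeness on a large ring, for all large times -/
theorem complete (M : TM0.Machine Γ Λ) (l : List Γ) (hl : 0 < l.length) (t0 : ℕ)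
    (h : HW M l t0) : ∃ m0 : ℕ, ∀ m, m0 ≤ m → 0 < m →
      ∃ (σ : ZMod m → Sg) (T : ℕ → ZMod m → Cell Γ Λ),
        (∀ i, Al l.length (σ i) (σ (i + 1))) ∧ (∀ i, T 0 i = ini l (σ i)) ∧
        (∀ t i, T (t + 1) i = rule M (T t (i - 1)) (T t i) (T t (i + 1))) ∧
        (∀ i k, σ i = .inp k → k < l.length) ∧
        ∃ N0, ∀ N, N0 ≤ N → ∀ i, T N i = .halt := by
  classical
  -- the halting time
  have hex : ∃ t, HW M l t := ⟨t0, h⟩
  obtain ⟨t1, ht1⟩ : ∃ t1, Nat.find hex = t1 + 1 := by
    refine ⟨Nat.find hex - 1, ?_⟩
    have : Nat.find hex ≠ 0 := by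
      intro h0
      have h1 := Nat.find_spec hex
      rw [h0] at h1
      simp [HW_iff, run_zero] at h1
    omega
  have hle : t1 + 1 ≤ t0 := ht1 ▸ Nat.find_min' hex h
  have hrun : ∀ t, t ≤ t1 → ∃ c, run M l t = some c := by
    intro t ht
    have : ¬ HW M l t := Nat.find_min hex (by omega)
    rw [HW_iff] at this
    exact Option.ne_none_iff_exists'.1 this
  have hhalt : run M l (t1 + 1) = none := by
    have := Nat.find_spec hex
    rw [ht1, HW_iff] at this
    exact this
  refine ⟨2 * t0 + l.length + 10, fun m hm hm0 => ?_⟩
  have : NeZero m := ⟨hm0.ne'⟩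
  let P := t0 + 2
  let σ : ZMod m → Sg := fun i => rg P l.length i.val
  have hP : P = t0 + 2 := rfl
  have hval : ∀ i : ZMod m, (i + 1).val = if i.val + 1 = m then 0 else i.val + 1 := by
    intro i
    have hi := ZMod.val_lt i
    rw [ZMod.val_add, ZMod.val_one_eq_one_mod, Nat.mod_eq_of_lt (show 1 < m by omega)]
    split_ifs with h1
    · rw [h1, Nat.mod_self]
    · exact Nat.mod_eq_of_lt (by omega)
  have hAl : ∀ i, Al l.length (σ i) (σ (i + 1)) := by
    intro i
    change Al _ (rg P _ i.val) (rg P _ (i + 1).val)
    rw [hval]
    split_ifs with h1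
    · unfold rg
      rw [if_pos rfl, if_neg (by omega), if_neg (by omega), if_neg (by omega)]
      trivial
    · exact rg_next (by omega) hl
  let T : ℕ → ZMod m → Cell Γ Λ := tr M fun i => ini l (σ i)
  have hT0 : ∀ i, T 0 i = ini l (σ i) := fun _ => rfl
  have hTs : ∀ t i, T (t + 1) i = rule M (T t (i - 1)) (T t i) (T t (i + 1)) := fun _ _ => rfl
  refine ⟨σ, T, hAl, hT0, hTs, ?_, ?_⟩
  · intro i k hk
    change rg P l.length i.val = _ at hk
    unfold rg at hk
    split_ifs at hk with h1 h2 h3
    simp only [Sg.inp.injEq] at hk
    omega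
  -- unroll to the integers
  let σ' : ℤ → Sg := fun i => σ (i : ZMod m)
  let T' : ℕ → ℤ → Cell Γ Λ := fun t i => T t (i : ZMod m)
  have hAl' : ∀ i, Al l.length (σ' i) (σ' (i + 1)) := by
    intro i
    have := hAl (i : ZMod m)
    change Al _ (σ (i : ZMod m)) (σ ((i + 1 : ℤ) : ZMod m))
    push_cast
    exact this
  have hTs' : ∀ t, T' (t + 1) = nxt M (T' t) := by
    intro t
    funext i
    change T (t + 1) (i : ZMod m) = rule M (T t ((i - 1 : ℤ) : ZMod m)) _ (T t ((i + 1 : ℤ) : ZMod m))
    rw [hTs]
    push_cast
    rfl
  have hσ' : ∀ x : ℕ, x < m → σ' x = rg P l.length x := by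
    intro x hx
    change rg P l.length ((x : ℤ) : ZMod m).val = _
    rw [Int.cast_natCast, ZMod.val_natCast, Nat.mod_eq_of_lt hx]
  have hnh : ∀ j : ℤ, 1 ≤ j → j < m → NH σ' P j := by
    intro j h1 h2 z h3 h4
    obtain ⟨x, hx⟩ := Int.eq_ofNat_of_zero_le (show 0 ≤ z by omega)
    subst hx
    rw [hσ' x (by omega)]
    unfold rg
    rw [if_neg (by omega)]
    split_ifs <;> simp
  have hcP : σ' P = .inp 0 := by
    rw [hσ' P (by omega)]
    unfold rg
    rw [if_neg (by omega), if_neg (by omega), if_pos (by omega), Nat.sub_self]
  have key : ∀ t, t ≤ t1 → ∃ c, run M l t = some c ∧ Inv σ' (T' t) c ∧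
      ∃ j : ℤ, (P : ℤ) - t ≤ j ∧ j ≤ P + t ∧ Zone σ' (T' t) c P j := by
    intro t
    induction t with
    | zero =>
      intro _
      have hI : Inv σ' (T' 0) (TM0.init l : TM0.Cfg Γ Λ) := inv_zero hl hAl'
      refine ⟨_, run_zero M l, hI, P, by simp, by simp, ?_⟩
      have hh : T' 0 (P : ℤ) = .c (l.getI 0) (some default) := by
        change ini l (σ' P) = _
        rw [hcP]; rfl
      obtain ⟨i0, h1, h2, h3⟩ := hI.head _ _ _ hh
      -- the origin is `P`
      have hi0 : i0 = P := by
        have h4 := h3 i0 (NH.self (by rw [h1]; simp))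
        have h5 : T' 0 i0 = .c (l.getI 0) (some default) := by
          change ini l (σ' i0) = _
          rw [h1]; rfl
        rw [h5] at h4
        by_contra hne
        rw [if_neg hne] at h4
        simp at h4
      rw [hi0] at h3
      exact h3
    | succ t ih =>
      intro ht
      obtain ⟨c, hc, hI, j, hj1, hj2, hz⟩ := ih (by omega)
      obtain ⟨c', hc'⟩ := hrun (t + 1) ht
      have hst : TM0.step M c = some c' := by
        rw [run_succ, hc, Option.bind_some] at hc'
        exact hc'
      obtain ⟨j', hj', hz'⟩ := zone_step hI.nohalt hI.hash hz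
        (hnh j (by omega) (by omega)) hst
      refine ⟨c', hc', ?_, j', by push_cast; omega, by push_cast; omega, ?_⟩
      · rw [hTs']; exact inv_step hI hst
      · rw [hTs']; exact hz'
  obtain ⟨c, hc, hI, j, hj1, hj2, hz⟩ := key t1 le_rfl
  have hnone : TM0.step M c = none := by
    rw [run_succ, hc, Option.bind_some] at hhalt
    exact hhalt
  have hTj : T' t1 j = .c c.Tape.head (some c.q) := by
    rw [hz j (hnh j (by omega) (by omega)), if_pos rfl, sub_self, Tape.nth_zero]
  have hM : M c.q c.Tape.head = none := by
    obtain ⟨q, tp⟩ := c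
    unfold TM0.step at hnone
    rw [Option.map_eq_none_iff] at hnone
    exact hnone
  have hh : T (t1 + 1) (j : ZMod m) = .halt := by
    have : T' (t1 + 1) j = .halt := by
      rw [hTs']
      unfold nxt
      rw [hTj, rule_head (hI.nohalt _) (hI.nohalt _), hM]
    exact this
  refine ⟨t1 + 1 + m, fun N hN i => ?_⟩
  obtain ⟨s, rfl⟩ : ∃ s, N = t1 + 1 + s := ⟨N - (t1 + 1), by omega⟩
  have h1 := spread M T hTs hh s (i - (j : ZMod m)).val
    (by have := ZMod.val_lt (i - (j : ZMod m)); omega)
  rw [ZMod.natCast_zmod_val, add_sub_cancel] at h1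
  exact h1

end Pool.Agent.H88R3.TM
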