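import Mathlib
import Pool.Agent.H88R3.PkgB
import Pool.Agent.Helper948.Erode.Source

set_option autoImplicit false

namespace Pool.Agent.H88R3.TM

open Turing Turing.PartrecToTM2
open Pool.Agent.Helper948.Erode (sym exists_machine u u_not_computable digits_computable)

/-! ### package B3 (helper116) -/

section ev

variable {C : Type}

theorem eval_dom_iff (f : C → Option C) (t : ℕ) : ∀ a : C,
    (fun o : Option C => o.bind f)^[t] (some a) = none → (StateTransition.eval f a).Dom := by
  induction t with
  | zero => intro a h; simp at h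
  | succ t ih =>
    intro a h
    rw [Function.iterate_succ_apply] at h
    simp only [Option.bind_some] at h
    rcases hf : f a with _ | a'
    · have : a ∈ StateTransition.eval f a :=
        StateTransition.mem_eval.2 ⟨Relation.ReflTransGen.refl, hf⟩
      exact Part.dom_iff_mem.2 ⟨a, this⟩
    · rw [hf] at h
      have h1 := ih a' h
      have h2 : StateTransition.eval f a = StateTransition.eval f a' :=
        StateTransition.reaches_eval (Relation.ReflTransGen.single hf)
      rw [h2]; exact h1

theorem exists_of_reaches (f : C → Option C) (a b : C) (hr : StateTransition.Reaches f a b) :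
    ∃ t, (fun o : Option C => o.bind f)^[t] (some a) = some b := by
  induction hr with
  | refl => exact ⟨0, rfl⟩
  | tail _ hbc ih =>
    obtain ⟨t, ht⟩ := ih
    refine ⟨t + 1, ?_⟩
    rw [Function.iterate_succ_apply', ht]
    exact hbc

theorem exists_of_dom (f : C → Option C) (a : C) (h : (StateTransition.eval f a).Dom) :
    ∃ t, (fun o : Option C => o.bind f)^[t] (some a) = none := by
  obtain ⟨b, hb⟩ := Part.dom_iff_mem.1 h
  obtain ⟨hr, hn⟩ := StateTransition.mem_eval.1 hb
  obtain ⟨t, ht⟩ := exists_of_reaches f a b hr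
  refine ⟨t + 1, ?_⟩
  rw [Function.iterate_succ_apply', ht]
  exact hn

end ev

/-! simulation on lists -/

section sim

variable {Γ Λ : Type} [Inhabited Γ] [Inhabited Λ]

/-- list configurations: state, cells to the left, scanned symbol, cells to the right -/
abbrev LS (Γ Λ : Type) := Λ × List Γ × Γ × List Γ

/-- the machine configuration of a list configuration -/
def cfg (s : LS Γ Λ) : TM0.Cfg Γ Λ :=
  ⟨s.1, ⟨s.2.2.1, ListBlank.mk s.2.1, ListBlank.mk s.2.2.2⟩⟩

/-- the transition table: new state and what to do (`none`: go left or right; `some b`: write) -/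
def tbl (M : TM0.Machine Γ Λ) (p : Λ × Γ) : Option (Λ × Option Γ × Bool) :=
  match M p.1 p.2 with
  | none => none
  | some (q, .write b) => some (q, some b, false)
  | some (q, .move .left) => some (q, none, false)
  | some (q, .move .right) => some (q, none, true)

/-- the update of a list configuration -/
def upd (s : LS Γ Λ) (r : Λ × Option Γ × Bool) : LS Γ Λ :=
  match r.2.1 with
  | some b => (r.1, s.2.1, b, s.2.2.2)
  | none => bif r.2.2 then (r.1, s.2.2.1 :: s.2.1, s.2.2.2.headI, s.2.2.2.tail)
      else (r.1, s.2.1.tail, s.2.1.headI, s.2.2.1 :: s.2.2.2)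

/-- one step on list configurations -/
def stepS (M : TM0.Machine Γ Λ) (s : LS Γ Λ) : Option (LS Γ Λ) :=
  (tbl M (s.1, s.2.2.1)).map (upd s)

theorem step_cfg (M : TM0.Machine Γ Λ) (s : LS Γ Λ) :
    TM0.step M (cfg s) = (stepS M s).map cfg := by
  obtain ⟨q, L, a, R⟩ := s
  unfold stepS tbl TM0.step
  rcases h : M q a with _ | ⟨q', _ | _⟩
  · simp [cfg, h]
  · rename_i d
    cases d <;> simp [cfg, h, upd, Tape.move]
  · simp [cfg, h, upd, Tape.write]

theorem iter_cfg (M : TM0.Machine Γ Λ) (t : ℕ) : ∀ o : Option (LS Γ Λ),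
    (fun o : Option (TM0.Cfg Γ Λ) => o.bind (TM0.step M))^[t] (o.map cfg) =
      ((fun o : Option (LS Γ Λ) => o.bind (stepS M))^[t] o).map cfg := by
  induction t with
  | zero => intro o; rfl
  | succ t ih =>
    intro o
    rw [Function.iterate_succ_apply, Function.iterate_succ_apply, ← ih]
    congr 1
    rcases o with _ | s
    · rfl
    · simp only [Option.map_some, Option.bind_some]
      exact step_cfg M s

theorem HW_iff_list (M : TM0.Machine Γ Λ) (l : List Γ) (t : ℕ) :
    HW M l t ↔ ((fun o : Option (LS Γ Λ) => o.bind (stepS M))^[t]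
      (some (default, [], l.headI, l.tail))) = none := by
  unfold HW
  have h : some (TM0.init l : TM0.Cfg Γ Λ) =
      (some ((default, [], l.headI, l.tail) : LS Γ Λ)).map cfg := by
    simp only [Option.map_some, cfg, TM0.init, Tape.mk₁, Tape.mk₂, Tape.mk']
    simp
  rw [h, iter_cfg, Option.map_eq_none_iff]

end sim

section prim

variable {Γ Λ : Type} [Inhabited Γ] [Inhabited Λ] [Primcodable Γ] [Primcodable Λ]
  [Finite Γ] [Finite Λ]

theorem prim_upd : Primrec₂ (upd : LS Γ Λ → Λ × Option Γ × Bool → LS Γ Λ) := by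
  -- arguments: p.1 the configuration, p.2 the entry of the table
  have hL : Primrec (fun p : LS Γ Λ × (Λ × Option Γ × Bool) => p.1.2.1) :=
    Primrec.fst.comp (Primrec.snd.comp Primrec.fst)
  have ha : Primrec (fun p : LS Γ Λ × (Λ × Option Γ × Bool) => p.1.2.2.1) :=
    Primrec.fst.comp (Primrec.snd.comp (Primrec.snd.comp Primrec.fst))
  have hR : Primrec (fun p : LS Γ Λ × (Λ × Option Γ × Bool) => p.1.2.2.2) :=
    Primrec.snd.comp (Primrec.snd.comp (Primrec.snd.comp Primrec.fst))
  have hq : Primrec (fun p : LS Γ Λ × (Λ × Option Γ × Bool) => p.2.1) :=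
    Primrec.fst.comp Primrec.snd
  have hw : Primrec (fun p : LS Γ Λ × (Λ × Option Γ × Bool) => p.2.2.1) :=
    Primrec.fst.comp (Primrec.snd.comp Primrec.snd)
  have hd : Primrec (fun p : LS Γ Λ × (Λ × Option Γ × Bool) => p.2.2.2) :=
    Primrec.snd.comp (Primrec.snd.comp Primrec.snd)
  have hnone : Primrec (fun p : LS Γ Λ × (Λ × Option Γ × Bool) =>
      bif p.2.2.2 then
        ((p.2.1, p.1.2.2.1 :: p.1.2.1, p.1.2.2.2.headI, p.1.2.2.2.tail) : LS Γ Λ)
      else (p.2.1, p.1.2.1.tail, p.1.2.1.headI, p.1.2.2.1 :: p.1.2.2.2)) := by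
    refine Primrec.cond hd ?_ ?_
    · exact Primrec.pair hq (Primrec.pair (Primrec.list_cons.comp ha hL)
        (Primrec.pair (Primrec.list_headI.comp hR) (Primrec.list_tail.comp hR)))
    · exact Primrec.pair hq (Primrec.pair (Primrec.list_tail.comp hL)
        (Primrec.pair (Primrec.list_headI.comp hL) (Primrec.list_cons.comp ha hR)))
  have hsome : Primrec₂ (fun (p : LS Γ Λ × (Λ × Option Γ × Bool)) (b : Γ) =>
      ((p.2.1, p.1.2.1, b, p.1.2.2.2) : LS Γ Λ)) := by
    refine Primrec.pair (hq.comp Primrec.fst) (Primrec.pair (hL.comp Primrec.fst)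
      (Primrec.pair Primrec.snd (hR.comp Primrec.fst)))
  have := Primrec.option_casesOn hw hnone hsome
  refine this.of_eq ?_
  rintro ⟨s, q, w, d⟩
  rcases w with _ | b <;> rfl

theorem prim_stepS (M : TM0.Machine Γ Λ) : Primrec (stepS M) := by
  have h1 : Primrec (fun s : LS Γ Λ => tbl M (s.1, s.2.2.1)) :=
    (Primrec.dom_finite (tbl M)).comp
      (Primrec.pair Primrec.fst (Primrec.fst.comp (Primrec.snd.comp Primrec.snd)))
  exact Primrec.option_map h1 prim_upd

/-- halting within `t` steps on lists, as a Boolean -/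
def haltB (M : TM0.Machine Γ Λ) (a : Γ) (l : List Γ) (t : ℕ) : Bool :=
  ((fun o : Option (LS Γ Λ) => o.bind (stepS M))^[t] (some (default, [], a, l))).isNone

theorem prim_haltB (M : TM0.Machine Γ Λ) (a : Γ) : Primrec₂ (haltB M a) := by
  have h0 : Primrec (fun p : List Γ × ℕ =>
      (some ((default, [], a, p.1) : LS Γ Λ))) :=
    Primrec.option_some.comp (Primrec.pair (Primrec.const default)
      (Primrec.pair (Primrec.const []) (Primrec.pair (Primrec.const a) Primrec.fst)))
  have h1 : Primrec₂ (fun (_ : List Γ × ℕ) (o : Option (LS Γ Λ)) => o.bind (stepS M)) :=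
    Primrec.option_bind Primrec.snd ((prim_stepS M).comp Primrec.snd)
  have h2 := Primrec.nat_iterate (Primrec.snd : Primrec (fun p : List Γ × ℕ => p.2)) h0 h1
  have h3 : Primrec (fun o : Option (LS Γ Λ) => o.isNone) := by
    have := Primrec.option_casesOn (Primrec.id : Primrec (fun o : Option (LS Γ Λ) => o))
      (Primrec.const true) (Primrec.const false).to₂
    refine this.of_eq ?_
    intro o
    cases o <;> rfl
  exact h3.comp h2

end prim

/-- the code of a symbol of the input -/
def kap : PartrecToTM2.Γ' → ℕ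
  | .bit0 => 0
  | .bit1 => 1
  | .cons => 2
  | .consₗ => 3

/-- the tape symbol of a code -/
noncomputable def del (k : ℕ) : TM2to1.Γ' PartrecToTM2.K' (fun _ => PartrecToTM2.Γ') :=
  ([sym false .bit0, sym false .bit1, sym false .cons, sym false .consₗ][k]?).getD
    (sym false .bit0)

theorem del_kap (a : PartrecToTM2.Γ') : del (kap a) = sym false a := by
  cases a <;> rfl

theorem source : ∃ (Γ Λ : Type) (_ : Inhabited Γ) (_ : Inhabited Λ) (_ : Fintype Γ)
    (_ : Fintype Λ) (M : TM0.Machine Γ Λ) (inp : ℕ → List Γ),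
    (∀ n, 0 < (inp n).length) ∧ (Computable fun n => (inp n).length) ∧
    ¬ ComputablePred (fun n => ∃ t, HW M (inp n) t) ∧
    ∃ Q : ℕ → ℕ → Bool, Computable₂ Q ∧ ∀ n t, Q n t = true ↔ HW M (inp n) t := by
  classical
  obtain ⟨Λ, i1, i2, M, hM⟩ := exists_machine
  have fK : Finite PartrecToTM2.K' := by
    refine Finite.of_injective (fun k : PartrecToTM2.K' => match k with
      | .main => (0 : Fin 4) | .rev => 1 | .aux => 2 | .stack => 3) ?_
    intro a b h
    cases a <;> cases b <;> simp_all
  have fG : Finite (TM2to1.Γ' PartrecToTM2.K' (fun _ => PartrecToTM2.Γ')) :=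
    inferInstanceAs (Finite (Bool × (PartrecToTM2.K' → Option PartrecToTM2.Γ')))
  let _ : Fintype (TM2to1.Γ' PartrecToTM2.K' (fun _ => PartrecToTM2.Γ')) := Fintype.ofFinite _
  let _ : Fintype Λ := Fintype.ofFinite _
  let _ : Primcodable (TM2to1.Γ' PartrecToTM2.K' (fun _ => PartrecToTM2.Γ')) :=
    Primcodable.ofEquiv _ (Fintype.equivFin _)
  let _ : Primcodable Λ := Primcodable.ofEquiv _ (Fintype.equivFin _)
  have hstart : Computable (fun n : ℕ => (trNat n).reverse.map (sym false)) := by
    have h1 := digits_computable kap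
    have hdel : Primrec del :=
      Primrec.option_getD.comp (Primrec.list_getElem?.comp (Primrec.const _) Primrec.id)
        (Primrec.const _)
    have h2 : Primrec (fun l : List ℕ => l.reverse.map del) :=
      Primrec.list_map Primrec.list_reverse (hdel.comp Primrec.snd)
    refine (h2.to_comp.comp h1).of_eq ?_
    intro n
    rw [← List.map_reverse, List.map_map]
    congr 1
    funext a
    exact del_kap a
  refine ⟨_, Λ, inferInstance, i1, inferInstance, inferInstance, M,
    fun n => sym true .cons :: (trNat n).reverse.map (sym false), ?_, ?_, ?_, ?_⟩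
  · intro n; simp
  · have h : Computable (fun n : ℕ => ((trNat n).reverse.map (sym false)).length + 1) :=
      Computable.succ.comp (Computable.list_length.comp hstart)
    exact h
  · intro h
    apply u_not_computable
    refine h.of_eq ?_
    intro n
    rw [← hM n]
    constructor
    · rintro ⟨t, ht⟩
      exact eval_dom_iff _ t _ ht
    · exact exists_of_dom _ _
  · refine ⟨fun n t => haltB M (sym true .cons) ((trNat n).reverse.map (sym false)) t, ?_, ?_⟩
    · exact (prim_haltB M (sym true .cons)).to_comp.comp (hstart.comp Computable.fst)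
        Computable.snd
    · intro n t
      rw [HW_iff_list]
      unfold haltB
      rw [Option.isNone_iff_eq_none]
      rfl

end Pool.Agent.H88R3.TM
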