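import Mathlib
import Pool.Agent.H88R3.EF
import Pool.Agent.H88R3.PkgA

set_option autoImplicit false

namespace Pool.Agent.H88R3.P


theorem EF_iso {V W : Type} {G : SimpleGraph V} {H : SimpleGraph W} (n : ℕ) (e : G ≃g H) :
    ∀ l : List (V × W), (∀ p ∈ l, e p.1 = p.2) → EF G H n l := by
  have hpi : ∀ l : List (V × W), (∀ p ∈ l, e p.1 = p.2) → PI G H l := by
    intro l hl p hp q hq
    rw [← hl p hp, ← hl q hq]
    exact ⟨e.injective.eq_iff.symm, e.map_adj_iff.symm⟩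
  induction n with
  | zero => exact hpi
  | succ n ih =>
    intro l hl
    refine ⟨hpi l hl, fun v => ⟨e v, ih _ ?_⟩, fun w => ⟨e.symm w, ih _ ?_⟩⟩
    · intro p hp
      rcases List.mem_cons.1 hp with rfl | hp
      · rfl
      · exact hl p hp
    · intro p hp
      rcases List.mem_cons.1 hp with rfl | hp
      · exact e.apply_symm_apply w
      · exact hl p hp

theorem EF_succ_le {V W : Type} {G : SimpleGraph V} {H : SimpleGraph W} (n : ℕ) :
    ∀ l : List (V × W), EF G H (n + 1) l → EF G H n l := by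
  induction n with
  | zero => intro l h; exact h.1
  | succ n ih =>
    intro l h
    refine ⟨h.1, fun v => ?_, fun w => ?_⟩
    · obtain ⟨w, hw⟩ := h.2.1 v
      exact ⟨w, ih _ hw⟩
    · obtain ⟨v, hv⟩ := h.2.2 w
      exact ⟨v, ih _ hv⟩

theorem EF_mono {V W : Type} {G : SimpleGraph V} {H : SimpleGraph W} {m n : ℕ} (hmn : m ≤ n)
    (l : List (V × W)) (h : EF G H n l) : EF G H m l := by
  induction hmn with
  | refl => exact h
  | step _ ih => exact ih (EF_succ_le _ _ h)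

namespace C

/-! ### closure properties of primitive recursive predicates -/

section gen

variable {α β : Type} [Primcodable α] [Primcodable β]

theorem p_forall_list {p : α → β → Prop} {f : α → List β} (hf : Primrec f)
    (hp : PrimrecPred fun z : α × β => p z.1 z.2) : PrimrecPred fun a => ∀ b ∈ f a, p a b := by
  have hp' : PrimrecRel p := PrimrecPred.primrecRel hp
  exact (hp'.swap.forall_mem_list).comp hf Primrec.id

theorem p_exists_list {p : α → β → Prop} {f : α → List β} (hf : Primrec f)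
    (hp : PrimrecPred fun z : α × β => p z.1 z.2) : PrimrecPred fun a => ∃ b ∈ f a, p a b := by
  have hp' : PrimrecRel p := PrimrecPred.primrecRel hp
  exact (hp'.swap.exists_mem_list).comp hf Primrec.id

theorem p_forall_lt {p : α → ℕ → Prop} {f : α → ℕ} (hf : Primrec f)
    (hp : PrimrecPred fun z : α × ℕ => p z.1 z.2) : PrimrecPred fun a => ∀ b < f a, p a b :=
  (p_forall_list (Primrec.list_range.comp hf) hp).of_eq (by simp)

theorem p_exists_lt {p : α → ℕ → Prop} {f : α → ℕ} (hf : Primrec f)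
    (hp : PrimrecPred fun z : α × ℕ => p z.1 z.2) : PrimrecPred fun a => ∃ b < f a, p a b :=
  (p_exists_list (Primrec.list_range.comp hf) hp).of_eq (by simp)

theorem p_iff {p q : α → Prop} (hp : PrimrecPred p) (hq : PrimrecPred q) :
    PrimrecPred fun a => (p a ↔ q a) :=
  ((hp.and hq).or (hp.not.and hq.not)).of_eq (fun a => by tauto)

theorem p_mem {f : α → β} {g : α → List β} (hf : Primrec f) (hg : Primrec g) :
    PrimrecPred fun a => f a ∈ g a :=
  (p_exists_list (p := fun a b => b = f a) hg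
    (Primrec.eq.comp Primrec.snd (hf.comp Primrec.fst))).of_eq (by simp)

theorem p_pow : Primrec₂ (fun a b : ℕ => a ^ b) := Primrec₂.unpaired'.1 Nat.Primrec.pow

end gen

/-! ### graphs coded by numbers -/

/-- adjacency -/
def adjN (N x i j : ℕ) : Prop :=
  i ≠ j ∧ (x / 2 ^ (i * N + j) % 2 = 1 ∨ x / 2 ^ (j * N + i) % 2 = 1)

instance (N x i j : ℕ) : Decidable (adjN N x i j) := by unfold adjN; infer_instance

/-- the graph with code `x` -/
def gr (N x : ℕ) : SimpleGraph (Fin N) where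
  Adj i j := adjN N x i j
  symm := ⟨fun _ _ h => ⟨fun e => h.1 e.symm, h.2.symm⟩⟩
  loopless := ⟨fun _ h => h.1 rfl⟩

theorem exists_code {N : ℕ} (G : SimpleGraph (Fin N)) : ∃ x < 2 ^ (N * N), gr N x = G := by
  classical
  rcases Nat.eq_zero_or_pos N with rfl | hN
  · refine ⟨0, by simp, ?_⟩
    ext i; exact i.elim0
  let f : Fin (N * N) → Bool := fun k =>
    decide (G.Adj ⟨k / N, Nat.div_lt_of_lt_mul k.2⟩ ⟨k % N, Nat.mod_lt _ hN⟩)
  refine ⟨Nat.ofBits f, Nat.ofBits_lt_two_pow f, ?_⟩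
  have key : ∀ i j : Fin N, (Nat.ofBits f / 2 ^ (i.val * N + j.val) % 2 = 1) ↔ G.Adj i j := by
    intro i j
    have hlt : i.val * N + j.val < N * N := by
      have := i.2; have := j.2
      calc i.val * N + j.val < i.val * N + N := by omega
        _ = (i.val + 1) * N := by ring
        _ ≤ N * N := Nat.mul_le_mul_right _ (by omega)
    have h1 := Nat.testBit_ofBits_lt f _ hlt
    rw [Nat.testBit_eq_decide_div_mod_eq] at h1
    have h2 : (i.val * N + j.val) / N = i.val := by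
      rw [mul_comm, Nat.mul_add_div hN, Nat.div_eq_of_lt j.2, add_zero]
    have h3 : (i.val * N + j.val) % N = j.val := by
      rw [mul_comm, Nat.mul_add_mod, Nat.mod_eq_of_lt j.2]
    have h4 : f ⟨i.val * N + j.val, hlt⟩ = decide (G.Adj i j) := by
      simp only [f, h2, h3]
    rw [h4] at h1
    simpa using h1
  ext i j
  change adjN N _ i.val j.val ↔ _
  unfold adjN
  rw [key i j, key j i]
  constructor
  · rintro ⟨-, h | h⟩
    · exact h
    · exact h.symm
  · intro h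
    exact ⟨fun e => h.ne (Fin.ext e), Or.inl h⟩

/-- partial isomorphism on numbers -/
def PIN (N x M y : ℕ) (l : List (ℕ × ℕ)) : Prop :=
  ∀ p ∈ l, ∀ q ∈ l, (p.1 = q.1 ↔ p.2 = q.2) ∧ (adjN N x p.1 q.1 ↔ adjN M y p.2 q.2)

abbrev Tab := List (ℕ × List (ℕ × ℕ))

/-- table of won positions -/
def CW (N x M y : ℕ) (c : Tab) : Prop :=
  ∀ e ∈ c, PIN N x M y e.2 ∧ (e.1 = 0 ∨
    ((∀ v < N, ∃ w < M, (e.1 - 1, (v, w) :: e.2) ∈ c) ∧
      (∀ w < M, ∃ v < N, (e.1 - 1, (v, w) :: e.2) ∈ c)))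

/-- table of lost positions -/
def CL (N x M y : ℕ) (c : Tab) : Prop :=
  ∀ e ∈ c, ¬ PIN N x M y e.2 ∨ (e.1 ≠ 0 ∧
    ((∃ v < N, ∀ w < M, (e.1 - 1, (v, w) :: e.2) ∈ c) ∨
      (∃ w < M, ∀ v < N, (e.1 - 1, (v, w) :: e.2) ∈ c)))

/-- forget the bounds -/
def vl {N M : ℕ} (l : List (Fin N × Fin M)) : List (ℕ × ℕ) := l.map fun p => (p.1.val, p.2.val)

theorem PIN_iff {N x M y : ℕ} (l : List (Fin N × Fin M)) :
    PIN N x M y (vl l) ↔ PI (gr N x) (gr M y) l := by
  unfold PIN PI vl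
  simp only [List.forall_mem_map, Fin.ext_iff]
  exact Iff.rfl

theorem W1 {N x M y : ℕ} {c : Tab} (hc : CW N x M y c) : ∀ (n : ℕ) (l : List (Fin N × Fin M)),
    (n, vl l) ∈ c → EF (gr N x) (gr M y) n l := by
  intro n
  induction n with
  | zero => intro l h; exact (PIN_iff l).1 (hc _ h).1
  | succ n ih =>
    intro l h
    obtain ⟨h1, h2⟩ := hc _ h
    rcases h2 with h2 | ⟨h2, h3⟩
    · exact absurd h2 (Nat.succ_ne_zero n)
    refine ⟨(PIN_iff l).1 h1, fun v => ?_, fun w => ?_⟩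
    · obtain ⟨w, hw, hm⟩ := h2 v.val v.2
      exact ⟨⟨w, hw⟩, ih ((v, ⟨w, hw⟩) :: l) hm⟩
    · obtain ⟨v, hv, hm⟩ := h3 w.val w.2
      exact ⟨⟨v, hv⟩, ih ((⟨v, hv⟩, w) :: l) hm⟩

theorem L1 {N x M y : ℕ} {c : Tab} (hc : CL N x M y c) : ∀ (n : ℕ) (l : List (Fin N × Fin M)),
    (n, vl l) ∈ c → ¬ EF (gr N x) (gr M y) n l := by
  intro n
  induction n with
  | zero =>
    intro l h hE
    rcases hc _ h with h1 | h1
    · exact h1 ((PIN_iff l).2 hE)
    · exact h1.1 rfl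
  | succ n ih =>
    intro l h hE
    rcases hc _ h with h1 | ⟨-, h1 | h1⟩
    · exact h1 ((PIN_iff l).2 hE.1)
    · obtain ⟨v, hv, h2⟩ := h1
      obtain ⟨w, hw⟩ := hE.2.1 ⟨v, hv⟩
      exact ih ((⟨v, hv⟩, w) :: l) (h2 w.val w.2) hw
    · obtain ⟨w, hw, h2⟩ := h1
      obtain ⟨v, hv⟩ := hE.2.2 ⟨w, hw⟩
      exact ih ((v, ⟨w, hw⟩) :: l) (h2 v.val v.2) hv

theorem CW_mono {N x M y : ℕ} {c c' : Tab} (h : ∀ e ∈ c, e ∈ c') (e : ℕ × List (ℕ × ℕ))
    (he : PIN N x M y e.2 ∧ (e.1 = 0 ∨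
    ((∀ v < N, ∃ w < M, (e.1 - 1, (v, w) :: e.2) ∈ c) ∧
      (∀ w < M, ∃ v < N, (e.1 - 1, (v, w) :: e.2) ∈ c)))) :
    PIN N x M y e.2 ∧ (e.1 = 0 ∨
    ((∀ v < N, ∃ w < M, (e.1 - 1, (v, w) :: e.2) ∈ c') ∧
      (∀ w < M, ∃ v < N, (e.1 - 1, (v, w) :: e.2) ∈ c'))) := by
  refine ⟨he.1, he.2.imp id fun ⟨h1, h2⟩ => ⟨fun v hv => ?_, fun w hw => ?_⟩⟩
  · obtain ⟨w, hw, hm⟩ := h1 v hv
    exact ⟨w, hw, h _ hm⟩
  · obtain ⟨v, hv, hm⟩ := h2 w hw
    exact ⟨v, hv, h _ hm⟩

theorem CL_mono {N x M y : ℕ} {c c' : Tab} (h : ∀ e ∈ c, e ∈ c') (e : ℕ × List (ℕ × ℕ))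
    (he : ¬ PIN N x M y e.2 ∨ (e.1 ≠ 0 ∧
    ((∃ v < N, ∀ w < M, (e.1 - 1, (v, w) :: e.2) ∈ c) ∨
      (∃ w < M, ∀ v < N, (e.1 - 1, (v, w) :: e.2) ∈ c)))) :
    ¬ PIN N x M y e.2 ∨ (e.1 ≠ 0 ∧
    ((∃ v < N, ∀ w < M, (e.1 - 1, (v, w) :: e.2) ∈ c') ∨
      (∃ w < M, ∀ v < N, (e.1 - 1, (v, w) :: e.2) ∈ c'))) := by
  refine he.imp id fun ⟨h0, h1⟩ => ⟨h0, h1.imp ?_ ?_⟩
  · rintro ⟨v, hv, h2⟩
    exact ⟨v, hv, fun w hw => h _ (h2 w hw)⟩
  · rintro ⟨v, hv, h2⟩
    exact ⟨v, hv, fun w hw => h _ (h2 w hw)⟩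

theorem W2 {N x M y : ℕ} : ∀ (n : ℕ) (l : List (Fin N × Fin M)), EF (gr N x) (gr M y) n l →
    ∃ c : Tab, CW N x M y c ∧ (n, vl l) ∈ c := by
  intro n
  induction n with
  | zero =>
    intro l h
    refine ⟨[(0, vl l)], ?_, by simp⟩
    intro e he
    obtain rfl : e = (0, vl l) := by simpa using he
    exact ⟨(PIN_iff l).2 h, Or.inl rfl⟩
  | succ n ih =>
    intro l h
    have h1 : ∀ v : Fin N, ∃ w : Fin M, ∃ c : Tab, CW N x M y c ∧ (n, vl ((v, w) :: l)) ∈ c := by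
      intro v
      obtain ⟨w, hw⟩ := h.2.1 v
      obtain ⟨c, hc⟩ := ih _ hw
      exact ⟨w, c, hc⟩
    have h2 : ∀ w : Fin M, ∃ v : Fin N, ∃ c : Tab, CW N x M y c ∧ (n, vl ((v, w) :: l)) ∈ c := by
      intro w
      obtain ⟨v, hv⟩ := h.2.2 w
      obtain ⟨c, hc⟩ := ih _ hv
      exact ⟨v, c, hc⟩
    choose a c hc hm using h1
    choose b d hd hn using h2
    refine ⟨(n + 1, vl l) :: ((List.finRange N).flatMap c ++ (List.finRange M).flatMap d),
      ?_, by simp⟩
    have hin1 : ∀ v, ∀ e ∈ c v,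
        e ∈ (n + 1, vl l) :: ((List.finRange N).flatMap c ++ (List.finRange M).flatMap d) := by
      intro v e he
      refine List.mem_cons_of_mem _ (List.mem_append_left _ (List.mem_flatMap.2 ⟨v, by simp, he⟩))
    have hin2 : ∀ v, ∀ e ∈ d v,
        e ∈ (n + 1, vl l) :: ((List.finRange N).flatMap c ++ (List.finRange M).flatMap d) := by
      intro v e he
      refine List.mem_cons_of_mem _ (List.mem_append_right _ (List.mem_flatMap.2 ⟨v, by simp, he⟩))
    intro e he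
    rcases List.mem_cons.1 he with rfl | he
    · refine ⟨(PIN_iff l).2 h.1, Or.inr ⟨fun v hv => ?_, fun w hw => ?_⟩⟩
      · exact ⟨(a ⟨v, hv⟩).val, (a ⟨v, hv⟩).2, hin1 ⟨v, hv⟩ _ (hm ⟨v, hv⟩)⟩
      · exact ⟨(b ⟨w, hw⟩).val, (b ⟨w, hw⟩).2, hin2 ⟨w, hw⟩ _ (hn ⟨w, hw⟩)⟩
    rcases List.mem_append.1 he with he | he
    · obtain ⟨v, -, hv⟩ := List.mem_flatMap.1 he
      exact CW_mono (hin1 v) e (hc v e hv)
    · obtain ⟨v, -, hv⟩ := List.mem_flatMap.1 he
      exact CW_mono (hin2 v) e (hd v e hv)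

theorem L2 {N x M y : ℕ} : ∀ (n : ℕ) (l : List (Fin N × Fin M)), ¬ EF (gr N x) (gr M y) n l →
    ∃ c : Tab, CL N x M y c ∧ (n, vl l) ∈ c := by
  intro n
  induction n with
  | zero =>
    intro l h
    refine ⟨[(0, vl l)], ?_, by simp⟩
    intro e he
    obtain rfl : e = (0, vl l) := by simpa using he
    exact Or.inl fun h' => h ((PIN_iff l).1 h')
  | succ n ih =>
    intro l h
    by_cases hp : PI (gr N x) (gr M y) l
    swap
    · refine ⟨[(n + 1, vl l)], ?_, by simp⟩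
      intro e he
      obtain rfl : e = (n + 1, vl l) := by simpa using he
      exact Or.inl fun h' => hp ((PIN_iff l).1 h')
    by_cases h1 : ∀ v : Fin N, ∃ w : Fin M, EF (gr N x) (gr M y) n ((v, w) :: l)
    · have h2 : ¬ ∀ w : Fin M, ∃ v : Fin N, EF (gr N x) (gr M y) n ((v, w) :: l) :=
        fun h2 => h ⟨hp, h1, h2⟩
      push Not at h2
      obtain ⟨w, hw⟩ := h2
      have h3 : ∀ v : Fin N, ∃ c : Tab, CL N x M y c ∧ (n, vl ((v, w) :: l)) ∈ c :=
        fun v => ih _ (hw v)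
      choose c hc hm using h3
      have hin : ∀ v, ∀ e ∈ c v, e ∈ (n + 1, vl l) :: (List.finRange N).flatMap c := by
        intro v e he
        exact List.mem_cons_of_mem _ (List.mem_flatMap.2 ⟨v, by simp, he⟩)
      refine ⟨(n + 1, vl l) :: (List.finRange N).flatMap c, ?_, by simp⟩
      intro e he
      rcases List.mem_cons.1 he with rfl | he
      · exact Or.inr ⟨Nat.succ_ne_zero n, Or.inr ⟨w.val, w.2, fun v hv =>
          hin ⟨v, hv⟩ _ (hm ⟨v, hv⟩)⟩⟩
      · obtain ⟨v, -, hv⟩ := List.mem_flatMap.1 he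
        exact CL_mono (hin v) e (hc v e hv)
    · push Not at h1
      obtain ⟨v, hv⟩ := h1
      have h3 : ∀ w : Fin M, ∃ c : Tab, CL N x M y c ∧ (n, vl ((v, w) :: l)) ∈ c :=
        fun w => ih _ (hv w)
      choose c hc hm using h3
      have hin : ∀ v, ∀ e ∈ c v, e ∈ (n + 1, vl l) :: (List.finRange M).flatMap c := by
        intro v e he
        exact List.mem_cons_of_mem _ (List.mem_flatMap.2 ⟨v, by simp, he⟩)
      refine ⟨(n + 1, vl l) :: (List.finRange M).flatMap c, ?_, by simp⟩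
      intro e he
      rcases List.mem_cons.1 he with rfl | he
      · exact Or.inr ⟨Nat.succ_ne_zero n, Or.inl ⟨v.val, v.2, fun w hw =>
          hin ⟨w, hw⟩ _ (hm ⟨w, hw⟩)⟩⟩
      · obtain ⟨w, -, hw⟩ := List.mem_flatMap.1 he
        exact CL_mono (hin w) e (hc w e hw)

/-! ### primitive recursiveness -/

abbrev Par := ℕ × ℕ × ℕ × ℕ

theorem p_adj {α : Type} [Primcodable α] {N x i j : α → ℕ} (hN : Primrec N) (hx : Primrec x)
    (hi : Primrec i) (hj : Primrec j) : PrimrecPred fun a => adjN (N a) (x a) (i a) (j a) := by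
  have h1 : ∀ {i j : α → ℕ}, Primrec i → Primrec j →
      PrimrecPred fun a => x a / 2 ^ (i a * N a + j a) % 2 = 1 := by
    intro i j hi hj
    refine Primrec.eq.comp (Primrec.nat_mod.comp (Primrec.nat_div.comp hx
      (p_pow.comp (Primrec.const 2) (Primrec.nat_add.comp (Primrec.nat_mul.comp hi hN) hj)))
      (Primrec.const 2)) (Primrec.const 1)
  exact ((Primrec.eq.comp hi hj).not).and ((h1 hi hj).or (h1 hj hi))

theorem p_PIN {α : Type} [Primcodable α] {N x M y : α → ℕ} {l : α → List (ℕ × ℕ)}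
    (hN : Primrec N) (hx : Primrec x) (hM : Primrec M) (hy : Primrec y) (hl : Primrec l) :
    PrimrecPred fun a => PIN (N a) (x a) (M a) (y a) (l a) := by
  unfold PIN
  refine p_forall_list hl (p_forall_list (α := α × (ℕ × ℕ)) (hl.comp Primrec.fst) ?_)
  have hp1 : Primrec fun z : (α × (ℕ × ℕ)) × (ℕ × ℕ) => z.1.2.1 :=
    Primrec.fst.comp (Primrec.snd.comp Primrec.fst)
  have hp2 : Primrec fun z : (α × (ℕ × ℕ)) × (ℕ × ℕ) => z.1.2.2 :=
    Primrec.snd.comp (Primrec.snd.comp Primrec.fst)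
  have hq1 : Primrec fun z : (α × (ℕ × ℕ)) × (ℕ × ℕ) => z.2.1 := Primrec.fst.comp Primrec.snd
  have hq2 : Primrec fun z : (α × (ℕ × ℕ)) × (ℕ × ℕ) => z.2.2 := Primrec.snd.comp Primrec.snd
  have ha : Primrec fun z : (α × (ℕ × ℕ)) × (ℕ × ℕ) => z.1.1 := Primrec.fst.comp Primrec.fst
  exact (p_iff (Primrec.eq.comp hp1 hq1) (Primrec.eq.comp hp2 hq2)).and
    (p_iff (p_adj (hN.comp ha) (hx.comp ha) hp1 hq1) (p_adj (hM.comp ha) (hy.comp ha) hp2 hq2))

section tabs

variable {α : Type} [Primcodable α] {N x M y : α → ℕ} {c : α → Tab}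

theorem p_ent {β : Type} [Primcodable β] {r : β → ℕ} {v w : β → ℕ} {l : β → List (ℕ × ℕ)}
    {c : β → Tab} (hr : Primrec r) (hv : Primrec v) (hw : Primrec w) (hl : Primrec l)
    (hc : Primrec c) : PrimrecPred fun b => (r b - 1, (v b, w b) :: l b) ∈ c b :=
  p_mem (Primrec.pair (Primrec.nat_sub.comp hr (Primrec.const 1))
    (Primrec.list_cons.comp (Primrec.pair hv hw) hl)) hc

theorem p_CW (hN : Primrec N) (hx : Primrec x) (hM : Primrec M) (hy : Primrec y)
    (hc : Primrec c) : PrimrecPred fun a => CW (N a) (x a) (M a) (y a) (c a) := by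
  unfold CW
  refine p_forall_list hc ?_
  have f0 : Primrec fun z : α × (ℕ × List (ℕ × ℕ)) => z.1 := Primrec.fst
  have f1 : Primrec fun z : α × (ℕ × List (ℕ × ℕ)) => z.2.1 := Primrec.fst.comp Primrec.snd
  have f2 : Primrec fun z : α × (ℕ × List (ℕ × ℕ)) => z.2.2 := Primrec.snd.comp Primrec.snd
  refine (p_PIN (hN.comp f0) (hx.comp f0) (hM.comp f0) (hy.comp f0) f2).and
    ((Primrec.eq.comp f1 (Primrec.const 0)).or (PrimrecPred.and ?_ ?_))
  · refine p_forall_lt (hN.comp f0) (p_exists_lt ((hM.comp f0).comp Primrec.fst) ?_)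
    exact p_ent (f1.comp (Primrec.fst.comp Primrec.fst)) (Primrec.snd.comp Primrec.fst)
      Primrec.snd (f2.comp (Primrec.fst.comp Primrec.fst))
      ((hc.comp f0).comp (Primrec.fst.comp Primrec.fst))
  · refine p_forall_lt (hM.comp f0) (p_exists_lt ((hN.comp f0).comp Primrec.fst) ?_)
    exact p_ent (f1.comp (Primrec.fst.comp Primrec.fst)) Primrec.snd
      (Primrec.snd.comp Primrec.fst) (f2.comp (Primrec.fst.comp Primrec.fst))
      ((hc.comp f0).comp (Primrec.fst.comp Primrec.fst))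

theorem p_CL (hN : Primrec N) (hx : Primrec x) (hM : Primrec M) (hy : Primrec y)
    (hc : Primrec c) : PrimrecPred fun a => CL (N a) (x a) (M a) (y a) (c a) := by
  unfold CL
  refine p_forall_list hc ?_
  have f0 : Primrec fun z : α × (ℕ × List (ℕ × ℕ)) => z.1 := Primrec.fst
  have f1 : Primrec fun z : α × (ℕ × List (ℕ × ℕ)) => z.2.1 := Primrec.fst.comp Primrec.snd
  have f2 : Primrec fun z : α × (ℕ × List (ℕ × ℕ)) => z.2.2 := Primrec.snd.comp Primrec.snd
  refine ((p_PIN (hN.comp f0) (hx.comp f0) (hM.comp f0) (hy.comp f0) f2).not).or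
    (((Primrec.eq.comp f1 (Primrec.const 0)).not).and (PrimrecPred.or ?_ ?_))
  · refine p_exists_lt (hN.comp f0) (p_forall_lt ((hM.comp f0).comp Primrec.fst) ?_)
    exact p_ent (f1.comp (Primrec.fst.comp Primrec.fst)) (Primrec.snd.comp Primrec.fst)
      Primrec.snd (f2.comp (Primrec.fst.comp Primrec.fst))
      ((hc.comp f0).comp (Primrec.fst.comp Primrec.fst))
  · refine p_exists_lt (hM.comp f0) (p_forall_lt ((hN.comp f0).comp Primrec.fst) ?_)
    exact p_ent (f1.comp (Primrec.fst.comp Primrec.fst)) Primrec.snd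
      (Primrec.snd.comp Primrec.fst) (f2.comp (Primrec.fst.comp Primrec.fst))
      ((hc.comp f0).comp (Primrec.fst.comp Primrec.fst))

end tabs

/-- the certificate: a graph `(M, y)` and two tables -/
abbrev Cert := (ℕ × ℕ) × Tab × Tab

/-- check of a certificate for the graph `(N, x)` and `k` rounds -/
def Chk (N x k : ℕ) (z : Cert) : Prop :=
  (CW N x z.1.1 z.1.2 z.2.1 ∧ (k, []) ∈ z.2.1) ∧ (CL N x z.1.1 z.1.2 z.2.2 ∧ (N + 1, []) ∈ z.2.2)

theorem p_Chk : PrimrecPred fun a : (ℕ × ℕ × ℕ) × Cert => Chk a.1.1 a.1.2.1 a.1.2.2 a.2 := by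
  have hN : Primrec fun a : (ℕ × ℕ × ℕ) × Cert => a.1.1 := Primrec.fst.comp Primrec.fst
  have hx : Primrec fun a : (ℕ × ℕ × ℕ) × Cert => a.1.2.1 :=
    Primrec.fst.comp (Primrec.snd.comp Primrec.fst)
  have hk : Primrec fun a : (ℕ × ℕ × ℕ) × Cert => a.1.2.2 :=
    Primrec.snd.comp (Primrec.snd.comp Primrec.fst)
  have hM : Primrec fun a : (ℕ × ℕ × ℕ) × Cert => a.2.1.1 :=
    Primrec.fst.comp (Primrec.fst.comp Primrec.snd)
  have hy : Primrec fun a : (ℕ × ℕ × ℕ) × Cert => a.2.1.2 :=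
    Primrec.snd.comp (Primrec.fst.comp Primrec.snd)
  have hc : Primrec fun a : (ℕ × ℕ × ℕ) × Cert => a.2.2.1 :=
    Primrec.fst.comp (Primrec.snd.comp Primrec.snd)
  have hd : Primrec fun a : (ℕ × ℕ × ℕ) × Cert => a.2.2.2 :=
    Primrec.snd.comp (Primrec.snd.comp Primrec.snd)
  exact ((p_CW hN hx hM hy hc).and (p_mem (Primrec.pair hk (Primrec.const [])) hc)).and
    ((p_CL hN hx hM hy hd).and
      (p_mem (Primrec.pair (Primrec.succ.comp hN) (Primrec.const [])) hd))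

theorem Chk_sound {N x k : ℕ} {z : Cert} (h : Chk N x k z) :
    EF (gr N x) (gr z.1.1 z.1.2) k [] ∧ ¬ Nonempty (gr N x ≃g gr z.1.1 z.1.2) := by
  refine ⟨W1 h.1.1 k [] h.1.2, fun ⟨e⟩ => ?_⟩
  refine L1 h.2.1 (N + 1) [] h.2.2 ?_
  exact EF_iso (N + 1) e [] (by simp)

theorem Chk_complete {N x k M y : ℕ} (h1 : EF (gr N x) (gr M y) k [])
    (h2 : ¬ Nonempty (gr N x ≃g gr M y)) : ∃ z : Cert, Chk N x k z := by
  have h3 : ¬ EF (gr N x) (gr M y) (N + 1) [] := fun h => h2 (iso_of_EF _ _ h)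
  obtain ⟨c, hc, hm⟩ := W2 _ _ h1
  obtain ⟨d, hd, hn⟩ := L2 _ _ h3
  exact ⟨((M, y), c, d), ⟨hc, hm⟩, hd, hn⟩

/-! ### the search -/

theorem adjMat_gr (N x : ℕ) : adjMat (gr N x) =
    (List.range N).map fun i => (List.range N).map fun j => decide (adjN N x i j) := by
  classical
  unfold adjMat
  apply List.ext_getElem
  · simp
  intro i h1 h2
  simp only [List.getElem_ofFn, List.getElem_map, List.getElem_range]
  apply List.ext_getElem
  · simp
  intro j h3 h4
  simp only [List.getElem_ofFn, List.getElem_map, List.getElem_range]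
  exact decide_eq_decide.2 Iff.rfl

theorem p_adjMat {α : Type} [Primcodable α] {N x : α → ℕ} (hN : Primrec N) (hx : Primrec x) :
    Primrec fun a => adjMat (gr (N a) (x a)) := by
  simp only [adjMat_gr]
  refine Primrec.list_map (Primrec.list_range.comp hN) ?_
  refine Primrec.list_map (α := α × ℕ)
    (Primrec.list_range.comp (hN.comp Primrec.fst)) ?_
  exact (p_adj (hN.comp (Primrec.fst.comp Primrec.fst)) (hx.comp (Primrec.fst.comp Primrec.fst))
    (Primrec.snd.comp Primrec.fst) Primrec.snd).decide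

open Classical in
/-- one step of the search -/
noncomputable def step (b : (ℕ × ℕ × ℕ) × ℕ) : Option ℕ :=
  (Encodable.decode (α := Cert) b.2).bind fun z =>
    if Chk b.1.1 b.1.2.1 b.1.2.2 z then some z.1.1 else none

theorem p_step : Primrec step := by
  classical
  unfold step
  refine Primrec.option_bind (Primrec.decode.comp Primrec.snd) ?_
  refine Primrec.ite (c := fun p : ((ℕ × ℕ × ℕ) × ℕ) × Cert => Chk p.1.1.1 p.1.1.2.1 p.1.1.2.2 p.2)
    (p_Chk.comp (Primrec.pair (Primrec.fst.comp Primrec.fst) Primrec.snd)) ?_ (Primrec.const none)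
  exact Primrec.option_some.comp (Primrec.fst.comp (Primrec.fst.comp Primrec.snd))

/-- bounded search -/
def anyLt {α : Type} (q : α → ℕ → Bool) (b : ℕ) (a : α) : Bool :=
  Nat.rec (motive := fun _ => Bool) false (fun i r => r || q a i) b

theorem anyLt_iff {α : Type} (q : α → ℕ → Bool) (b : ℕ) (a : α) :
    anyLt q b a = true ↔ ∃ i < b, q a i = true := by
  induction b with
  | zero => simp [anyLt]
  | succ b ih =>
    have : anyLt q (b + 1) a = (anyLt q b a || q a b) := rfl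
    rw [this, Bool.or_eq_true, ih]
    constructor
    · rintro (⟨i, hi, h⟩ | h)
      · exact ⟨i, by omega, h⟩
      · exact ⟨b, by omega, h⟩
    · rintro ⟨i, hi, h⟩
      rcases Nat.lt_succ_iff_lt_or_eq.1 hi with h' | rfl
      · exact Or.inl ⟨i, h', h⟩
      · exact Or.inr h

theorem c_anyLt {α : Type} [Primcodable α] {q : α → ℕ → Bool} (hq : Computable₂ q) {b : α → ℕ}
    (hb : Computable b) : Computable fun a => anyLt q (b a) a := by
  have hh : Computable₂ fun (a : α) (z : ℕ × Bool) => (z.2 || q a z.1) :=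
    Primrec.or.to_comp.comp (Computable.snd.comp Computable.snd)
      (hq.comp Computable.fst (Computable.fst.comp Computable.snd))
  exact Computable.nat_rec hb (Computable.const false) hh

end C

open C in
/-- Package C. The hypothesis `hD` is package A. -/
theorem no_computable
    (hD : ∀ (n : ℕ) (G : SimpleGraph (Fin n)) (k : ℕ), D G ≤ k ↔
      ∀ (m : ℕ) (H : SimpleGraph (Fin m)), EF G H k [] → Nonempty (G ≃g H))
    (P : ℕ → Prop) (hP : ¬ ComputablePred P)
    (Q : ℕ → ℕ → Bool) (hQ : Computable₂ Q) (hQP : ∀ n M, Q n M = true → P n)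
    (g : ℕ → ℕ) (hg : Computable g)
    (key : ∀ n, P n → ∃ N, 0 < N ∧ N ≤ g n ∧ ∃ (G : SimpleGraph (Fin N)) (k : ℕ),
      (∃ (M : ℕ) (H : SimpleGraph (Fin M)), EF G H k [] ∧ ¬ Nonempty (G ≃g H)) ∧
      (∀ (M : ℕ) (H : SimpleGraph (Fin M)), EF G H k [] → ¬ Nonempty (G ≃g H) → Q n M = true)) :
    ¬ ∃ f : List (List Bool) → ℕ, Computable f ∧
      ∀ (n : ℕ), 0 < n → ∀ G : SimpleGraph (Fin n), f (adjMat G) = D G := by
  rintro ⟨f, hf, hfD⟩
  apply hP
  -- the number of rounds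
  let kf : ℕ × ℕ → ℕ := fun a => f (adjMat (gr (a.1 + 1) a.2)) - 1
  have hkf : Computable kf := Primrec.nat_sub.to_comp.comp
    (hf.comp (p_adjMat (Primrec.succ.comp Primrec.fst) Primrec.snd).to_comp) (Computable.const 1)
  have hkD : ∀ a, kf a = D (gr (a.1 + 1) a.2) - 1 := fun a => by
    change f _ - 1 = _
    rw [hfD _ (Nat.succ_pos _)]
  have hpos : ∀ a : ℕ × ℕ, 0 < D (gr (a.1 + 1) a.2) := by
    intro a
    by_contra h0
    have h1 := (hD _ (gr (a.1 + 1) a.2) 0).1 (by omega) 0 ⊥ (by intro p hp; simp at hp)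
    obtain ⟨e⟩ := h1
    exact (e 0).elim0
  let F : ℕ × ℕ → ℕ → Option ℕ := fun a n => step ((a.1 + 1, a.2, kf a), n)
  have hF : Computable₂ F := by
    have h1 : Computable fun a : (ℕ × ℕ) × ℕ => (a.1.1 + 1, a.1.2, kf a.1) :=
      Computable.pair (Computable.succ.comp (Computable.fst.comp Computable.fst))
        (Computable.pair (Computable.snd.comp Computable.fst) (hkf.comp Computable.fst))
    exact p_step.to_comp.comp (Computable.pair h1 Computable.snd)
  have hdom : ∀ a, (Nat.rfindOpt (F a)).Dom := by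
    intro a
    have h1 : ¬ D (gr (a.1 + 1) a.2) ≤ kf a := by rw [hkD]; have := hpos a; omega
    rw [hD] at h1
    push Not at h1
    obtain ⟨M, H, hE, hI⟩ := h1
    obtain ⟨y, -, rfl⟩ := exists_code H
    obtain ⟨z, hz⟩ := Chk_complete hE (by rwa [not_nonempty_iff])
    refine Nat.rfindOpt_dom.2 ⟨Encodable.encode z, z.1.1, ?_⟩
    change z.1.1 ∈ step ((a.1 + 1, a.2, kf a), Encodable.encode z)
    unfold step
    rw [Encodable.encodek, Option.bind_some, if_pos hz]
    rfl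
  let h : ℕ × ℕ → ℕ := fun a => (Nat.rfindOpt (F a)).get (hdom a)
  have hh : Computable h := (Partrec.rfindOpt hF).of_eq_tot fun a => Part.get_mem _
  have hspec : ∀ a, ∃ z : Cert, Chk (a.1 + 1) a.2 (kf a) z ∧ z.1.1 = h a := by
    intro a
    obtain ⟨n, hn⟩ := Nat.rfindOpt_spec (Part.get_mem (hdom a))
    change step ((a.1 + 1, a.2, kf a), n) = some (h a) at hn
    unfold step at hn
    rw [Option.bind_eq_some_iff] at hn
    obtain ⟨z, -, hz⟩ := hn
    by_cases hc : Chk (a.1 + 1) a.2 (kf a) z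
    · rw [if_pos hc] at hz
      exact ⟨z, hc, Option.some.inj hz⟩
    · rw [if_neg hc] at hz
      simp at hz
  -- the decision procedure
  let q : ℕ × ℕ → ℕ → Bool := fun a x => Q a.1 (h (a.2, x))
  have hq : Computable₂ q :=
    hQ.comp (Computable.fst.comp Computable.fst)
      (hh.comp (Computable.pair (Computable.snd.comp Computable.fst) Computable.snd))
  let r : ℕ → ℕ → Bool := fun n N => anyLt q (2 ^ ((N + 1) * (N + 1))) (n, N)
  have hr : Computable₂ r := by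
    have hb : Computable fun a : ℕ × ℕ => 2 ^ ((a.2 + 1) * (a.2 + 1)) :=
      (p_pow.comp (Primrec.const 2) (Primrec.nat_mul.comp (Primrec.succ.comp Primrec.snd)
        (Primrec.succ.comp Primrec.snd))).to_comp
    exact c_anyLt hq hb
  refine ComputablePred.computable_iff.2 ⟨fun n => anyLt r (g n) n, c_anyLt hr hg, ?_⟩
  funext n
  apply propext
  change P n ↔ anyLt r (g n) n = true
  rw [anyLt_iff]
  constructor
  · intro hn
    obtain ⟨N, hN, hNg, G, k, ⟨M, H, hE, hI⟩, hall⟩ := key n hn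
    obtain ⟨N', rfl⟩ : ∃ N', N = N' + 1 := ⟨N - 1, by omega⟩
    obtain ⟨x, hx, rfl⟩ := exists_code G
    refine ⟨N', by omega, ?_⟩
    change anyLt q _ (n, N') = true
    rw [anyLt_iff]
    refine ⟨x, hx, ?_⟩
    change Q n (h (N', x)) = true
    obtain ⟨z, hz, hzh⟩ := hspec (N', x)
    obtain ⟨hE', hI'⟩ := Chk_sound hz
    rw [← hzh]
    have hk : ¬ D (gr (N' + 1) x) ≤ k := fun hle => hI ((hD _ _ _).1 hle M H hE)
    have hk' : k ≤ kf (N', x) := by
      rw [hkD]
      change k ≤ D (gr (N' + 1) x) - 1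
      omega
    exact hall _ _ (EF_mono hk' [] hE') hI'
  · rintro ⟨N', -, hN'⟩
    change anyLt q _ (n, N') = true at hN'
    rw [anyLt_iff] at hN'
    obtain ⟨x, -, hx⟩ := hN'
    exact hQP _ _ hx

end Pool.Agent.H88R3.P
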