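import Mathlib
import Pool.Agent.H88R3.Asm2
import Pool.Agent.H88R3.PkgA
import Pool.Agent.H88R3.PkgB
import Pool.Agent.H88R3.PkgB3
import Pool.Agent.H88R3.PkgC

set_option autoImplicit false

namespace Pool.Agent.H88R3

open TM

/-- decoding of the symbols of the initial row -/
def dec : ℕ → Sg
  | 0 => .hash
  | 1 => .lb
  | 2 => .rb
  | k + 3 => .inp k

/-- coding of the symbols of the initial row -/
def enc : Sg → ℕ
  | .hash => 0
  | .lb => 1
  | .rb => 2
  | .inp k => k + 3

theorem dec_enc (s : Sg) : dec (enc s) = s := by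
  cases s <;> rfl

/-- the automaton of a machine with its input -/
def caM {Γ Λ : Type} [Inhabited Γ] [Inhabited Λ] (M : Turing.TM0.Machine Γ Λ) (l : List Γ) :
    CA (Fin (l.length + 3)) (Cell Γ Λ) where
  A a b := Al l.length (dec a.val) (dec b.val)
  ini a := ini l (dec a.val)
  f := rule M
  hal := .halt

theorem fin_cell (Γ Λ : Type) [Finite Γ] [Finite Λ] : Finite (Cell Γ Λ) := by
  let j : Cell Γ Λ → Bool ⊕ (Γ × Option Λ) := fun x => match x with
    | .hash => .inl false
    | .halt => .inl true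
    | .c a h => .inr (a, h)
  refine Finite.of_injective j ?_
  rintro (_ | _ | ⟨a, h⟩) (_ | _ | ⟨a', h'⟩) hh
  · rfl
  · exact absurd (Sum.inl.inj hh) (by simp)
  · exact absurd hh (by simp [j])
  · exact absurd (Sum.inl.inj hh) (by simp)
  · rfl
  · exact absurd hh (by simp [j])
  · exact absurd hh (by simp [j])
  · exact absurd hh (by simp [j])
  · have := Sum.inr.inj hh
    simp only [Prod.mk.injEq] at this
    rw [this.1, this.2]

theorem HW_mono {Γ Λ : Type} [Inhabited Γ] [Inhabited Λ] {M : Turing.TM0.Machine Γ Λ}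
    {l : List Γ} {t t' : ℕ} (h : t ≤ t') (ht : HW M l t) : HW M l t' := by
  induction t' with
  | zero =>
    have : t = 0 := by omega
    rw [this] at ht
    exact ht
  | succ k ih =>
    rcases Nat.lt_or_ge t (k + 1) with h1 | h1
    · have h2 := ih (by omega)
      unfold HW at h2 ⊢
      rw [Function.iterate_succ_apply', h2]
      rfl
    · have : t = k + 1 := by omega
      rw [this] at ht
      exact ht

theorem prim_gB : Primrec gB := by
  unfold gB
  have h2 : Primrec (fun v : ℕ => 2 * v) :=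
    Primrec.nat_mul.comp (Primrec.const 2) Primrec.id
  have h4 : Primrec (fun v : ℕ => 4 * v * v) :=
    Primrec.nat_mul.comp (Primrec.nat_mul.comp (Primrec.const 4) Primrec.id) Primrec.id
  exact Primrec.nat_mul.comp (Primrec.nat_add.comp h2 h4)
    (Primrec.nat_add.comp Primrec.id (Primrec.const 4))

theorem prim_tyB (R : ℕ) : Primrec (fun L => tyB L R) := by
  unfold tyB
  have h1 : Primrec (fun L : ℕ => (L + 1) ^ R) :=
    P.C.p_pow.comp Primrec.succ (Primrec.const R)
  have h2 : Primrec (fun L : ℕ => 2 ^ ((L + 1) ^ R)) :=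
    P.C.p_pow.comp (Primrec.const 2) h1
  exact Primrec.nat_mul.comp Primrec.id (P.C.p_pow.comp h2 h1)

/-- The logical depth is not computable. -/
theorem depth_not_computable : ¬ ∃ f : List (List Bool) → ℕ, Computable f ∧
    ∀ (n : ℕ), 0 < n → ∀ G : SimpleGraph (Fin n), f (adjMat G) = D G := by
  obtain ⟨Γ, Λ, iΓ, iΛ, fΓ, fΛ, M, inp, hpos, hlen, hnc, Q, hQ, hQ'⟩ := TM.source
  have hfin : Finite (Cell Γ Λ) := fin_cell Γ Λ
  obtain ⟨n0, h0⟩ : ∃ n0, n0 = 2 * 10 := ⟨_, rfl⟩
  obtain ⟨R, hR⟩ : ∃ R, ∀ n, n < n0 → 3 ^ n ≤ R :=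
    ⟨3 ^ n0, fun n hn => Nat.pow_le_pow_right (by norm_num) (by omega)⟩
  obtain ⟨K, hK⟩ : ∃ K, n0 * (2 + 5 + 1) ^ (2 * 3 ^ n0) ≤ K := ⟨_, le_rfl⟩
  refine P.no_computable (fun n G k => P.D_le_iff G k) (fun n => ∃ t, HW M (inp n) t) hnc Q hQ
    (fun n t h => ⟨t, (hQ' n t).1 h⟩)
    (fun n => gB (tyB (Nat.card (ZMod 3 × LT × (Fin ((inp n).length + 3) × Cell Γ Λ))) R *
      (K + 100) * (3 ^ (R + 1) * 6 ^ (R + 1)))) ?_ ?_
  · have h1 : Computable (fun n =>
        Nat.card (ZMod 3 × LT × (Fin ((inp n).length + 3) × Cell Γ Λ))) := by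
      have e : (fun n => Nat.card (ZMod 3 × LT × (Fin ((inp n).length + 3) × Cell Γ Λ))) =
          fun n => Nat.card (ZMod 3) * (Nat.card LT * (((inp n).length + 3) *
            Nat.card (Cell Γ Λ))) := by
        funext n
        rw [Nat.card_prod (ZMod 3), Nat.card_prod LT, Nat.card_prod (Fin _) (Cell Γ Λ), Nat.card_fin]
      rw [e]
      have h2 : Primrec (fun k : ℕ => Nat.card (ZMod 3) * (Nat.card LT * ((k + 3) *
            Nat.card (Cell Γ Λ)))) :=
        Primrec.nat_mul.comp (Primrec.const _) (Primrec.nat_mul.comp (Primrec.const _)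
          (Primrec.nat_mul.comp (Primrec.nat_add.comp Primrec.id (Primrec.const 3))
            (Primrec.const _)))
      exact h2.to_comp.comp hlen
    have h3 : Primrec (fun L => gB (tyB L R * (K + 100) * (3 ^ (R + 1) * 6 ^ (R + 1)))) :=
      prim_gB.comp (Primrec.nat_mul.comp (Primrec.nat_mul.comp (prim_tyB R) (Primrec.const _))
        (Primrec.const _))
    exact h3.to_comp.comp h1
  · rintro n ⟨t0, ht0⟩
    obtain ⟨m0, hm0⟩ := complete M (inp n) (hpos n) t0 ht0
    obtain ⟨q, hq⟩ : ∃ q, q = 3 ^ R := ⟨_, rfl⟩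
    obtain ⟨m, hm⟩ : ∃ m, m = 3 * (m0 + q + 1) := ⟨_, rfl⟩
    have hm1 : m0 ≤ m := by clear hK hR; omega
    have hm2 : 0 < m := by clear hK hR; omega
    have hm3 : 3 ^ R < m := by rw [← hq]; clear hK hR hq; omega
    obtain ⟨σ, T, a1, a2, a3, a4, N0, a5⟩ := hm0 m hm1 hm2
    have henc : ∀ i, enc (σ i) < (inp n).length + 3 := by
      intro i
      rcases hσ : σ i with _ | _ | _ | k
      · simp only [enc]; omega
      · simp only [enc]; omega
      · simp only [enc]; omega
      · have := a4 i k hσ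
        simp only [enc]; omega
    have hT : Tab (caM M (inp n)) (fun i => (⟨enc (σ i), henc i⟩ : Fin ((inp n).length + 3))) T
        (max N0 (6 ^ R)) := by
      refine ⟨?_, ?_, a3, ?_⟩
      · intro i
        change Al (inp n).length (dec (enc (σ i))) (dec (enc (σ (i + 1))))
        rw [dec_enc, dec_enc]
        exact a1 i
      · intro i
        change T 0 i = ini (inp n) (dec (enc (σ i)))
        rw [dec_enc]
        exact a2 i
      · intro i
        exact a5 _ (le_max_left _ _) i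
    obtain ⟨NG, b1, b2, G, k, b3, b4⟩ := key_tab (caM M (inp n)) (m := m)
      (N := max N0 (6 ^ R)) (R := R) (K := K) (n0 := n0) ⟨_, hm⟩ hm2 hm3
      (le_max_right _ _) h0 hR hK _ T hT
    refine ⟨NG, b1, b2, G, k, b3, ?_⟩
    intro M' H c1 c2
    obtain ⟨N', hN', σ', T', d1, d2, d3, d4⟩ := b4 M' H c1 c2
    rw [hQ']
    refine HW_mono hN' ?_
    exact sound M (inp n) (hpos n) (fun z => dec (σ' z).val) d1 T' d2 N' d3 d4

end Pool.Agent.H88R3
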