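import Mathlib
import Pool.Agent.H88R3.EF

set_option autoImplicit false

namespace Pool.Agent.H88R3

/-- entry of a list of rows -/
def ent (A : List (List Bool)) (i j : ℕ) : Bool := (A.getD i []).getD j false

/-- symmetrised entry -/
def sent (A : List (List Bool)) (i j : ℕ) : Bool := !(decide (i = j)) && (ent A i j && ent A j i)

/-- number of rows, at least one -/
def rowN (A : List (List Bool)) : ℕ := (A.length - 1) + 1

/-- normal form of a list of rows -/
def canF (A : List (List Bool)) : List (List Bool) :=
  (List.range (rowN A)).map fun i => (List.range (rowN A)).map fun j => sent A i j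

theorem prim_ent : Primrec fun z : (List (List Bool)) × ℕ × ℕ => ent z.1 z.2.1 z.2.2 := by
  unfold ent
  exact (Primrec.list_getD false).comp ((Primrec.list_getD []).comp Primrec.fst
    (Primrec.fst.comp Primrec.snd)) (Primrec.snd.comp Primrec.snd)

theorem prim_sent : Primrec fun z : (List (List Bool)) × ℕ × ℕ => sent z.1 z.2.1 z.2.2 := by
  have h1 : Primrec fun z : (List (List Bool)) × ℕ × ℕ => ent z.1 z.2.2 z.2.1 :=
    prim_ent.comp (Primrec.pair Primrec.fst (Primrec.pair (Primrec.snd.comp Primrec.snd)
      (Primrec.fst.comp Primrec.snd)))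
  have h2 : Primrec fun z : (List (List Bool)) × ℕ × ℕ => decide (z.2.1 = z.2.2) :=
    (PrimrecRel.decide Primrec.eq).comp (Primrec.fst.comp Primrec.snd) (Primrec.snd.comp Primrec.snd)
  exact Primrec.and.comp (Primrec.not.comp h2) (Primrec.and.comp prim_ent h1)

theorem prim_canF : Primrec canF := by
  have hN : Primrec rowN :=
    Primrec.succ.comp (Primrec.nat_sub.comp Primrec.list_length (Primrec.const 1))
  unfold canF
  refine Primrec.list_map (Primrec.list_range.comp hN) ?_
  refine Primrec.list_map (f := fun z : List (List Bool) × ℕ => List.range (rowN z.1)) (g := fun z j => sent z.1 z.2 j) (Primrec.list_range.comp (hN.comp Primrec.fst)) ?_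
  exact prim_sent.comp (Primrec.pair (Primrec.fst.comp Primrec.fst)
    (Primrec.pair (Primrec.snd.comp Primrec.fst) Primrec.snd))

/-- the graph read off a list of rows -/
def canG (A : List (List Bool)) : SimpleGraph (Fin (rowN A)) where
  Adj i j := sent A i j = true
  symm := ⟨fun i j h => by
    simp only [sent, Bool.and_eq_true, Bool.not_eq_true', decide_eq_false_iff_not] at h ⊢
    exact ⟨fun e => h.1 e.symm, h.2.2, h.2.1⟩⟩
  loopless := ⟨fun i h => by
    simp [sent] at h⟩

theorem canF_eq (A : List (List Bool)) : canF A = adjMat (canG A) := by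
  classical
  unfold canF adjMat
  apply List.ext_getElem
  · simp
  · intro i h1 h2
    simp only [List.getElem_map, List.getElem_range, List.getElem_ofFn]
    apply List.ext_getElem
    · simp
    · intro j h3 h4
      simp only [List.getElem_map, List.getElem_range, List.getElem_ofFn]
      exact (by simp : sent A i j = decide (sent A i j = true)).trans
        (decide_eq_decide.2 Iff.rfl)

theorem ent_adjMat {n : ℕ} (G : SimpleGraph (Fin n)) (i j : Fin n) :
    ent (adjMat G) i j = true ↔ G.Adj i j := by
  classical
  unfold ent adjMat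
  simp [List.getD_eq_getElem?_getD]

theorem canF_adjMat {n : ℕ} (hn : 0 < n) (G : SimpleGraph (Fin n)) : canF (adjMat G) = adjMat G := by
  have hr : rowN (adjMat G) = n := by
    unfold rowN adjMat
    simp
    omega
  unfold canF
  rw [hr]
  apply List.ext_getElem
  · simp [adjMat]
  · intro i h1 h2
    simp only [List.getElem_map, List.getElem_range]
    have hi : i < n := by simpa using h1
    apply List.ext_getElem
    · simp [adjMat]
    · intro j h3 h4
      have hj : j < n := by simpa using h3
      simp only [List.getElem_map, List.getElem_range]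
      have e1 := ent_adjMat G ⟨i, hi⟩ ⟨j, hj⟩
      have e2 := ent_adjMat G ⟨j, hj⟩ ⟨i, hi⟩
      have e3 : (adjMat G)[i][j] = true ↔ G.Adj ⟨i, hi⟩ ⟨j, hj⟩ := by
        simp [adjMat]
      rw [Bool.eq_iff_iff, e3]
      simp only [sent, Bool.and_eq_true, Bool.not_eq_true', decide_eq_false_iff_not]
      constructor
      · rintro ⟨_, h5, _⟩
        exact e1.1 h5
      · intro h5
        refine ⟨?_, e1.2 h5, e2.2 h5.symm⟩
        intro e
        exact h5.ne (Fin.ext e)

theorem canon : ∃ c : List (List Bool) → List (List Bool), Primrec c ∧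
    (∀ (n : ℕ), 0 < n → ∀ G : SimpleGraph (Fin n), c (adjMat G) = adjMat G) ∧
    ∀ A, ∃ n, 0 < n ∧ ∃ G : SimpleGraph (Fin n), c A = adjMat G :=
  ⟨canF, prim_canF, fun _ hn G => canF_adjMat hn G,
    fun A => ⟨rowN A, Nat.succ_pos _, canG A, canF_eq A⟩⟩

end Pool.Agent.H88R3
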